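import Pool.Agent.Lib.HS.Bd.V.Spec
import Pool.Agent.Lib.MP_a54f13_nt.Hp.Unf
import Pool.Agent.Lib.MP_a54f13_nt.Hp.HI

/-!
# HS/Bd/V, module `AIF`: the amplifier inequality without lower terms for invariant sets
-/

set_option autoImplicit false

namespace Pool.Agent.A54.HSV

open MeasureTheory Filter Topology Set
open scoped ContDiff ComplexConjugate UpperHalfPlane MatrixGroups ENNReal
open Pool.Agent.A54.Dyn (G fl base ze io mk4 dom)
open Pool.Agent.A54.Av (Mat NonSc)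
open Pool.Agent.A54.HS
open Pool.Agent.A54.Hp Pool.Agent.A54.Hp.Hk Pool.Agent.A54.Hp.A2M

noncomputable section

namespace AIFM

/-- the block operator on constants -/
def A0 (Q : Finset ℕ) : ℝ≥0∞ := ∑ p ∈ Q, (p : ℝ≥0∞)⁻¹ * ((Np p).card : ℝ≥0∞)

lemma A0_top {Q : Finset ℕ} (hQ : ∀ p ∈ Q, p.Prime) : A0 Q ≠ ⊤ := by
  unfold A0
  refine ENNReal.sum_ne_top.2 fun p hp => ENNReal.mul_ne_top ?_ (ENNReal.natCast_ne_top _)
  rw [ENNReal.inv_ne_top]
  exact_mod_cast (hQ p hp).ne_zero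

lemma Ao_const (Q : Finset ℕ) (c : ℝ≥0∞) (y : G) : Ao Q (fun _ => c) y = A0 Q * c := by
  unfold Ao T2 A0
  rw [Finset.sum_mul]
  refine Finset.sum_congr rfl fun p _ => ?_
  rw [Finset.sum_const, nsmul_eq_mul, mul_assoc]

lemma iter_le (Q : Finset ℕ) {h : G → ℝ≥0∞} {B : ℝ≥0∞} (hh : ∀ y, h y ≤ B) :
    ∀ (i : ℕ) (y : G), (Ao Q)^[i] h y ≤ A0 Q ^ i * B
  | 0, y => by
    rw [pow_zero, one_mul]
    exact hh y
  | i + 1, y => by
    rw [Function.iterate_succ_apply']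
    refine (Ao_mono (iter_le Q hh i) Q y).trans (le_of_eq ?_)
    rw [Ao_const, pow_succ]
    ring

/-- the moments of a bounded function of finite integral are finite -/
lemma aa_top {Q : Finset ℕ} (hQ : ∀ p ∈ Q, p.Prime) {F : G → ℝ≥0∞} (hF : Measurable F) {B : ℝ≥0∞}
    (hB : B ≠ ⊤) (hh : ∀ y, hs F 1 y ≤ B) (hint : ∫⁻ x, F x ∂nu ≠ ⊤) (i : ℕ) : aa Q F i ≠ ⊤ := by
  have h1 : aa Q F i ≤ (∫⁻ x, F x ∂nu) * (A0 Q ^ i * B) := by
    rw [← lintegral_mul_const _ hF]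
    exact lintegral_mono fun x => mul_le_mul_right (iter_le Q hh i x) (F x)
  exact ne_top_of_le_ne_top (ENNReal.mul_ne_top hint (ENNReal.mul_ne_top
    (ENNReal.pow_ne_top (A0_top hQ)) hB)) h1

/-- the volume of an invariant set modulo `SL(2, ℤ)` which comes from a box -/
lemma vol_top (hNu : StmtNuL) (hUnf : StmtUnf) (hNm : StmtNm) {W : Set G} (hW : MeasurableSet W)
    {R' : ℝ} (hR : ∀ y ∈ W, ∃ γ : SL(2, ℤ), io γ * y ∈ Om R') : nu (FF ∩ W) ≠ ⊤ := by
  have hfc : IsFiniteMeasureOnCompacts nu := hNu.2.1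
  have hOc : IsCompact (Om R') := HIM.isCompact_Om R'
  have hOm : MeasurableSet (Om R') := hOc.isClosed.measurableSet
  set F : G → ℝ≥0∞ := (Om R').indicator (fun _ => 1) with hF
  have hFm : Measurable F := measurable_const.indicator hOm
  have h1 := unf hUnf hNm hFm (measurable_const : Measurable fun _ : G => (1 : ℝ≥0∞)) fun _ _ => rfl
  simp only [mul_one] at h1
  have h2 : ∫⁻ x, F x ∂nu = nu (Om R') := by
    rw [hF, lintegral_indicator_const hOm, one_mul]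
  have h3 : nu (FF ∩ W) ≤ ∫⁻ y in FF, hs F 1 y ∂nu := by
    have h4 : nu (FF ∩ W) = ∫⁻ y in FF, W.indicator (fun _ => (1 : ℝ≥0∞)) y ∂nu := by
      rw [lintegral_indicator_const hW, one_mul, Measure.restrict_apply hW, Set.inter_comm]
    rw [h4]
    refine lintegral_mono fun y => ?_
    by_cases hy : y ∈ W
    · rw [Set.indicator_of_mem hy]
      obtain ⟨γ, hγ⟩ := hR y hy
      have h5 : F (nm (γ : Mat) * y) ≤ hs F 1 y :=
        ENNReal.le_tsum (f := fun m : Mn 1 => F (nm m.1 * y)) ⟨(γ : Mat), by rw [γ.det_coe]; rfl⟩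
      refine le_trans ?_ h5
      rw [hNm.2.1, hF, Set.indicator_of_mem hγ]
    · rw [Set.indicator_of_notMem hy]
      exact zero_le
  rw [h1, h2] at h3
  exact ne_top_of_le_ne_top (ENNReal.mul_ne_top (by norm_num) hOc.measure_lt_top.ne) h3

end AIFM

open AIFM in
theorem tAIF (hNu : StmtNuL) (hUnf : StmtUnf) (hNm : StmtNm) (hFFu : V_FFu) : V_AIF := by
  classical
  intro k hk
  set K0 : ℝ := max 1 (Ck (2 * k)).toReal with hK0d
  have hK01 : 1 ≤ K0 := le_max_left _ _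
  have hkR : (1 : ℝ) ≤ k := by exact_mod_cast hk
  set B : ℝ := 4 * k * K0 with hBd
  have hB1 : 1 ≤ B := by
    rw [hBd]
    nlinarith
  have hB0 : 0 < B := by linarith
  set C1 : ℝ := (B ^ 2) ^ k * 2 * (4 / 3) ^ (2 * k) with hC1
  have hC10 : 0 ≤ C1 := by positivity
  set C2 : ℝ := 2 * K0 * (4 / 3) ^ (2 * k) with hC2
  have hC20 : 0 ≤ C2 := by positivity
  refine ⟨1 + C1 + C2, by linarith, ?_⟩
  intro l Φ hE W hW hWi R' hR' M hM Q hQM hQl hbig
  have hM0 : 0 < M := by linarith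
  have hQ : ∀ p ∈ Q, p.Prime ∧ M < (p : ℝ) ∧ (p : ℝ) ≤ 2 * M := by
    intro p hp
    have h1 := hQM hp
    unfold Pm at h1
    rw [Finset.mem_filter, Finset.mem_Ioc] at h1
    refine ⟨h1.2, (Nat.floor_lt hM0.le).1 h1.1.1, ?_⟩
    exact (Nat.le_floor_iff (by linarith)).1 h1.1.2
  have hQp : ∀ p ∈ Q, p.Prime := fun p hp => (hQ p hp).1
  set U : Set G := FF ∩ W with hUd
  have hU : MeasurableSet U := UnfM.measurableSet_FF.inter hW
  -- `ms Φ U` is finite
  have hmsT : ms Φ U ≠ ⊤ := by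
    have h1 : ms Φ U ≤ ms Φ FF := lintegral_mono_set Set.inter_subset_left
    exact ne_top_of_le_ne_top (by norm_num : (2 : ℝ≥0∞) ≠ ⊤) (h1.trans hE.norm)
  set m : ℝ := (ms Φ U).toReal with hm
  have hms : ms Φ U = ENNReal.ofReal m := (ENNReal.ofReal_toReal hmsT).symm
  have hm0 : 0 ≤ m := ENNReal.toReal_nonneg
  obtain ⟨q, hq⟩ : ∃ q : ℝ, q = (Q.card : ℝ) := ⟨_, rfl⟩
  have hqE : (Q.card : ℝ≥0∞) = ENNReal.ofReal q := by rw [hq]; exact (ENNReal.ofReal_natCast _).symm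
  have hqN : ((Q.card : ℝ≥0∞)).toReal = q := by rw [hq]; exact ENNReal.toReal_natCast _
  have hq0 : 0 ≤ q := by rw [hq]; exact Nat.cast_nonneg _
  have hqc : Q.card = 0 → q = 0 := fun h => by rw [hq, h]; simp
  have hqc1 : 1 ≤ Q.card → 1 ≤ q := fun h => by rw [hq]; exact_mod_cast h
  have hePq : ENNReal.ofReal (3 / 4 * q) ≤ eP l Q := by
    rw [hq]
    exact eP_ge hQp hQl
  clear hq
  have hbigR : 1 + C1 + C2 ≤ q ^ k * m := by
    rw [hqE, hms, ← ENNReal.ofReal_pow hq0, ← ENNReal.ofReal_mul (by positivity)] at hbig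
    exact (ENNReal.ofReal_le_ofReal_iff (by positivity)).1 hbig
  have hcard : 1 ≤ Q.card := by
    rcases Nat.eq_zero_or_pos Q.card with h | h
    · exfalso
      rw [hqc h, zero_pow (by omega), zero_mul] at hbigR
      linarith
    · exact h
  have hq1 : 1 ≤ q := hqc1 hcard
  -- the moments
  set F := AIkM.ff Φ U with hFd
  have hF : Measurable F := AIkM.ff_meas hE.cont hU
  -- `Φ` is bounded on `W`
  obtain ⟨B1, hB1'⟩ := (HIM.isCompact_Om R').exists_bound_of_continuousOn hE.cont.continuousOn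
  have hΦW : ∀ y ∈ W, ‖Φ y‖ₑ ≤ ENNReal.ofReal B1 := by
    intro y hy
    obtain ⟨γ, hγ⟩ := hR' y hy
    have h1 := hB1' _ hγ
    rw [hE.inv] at h1
    rw [← ofReal_norm]
    exact ENNReal.ofReal_le_ofReal h1
  have hs1 : ∀ y, hs F 1 y ≤ 2 * W.indicator (fun x => ‖Φ x‖ₑ) y := hFFu.2 Φ W hE.inv hWi
  have hs2 : ∀ y, hs F 1 y ≤ 2 * ENNReal.ofReal B1 := by
    intro y
    refine (hs1 y).trans (mul_le_mul_right ?_ 2)
    by_cases hy : y ∈ W
    · rw [Set.indicator_of_mem hy]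
      exact hΦW y hy
    · rw [Set.indicator_of_notMem hy]
      exact zero_le
  have hintF : ∫⁻ x, F x ∂nu ≠ ⊤ := by
    have h1 : ∫⁻ x, F x ∂nu ≤ ∫⁻ x, U.indicator (fun _ => ENNReal.ofReal B1) x ∂nu := by
      refine lintegral_mono fun x => ?_
      rw [hFd]
      unfold AIkM.ff
      by_cases hx : x ∈ U
      · rw [Set.indicator_of_mem hx, Set.indicator_of_mem hx]
        exact hΦW x hx.2
      · rw [Set.indicator_of_notMem hx, Set.indicator_of_notMem hx]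
    rw [lintegral_indicator_const hU] at h1
    exact ne_top_of_le_ne_top (ENNReal.mul_ne_top ENNReal.ofReal_ne_top
      (vol_top hNu hUnf hNm hW hR')) h1
  have haT : ∀ i, aa Q F i ≠ ⊤ := fun i =>
    aa_top hQp hF (ENNReal.mul_ne_top (by norm_num) ENNReal.ofReal_ne_top) hs2 hintF i
  have hea : ∀ j, ∫⁻ x, F x * El Q j F x ∂nu ≤ aa Q F j := fun j =>
    lintegral_mono fun x => mul_le_mul_right (le_pow hNm hQp F j x) (F x)
  have heT : ∀ j, ∫⁻ x, F x * El Q j F x ∂nu ≠ ⊤ := fun j => ne_top_of_le_ne_top (haT j) (hea j)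
  have hup : ∀ i, aa Q F i ≤ Ck i * ∑ j ∈ Finset.range (i + 1), (Q.card : ℝ≥0∞) ^ ((i - j) / 2) *
      ∫⁻ x, F x * El Q j F x ∂nu := by
    intro i
    have m1 : ∀ j, Measurable fun x => F x * El Q j F x := fun j => hF.mul (meas_El Q j hF)
    have e1 : Ck i * ∑ j ∈ Finset.range (i + 1), (Q.card : ℝ≥0∞) ^ ((i - j) / 2) *
        ∫⁻ x, F x * El Q j F x ∂nu = ∫⁻ x, Ck i * ∑ j ∈ Finset.range (i + 1),
          (Q.card : ℝ≥0∞) ^ ((i - j) / 2) * (F x * El Q j F x) ∂nu := by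
      rw [lintegral_const_mul _ (Finset.measurable_sum _ fun j _ => (m1 j).const_mul _),
        lintegral_finsetSum _ fun j _ => (m1 j).const_mul _]
      congr 1
      exact Finset.sum_congr rfl fun j _ => (lintegral_const_mul _ (m1 j)).symm
    rw [e1]
    unfold aa
    refine lintegral_mono fun x => ?_
    refine (mul_le_mul_right (pow_le hNm hQp hcard F i x) (F x)).trans (le_of_eq ?_)
    rw [mul_left_comm, Finset.mul_sum]
    congr 1
    exact Finset.sum_congr rfl fun j _ => by ring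
  set a : ℕ → ℝ := fun i => (aa Q F i).toReal with had
  set e : ℕ → ℝ := fun j => (∫⁻ x, F x * El Q j F x ∂nu).toReal with hed
  have hcs : ∀ i j, a (i + j) ^ 2 ≤ a (2 * i) * a (2 * j) := by
    intro i j
    have h1 := ENNReal.toReal_mono (ENNReal.mul_ne_top (haT _) (haT _)) (aa_cs hNu hUnf hNm hQp hF i j)
    rw [ENNReal.toReal_pow, ENNReal.toReal_mul] at h1
    exact h1
  -- the top moment
  have hge : (3 / 4 * q) ^ (2 * k) * m ^ 2 ≤ a (2 * k) := by
    have h1 := aa_ge hNu hUnf hNm hE hU hQp k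
    have h2 : ENNReal.ofReal ((3 / 4 * q) ^ (2 * k) * m ^ 2) ≤ aa Q F (2 * k) := by
      refine le_trans ?_ h1
      rw [ENNReal.ofReal_mul (by positivity), ENNReal.ofReal_pow (by positivity),
        ENNReal.ofReal_pow hm0, ← hms]
      exact mul_le_mul_left (pow_le_pow_left' hePq _) _
    exact (ENNReal.ofReal_le_iff_le_toReal (haT _)).1 h2
  -- the bottom moment
  have h00 : a 0 ≤ 2 * m := by
    have h1 : aa Q F 0 ≤ 2 * ms Φ U := by
      have h3 : aa Q F 0 = ∫⁻ x, F x * hs F 1 x ∂nu := rfl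
      have h4 : Measurable fun x => F x * ‖Φ x‖ₑ := hF.mul hE.cont.enorm.measurable
      have h5 : 2 * ms Φ U = ∫⁻ x, 2 * (F x * ‖Φ x‖ₑ) ∂nu := by
        rw [lintegral_const_mul _ h4, ← AIkM.ms_eq Φ hU]
      rw [h3, h5]
      refine lintegral_mono fun x => ?_
      refine (mul_le_mul_right (hs1 x) (F x)).trans ?_
      rw [mul_left_comm]
      refine mul_le_mul_right (mul_le_mul_right ?_ _) _
      exact Set.indicator_le_self _ _ x
    rw [hms, show (2 : ℝ≥0∞) = ENNReal.ofReal 2 by norm_num, ← ENNReal.ofReal_mul (by norm_num)] at h1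
    exact ENNReal.toReal_le_of_le_ofReal (by positivity) h1
  have h0 : (B ^ 2 * q) ^ k * a 0 ≤ a (2 * k) := by
    refine le_trans ?_ hge
    have h3 : (B ^ 2 * q) ^ k * a 0 ≤ (B ^ 2 * q) ^ k * (2 * m) :=
      mul_le_mul_of_nonneg_left h00 (by positivity)
    refine h3.trans ?_
    have h4 : C1 ≤ q ^ k * m := by linarith
    have e1 : (3 / 4 : ℝ) ^ (2 * k) * (4 / 3) ^ (2 * k) = 1 := by
      rw [← mul_pow]
      norm_num
    have h5 : (3 / 4 : ℝ) ^ (2 * k) * q ^ k * m * C1 ≤ (3 / 4 : ℝ) ^ (2 * k) * q ^ k * m * (q ^ k * m) :=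
      mul_le_mul_of_nonneg_left h4 (by positivity)
    calc (B ^ 2 * q) ^ k * (2 * m) = ((3 / 4 : ℝ) ^ (2 * k) * (4 / 3) ^ (2 * k)) *
          ((B ^ 2) ^ k * q ^ k * (2 * m)) := by rw [e1, mul_pow, one_mul]
      _ = (3 / 4 : ℝ) ^ (2 * k) * q ^ k * m * C1 := by rw [hC1]; ring
      _ ≤ _ := h5
      _ = _ := by
        have e2 : q ^ (2 * k) = q ^ k * q ^ k := by rw [two_mul, pow_add]
        rw [mul_pow, e2]
        ring
  -- the upper bound
  have hupR : a (2 * k) ≤ K0 * ∑ j ∈ Finset.range (2 * k + 1), q ^ ((2 * k - j) / 2) * e j := by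
    have h1 := ENNReal.toReal_mono (ENNReal.mul_ne_top (Ck_top (2 * k)) (ENNReal.sum_ne_top.2 fun j _ =>
      ENNReal.mul_ne_top (ENNReal.pow_ne_top (ENNReal.natCast_ne_top _)) (heT j))) (hup (2 * k))
    rw [ENNReal.toReal_mul, ENNReal.toReal_sum fun j _ =>
      ENNReal.mul_ne_top (ENNReal.pow_ne_top (ENNReal.natCast_ne_top _)) (heT j)] at h1
    have h2 : ∀ j ∈ Finset.range (2 * k + 1), ((Q.card : ℝ≥0∞) ^ ((2 * k - j) / 2) *
        ∫⁻ x, F x * El Q j F x ∂nu).toReal = q ^ ((2 * k - j) / 2) * e j := by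
      intro j _
      rw [ENNReal.toReal_mul, ENNReal.toReal_pow, hqN]
    rw [Finset.sum_congr rfl h2] at h1
    refine h1.trans (mul_le_mul_of_nonneg_right (le_max_right _ _) ?_)
    exact Finset.sum_nonneg fun j _ => mul_nonneg (by positivity) ENNReal.toReal_nonneg
  have hfin := absorb k hk hK01 hBd hq1 a e (fun _ => ENNReal.toReal_nonneg)
    (fun _ => ENNReal.toReal_nonneg) (fun j => ENNReal.toReal_mono (haT j) (hea j)) hcs h0 hupR
  -- conclusion
  have he0 : 0 ≤ e (2 * k) := ENNReal.toReal_nonneg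
  have h9 : q ^ (2 * k) * m ^ 2 ≤ (1 + C1 + C2) * e (2 * k) := by
    have e1 : (3 / 4 : ℝ) ^ (2 * k) * (4 / 3) ^ (2 * k) = 1 := by
      rw [← mul_pow]
      norm_num
    have h1 : (3 / 4 * q) ^ (2 * k) * m ^ 2 ≤ 2 * K0 * e (2 * k) := hge.trans hfin
    have h2 := mul_le_mul_of_nonneg_left h1 (by positivity : (0 : ℝ) ≤ (4 / 3) ^ (2 * k))
    have h3 : (4 / 3 : ℝ) ^ (2 * k) * ((3 / 4 * q) ^ (2 * k) * m ^ 2) = q ^ (2 * k) * m ^ 2 := by
      calc (4 / 3 : ℝ) ^ (2 * k) * ((3 / 4 * q) ^ (2 * k) * m ^ 2)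
          = ((3 / 4 : ℝ) ^ (2 * k) * (4 / 3) ^ (2 * k)) * (q ^ (2 * k) * m ^ 2) := by
            rw [mul_pow]
            ring
        _ = _ := by rw [e1, one_mul]
    rw [h3] at h2
    refine h2.trans ?_
    calc (4 / 3 : ℝ) ^ (2 * k) * (2 * K0 * e (2 * k)) = C2 * e (2 * k) := by
          rw [hC2]
          ring
      _ ≤ _ := mul_le_mul_of_nonneg_right (by linarith) he0
  rw [hqE, hms, ← ENNReal.ofReal_pow hq0, ← ENNReal.ofReal_pow hm0, ← ENNReal.ofReal_mul (by positivity),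
    ← ENNReal.ofReal_toReal (heT (2 * k)), ← ENNReal.ofReal_mul (by positivity)]
  exact ENNReal.ofReal_le_ofReal h9

end

end Pool.Agent.A54.HSV
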