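import Pool.Agent.Lib.HS.Bd.V.Spec

/-!
# HS/Bd/V, module Bil: the bilinear bound
-/

set_option autoImplicit false

namespace Pool.Agent.A54.HSV

open MeasureTheory Filter Topology Set
open scoped ContDiff ComplexConjugate UpperHalfPlane MatrixGroups ENNReal
open Pool.Agent.A54.Dyn (G fl base ze io mk4 dom)
open Pool.Agent.A54.Av (Mat NonSc)
open Pool.Agent.A54.HS
open Pool.Agent.A54.Hp Pool.Agent.A54.Hp.Hk Pool.Agent.A54.Hp.A2M

noncomputable section

namespace BilM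

lemma measFF : MeasurableSet FF := Dyn.measurable_base ModularGroup.isOpen_fdo.measurableSet

/-- the integral over the cells -/
lemma cells (Φ : G → ℂ) (R w : ℝ) (V : Finset (Fin 3 → ℤ)) (g : G → ℝ≥0∞) :
    ∫⁻ x, AIkM.ff Φ (celU R w V) x * g x ∂nu = ∑ z ∈ V, ∫⁻ x in cel R w z, ‖Φ x‖ₑ * g x ∂nu := by
  have e : celU R w V = ⋃ z ∈ V, cel R w z := by
    ext g
    simp only [mem_iUnion, mem_cel, exists_prop, celU, mem_ofPred_eq]
    exact ⟨fun ⟨h1, h2⟩ => ⟨_, h2, h1, rfl⟩, fun ⟨z, h1, h2, h3⟩ => ⟨h2, h3 ▸ h1⟩⟩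
  have h1 : ∫⁻ x, AIkM.ff Φ (celU R w V) x * g x ∂nu = ∫⁻ x in celU R w V, ‖Φ x‖ₑ * g x ∂nu := by
    rw [← lintegral_indicator (meas_celU R w V)]
    refine lintegral_congr fun x => ?_
    unfold AIkM.ff
    by_cases hx : x ∈ celU R w V
    · rw [Set.indicator_of_mem hx, Set.indicator_of_mem hx]
    · rw [Set.indicator_of_notMem hx, Set.indicator_of_notMem hx, zero_mul]
  rw [h1, e]
  exact lintegral_biUnion_finset (fun z _ z' _ h => cel_disj R w h) (fun z _ => meas_cel R w z) _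

end BilM

open BilM in
theorem tBil (hHer : V_Her) (hInv : V_Inv) (hFFu : V_FFu) : V_Bil := by
  intro l Φ hE R w V W hW hWi m hm
  have mF : Measurable (AIkM.ff Φ (celU R w V)) := AIkM.ff_meas hE.cont (meas_celU R w V)
  have mU : Measurable (AIkM.ff Φ (FF ∩ W)) := AIkM.ff_meas hE.cont (measFF.inter hW)
  have mW : Measurable (W.indicator (fun y => ‖Φ y‖ₑ)) := (hE.cont.enorm.measurable).indicator hW
  have mr : ∀ r : Mat, Measurable fun x : G => W.indicator (fun y => ‖Φ y‖ₑ) (nm r * x) :=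
    fun r => meas_mul mW _
  rw [hInv.2 _ _ mU mF m hm]
  have h1 : ∫⁻ x, AIkM.ff Φ (celU R w V) x * hq (AIkM.ff Φ (FF ∩ W)) (m * m) x ∂nu ≤
      ∫⁻ x, ∑ r ∈ RepN m, 2 * (AIkM.ff Φ (celU R w V) x *
        W.indicator (fun y => ‖Φ y‖ₑ) (nm r * x)) ∂nu := by
    refine lintegral_mono fun x => ?_
    rw [(hHer m hm).2.2.2.2, Finset.mul_sum]
    refine Finset.sum_le_sum fun r _ => ?_
    refine (mul_le_mul_right (hFFu.2 Φ W hE.inv hWi (nm r * x)) _).trans (le_of_eq ?_)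
    ring
  refine h1.trans (le_of_eq ?_)
  have m2 : ∀ r : Mat, Measurable fun x => AIkM.ff Φ (celU R w V) x *
      W.indicator (fun y => ‖Φ y‖ₑ) (nm r * x) := fun r => mF.mul (mr r)
  rw [lintegral_finsetSum _ fun r _ => (m2 r).const_mul _]
  have h2 : ∀ r ∈ RepN m, ∫⁻ x, 2 * (AIkM.ff Φ (celU R w V) x *
      W.indicator (fun y => ‖Φ y‖ₑ) (nm r * x)) ∂nu = 2 * ∑ z ∈ V, Ix Φ W (nm r) (cel R w z) := by
    intro r _
    rw [lintegral_const_mul _ (m2 r), cells]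
    rfl
  rw [Finset.sum_congr rfl h2, ← Finset.mul_sum, Finset.sum_comm]

end

end Pool.Agent.A54.HSV
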