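import Pool.Agent.Lib.HS.Bd.V.Spec
import Pool.Agent.Lib.HS.C.Mc
import Pool.Agent.Lib.MP_a54f13_nt.Hp.Vol
import Pool.Agent.Lib.MP_a54f13_nt.Hp.NuLeft

/-!
# HS/Bd/V/Bx: tubes (helper95)
-/

set_option autoImplicit false

namespace Pool.Agent.A54.HSV

open MeasureTheory Filter Topology Set
open scoped ContDiff ComplexConjugate UpperHalfPlane MatrixGroups ENNReal
open Pool.Agent.A54.Dyn (G fl base ze io mk4 dom)
open Pool.Agent.A54.Av (Mat NonSc)
open Pool.Agent.A54.HS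
open Pool.Agent.A54.Hp Pool.Agent.A54.Hp.Hk Pool.Agent.A54.Hp.A2M

noncomputable section

namespace BxM

lemma closed_Bx (C w : ℝ) : IsClosed (Bx C w) := by
  have h : ∀ (i j : Fin 2) (c : ℝ), IsClosed {g : G | |g i j| ≤ c} := fun i j c =>
    isClosed_le (Dyn.continuous_entry i j).abs continuous_const
  exact (h 0 0 C).inter ((h 1 1 C).inter ((h 0 1 (C * w)).inter (h 1 0 (C * w))))

lemma meas_tb (C w : ℝ) (y : G) : MeasurableSet (tb C w y) :=
  ((closed_Bx C w).preimage (continuous_const.mul continuous_id)).measurableSet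

lemma inv_Bx {C w : ℝ} {b : G} (h : b ∈ Bx C w) : b⁻¹ ∈ Bx C w := by
  obtain ⟨h1, h2, h3, h4⟩ := h
  refine ⟨?_, ?_, ?_, ?_⟩
  · rw [Dyn.inv_00]; exact h2
  · rw [Dyn.inv_11]; exact h1
  · rw [Dyn.inv_01, abs_neg]; exact h3
  · rw [Dyn.inv_10, abs_neg]; exact h4

lemma two {a b c d p q r t : ℝ} (ha : |a| ≤ p) (hb : |b| ≤ q) (hc : |c| ≤ r) (hd : |d| ≤ t) :
    |a * b + c * d| ≤ p * q + r * t := by
  refine (abs_add_le _ _).trans (add_le_add ?_ ?_)
  · rw [abs_mul]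
    exact mul_le_mul ha hb (abs_nonneg _) ((abs_nonneg _).trans ha)
  · rw [abs_mul]
    exact mul_le_mul hc hd (abs_nonneg _) ((abs_nonneg _).trans hc)

lemma mul_Bx {C C' w : ℝ} (hw : 0 ≤ w) (hw1 : w ≤ 1) (hC : 1 ≤ C) (hC' : 1 ≤ C') {b b' : G}
    (h : b ∈ Bx C w) (h' : b' ∈ Bx C' w) : b * b' ∈ Bx (2 * C * C') w := by
  obtain ⟨h1, h2, h3, h4⟩ := h
  obtain ⟨k1, k2, k3, k4⟩ := h'
  have hCC : 0 ≤ C * C' := by positivity
  have hww : w * w ≤ 1 := by nlinarith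
  have e : C * C' * (w * w) ≤ C * C' * 1 := mul_le_mul_of_nonneg_left hww hCC
  refine ⟨?_, ?_, ?_, ?_⟩
  · rw [NmM.mul_ij]
    refine (two h1 k1 h3 k4).trans ?_
    nlinarith
  · rw [NmM.mul_ij]
    refine (two h4 k3 h2 k2).trans ?_
    nlinarith
  · rw [NmM.mul_ij]
    refine (two h1 k3 h3 k2).trans (le_of_eq ?_)
    ring
  · rw [NmM.mul_ij]
    refine (two h4 k1 h2 k4).trans (le_of_eq ?_)
    ring

lemma om {D R : ℝ} {x b : G} (hx : x ∈ Om R) (hb : ∀ i j, |b i j| ≤ D) : x * b ∈ Om (2 * R * D) := by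
  intro i j
  rw [NmM.mul_ij]
  refine (two (hx i 0) (hb 0 j) (hx i 1) (hb 1 j)).trans (le_of_eq ?_)
  ring

lemma Bx_le {C w : ℝ} (hw1 : w ≤ 1) (hC : 0 ≤ C) {b : G} (h : b ∈ Bx C w) (i j : Fin 2) :
    |b i j| ≤ C := by
  obtain ⟨h1, h2, h3, h4⟩ := h
  have e : C * w ≤ C := by nlinarith
  fin_cases i <;> fin_cases j
  · exact h1
  · exact h3.trans e
  · exact h4.trans e
  · exact h2

lemma Bx_le' {C w : ℝ} {b : G} (h : b ∈ Bx C w) (i j : Fin 2) : |b i j| ≤ |C| + |C * w| := by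
  obtain ⟨h1, h2, h3, h4⟩ := h
  have e1 := le_abs_self C
  have e2 := le_abs_self (C * w)
  have e3 := abs_nonneg C
  have e4 := abs_nonneg (C * w)
  fin_cases i <;> fin_cases j
  · exact h1.trans (by linarith)
  · exact h3.trans (by linarith)
  · exact h4.trans (by linarith)
  · exact h2.trans (by linarith)

lemma Bx_mono {C C' w : ℝ} (hC : C ≤ C') (hw : 0 ≤ w) {b : G} (h : b ∈ Bx C w) : b ∈ Bx C' w := by
  obtain ⟨h1, h2, h3, h4⟩ := h
  have e := mul_le_mul_of_nonneg_right hC hw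
  exact ⟨h1.trans hC, h2.trans hC, h3.trans e, h4.trans e⟩

lemma ms_Om (Φ : G → ℂ) (hΦ : Continuous Φ) (R : ℝ) : ms Φ (Om R) ≠ ⊤ := by
  obtain ⟨hc, hn⟩ := (stmtVol stmtNuL).2.2 R
  obtain ⟨B, hB⟩ := hc.exists_bound_of_continuousOn hΦ.continuousOn
  have h1 : ms Φ (Om R) ≤ ∫⁻ _ in Om R, ENNReal.ofReal B ^ 2 ∂nu := by
    unfold ms
    refine setLIntegral_mono measurable_const fun g hg => ?_
    have h2 : ‖Φ g‖ₑ ≤ ENNReal.ofReal B := by
      rw [← ofReal_norm]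
      exact ENNReal.ofReal_le_ofReal (hB g hg)
    gcongr
  rw [lintegral_const, Measure.restrict_apply MeasurableSet.univ, univ_inter] at h1
  exact ne_top_of_le_ne_top (ENNReal.mul_ne_top (ENNReal.pow_ne_top ENNReal.ofReal_ne_top) hn.ne) h1

end BxM

open BxM in
/-- **Bx** tubes -/
theorem tBx (hTub : StmtTub) (_hNm : StmtNm) : V_Bx := by
  refine ⟨meas_tb, ?_, ?_, ?_, ?_, ?_, ?_, ?_, ?_⟩
  · intro C w x y h
    have h1 := inv_Bx (show y⁻¹ * x ∈ Bx C w from h)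
    rw [mul_inv_rev, inv_inv] at h1
    exact h1
  · intro C C' w x y u hw hw1 hC hC' hx hu
    have h1 := mul_Bx hw hw1 hC hC' (show y⁻¹ * x ∈ Bx C w from hx) (show x⁻¹ * u ∈ Bx C' w from hu)
    have e : y⁻¹ * x * (x⁻¹ * u) = y⁻¹ * u := by group
    rw [e] at h1
    exact h1
  · intro C w h x y
    have e : (h * y)⁻¹ * (h * x) = y⁻¹ * x := by group
    show (h * y)⁻¹ * (h * x) ∈ Bx C w ↔ y⁻¹ * x ∈ Bx C w
    rw [e]
  · intro R hR
    obtain ⟨C, hC1, hC⟩ := hTub R hR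
    refine ⟨C, hC1, fun w hw z x hx x' hx' => ?_⟩
    exact cel_pair hC hw hx hx'
  · intro C w R x u hw hw1 hC hR hx hu
    have e : u = x * (x⁻¹ * u) := by group
    rw [e]
    exact om hx (fun i j => Bx_le hw1 (by linarith) (show x⁻¹ * u ∈ Bx C w from hu) i j)
  · intro C w a b r m hm hr h
    have hm' : (0 : ℝ) < m := by exact_mod_cast hm
    have h0 : b⁻¹ * (nm r * a) ∈ Bx C w := h
    rw [← mul_assoc] at h0
    obtain ⟨h1, h2, h3, h4⟩ := h0
    have hfr := fr_eq a b r m hm hr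
    have hent : ∀ i j, HSL.fr a.1 b.1 r i j = m * (b⁻¹ * nm r * a) i j := by
      intro i j
      rw [hfr, Matrix.smul_apply, smul_eq_mul]
    have key : ∀ {t c : ℝ}, |t| ≤ c → |(m : ℝ) * t| ≤ c * m := by
      intro t c ht
      rw [abs_mul, abs_of_pos hm', mul_comm]
      exact mul_le_mul_of_nonneg_right ht hm'.le
    refine ⟨hr, hm, ?_, ?_, ?_, ?_⟩
    · rw [hent]; exact key h1
    · rw [hent]; exact key h2
    · rw [hent]; exact key h3
    · rw [hent]; exact key h4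
  · intro C C' w y hC hw x hx
    exact Bx_mono hC hw hx
  · intro Φ hΦ C w y
    obtain ⟨R, hR⟩ : ∃ R : ℝ, y ∈ Om R := by
      refine ⟨|y 0 0| + |y 0 1| + |y 1 0| + |y 1 1|, fun i j => ?_⟩
      have e1 := abs_nonneg (y 0 0)
      have e2 := abs_nonneg (y 0 1)
      have e3 := abs_nonneg (y 1 0)
      have e4 := abs_nonneg (y 1 1)
      fin_cases i <;> fin_cases j
      · change |y 0 0| ≤ _; linarith
      · change |y 0 1| ≤ _; linarith
      · change |y 1 0| ≤ _; linarith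
      · change |y 1 1| ≤ _; linarith
    have hsub : tb C w y ⊆ Om (2 * R * (|C| + |C * w|)) := by
      intro x hx
      have e : x = y * (y⁻¹ * x) := by group
      rw [e]
      exact om hR (fun i j => Bx_le' (show y⁻¹ * x ∈ Bx C w from hx) i j)
    exact ne_top_of_le_ne_top (ms_Om Φ hΦ _) (lintegral_mono_set hsub)

end

end Pool.Agent.A54.HSV
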