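import Pool.Agent.Lib.HS.Bd.V.Spec
import Pool.Agent.Lib.HS.L.CLB
import Pool.Agent.Lib.HS.L.Cor
import Pool.Agent.Lib.HS.L.CLD
import Pool.Agent.Lib.HS.L.M2
import Pool.Agent.Lib.HS.L.Fr
import Pool.Agent.Lib.HS.L.CL0
import Pool.Agent.Lib.HS.Bd.Lw.Pa
import Pool.Agent.Lib.HS.Bd.Lw.Par
import Pool.Agent.Lib.HS.Bd.Lw.Fb

/-!
# HS/Bd/V/C1: the count of case 1 (`tC1 : V_C1`), helper44
-/

set_option autoImplicit false

namespace Pool.Agent.A54.HSV.C1M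

open Matrix _root_.HSL _root_.Pool.Agent.A54.HSL

/-- lattice points of a thin tube, rank at least two -/
theorem lat_tube2 (a : Fin 3 → Fin 3 → ℝ) {C T ρ : ℝ} (hC : ∀ i j, |a i j| ≤ C)
    (hdet : d3 (a 0) (a 1) (a 2) = 1) (hρ : 0 ≤ ρ) (hρT : ρ ≤ T) (S : Finset (Fin 3 → ℤ))
    (h0 : ∀ v ∈ S, |∑ j, a 0 j * v j| ≤ T) (h1 : ∀ v ∈ S, |∑ j, a 1 j * v j| ≤ ρ)
    (h2 : ∀ v ∈ S, |∑ j, a 2 j * v j| ≤ ρ) (hr : ∃ u ∈ S, ∃ v ∈ S, cr u v ≠ 0) :
    (S.card : ℝ) ≤ 162 * (T * ρ ^ 2) + 486 * (C * (T * ρ)) := by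
  classical
  have hT : 0 ≤ T := hρ.trans hρT
  have hC0 : 0 ≤ C := (abs_nonneg _).trans (hC 0 0)
  by_cases hr3 : ∃ u ∈ S, ∃ v ∈ S, ∃ w ∈ S, d3 u v w ≠ 0
  · obtain ⟨u, hu, v, hv, w, hw, hD⟩ := hr3
    obtain ⟨⟨⟨u₁, u₂⟩, u₃⟩, hmem, hmax⟩ := Finset.exists_max_image ((S ×ˢ S) ×ˢ S)
      (fun t => |d3 t.1.1 t.1.2 t.2|) ⟨((u, v), w), by
        exact Finset.mem_product.mpr ⟨Finset.mem_product.mpr ⟨hu, hv⟩, hw⟩⟩
    rw [Finset.mem_product, Finset.mem_product] at hmem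
    obtain ⟨⟨m1, m2⟩, m3⟩ := hmem
    simp only at m1 m2 m3
    have hle : ∀ x ∈ S, ∀ y ∈ S, ∀ z ∈ S, |d3 x y z| ≤ |d3 u₁ u₂ u₃| := by
      intro x hx y hy z hz
      exact hmax ((x, y), z) (Finset.mem_product.mpr ⟨Finset.mem_product.mpr ⟨hx, hy⟩, hz⟩)
    have hne : d3 u₁ u₂ u₃ ≠ 0 := by
      have h4 := hle u hu v hv w hw
      have h5 := abs_pos.mpr hD
      exact abs_pos.mp (h5.trans_le h4)
    have key := card27 S u₁ u₂ u₃ hne (fun x hx => hle _ hx _ m2 _ m3) (fun x hx => hle _ m1 _ hx _ m3)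
      (fun x hx => hle _ m1 _ m2 _ hx)
    -- the determinant in frame coordinates
    set F : (Fin 3 → ℤ) → Fin 3 → ℝ := fun v i => ∑ j, a i j * v j with hF
    have eF : ∀ v i, F v i = a i 0 * v 0 + a i 1 * v 1 + a i 2 * v 2 := by
      intro v i; simp [hF, Fin.sum_univ_three]
    have hd : a 0 0 * (a 1 1 * a 2 2 - a 1 2 * a 2 1) - a 0 1 * (a 1 0 * a 2 2 - a 1 2 * a 2 0)
        + a 0 2 * (a 1 0 * a 2 1 - a 1 1 * a 2 0) = 1 := hdet
    have e1 : ((|d3 u₁ u₂ u₃| : ℤ) : ℝ) = |d3 (F u₁) (F u₂) (F u₃)| := by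
      rw [Int.cast_abs]
      congr 1
      have : d3 (F u₁) (F u₂) (F u₃) = (a 0 0 * (a 1 1 * a 2 2 - a 1 2 * a 2 1)
          - a 0 1 * (a 1 0 * a 2 2 - a 1 2 * a 2 0) + a 0 2 * (a 1 0 * a 2 1 - a 1 1 * a 2 0)) *
          ((d3 u₁ u₂ u₃ : ℤ) : ℝ) := by
        simp only [d3, eF]; push_cast; ring
      rw [this, hd, one_mul]
    have b1 : |F u₁ 0| ≤ T := h0 u₁ m1
    have b2 : |F u₁ 1| ≤ ρ := h1 u₁ m1
    have b3 : |F u₁ 2| ≤ ρ := h2 u₁ m1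
    have b4 : |F u₂ 0| ≤ T := h0 u₂ m2
    have b5 : |F u₂ 1| ≤ ρ := h1 u₂ m2
    have b6 : |F u₂ 2| ≤ ρ := h2 u₂ m2
    have b7 : |F u₃ 0| ≤ T := h0 u₃ m3
    have b8 : |F u₃ 1| ≤ ρ := h1 u₃ m3
    have b9 : |F u₃ 2| ≤ ρ := h2 u₃ m3
    have tri : |d3 (F u₁) (F u₂) (F u₃)| ≤ |F u₁ 0| * (|F u₂ 1| * |F u₃ 2| + |F u₂ 2| * |F u₃ 1|)
        + |F u₁ 1| * (|F u₂ 0| * |F u₃ 2| + |F u₂ 2| * |F u₃ 0|)
        + |F u₁ 2| * (|F u₂ 0| * |F u₃ 1| + |F u₂ 1| * |F u₃ 0|) := by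
      simp only [d3]
      refine (abs_add_le _ _).trans (add_le_add ((abs_sub _ _).trans (add_le_add ?_ ?_)) ?_)
      · rw [abs_mul]; gcongr; exact (abs_sub _ _).trans (by rw [abs_mul, abs_mul])
      · rw [abs_mul]; gcongr; exact (abs_sub _ _).trans (by rw [abs_mul, abs_mul])
      · rw [abs_mul]; gcongr; exact (abs_sub _ _).trans (by rw [abs_mul, abs_mul])
    have e2 : |d3 (F u₁) (F u₂) (F u₃)| ≤ 6 * (T * ρ ^ 2) := by
      refine tri.trans ?_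
      calc |F u₁ 0| * (|F u₂ 1| * |F u₃ 2| + |F u₂ 2| * |F u₃ 1|)
          + |F u₁ 1| * (|F u₂ 0| * |F u₃ 2| + |F u₂ 2| * |F u₃ 0|)
          + |F u₁ 2| * (|F u₂ 0| * |F u₃ 1| + |F u₂ 1| * |F u₃ 0|)
          ≤ T * (ρ * ρ + ρ * ρ) + ρ * (T * ρ + ρ * T) + ρ * (T * ρ + ρ * T) := by gcongr
        _ = 6 * (T * ρ ^ 2) := by ring
    have key' : (S.card : ℝ) ≤ 27 * ((|d3 u₁ u₂ u₃| : ℤ) : ℝ) := by exact_mod_cast key
    have e3 : 0 ≤ 486 * (C * (T * ρ)) := by positivity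
    rw [e1] at key'
    linarith
  · push Not at hr3
    obtain ⟨u, hu, v, hv, hD⟩ := hr
    obtain ⟨⟨u₁, u₂⟩, hmem, hmax⟩ := Finset.exists_max_image (S ×ˢ S)
      (fun t => n1 (cr t.1 t.2)) ⟨(u, v), Finset.mem_product.mpr ⟨hu, hv⟩⟩
    rw [Finset.mem_product] at hmem
    obtain ⟨m1, m2⟩ := hmem
    simp only at m1 m2
    have hle : ∀ x ∈ S, ∀ y ∈ S, n1 (cr x y) ≤ n1 (cr u₁ u₂) := by
      intro x hx y hy
      exact hmax (x, y) (Finset.mem_product.mpr ⟨hx, hy⟩)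
    have hne : cr u₁ u₂ ≠ 0 := by
      intro h
      have h4 := hle u hu v hv
      have h5 := n1_pos hD
      rw [h] at h4
      simp [n1] at h4
      have h6 := n1_nonneg (cr u v)
      unfold n1 at h5 h6
      linarith
    have key := card2 S hr3 m1 m2 hne hle
    have hb := CLBM.cr_bound a hC hdet hρ hρT u₁ u₂ (h0 _ m1) (h1 _ m1) (h2 _ m1) (h0 _ m2) (h1 _ m2)
      (h2 _ m2)
    have key' : (S.card : ℝ) ≤ 27 * ((n1 (cr u₁ u₂) : ℤ) : ℝ) := by exact_mod_cast key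
    have e3 : 0 ≤ 162 * (T * ρ ^ 2) := by positivity
    linarith

/-- the vector `vx` is (up to a factor two) the shortest vector of the frame -/
def Sh (S : Sys) (D : ℝ) (i : S.ι) (vx : MZ) : Prop :=
  1 ≤ D ∧ Prim vx ∧ vx ≠ 0 ∧ vx.trace = 0 ∧ |fr (S.g i) (S.g i) vx 0 0| < 2 * D ∧
    |fr (S.g i) (S.g i) vx 0 1| < 2 * D * S.w ∧ |fr (S.g i) (S.g i) vx 1 0| < 2 * D * S.w ∧
    Dg D S.w (S.g i)

/-- the count of the traceless vectors of a tube not parallel to the shortest one -/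
theorem off_card (S : Sys) {R : ℝ} (hR : 1 ≤ R) (hSR : S.R = R) (hK : 1 ≤ S.K) (hU : S.Unim)
    {D : ℝ} {vx : MZ} {i : S.ι} (hvx : Sh S D i vx) (hi : i ∈ S.V) {τ : ℝ} (hτ : 0 ≤ τ) (W : Finset MZ)
    (hW : ∀ v ∈ W, v.trace = 0 ∧ brk v vx ≠ 0 ∧ |fr (S.g i) (S.g i) v 0 0| ≤ τ ∧
      |fr (S.g i) (S.g i) v 0 1| ≤ τ / S.K ^ 2 ∧ |fr (S.g i) (S.g i) v 1 0| ≤ τ / S.K ^ 2) :
    (W.card : ℝ) ≤ 7776 * R ^ 2 * (τ ^ 3 / S.K ^ 4 + τ ^ 2 / S.K ^ 2) := by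
  classical
  rcases W.eq_empty_or_nonempty with hemp | ⟨v₀, hv₀⟩
  · rw [hemp, Finset.card_empty]
    push_cast
    positivity
  obtain ⟨hdet, hent⟩ := hU i hi
  rw [hSR] at hent
  have hK0 : 0 < S.K := by linarith
  have hK2 : 1 ≤ S.K ^ 2 := one_le_pow₀ hK
  obtain ⟨x0, x1, x2, x3, x4, x5, x6, x7⟩ := hvx
  have hbrk0 : ∀ v : MZ, brk (0 : MZ) v = 0 := by
    intro v; unfold brk; rw [Matrix.zero_mul, Matrix.mul_zero, sub_zero]
  have hv0ne : v₀ ≠ 0 := by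
    intro h
    apply (hW v₀ hv₀).2.1
    rw [h]
    exact hbrk0 _
  have hw : S.w = 1 / S.K ^ 2 := rfl
  have hw0 : 0 < S.w := by rw [hw]; positivity
  have hwτ : ∀ t : ℝ, t * S.w = t / S.K ^ 2 := by intro t; rw [hw]; ring
  -- `D ≤ τ`
  have hDτ : D ≤ τ := by
    by_contra hc
    push Not at hc
    obtain ⟨y0, -, y1, y2, y3⟩ := hW v₀ hv₀
    have hcw : τ / S.K ^ 2 < D * S.w := by
      rw [← hwτ]
      exact mul_lt_mul_of_pos_right hc hw0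
    exact x7 v₀ hv0ne y0 (y1.trans_lt hc) (y2.trans_lt hcw) (y3.trans_lt hcw)
  set W' := insert vx W with hW'
  have hmem : ∀ v ∈ W', v.trace = 0 ∧ |fr (S.g i) (S.g i) v 0 0| ≤ 2 * τ ∧
      |fr (S.g i) (S.g i) v 0 1| ≤ 2 * τ / S.K ^ 2 ∧ |fr (S.g i) (S.g i) v 1 0| ≤ 2 * τ / S.K ^ 2 := by
    intro v hv
    rcases Finset.mem_insert.1 hv with rfl | hv
    · have h1 : 2 * D * S.w ≤ 2 * τ / S.K ^ 2 := by
        rw [← hwτ]
        exact mul_le_mul_of_nonneg_right (by linarith) hw0.le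
      exact ⟨x3, by linarith, by linarith, by linarith⟩
    · obtain ⟨y0, -, y1, y2, y3⟩ := hW v hv
      have h1 : τ / S.K ^ 2 ≤ 2 * τ / S.K ^ 2 :=
        div_le_div_of_nonneg_right (by linarith) (by positivity)
      exact ⟨y0, by linarith, y2.trans h1, y3.trans h1⟩
  have hinj : Set.InjOn _root_.HSL.vec (W' : Set MZ) := by
    intro v hv v' hv' he
    rw [← mat_vec v (hmem v hv).1, ← mat_vec v' (hmem v' hv').1, he]
  have hcard : (W'.image _root_.HSL.vec).card = W'.card := Finset.card_image_of_injOn hinj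
  have hmem' : ∀ u ∈ W'.image _root_.HSL.vec, |∑ j, co (S.g i) 0 j * (u j : ℝ)| ≤ 2 * τ ∧
      |∑ j, co (S.g i) 1 j * (u j : ℝ)| ≤ 2 * τ / S.K ^ 2 ∧
      |∑ j, co (S.g i) 2 j * (u j : ℝ)| ≤ 2 * τ / S.K ^ 2 := by
    intro u hu
    obtain ⟨v, hv, rfl⟩ := Finset.mem_image.1 hu
    obtain ⟨a2, a3, a4, a5⟩ := hmem v hv
    obtain ⟨c0, c1, c2⟩ := fr_vec (S.g i) v a2
    rw [← c0, ← c1, ← c2]
    exact ⟨a3, a4, a5⟩
  have hrank : ∃ u ∈ W'.image _root_.HSL.vec, ∃ v ∈ W'.image _root_.HSL.vec, cr u v ≠ 0 := by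
    refine ⟨_root_.HSL.vec v₀, Finset.mem_image_of_mem _ (Finset.mem_insert_of_mem hv₀), _root_.HSL.vec vx,
      Finset.mem_image_of_mem _ (Finset.mem_insert_self _ _), ?_⟩
    intro h
    exact (hW v₀ hv₀).2.1 (CLBM.brk_of_cr (hW v₀ hv₀).1 x3 h)
  have hlat := lat_tube2 (co (S.g i)) (C := 2 * R ^ 2) (T := 2 * τ) (ρ := 2 * τ / S.K ^ 2)
    (co_le (S.g i) hR hent) (co_det (S.g i) hdet) (by positivity)
    (div_le_self (by positivity) hK2)
    (W'.image _root_.HSL.vec) (fun u hu => (hmem' u hu).1) (fun u hu => (hmem' u hu).2.1)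
    (fun u hu => (hmem' u hu).2.2) hrank
  rw [hcard] at hlat
  have hWc : (W.card : ℝ) ≤ (W'.card : ℝ) := by
    exact_mod_cast Finset.card_le_card (Finset.subset_insert _ _)
  have e1 : 2 * τ * (2 * τ / S.K ^ 2) ^ 2 = 8 * (τ ^ 3 / S.K ^ 4) := by field_simp; ring
  have e2 : 2 * τ * (2 * τ / S.K ^ 2) = 4 * (τ ^ 2 / S.K ^ 2) := by field_simp; ring
  rw [e1, e2] at hlat
  have hR2 : 1 ≤ R ^ 2 := one_le_pow₀ hR
  have hT3 : 0 ≤ τ ^ 3 / S.K ^ 4 := by positivity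
  have hT2 : 0 ≤ R ^ 2 * (τ ^ 2 / S.K ^ 2) := by positivity
  have e3 := mul_le_mul_of_nonneg_right hR2 hT3
  calc (W.card : ℝ) ≤ (W'.card : ℝ) := hWc
    _ ≤ 162 * (8 * (τ ^ 3 / S.K ^ 4)) + 486 * (2 * R ^ 2 * (4 * (τ ^ 2 / S.K ^ 2))) := hlat
    _ ≤ 7776 * R ^ 2 * (τ ^ 3 / S.K ^ 4 + τ ^ 2 / S.K ^ 2) := by nlinarith

/-- powers of `T` -/
theorem pw {T L : ℝ} (hT : 1 ≤ T) (hL : 1 ≤ L) (hTL : T ≤ L ^ 2) :
    T ^ 2 ≤ L * T ^ (3 / 2 : ℝ) ∧ T ^ 3 ≤ L ^ 3 * T ^ (3 / 2 : ℝ) := by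
  have hT0 : 0 < T := by linarith
  have hTh : 0 ≤ T ^ (3 / 2 : ℝ) := by positivity
  have e1 : T ^ (1 / 2 : ℝ) ≤ L := by
    calc T ^ (1 / 2 : ℝ) ≤ (L ^ 2) ^ (1 / 2 : ℝ) := Real.rpow_le_rpow hT0.le hTL (by norm_num)
      _ = L := by
        rw [← Real.rpow_natCast L 2, ← Real.rpow_mul (by linarith)]
        norm_num
  have e2 : T ^ 2 = T ^ (1 / 2 : ℝ) * T ^ (3 / 2 : ℝ) := by
    rw [← Real.rpow_add hT0, ← Real.rpow_natCast T 2]
    norm_num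
  have e3 : T ^ 3 = (T ^ (1 / 2 : ℝ)) ^ 3 * T ^ (3 / 2 : ℝ) := by
    rw [← Real.rpow_natCast (T ^ (1 / 2 : ℝ)) 3, ← Real.rpow_mul hT0.le, ← Real.rpow_add hT0,
      ← Real.rpow_natCast T 3]
    norm_num
  refine ⟨?_, ?_⟩
  · rw [e2]
    exact mul_le_mul_of_nonneg_right e1 hTh
  · rw [e3]
    exact mul_le_mul_of_nonneg_right (pow_le_pow_left₀ (by positivity) e1 3) hTh

/-- absorbing a constant -/
theorem absorb {X K e : ℝ} (hX : 0 ≤ X) (he : 0 < e) (hK : X ^ (1 / e) ≤ K) : X ≤ K ^ e := by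
  have h1 := Real.rpow_le_rpow (by positivity) hK he.le
  rw [← Real.rpow_mul hX] at h1
  have h2 : 1 / e * e = 1 := by field_simp
  rw [h2, Real.rpow_one] at h1
  exact h1

/-- **loops not parallel to the shortest vector** -/
theorem offCount : ∀ (k : ℕ) (C R ε : ℝ), 1 ≤ k → 1 ≤ C → 1 ≤ R → 0 < ε → ∃ K0 : ℝ,
    ∀ (S : Sys) (B L D : ℝ) (vx : MZ), S.C = C → S.R = R → K0 ≤ S.K → 1 ≤ B → S.Unim →
    S.Ovl ((2 * C) ^ k) B → 1 ≤ L → L ≤ S.K ^ 3 → ∀ i ∈ S.V, Sh S D i vx →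
    ∀ H : Finset (S.ι × MZ), Hk S k L i H → ∀ A : Finset ((S.ι × MZ) × (S.ι × MZ)), A ⊆ prs H →
      (∀ t ∈ A, dsc (lp t) ≠ 0 ∧ brk (tf (lp t)) vx ≠ 0) →
      (A.card : ℝ) ≤ B * S.K ^ ε * (L ^ 6 / S.K ^ 4 + L ^ 4 / S.K ^ 2) := by
  intro k C R ε hk hC hR hε
  obtain ⟨K1, hK1⟩ := tCor tFr (tCLD tCL) k C R (ε / 2) hk hC hR (by positivity)
  set C' : ℝ := (2 * C) ^ k with hC'
  have hC'1 : 1 ≤ C' := one_le_pow₀ (by linarith)
  set D1 : ℝ := 4 * C' ^ 2 with hD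
  have hD1 : 1 ≤ D1 := by
    have : 1 ≤ C' ^ 2 := one_le_pow₀ hC'1
    linarith
  set X : ℝ := 7776 * R ^ 2 * D1 ^ 3 with hX
  have hX0 : 0 ≤ X := by positivity
  refine ⟨max K1 (max 1 (X ^ (1 / (ε / 2)))), ?_⟩
  intro S B L D vx hSC hSR hK hB hU hO hL1 hL3 i hi hvx H hH A hA hAv
  have k1 : K1 ≤ S.K := (le_max_left _ _).trans hK
  have k2 : 1 ≤ S.K := (le_max_left _ _).trans ((le_max_right _ _).trans hK)
  have k3 : X ^ (1 / (ε / 2)) ≤ S.K := (le_max_right _ _).trans ((le_max_right _ _).trans hK)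
  have hK0 : 0 < S.K := by linarith
  have hXK : X ≤ S.K ^ (ε / 2) := absorb hX0 (by positivity) k3
  set M : ℝ := X * (L ^ 3 / S.K ^ 4 + L / S.K ^ 2) with hM
  have hM0 : 0 ≤ M := by positivity
  have hmain := hK1 S B L M hSC hSR k1 hB hU hO hL1 hL3 hM0 i hi H hH A hA
    (fun t ht => (hAv t ht).1) ?_
  · refine hmain.trans ?_
    have e1 : S.K ^ ε = S.K ^ (ε / 2) * S.K ^ (ε / 2) := by
      rw [← Real.rpow_add hK0]; congr 1; ring
    have e2 : L ^ 3 * M = X * (L ^ 6 / S.K ^ 4 + L ^ 4 / S.K ^ 2) := by rw [hM]; ring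
    calc B * S.K ^ (ε / 2) * L ^ 3 * M = B * S.K ^ (ε / 2) * (L ^ 3 * M) := by ring
      _ = B * S.K ^ (ε / 2) * (X * (L ^ 6 / S.K ^ 4 + L ^ 4 / S.K ^ 2)) := by rw [e2]
      _ ≤ B * S.K ^ (ε / 2) * (S.K ^ (ε / 2) * (L ^ 6 / S.K ^ 4 + L ^ 4 / S.K ^ 2)) := by
          apply mul_le_mul_of_nonneg_left _ (by positivity)
          exact mul_le_mul_of_nonneg_right hXK (by positivity)
      _ = B * S.K ^ ε * (L ^ 6 / S.K ^ 4 + L ^ 4 / S.K ^ 2) := by rw [e1]; ring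
  · intro T W hT hTL hW
    have hT0 : 0 < T := by linarith
    obtain ⟨p2, p3⟩ := pw hT hL1 hTL
    have hTh : 0 ≤ T ^ (3 / 2 : ℝ) := by positivity
    have hcard := off_card S hR hSR k2 hU hvx hi (τ := D1 * T) (by positivity) W (by
      intro v hv
      obtain ⟨a1, a2, a3, a4, a5, t, ht, c, s0, hc, hl, rfl⟩ := hW v hv
      refine ⟨a2, ?_, a3, a4, a5⟩
      intro hb
      apply (hAv t ht).2
      rw [hl, tf_smul]
      unfold brk at hb ⊢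
      rw [Matrix.smul_mul, Matrix.mul_smul, ← smul_sub, hb, smul_zero])
    refine hcard.trans ?_
    have e1 : (D1 * T) ^ 3 / S.K ^ 4 ≤ D1 ^ 3 * (L ^ 3 / S.K ^ 4) * T ^ (3 / 2 : ℝ) := by
      calc (D1 * T) ^ 3 / S.K ^ 4 = D1 ^ 3 / S.K ^ 4 * T ^ 3 := by ring
        _ ≤ D1 ^ 3 / S.K ^ 4 * (L ^ 3 * T ^ (3 / 2 : ℝ)) := mul_le_mul_of_nonneg_left p3 (by positivity)
        _ = _ := by ring
    have e2 : (D1 * T) ^ 2 / S.K ^ 2 ≤ D1 ^ 3 * (L / S.K ^ 2) * T ^ (3 / 2 : ℝ) := by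
      calc (D1 * T) ^ 2 / S.K ^ 2 = D1 ^ 2 / S.K ^ 2 * T ^ 2 := by ring
        _ ≤ D1 ^ 2 / S.K ^ 2 * (L * T ^ (3 / 2 : ℝ)) := mul_le_mul_of_nonneg_left p2 (by positivity)
        _ ≤ D1 ^ 3 / S.K ^ 2 * (L * T ^ (3 / 2 : ℝ)) := by
            apply mul_le_mul_of_nonneg_right _ (by positivity)
            apply div_le_div_of_nonneg_right _ (by positivity)
            exact pow_le_pow_right₀ hD1 (by norm_num)
        _ = _ := by ring
    calc 7776 * R ^ 2 * ((D1 * T) ^ 3 / S.K ^ 4 + (D1 * T) ^ 2 / S.K ^ 2)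
        ≤ 7776 * R ^ 2 * (D1 ^ 3 * (L ^ 3 / S.K ^ 4) * T ^ (3 / 2 : ℝ) +
            D1 ^ 3 * (L / S.K ^ 2) * T ^ (3 / 2 : ℝ)) :=
          mul_le_mul_of_nonneg_left (add_le_add e1 e2) (by positivity)
      _ = M * T ^ (3 / 2 : ℝ) := by rw [hM, hX]; ring

/-- nilpotent traceless matrices with small entries -/
theorem nil_card (ε : ℝ) (hε : 0 < ε) : ∃ C : ℝ, 1 ≤ C ∧ ∀ Y : ℝ, 0 < Y → ∀ W : Finset MZ,
    (∀ v ∈ W, v ≠ 0 ∧ v.trace = 0 ∧ v.det = 0 ∧ ∀ a b, |((v a b : ℤ) : ℝ)| ≤ Y) →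
    (W.card : ℝ) ≤ C * Y * (4 * Y ^ 2) ^ ε := by
  obtain ⟨CF, hCF, hF⟩ := Pool.Agent.A54.HSBd.pell_card ε hε
  refine ⟨15 * CF, by linarith, ?_⟩
  intro Y hY0 W hW
  classical
  rcases W.eq_empty_or_nonempty with hemp | ⟨v₀, hv₀⟩
  · rw [hemp, Finset.card_empty]
    push_cast
    positivity
  -- `Y ≥ 1`
  have hY : 1 ≤ Y := by
    obtain ⟨n0, -, -, n3⟩ := hW v₀ hv₀
    by_contra hc
    push Not at hc
    apply n0
    ext a b
    have h1 := n3 a b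
    have h2 : |((v₀ a b : ℤ) : ℝ)| < 1 := h1.trans_lt hc
    have h3 : |v₀ a b| < 1 := by exact_mod_cast h2
    exact Int.abs_lt_one_iff.1 h3
  set n : ℤ := ⌊Y⌋ with hn
  have hnY : (n : ℝ) ≤ Y := Int.floor_le Y
  have hn1 : 1 ≤ n := Int.le_floor.2 (by exact_mod_cast hY)
  have hint : ∀ z : ℤ, |(z : ℝ)| ≤ Y → |z| ≤ n := by
    intro z hz
    exact Int.le_floor.2 (by push_cast; exact hz)
  have hZ : 1 ≤ 4 * Y ^ 2 := by nlinarith
  have hZp : 1 ≤ (4 * Y ^ 2) ^ ε := Real.one_le_rpow hZ hε.le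
  -- fibre over the entry `00`
  have hfib : ∀ a ∈ (Finset.Icc (-n) n), a ≠ 0 →
      ((W.filter (fun v => v 0 0 = a)).card : ℝ) ≤ CF * (4 * Y ^ 2) ^ ε := by
    intro a ha ha0
    rw [Finset.mem_Icc] at ha
    have haY : |(a : ℝ)| ≤ Y := by
      rw [abs_le]
      have h1 : -(n : ℝ) ≤ (a : ℝ) := by exact_mod_cast ha.1
      have h2 : (a : ℝ) ≤ (n : ℝ) := by exact_mod_cast ha.2
      constructor <;> linarith
    set F := W.filter (fun v => v 0 0 = a) with hFd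
    have hFm : ∀ v ∈ F, v ∈ W ∧ v 0 0 = a := fun v hv => Finset.mem_filter.1 hv
    have hinj : Set.InjOn (fun v : MZ => (v 0 1 - v 1 0, v 0 1 + v 1 0)) (F : Set MZ) := by
      intro v hv v' hv' he
      obtain ⟨h1, h2⟩ := hFm v (Finset.mem_coe.1 hv)
      obtain ⟨h1', h2'⟩ := hFm v' (Finset.mem_coe.1 hv')
      have e1 := (Prod.mk.inj he).1
      have e2 := (Prod.mk.inj he).2
      have t1 := (hW v h1).2.1
      have t2 := (hW v' h1').2.1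
      rw [Matrix.trace_fin_two] at t1 t2
      ext i j
      fin_cases i <;> fin_cases j <;> simp only [Fin.zero_eta, Fin.mk_one, Fin.isValue] <;> omega
    rw [← Finset.card_image_of_injOn hinj]
    refine hF (4 * Y ^ 2) hZ 1 (4 * a ^ 2) one_ne_zero (by positivity) ?_ _ ?_
    · push_cast
      rw [abs_of_nonneg (by positivity)]
      have := sq_le_sq' (by linarith [(abs_le.1 haY).1]) (abs_le.1 haY).2
      linarith
    · intro q hq
      obtain ⟨v, hv, rfl⟩ := Finset.mem_image.1 hq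
      obtain ⟨h1, h2⟩ := hFm v hv
      obtain ⟨-, t1, t2, t3⟩ := hW v h1
      rw [Matrix.trace_fin_two] at t1
      rw [Matrix.det_fin_two] at t2
      have h11 : v 1 1 = - a := by omega
      rw [h2, h11] at t2
      have hb : |((v 0 1 : ℤ) : ℝ)| ≤ Y := t3 0 1
      have hc : |((v 1 0 : ℤ) : ℝ)| ≤ Y := t3 1 0
      refine ⟨?_, ?_, ?_⟩
      · simp only
        linear_combination 4 * t2
      · simp only
        push_cast
        refine (abs_sub _ _).trans ?_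
        nlinarith
      · simp only
        push_cast
        refine (abs_add_le _ _).trans ?_
        nlinarith
  have hfib0 : ((W.filter (fun v => v 0 0 = 0)).card : ℝ) ≤ 6 * Y := by
    set F := W.filter (fun v => v 0 0 = 0) with hFd
    have hFm : ∀ v ∈ F, v ∈ W ∧ v 0 0 = 0 := fun v hv => Finset.mem_filter.1 hv
    have hsub : F ⊆ ((Finset.Icc (-n) n).image (fun b => (!![0, b; 0, 0] : MZ))) ∪
        ((Finset.Icc (-n) n).image (fun c => (!![0, 0; c, 0] : MZ))) := by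
      intro v hv
      obtain ⟨h1, h2⟩ := hFm v hv
      obtain ⟨-, t1, t2, t3⟩ := hW v h1
      rw [Matrix.trace_fin_two] at t1
      rw [Matrix.det_fin_two] at t2
      have h11 : v 1 1 = 0 := by omega
      rw [h2, h11] at t2
      have h3 : v 0 1 * v 1 0 = 0 := by linarith
      rw [Finset.mem_union, Finset.mem_image, Finset.mem_image]
      rcases mul_eq_zero.1 h3 with h4 | h4
      · right
        refine ⟨v 1 0, ?_, ?_⟩
        · rw [Finset.mem_Icc]; exact abs_le.1 (hint _ (t3 1 0))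
        · ext i j
          fin_cases i <;> fin_cases j <;> simp [h2, h11, h4]
      · left
        refine ⟨v 0 1, ?_, ?_⟩
        · rw [Finset.mem_Icc]; exact abs_le.1 (hint _ (t3 0 1))
        · ext i j
          fin_cases i <;> fin_cases j <;> simp [h2, h11, h4]
    have h1 := (Finset.card_le_card hsub).trans (Finset.card_union_le _ _)
    have h2 := h1.trans (add_le_add Finset.card_image_le Finset.card_image_le)
    rw [Int.card_Icc] at h2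
    have h3 : (F.card : ℝ) ≤ 2 * (2 * n + 1) := by
      have : (F.card : ℤ) ≤ 2 * (2 * n + 1) := by omega
      exact_mod_cast this
    linarith
  have hmaps : ∀ v ∈ W, v 0 0 ∈ Finset.Icc (-n) n := by
    intro v hv
    rw [Finset.mem_Icc]
    exact abs_le.1 (hint _ ((hW v hv).2.2.2 0 0))
  have hsum : (W.card : ℝ) = ∑ a ∈ Finset.Icc (-n) n, ((W.filter (fun v => v 0 0 = a)).card : ℝ) := by
    have e := Finset.card_eq_sum_card_fiberwise (s := W) (t := Finset.Icc (-n) n) (f := fun v => v 0 0)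
      (fun v hv => Finset.mem_coe.2 (hmaps v (Finset.mem_coe.1 hv)))
    rw [e]
    push_cast
    rfl
  rw [hsum]
  calc ∑ a ∈ Finset.Icc (-n) n, ((W.filter (fun v => v 0 0 = a)).card : ℝ)
      ≤ ∑ a ∈ Finset.Icc (-n) n, (CF * (4 * Y ^ 2) ^ ε + if a = 0 then 6 * Y else 0) := by
        apply Finset.sum_le_sum
        intro a ha
        by_cases h0 : a = 0
        · rw [if_pos h0, h0]
          have : 0 ≤ CF * (4 * Y ^ 2) ^ ε := by positivity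
          linarith
        · rw [if_neg h0, add_zero]
          exact hfib a ha h0
    _ = ((Finset.Icc (-n) n).card : ℝ) * (CF * (4 * Y ^ 2) ^ ε) + 6 * Y := by
        rw [Finset.sum_add_distrib, Finset.sum_const, nsmul_eq_mul, Finset.sum_ite_eq',
          if_pos (Finset.mem_Icc.2 ⟨by linarith, by linarith⟩)]
    _ ≤ (3 * Y) * (CF * (4 * Y ^ 2) ^ ε) + 6 * Y := by
        have h1 : ((Finset.Icc (-n) n).card : ℝ) ≤ 3 * Y := by
          rw [Int.card_Icc]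
          have h2 : ((n + 1 - -n).toNat : ℤ) = 2 * n + 1 := by omega
          have h3 : (((n + 1 - -n).toNat : ℕ) : ℝ) = 2 * (n : ℝ) + 1 := by exact_mod_cast h2
          rw [h3]
          linarith
        have h4 : 0 ≤ CF * (4 * Y ^ 2) ^ ε := by positivity
        have := mul_le_mul_of_nonneg_right h1 h4
        linarith
    _ ≤ 15 * CF * Y * (4 * Y ^ 2) ^ ε := by
        have h1 : 1 ≤ CF * (4 * Y ^ 2) ^ ε := one_le_mul_of_one_le_of_one_le hCF hZp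
        have h2 := mul_le_mul_of_nonneg_left h1 hY0.le
        nlinarith

/-- **nilpotent loops which are not scalar** -/
theorem nilCount : ∀ (k : ℕ) (C R ε : ℝ), 1 ≤ k → 1 ≤ C → 1 ≤ R → 0 < ε → ∃ K0 : ℝ,
    ∀ (S : Sys) (B L : ℝ), S.C = C → S.R = R → K0 ≤ S.K → 1 ≤ B → S.Unim →
    S.Ovl ((2 * C) ^ k) B → 1 ≤ L → L ≤ S.K ^ 3 → ∀ i ∈ S.V,
    ∀ H : Finset (S.ι × MZ), Hk S k L i H → ∀ A : Finset ((S.ι × MZ) × (S.ι × MZ)), A ⊆ prs H →
      (∀ t ∈ A, dsc (lp t) = 0 ∧ tf (lp t) ≠ 0) →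
      (A.card : ℝ) ≤ B * S.K ^ ε * (L ^ 4 / S.K ^ 2) := by
  intro k C R ε hk hC hR hε
  obtain ⟨K1, hK1⟩ := tCLD tCL k C (ε / 2) hk hC (by positivity)
  obtain ⟨CN, hCN, hN⟩ := nil_card (ε / 48) (by positivity)
  set C' : ℝ := (2 * C) ^ k with hC'def
  have hC'1 : 1 ≤ C' := one_le_pow₀ (by linarith)
  have hR2 : 1 ≤ R ^ 2 := one_le_pow₀ hR
  have hC'2 : 1 ≤ C' ^ 2 := one_le_pow₀ hC'1
  set c : ℝ := 16 * R ^ 2 * C' ^ 2 with hc
  have hc1 : 1 ≤ c := by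
    have := one_le_mul_of_one_le_of_one_le hR2 hC'2
    rw [hc]; nlinarith
  set X : ℝ := 5 * (CN * c) * (4 * c ^ 2) ^ (ε / 48) with hX
  have hX0 : 0 ≤ X := by positivity
  refine ⟨max K1 (max 1 (X ^ (1 / (ε / 4)))), ?_⟩
  intro S B L hSC hSR hK hB hU hO hL1 hL3 i hi H hH A hA hAv
  have k1 : K1 ≤ S.K := (le_max_left _ _).trans hK
  have k2 : 1 ≤ S.K := (le_max_left _ _).trans ((le_max_right _ _).trans hK)
  have k3 : X ^ (1 / (ε / 4)) ≤ S.K := (le_max_right _ _).trans ((le_max_right _ _).trans hK)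
  have hK0 : 0 < S.K := by linarith
  have hXK : X ≤ S.K ^ (ε / 4) := absorb hX0 (by positivity) k3
  obtain ⟨hdet, hent⟩ := hU i hi
  rw [hSR] at hent
  set M : ℝ := S.K ^ (ε / 2) * (L / S.K ^ 2) with hM
  have hM0 : 0 ≤ M := by positivity
  refine (hK1 S B L M hSC k1 hB hU hO hL1 hL3 hM0 i hi H hH A hA ?_).trans (le_of_eq ?_)
  swap
  · have e1 : S.K ^ ε = S.K ^ (ε / 2) * S.K ^ (ε / 2) := by
      rw [← Real.rpow_add hK0]; congr 1; ring
    rw [hM, e1]; ring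
  intro T S0 hT hTL hS0
  classical
  have hT0 : 0 < T := by linarith
  obtain ⟨p2, -⟩ := pw hT hL1 hTL
  have hTh : 0 ≤ T ^ (3 / 2 : ℝ) := by positivity
  set Y : ℝ := c * (T / S.K ^ 2) with hY
  have hY0 : 0 < Y := by positivity
  have hSC1 : 1 ≤ S.C := by rw [hSC]; exact hC
  have hwdef : S.w = 1 / S.K ^ 2 := rfl
  -- the traceless parts
  have hv : ∀ r ∈ S0, tf r.1 ≠ 0 ∧ (tf r.1).trace = 0 ∧ (tf r.1).det = 0 ∧ dsc r.1 = 0 ∧
      ∀ a b, |((tf r.1 a b : ℤ) : ℝ)| ≤ Y := by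
    intro r hr
    obtain ⟨hPP, hrT⟩ := hS0 r hr
    obtain ⟨n1, n2, n3, n4⟩ := pp_frame tFr k S L hSC1 k2 hU i hi H hH A hA r hPP
    rw [hSC, ← hC'def, hwdef] at n3 n4
    obtain ⟨e1, e2, e3⟩ := fr_tf (S.g i) r.1
    obtain ⟨-, -, -, -, t, htA, cc, hcc, hlp⟩ := hPP
    obtain ⟨hd0, ht0⟩ := hAv t htA
    have hds : dsc r.1 = 0 := by
      rw [hlp, dsc_smul] at hd0
      rcases mul_eq_zero.1 hd0 with h | h
      · exact absurd (pow_eq_zero_iff (two_ne_zero) |>.1 h) hcc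
      · exact h
    have htf : tf r.1 ≠ 0 := by
      intro h
      apply ht0
      rw [hlp, tf_smul, h, smul_zero]
    have hdt : (tf r.1).det = 0 := by rw [tf_det, hds, neg_zero]
    refine ⟨htf, tf_trace _, hdt, hds, ?_⟩
    set x := fr (S.g i) (S.g i) (tf r.1) with hx
    set q : ℝ := 4 * C' ^ 2 * (T / S.K ^ 2) with hq
    have hq0 : 0 ≤ q := by positivity
    have hrT' : 2 * (2 * C' ^ 2 * (1 / S.K ^ 2) * (r.2 : ℝ)) ≤ q := by
      calc 2 * (2 * C' ^ 2 * (1 / S.K ^ 2) * (r.2 : ℝ)) = 4 * C' ^ 2 * (1 / S.K ^ 2) * (r.2 : ℝ) := by ring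
        _ ≤ 4 * C' ^ 2 * (1 / S.K ^ 2) * T := mul_le_mul_of_nonneg_left hrT (by positivity)
        _ = q := by rw [hq]; ring
    have f01 : |x 0 1| ≤ q := by
      rw [e2, abs_mul, abs_two]
      linarith
    have f10 : |x 1 0| ≤ q := by
      rw [e3, abs_mul, abs_two]
      linarith
    have hf11 : x 1 1 = - x 0 0 := by
      have h1 := fr_trace (S.g i) (tf r.1) hdet
      rw [tf_trace] at h1
      push_cast at h1
      linarith
    have hfd : x.det = 0 := by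
      have h1 := tFr.2.1 (S.g i) (S.g i) (tf r.1) hdet hdet
      rw [h1, hdt, Int.cast_zero]
    rw [Matrix.det_fin_two, hf11] at hfd
    have f00 : |x 0 0| ≤ q := by
      have h1 : x 0 0 ^ 2 = - (x 0 1 * x 1 0) := by linarith
      have h2 : x 0 0 ^ 2 ≤ q ^ 2 := by
        rw [h1]
        calc -(x 0 1 * x 1 0) ≤ |x 0 1 * x 1 0| := neg_le_abs _
          _ = |x 0 1| * |x 1 0| := abs_mul _ _
          _ ≤ q * q := mul_le_mul f01 f10 (abs_nonneg _) hq0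
          _ = q ^ 2 := by ring
      exact abs_le_of_sq_le_sq h2 hq0
    have hall : ∀ a b, |x a b| ≤ q := by
      intro a b
      fin_cases a <;> fin_cases b
      · exact f00
      · exact f01
      · exact f10
      · show |x 1 1| ≤ q
        rw [hf11, abs_neg]; exact f00
    intro a b
    have h1 := HSLow.tFb.2.2.2.2.2.2.1 R q (S.g i) (S.g i) (tf r.1) hdet hdet hent hent hall a b
    refine h1.trans (le_of_eq ?_)
    rw [hY, hc, hq]; ring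
  set W : Finset MZ := S0.image (fun r => tf r.1) with hW
  have hWc : (W.card : ℝ) ≤ CN * Y * (4 * Y ^ 2) ^ (ε / 48) := by
    refine hN Y hY0 W ?_
    intro v hvW
    obtain ⟨r, hr, rfl⟩ := Finset.mem_image.1 hvW
    obtain ⟨h1, h2, h3, -, h5⟩ := hv r hr
    exact ⟨h1, h2, h3, h5⟩
  -- fibres
  have hfib : ∀ v ∈ W, ((S0.filter (fun r => tf r.1 = v)).card : ℝ) ≤ 5 * T := by
    intro v hvW
    set F := S0.filter (fun r => tf r.1 = v) with hF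
    have hFm : ∀ r ∈ F, r ∈ S0 ∧ tf r.1 = v := fun r hr => Finset.mem_filter.1 hr
    have htr : ∀ r ∈ F, r.1.trace ^ 2 = (2 * (r.2 : ℤ)) ^ 2 := by
      intro r hr
      obtain ⟨h1, h2⟩ := hFm r hr
      have h3 := (hv r h1).2.2.2.1
      unfold dsc at h3
      rw [(hS0 r h1).1.2.2.1] at h3
      linarith
    have hinj : Set.InjOn (fun r : MZ × ℕ => r.1.trace) (F : Set (MZ × ℕ)) := by
      intro r hr r' hr' he
      have h1 := hFm r (Finset.mem_coe.1 hr)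
      have h2 := hFm r' (Finset.mem_coe.1 hr')
      have e1 : r.1 = r'.1 := ext_tf (h1.2.trans h2.2.symm) he
      have e2 := htr r (Finset.mem_coe.1 hr)
      have e3 := htr r' (Finset.mem_coe.1 hr')
      rw [e1] at e2
      have e4 : (2 * (r.2 : ℤ)) ^ 2 = (2 * (r'.2 : ℤ)) ^ 2 := by rw [← e2, ← e3]
      have e5 : (2 * (r.2 : ℤ)) = 2 * (r'.2 : ℤ) := by
        rcases sq_eq_sq_iff_eq_or_eq_neg.1 e4 with h | h
        · exact h
        · have h6 : (0 : ℤ) ≤ (r.2 : ℤ) := Int.natCast_nonneg _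
          have h7 : (0 : ℤ) ≤ (r'.2 : ℤ) := Int.natCast_nonneg _
          omega
      have e6 : r.2 = r'.2 := by omega
      exact Prod.ext e1 e6
    have hmaps : F.image (fun r : MZ × ℕ => r.1.trace) ⊆ Finset.Icc (-(2 * ⌊T⌋)) (2 * ⌊T⌋) := by
      intro z hz
      obtain ⟨r, hr, rfl⟩ := Finset.mem_image.1 hz
      have h1 := htr r hr
      have h2 : ((r.2 : ℤ)) ≤ ⌊T⌋ := Int.le_floor.2 (by
        push_cast
        exact (hS0 r (hFm r hr).1).2)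
      have h3 : |r.1.trace| ≤ 2 * (r.2 : ℤ) := by
        apply abs_le_of_sq_le_sq (le_of_eq h1)
        positivity
      rw [Finset.mem_Icc]
      have h4 := abs_le.1 h3
      constructor <;> linarith
    have h5 := Finset.card_le_card hmaps
    rw [Finset.card_image_of_injOn hinj, Int.card_Icc] at h5
    have h6 : 0 ≤ ⌊T⌋ := Int.floor_nonneg.2 hT0.le
    have h7 : (F.card : ℤ) ≤ 4 * ⌊T⌋ + 1 := by omega
    have h8 : (F.card : ℝ) ≤ 4 * (⌊T⌋ : ℝ) + 1 := by exact_mod_cast h7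
    have h9 := Int.floor_le T
    linarith
  have hsum : (S0.card : ℝ) = ∑ v ∈ W, ((S0.filter (fun r => tf r.1 = v)).card : ℝ) := by
    have h0 : S0.card = ∑ v ∈ W, (S0.filter (fun r => tf r.1 = v)).card :=
      Finset.card_eq_sum_card_fiberwise (fun r hr => Finset.mem_image_of_mem _ hr)
    rw [← Nat.cast_sum, ← h0]
  have hKT : T ≤ S.K ^ 6 := by
    calc T ≤ L ^ 2 := hTL
      _ ≤ (S.K ^ 3) ^ 2 := pow_le_pow_left₀ (by linarith) hL3 2
      _ = S.K ^ 6 := by ring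
  have hYK : 4 * Y ^ 2 ≤ 4 * c ^ 2 * S.K ^ 12 := by
    have h1 : Y ≤ c * S.K ^ 6 := by
      rw [hY]
      apply mul_le_mul_of_nonneg_left _ (by linarith)
      exact (div_le_self hT0.le (one_le_pow₀ k2)).trans hKT
    have h2 := pow_le_pow_left₀ hY0.le h1 2
    calc 4 * Y ^ 2 ≤ 4 * (c * S.K ^ 6) ^ 2 := by linarith
      _ = 4 * c ^ 2 * S.K ^ 12 := by ring
  have hZ : (4 * Y ^ 2) ^ (ε / 48) ≤ (4 * c ^ 2) ^ (ε / 48) * S.K ^ (ε / 4) := by
    calc (4 * Y ^ 2) ^ (ε / 48) ≤ (4 * c ^ 2 * S.K ^ 12) ^ (ε / 48) :=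
          Real.rpow_le_rpow (by positivity) hYK (by positivity)
      _ = (4 * c ^ 2) ^ (ε / 48) * S.K ^ (ε / 4) := by
          rw [Real.mul_rpow (by positivity) (by positivity), ← Real.rpow_natCast S.K 12,
            ← Real.rpow_mul hK0.le]
          congr 2
          push_cast; ring
  rw [hsum]
  calc ∑ v ∈ W, ((S0.filter (fun r => tf r.1 = v)).card : ℝ) ≤ ∑ _v ∈ W, 5 * T :=
        Finset.sum_le_sum hfib
    _ = (W.card : ℝ) * (5 * T) := by rw [Finset.sum_const, nsmul_eq_mul]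
    _ ≤ (CN * Y * (4 * Y ^ 2) ^ (ε / 48)) * (5 * T) := mul_le_mul_of_nonneg_right hWc (by positivity)
    _ ≤ (CN * Y * ((4 * c ^ 2) ^ (ε / 48) * S.K ^ (ε / 4))) * (5 * T) := by
        apply mul_le_mul_of_nonneg_right _ (by positivity)
        exact mul_le_mul_of_nonneg_left hZ (by positivity)
    _ = X * S.K ^ (ε / 4) * (T ^ 2 / S.K ^ 2) := by rw [hX, hY]; ring
    _ ≤ S.K ^ (ε / 4) * S.K ^ (ε / 4) * (L * T ^ (3 / 2 : ℝ) / S.K ^ 2) := by
        apply mul_le_mul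
        · exact mul_le_mul_of_nonneg_right hXK (by positivity)
        · exact div_le_div_of_nonneg_right p2 (by positivity)
        · positivity
        · positivity
    _ = M * T ^ (3 / 2 : ℝ) := by
        have : S.K ^ (ε / 2) = S.K ^ (ε / 4) * S.K ^ (ε / 4) := by
          rw [← Real.rpow_add hK0]; congr 1; ring
        rw [hM, this]; ring

/-- divisible return from `i` of level `m` with respect to `v` -/
def Dv' (S : Sys) (k : ℕ) (Q : Finset ℕ) (i : S.ι) (v : MZ) (t : S.ι × MZ) (m : ℕ) : Prop :=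
  t.1 ∈ S.V ∧ Prim t.2 ∧ 0 < m ∧ m.primeFactorsList.length ≤ 2 * k ∧
    (∀ p : ℕ, p.Prime → p ∣ m → p ∈ Q) ∧ Ret ((2 * S.C) ^ k) S.w (S.g i) (S.g t.1) m t.2 ∧
    ∀ a b, ((m : ℤ) ^ 2) ∣ (t.2 * v * t.2.adjugate) a b

/-- the divisible returns of one level -/
theorem level_card (S : Sys) (k : ℕ) (Q : Finset ℕ) (B : ℝ) (i : S.ι) (v : MZ) (hi : i ∈ S.V) (hB : 1 ≤ B)
    (hQ : ∀ p ∈ Q, ¬ (p : ℤ) ∣ 2 * v.det) (hO : S.Ovl ((2 * S.C) ^ k) B) (hv : v.trace = 0)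
    (m : ℕ) (W : Finset (S.ι × MZ)) (hW : ∀ u ∈ W, Dv' S k Q i v u m) :
    (W.card : ℝ) ≤ 2 ^ (4 * k) * B := by
  classical
  rcases W.eq_empty_or_nonempty with hemp | ⟨u₀, hu₀⟩
  · rw [hemp, Finset.card_empty]
    push_cast
    positivity
  obtain ⟨-, -, hm0, hlen, hmQ, -, -⟩ := hW u₀ hu₀
  have hcop : IsCoprime (2 * v.det) ((m ^ 2 : ℕ) : ℤ) := by
    rw [Int.isCoprime_iff_nat_coprime, Int.natAbs_natCast]
    apply Nat.Coprime.pow_right
    by_contra hc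
    obtain ⟨p, hp, h1, h2⟩ := Nat.Prime.not_coprime_iff_dvd.1 hc
    exact hQ p (hmQ p hp h2) (Int.natCast_dvd.2 h1)
  let rep : S.ι × MZ → MZ := fun u => (Quotient.mk eqv u.2).out
  have hrep : ∀ u : S.ι × MZ, ∃ γ : MZ, γ.det = 1 ∧ u.2 = γ * rep u := fun u =>
    Quotient.exact (s := eqv) (Quotient.out_eq (Quotient.mk eqv u.2))
  set T := W.image rep with hT
  have hfac : ∀ u ∈ W, Prim (rep u) ∧ (rep u).det = ((m ^ 2 : ℕ) : ℤ) ∧
      ∀ a b, ((m ^ 2 : ℕ) : ℤ) ∣ (rep u * v * (rep u).adjugate) a b := by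
    intro u hu
    obtain ⟨-, hP, -, -, -, hR, hd⟩ := hW u hu
    obtain ⟨γ, g1, g2⟩ := hrep u
    refine ⟨?_, ?_, ?_⟩
    · intro r hr
      apply hP r
      intro a b
      rw [g2, Matrix.mul_apply]
      exact Finset.dvd_sum (fun j _ => Dvd.dvd.mul_left (hr j b) _)
    · have e1 := hR.1
      rw [g2, Matrix.det_mul, g1, one_mul] at e1
      rw [e1]
      push_cast
      ring
    · have e2 : rep u = γ.adjugate * u.2 := by
        conv_rhs => rw [g2, ← Matrix.mul_assoc, Matrix.adjugate_mul, g1, one_smul, Matrix.one_mul]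
      have e3 : rep u * v * (rep u).adjugate = γ.adjugate * (u.2 * v * u.2.adjugate) * γ := by
        have e4 : (rep u).adjugate = u.2.adjugate * γ := by
          rw [e2, Matrix.adjugate_mul_distrib]
          congr 1
          have := Matrix.adjugate_adjugate' γ
          simpa using this
        rw [e4]
        conv_lhs => rw [e2]
        simp only [Matrix.mul_assoc]
      intro a b
      rw [e3]
      have e5 : ((m ^ 2 : ℕ) : ℤ) = (m : ℤ) ^ 2 := by push_cast; ring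
      rw [e5, Matrix.mul_apply]
      refine Finset.dvd_sum (fun j _ => Dvd.dvd.mul_right ?_ _)
      rw [Matrix.mul_apply]
      exact Finset.dvd_sum (fun j' _ => Dvd.dvd.mul_left (hd j' j) _)
  have hTc : T.card ≤ (m ^ 2).divisors.card := by
    refine Pool.Agent.A54.HSBd.tree_good (pow_pos hm0 2) hv hcop T ?_ ?_ ?_ ?_
    · intro h hh
      obtain ⟨u, hu, rfl⟩ := Finset.mem_image.1 hh
      exact (hfac u hu).1
    · intro h hh
      obtain ⟨u, hu, rfl⟩ := Finset.mem_image.1 hh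
      exact (hfac u hu).2.1
    · intro h hh
      obtain ⟨u, hu, rfl⟩ := Finset.mem_image.1 hh
      exact (hfac u hu).2.2
    · intro h hh h' hh' γ hγ hγ'
      obtain ⟨u, hu, rfl⟩ := Finset.mem_image.1 hh
      obtain ⟨u', hu', rfl⟩ := Finset.mem_image.1 hh'
      have e1 : Quotient.mk eqv (rep u) = Quotient.mk eqv (rep u') :=
        Quotient.sound (s := eqv) ⟨γ, hγ, hγ'⟩
      have e2 : Quotient.mk eqv (rep u) = Quotient.mk eqv u.2 := Quotient.out_eq _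
      have e3 : Quotient.mk eqv (rep u') = Quotient.mk eqv u'.2 := Quotient.out_eq _
      show (Quotient.mk eqv u.2).out = (Quotient.mk eqv u'.2).out
      rw [← e2, ← e3, e1]
  have hTd : (T.card : ℝ) ≤ 2 ^ (4 * k) := by
    have h1 : (m ^ 2).divisors.card ≤ 2 ^ (4 * k) := by
      refine (card_divisors_le _ (pow_ne_zero _ hm0.ne')).trans ?_
      refine Nat.pow_le_pow_right (by norm_num) ?_
      rw [pow_two, length_mul hm0.ne' hm0.ne']
      omega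
    exact_mod_cast hTc.trans h1
  have h1 : W.card = ∑ N ∈ T, (W.filter (fun u => rep u = N)).card :=
    Finset.card_eq_sum_card_fiberwise (fun u hu => Finset.mem_coe.2
      (Finset.mem_image_of_mem rep (Finset.mem_coe.1 hu)))
  have h2 : ∀ N ∈ T, ((W.filter (fun u => rep u = N)).card : ℝ) ≤ B := by
    intro N hN
    obtain ⟨u₁, hu₁, hN1⟩ := Finset.mem_image.1 hN
    choose γ hγ1 hγ2 using hrep
    have hNdet : N.det = (m : ℤ) ^ 2 := by
      rw [← hN1, (hfac u₁ hu₁).2.1]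
      push_cast
      ring
    have h3 : (W.filter (fun u => rep u = N)).card =
        ((W.filter (fun u => rep u = N)).image (fun u => (u.1, γ u))).card := by
      rw [Finset.card_image_of_injOn]
      intro u hu w hw huw
      obtain ⟨hu4, hu5⟩ := Finset.mem_filter.1 (Finset.mem_coe.1 hu)
      obtain ⟨hv4, hv5⟩ := Finset.mem_filter.1 (Finset.mem_coe.1 hw)
      have e1 := (Prod.mk.inj huw).1
      have e2 := (Prod.mk.inj huw).2
      refine Prod.ext e1 ?_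
      rw [hγ2 u, hγ2 w, e2, hu5, hv5]
    rw [h3]
    refine hO i hi N m hNdet hm0 _ ?_
    intro t ht
    obtain ⟨u, hu, rfl⟩ := Finset.mem_image.1 ht
    obtain ⟨hu4, hu5⟩ := Finset.mem_filter.1 hu
    obtain ⟨hV, -, -, -, -, hR, -⟩ := hW u hu4
    refine ⟨hV, hγ1 u, ?_⟩
    show Ret ((2 * S.C) ^ k) S.w (S.g i) (S.g u.1) m (γ u * N)
    rw [← hu5, ← hγ2 u]
    exact hR
  rw [h1]
  push_cast
  calc ∑ N ∈ T, ((W.filter (fun u => rep u = N)).card : ℝ) ≤ ∑ _N ∈ T, B := Finset.sum_le_sum h2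
    _ = (T.card : ℝ) * B := by rw [Finset.sum_const, nsmul_eq_mul]
    _ ≤ 2 ^ (4 * k) * B := mul_le_mul_of_nonneg_right hTd (by linarith)

/-- all divisible returns of level `<= L` -/
theorem div_card (S : Sys) (k : ℕ) (Q : Finset ℕ) (B L : ℝ) (i : S.ι) (v : MZ) (hi : i ∈ S.V) (hB : 1 ≤ B)
    (hL : 1 ≤ L) (hQ : ∀ p ∈ Q, ¬ (p : ℤ) ∣ 2 * v.det) (hO : S.Ovl ((2 * S.C) ^ k) B) (hv : v.trace = 0)
    (W : Finset (S.ι × MZ)) (hW : ∀ u ∈ W, ∃ m : ℕ, Dv' S k Q i v u m ∧ (m : ℝ) ≤ L) :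
    (W.card : ℝ) ≤ L * (2 ^ (4 * k) * B) := by
  classical
  choose! lv h1 h2 using hW
  set n := ⌊L⌋₊ with hn
  have hmaps : ∀ u ∈ W, lv u ∈ Finset.Ioc 0 n := by
    intro u hu
    rw [Finset.mem_Ioc]
    exact ⟨(h1 u hu).2.2.1, Nat.le_floor (h2 u hu)⟩
  have hsum : (W.card : ℝ) = ∑ m ∈ Finset.Ioc 0 n, ((W.filter (fun u => lv u = m)).card : ℝ) := by
    have e := Finset.card_eq_sum_card_fiberwise (s := W) (t := Finset.Ioc 0 n) (f := lv)
      (fun u hu => Finset.mem_coe.2 (hmaps u (Finset.mem_coe.1 hu)))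
    rw [e]
    push_cast
    rfl
  rw [hsum]
  calc ∑ m ∈ Finset.Ioc 0 n, ((W.filter (fun u => lv u = m)).card : ℝ)
      ≤ ∑ _m ∈ Finset.Ioc 0 n, (2 ^ (4 * k) * B) := by
        apply Finset.sum_le_sum
        intro m _
        refine level_card S k Q B i v hi hB hQ hO hv m _ ?_
        intro u hu
        obtain ⟨e1, e2⟩ := Finset.mem_filter.1 hu
        rw [← e2]
        exact h1 u e1
    _ = (n : ℝ) * (2 ^ (4 * k) * B) := by
        rw [Finset.sum_const, nsmul_eq_mul, Nat.card_Ioc, Nat.sub_zero]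
    _ ≤ L * (2 ^ (4 * k) * B) :=
        mul_le_mul_of_nonneg_right (Nat.floor_le (by linarith)) (by positivity)

/-- a parallel return is divisible -/
theorem par_div {vx vy h : MZ} {m : ℕ} {c c' : ℤ} (hvx : vx.trace = 0) (hvy : vy.trace = 0) (hPy : Prim vy)
    (hd : h.det = (m : ℤ) ^ 2) (hc : c ≠ 0)
    (h1 : c • (h * vx * h.adjugate) = ((m : ℤ) ^ 2 * c') • vy)
    (hcop : ∀ p : ℕ, p.Prime → p ∣ m → ¬ (p : ℤ) ∣ vy.det) :
    ∀ a b, ((m : ℤ) ^ 2) ∣ (h * vx * h.adjugate) a b := by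
  set X := h * vx * h.adjugate with hX
  have hXt : X.trace = 0 := by
    rw [hX, Matrix.trace_mul_comm, ← Matrix.mul_assoc, Matrix.adjugate_mul, Matrix.smul_mul,
      Matrix.one_mul, Matrix.trace_smul, hvx, smul_zero]
  -- X is parallel to vy
  have hpar : brk X vy = 0 := by
    have e1 : c • brk X vy = 0 := by
      have g1 : c • (X * vy) = (c • X) * vy := (Matrix.smul_mul c X vy).symm
      have g2 : c • (vy * X) = vy * (c • X) := (Matrix.mul_smul vy c X).symm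
      unfold brk
      rw [smul_sub, g1, g2, h1, Matrix.smul_mul, Matrix.mul_smul, sub_self]
    exact (smul_eq_zero.1 e1).resolve_left hc
  have hpar' : brk vy X = 0 := by
    unfold brk at hpar ⊢
    rw [← neg_sub, hpar, neg_zero]
  obtain ⟨e, he⟩ := HSLow.tPar.1 vy X hvy hXt hPy hpar'
  -- determinants
  have hdX : X.det = (m : ℤ) ^ 4 * vx.det := by
    rw [hX, Matrix.det_mul, Matrix.det_mul, Matrix.det_adjugate, hd]
    simp
    ring
  have hdX' : X.det = e ^ 2 * vy.det := by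
    rw [he, Matrix.det_smul, Fintype.card_fin]
  have hcopm : IsCoprime ((m : ℤ) ^ 4) vy.det := by
    apply IsCoprime.pow_left
    rw [Int.isCoprime_iff_nat_coprime, Int.natAbs_natCast]
    by_contra hcc
    obtain ⟨p, hp, h2, h3⟩ := Nat.Prime.not_coprime_iff_dvd.1 hcc
    exact hcop p hp h2 (Int.natCast_dvd.2 h3)
  have hdvd : (m : ℤ) ^ 4 ∣ e ^ 2 := by
    apply hcopm.dvd_of_dvd_mul_right
    rw [← hdX', hdX]
    exact dvd_mul_right _ _
  have hdvd2 : ((m : ℤ) ^ 2) ∣ e := by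
    have h4 : ((m : ℤ) ^ 2) ^ 2 ∣ e ^ 2 := by
      have : ((m : ℤ) ^ 2) ^ 2 = (m : ℤ) ^ 4 := by ring
      rw [this]; exact hdvd
    exact (Int.pow_dvd_pow_iff two_ne_zero).1 h4
  intro a b
  rw [he, Matrix.smul_apply, smul_eq_mul]
  exact Dvd.dvd.mul_right hdvd2 _

/-- pairs of returns with the same source and target -/
noncomputable def PQ {ι : Type} (T : Finset (ι × ι × MZ)) : Finset ((ι × ι × MZ) × (ι × ι × MZ)) := by
  classical
  exact (T ×ˢ T).filter (fun t => t.1.1 = t.2.1 ∧ t.1.2.1 = t.2.2.1)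

theorem mem_PQ {ι : Type} {T : Finset (ι × ι × MZ)} {t : (ι × ι × MZ) × (ι × ι × MZ)} :
    t ∈ PQ T ↔ t.1 ∈ T ∧ t.2 ∈ T ∧ t.1.1 = t.2.1 ∧ t.1.2.1 = t.2.2.1 := by
  classical
  simp only [PQ, Finset.mem_filter, Finset.mem_product, and_assoc]

open Classical in
/-- the returns from `x` -/
noncomputable def HX {ι : Type} (T : Finset (ι × ι × MZ)) (x : ι) : Finset (ι × MZ) :=
  (T.filter (fun t => t.1 = x)).image (fun t => t.2)

theorem mem_HX {ι : Type} {T : Finset (ι × ι × MZ)} {x : ι} {u : ι × MZ} :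
    u ∈ HX T x ↔ (x, u) ∈ T := by
  classical
  unfold HX
  rw [Finset.mem_image]
  constructor
  · rintro ⟨t, ht, rfl⟩
    obtain ⟨h1, h2⟩ := Finset.mem_filter.1 ht
    rw [← h2]
    exact h1
  · intro h
    exact ⟨(x, u), Finset.mem_filter.2 ⟨h, rfl⟩, rfl⟩

/-- **sum over the sources** -/
theorem fib_bound {ι : Type} (V : Finset ι) (T : Finset (ι × ι × MZ)) (hV : ∀ t ∈ T, t.1 ∈ V)
    (P : Finset ((ι × ι × MZ) × (ι × ι × MZ))) (hP : P ⊆ PQ T) (f : ι → ℝ)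
    (h : ∀ x ∈ V, ∀ A : Finset ((ι × MZ) × (ι × MZ)), A ⊆ prs (HX T x) →
      (∀ u ∈ A, ((x, u.1), (x, u.2)) ∈ P) → (A.card : ℝ) ≤ f x) :
    (P.card : ℝ) ≤ ∑ x ∈ V, f x := by
  classical
  have hsum : (P.card : ℝ) = ∑ x ∈ V, ((P.filter (fun t => t.1.1 = x)).card : ℝ) := by
    have e := Finset.card_eq_sum_card_fiberwise (s := P) (t := V) (f := fun t => t.1.1)
      (fun t ht => Finset.mem_coe.2 (hV _ (mem_PQ.1 (hP (Finset.mem_coe.1 ht))).1))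
    rw [e]
    push_cast
    rfl
  rw [hsum]
  apply Finset.sum_le_sum
  intro x hx
  set F := P.filter (fun t => t.1.1 = x) with hF
  have hFm : ∀ t ∈ F, t ∈ P ∧ t.1.1 = x ∧ t.2.1 = x := by
    intro t ht
    obtain ⟨h1, h2⟩ := Finset.mem_filter.1 ht
    exact ⟨h1, h2, by rw [← (mem_PQ.1 (hP h1)).2.2.1]; exact h2⟩
  have hinj : Set.InjOn (fun t : (ι × ι × MZ) × (ι × ι × MZ) => (t.1.2, t.2.2))
      (F : Set ((ι × ι × MZ) × (ι × ι × MZ))) := by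
    intro t ht t' ht' he
    obtain ⟨-, a1, a2⟩ := hFm t (Finset.mem_coe.1 ht)
    obtain ⟨-, b1, b2⟩ := hFm t' (Finset.mem_coe.1 ht')
    have e1 := (Prod.mk.inj he).1
    have e2 := (Prod.mk.inj he).2
    exact Prod.ext (Prod.ext (a1.trans b1.symm) e1) (Prod.ext (a2.trans b2.symm) e2)
  rw [← Finset.card_image_of_injOn hinj]
  refine h x hx _ ?_ ?_
  · intro u hu
    obtain ⟨t, ht, rfl⟩ := Finset.mem_image.1 hu
    obtain ⟨a0, a1, a2⟩ := hFm t ht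
    obtain ⟨b1, b2, b3, b4⟩ := mem_PQ.1 (hP a0)
    rw [HSL.mem_prs, mem_HX, mem_HX]
    refine ⟨?_, ?_, b4⟩
    · rw [← a1]; exact b1
    · rw [← a2]; exact b2
  · intro u hu
    obtain ⟨t, ht, rfl⟩ := Finset.mem_image.1 hu
    obtain ⟨a0, a1, a2⟩ := hFm t ht
    have e : ((x, t.1.2), (x, t.2.2)) = t :=
      Prod.ext (Prod.ext a1.symm rfl) (Prod.ext a2.symm rfl)
    show ((x, t.1.2), (x, t.2.2)) ∈ P
    rw [e]
    exact a0

/-- Cauchy-Schwarz twice -/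
theorem cs_T {ι : Type} (V : Finset ι) (T : Finset (ι × ι × MZ)) (hV : ∀ t ∈ T, t.1 ∈ V ∧ t.2.1 ∈ V) :
    (T.card : ℝ) ^ 2 ≤ (V.card : ℝ) ^ 2 * ((PQ T).card : ℝ) := by
  classical
  have h1 : (T.card : ℝ) ^ 2 ≤ ((V ×ˢ V).card : ℝ) * ((PQ T).card : ℝ) := by
    -- the function `(x,y) ↦ n_xy`
    set n : ι × ι → ℕ := fun p => (T.filter (fun t => (t.1, t.2.1) = p)).card with hn
    have e1 : T.card = ∑ p ∈ V ×ˢ V, n p :=
      Finset.card_eq_sum_card_fiberwise (fun t ht => by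
        have := hV t (Finset.mem_coe.1 ht)
        exact Finset.mem_coe.2 (Finset.mem_product.2 ⟨this.1, this.2⟩))
    have e2 : (PQ T).card = ∑ p ∈ V ×ˢ V, n p ^ 2 := by
      have e3 : (PQ T).card = ∑ p ∈ V ×ˢ V, ((PQ T).filter (fun t => (t.1.1, t.1.2.1) = p)).card :=
        Finset.card_eq_sum_card_fiberwise (fun t ht => by
          have h2 := mem_PQ.1 (Finset.mem_coe.1 ht)
          have := hV t.1 h2.1
          exact Finset.mem_coe.2 (Finset.mem_product.2 ⟨this.1, this.2⟩))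
      rw [e3]
      apply Finset.sum_congr rfl
      intro p _
      have e4 : (PQ T).filter (fun t => (t.1.1, t.1.2.1) = p) =
          (T.filter (fun t => (t.1, t.2.1) = p)) ×ˢ (T.filter (fun t => (t.1, t.2.1) = p)) := by
        ext t
        rw [Finset.mem_filter, mem_PQ, Finset.mem_product, Finset.mem_filter, Finset.mem_filter]
        constructor
        · rintro ⟨⟨a1, a2, a3, a4⟩, a5⟩
          exact ⟨⟨a1, a5⟩, a2, by rw [← a3, ← a4]; exact a5⟩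
        · rintro ⟨⟨a1, a2⟩, a3, a4⟩
          have a5 := a2.trans a4.symm
          exact ⟨⟨a1, a3, (Prod.mk.inj a5).1, (Prod.mk.inj a5).2⟩, a2⟩
      rw [e4, Finset.card_product, sq]
    have e5 := Finset.sum_mul_sq_le_sq_mul_sq (V ×ˢ V) (fun _ => (1 : ℝ)) (fun p => (n p : ℝ))
    simp only [one_mul, one_pow, Finset.sum_const, nsmul_eq_mul, mul_one] at e5
    have e6 : (T.card : ℝ) = ∑ p ∈ V ×ˢ V, (n p : ℝ) := by
      rw [e1]; push_cast; rfl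
    have e7 : ((PQ T).card : ℝ) = ∑ p ∈ V ×ˢ V, (n p : ℝ) ^ 2 := by
      rw [e2]; push_cast; rfl
    rw [e6, e7]
    exact e5
  rw [Finset.card_product] at h1
  push_cast at h1
  calc (T.card : ℝ) ^ 2 ≤ (V.card : ℝ) * (V.card : ℝ) * ((PQ T).card : ℝ) := h1
    _ = _ := by ring

/-- the hypotheses on the returns -/
def TH (S : Sys) (k : ℕ) (L : ℝ) (Q : Finset ℕ) (T : Finset (S.ι × S.ι × MZ)) : Prop :=
  ∀ t ∈ T, t.1 ∈ S.V ∧ t.2.1 ∈ S.V ∧ Prim t.2.2 ∧ ∃ m : ℕ,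
    Ret ((2 * S.C) ^ k) S.w (S.g t.1) (S.g t.2.1) m t.2.2 ∧ (m : ℝ) ≤ L ∧
    m.primeFactorsList.length ≤ 2 * k ∧ ∀ p : ℕ, p.Prime → p ∣ m → p ∈ Q

/-- a pair which is parallel at both ends consists of divisible returns -/
theorem type_c {S : Sys} {k : ℕ} {L : ℝ} {Q : Finset ℕ} {T : Finset (S.ι × S.ι × MZ)} (hT : TH S k L Q T)
    {v : S.ι → MZ} (hv : ∀ i ∈ S.V, Prim (v i) ∧ (v i).trace = 0 ∧
      ((v i).det = 0 ∨ ∀ p ∈ Q, ¬ (p : ℤ) ∣ 2 * (v i).det))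
    {x y : S.ι} {h h' : MZ} (h1 : (x, y, h) ∈ T) (h2 : (x, y, h') ∈ T)
    (hd : dsc (h'.adjugate * h) ≠ 0) (hb : brk (tf (h'.adjugate * h)) (v x) = 0)
    (hb' : brk (tf (h * h'.adjugate)) (v y) = 0) :
    (∀ p ∈ Q, ¬ (p : ℤ) ∣ 2 * (v x).det) ∧ (∃ m : ℕ, Dv' S k Q x (v x) (y, h) m ∧ (m : ℝ) ≤ L) ∧
      ∃ m : ℕ, Dv' S k Q x (v x) (y, h') m ∧ (m : ℝ) ≤ L := by
  obtain ⟨a1, a2, a3, m, a4, a5, a6, a7⟩ := hT _ h1
  obtain ⟨-, -, b3, m', b4, b5, b6, b7⟩ := hT _ h2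
  simp only at a1 a2 a3 a4 b3 b4
  obtain ⟨hpx, htx, hqx⟩ := hv x a1
  obtain ⟨hpy, hty, hqy⟩ := hv y a2
  have hbs : ∀ s s' : MZ, brk s s' = 0 → brk s' s = 0 := by
    intro s s' h
    unfold brk at h ⊢
    rw [← neg_sub, h, neg_zero]
  obtain ⟨c, hc⟩ := HSLow.tPar.1 (v x) _ htx (HSL.tf_trace _) hpx (hbs _ _ hb)
  obtain ⟨c', hc'⟩ := HSLow.tPar.1 (v y) _ hty (HSL.tf_trace _) hpy (hbs _ _ hb')
  -- the discriminant of the other loop
  have hdd : dsc (h * h'.adjugate) = dsc (h'.adjugate * h) := by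
    unfold dsc
    rw [Matrix.trace_mul_comm h h'.adjugate, Matrix.det_mul, Matrix.det_mul, mul_comm h.det]
  have e1 : c ^ 2 * (v x).det ≠ 0 := by
    have g : (tf (h'.adjugate * h)).det = c ^ 2 * (v x).det := by
      rw [hc, Matrix.det_smul, Fintype.card_fin]
    rw [← g, HSL.tf_det]
    exact neg_ne_zero.2 hd
  have e2 : c' ^ 2 * (v y).det ≠ 0 := by
    have g : (tf (h * h'.adjugate)).det = c' ^ 2 * (v y).det := by
      rw [hc', Matrix.det_smul, Fintype.card_fin]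
    rw [← g, HSL.tf_det, hdd]
    exact neg_ne_zero.2 hd
  have hcx : (v x).det ≠ 0 := right_ne_zero_of_mul e1
  have hcy : (v y).det ≠ 0 := right_ne_zero_of_mul e2
  have hc0 : c ≠ 0 := fun h => e1 (by rw [h]; ring)
  have hQx : ∀ p ∈ Q, ¬ (p : ℤ) ∣ 2 * (v x).det := hqx.resolve_left hcx
  have hQy : ∀ p ∈ Q, ¬ (p : ℤ) ∣ 2 * (v y).det := hqy.resolve_left hcy
  have key1 : c • (h * v x * h.adjugate) = ((m : ℤ) ^ 2 * c') • v y := by
    have g := HSLow.tPa.1 h h'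
    rw [hc, hc', a4.1] at g
    rw [Matrix.mul_smul, Matrix.smul_mul, smul_smul] at g
    exact g
  have key2 : c • (h' * v x * h'.adjugate) = ((m' : ℤ) ^ 2 * c') • v y := by
    have g := HSLow.tPa.2.1 h h'
    rw [hc, hc', b4.1] at g
    rw [Matrix.mul_smul, Matrix.smul_mul, smul_smul] at g
    exact g
  refine ⟨hQx, ⟨m, ⟨a2, a3, a4.2.1, a6, a7, a4, ?_⟩, a5⟩, ⟨m', ⟨a2, b3, b4.2.1, b6, b7, b4, ?_⟩, b5⟩⟩
  · refine par_div htx hty hpy a4.1 hc0 key1 ?_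
    intro p hp hpm hpd
    exact hQy p (a7 p hp hpm) (Dvd.dvd.mul_left hpd 2)
  · refine par_div htx hty hpy b4.1 hc0 key2 ?_
    intro p hp hpm hpd
    exact hQy p (b7 p hp hpm) (Dvd.dvd.mul_left hpd 2)

/-- the loop at the source -/
def l1 {ι : Type} (t : (ι × ι × MZ) × (ι × ι × MZ)) : MZ := t.2.2.2.adjugate * t.1.2.2

/-- the loop at the target -/
def l2 {ι : Type} (t : (ι × ι × MZ) × (ι × ι × MZ)) : MZ := t.1.2.2 * t.2.2.2.adjugate

theorem l1_mk {ι : Type} (x : ι) (u : (ι × MZ) × (ι × MZ)) : l1 ((x, u.1), (x, u.2)) = lp u := rfl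

/-- the sum over the sources for a class of pairs -/
theorem cls_bound {ι : Type} (V : Finset ι) (T : Finset (ι × ι × MZ)) (hV : ∀ t ∈ T, t.1 ∈ V)
    (q : (ι × ι × MZ) × (ι × ι × MZ) → Prop) [DecidablePred q] (f : ι → ℝ)
    (h : ∀ x ∈ V, ∀ A : Finset ((ι × MZ) × (ι × MZ)), A ⊆ prs (HX T x) →
      (∀ u ∈ A, q ((x, u.1), (x, u.2)) ∧ ((x, u.1), (x, u.2)) ∈ PQ T) → (A.card : ℝ) ≤ f x) :
    (((PQ T).filter q).card : ℝ) ≤ ∑ x ∈ V, f x := by
  refine fib_bound V T hV _ (Finset.filter_subset _ _) f ?_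
  intro x hx A hA hAP
  refine h x hx A hA ?_
  intro u hu
  have h1 := Finset.mem_filter.1 (hAP u hu)
  exact ⟨h1.2, h1.1⟩

theorem adjadj (s : MZ) : s.adjugate.adjugate = s := by
  ext i j
  fin_cases i <;> fin_cases j <;> simp [Matrix.adjugate_fin_two]

theorem dsc_adj (z : MZ) : dsc z.adjugate = dsc z := by
  unfold dsc
  rw [Matrix.det_adjugate, Matrix.trace_fin_two, Matrix.trace_fin_two]
  simp [Matrix.adjugate_fin_two]
  ring

/-- reversing a pair -/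
def rv {ι : Type} (t : (ι × ι × MZ) × (ι × ι × MZ)) : (ι × ι × MZ) × (ι × ι × MZ) :=
  ((t.1.2.1, t.1.1, t.1.2.2.adjugate), (t.2.2.1, t.2.1, t.2.2.2.adjugate))

theorem l1_rv {ι : Type} (t : (ι × ι × MZ) × (ι × ι × MZ)) : l1 (rv t) = (l2 t).adjugate := by
  unfold l1 l2 rv
  simp only
  rw [Matrix.adjugate_mul_distrib]

theorem dsc_l2 {ι : Type} (t : (ι × ι × MZ) × (ι × ι × MZ)) : dsc (l2 t) = dsc (l1 t) := by
  unfold l1 l2 dsc
  rw [Matrix.trace_mul_comm t.1.2.2 t.2.2.2.adjugate, Matrix.det_mul, Matrix.det_mul]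
  ring

theorem rv_inj {ι : Type} : Function.Injective (rv (ι := ι)) := by
  intro t t' he
  unfold rv at he
  have e1 := (Prod.mk.inj he).1
  have e2 := (Prod.mk.inj he).2
  obtain ⟨f1, f2⟩ := Prod.mk.inj e1
  obtain ⟨f3, f4⟩ := Prod.mk.inj f2
  obtain ⟨f5, f6⟩ := Prod.mk.inj e2
  obtain ⟨f7, f8⟩ := Prod.mk.inj f6
  have g1 : t.1.2.2 = t'.1.2.2 := by rw [← adjadj t.1.2.2, f4, adjadj]
  have g2 : t.2.2.2 = t'.2.2.2 := by rw [← adjadj t.2.2.2, f8, adjadj]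
  exact Prod.ext (Prod.ext f3 (Prod.ext f1 g1)) (Prod.ext f7 (Prod.ext f5 g2))

theorem brk_neg (s v : MZ) : brk (-s) v = - brk s v := by
  unfold brk
  rw [Matrix.neg_mul, Matrix.mul_neg]
  abel

open Classical in
/-- the class of the reversed pairs -/
theorem rev_bound {ι : Type} (T : Finset (ι × ι × MZ)) (v : ι → MZ)
    (hsym : ∀ t ∈ T, (t.2.1, t.1, t.2.2.adjugate) ∈ T) :
    ((PQ T).filter (fun t => dsc (l1 t) ≠ 0 ∧ brk (tf (l2 t)) (v t.1.2.1) ≠ 0)).card ≤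
      ((PQ T).filter (fun t => dsc (l1 t) ≠ 0 ∧ brk (tf (l1 t)) (v t.1.1) ≠ 0)).card := by
  apply Finset.card_le_card_of_injOn rv
  · intro t ht
    obtain ⟨a1, a2, a3⟩ := Finset.mem_filter.1 (Finset.mem_coe.1 ht)
    obtain ⟨b1, b2, b3, b4⟩ := mem_PQ.1 a1
    refine Finset.mem_coe.2 (Finset.mem_filter.2 ⟨mem_PQ.2 ⟨hsym _ b1, hsym _ b2, b4, b3⟩, ?_, ?_⟩)
    · rw [l1_rv, dsc_adj, dsc_l2]
      exact a2
    · rw [l1_rv, (HSLow.tPa.2.2.1 _).2, brk_neg]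
      exact neg_ne_zero.2 a3
  · exact rv_inj.injOn

open Classical in
/-- scalar loops -/
theorem sc_bound (S : Sys) (k : ℕ) (L : ℝ) (Q : Finset ℕ) (T : Finset (S.ι × S.ι × MZ)) (hT : TH S k L Q T) :
    (((PQ T).filter (fun t => tf (l1 t) = 0)).card : ℝ) ≤ 2 * (T.card : ℝ) := by
  have hV1 : ∀ t ∈ T, t.1 ∈ S.V := fun t ht => (hT t ht).1
  have h1 := cls_bound S.V T hV1 (fun t => tf (l1 t) = 0) (fun x => 2 * ((HX T x).card : ℝ)) (by
    intro x hx A hA hAP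
    refine tCL0 S.ι (HX T x) A ?_ hA ?_
    · intro u hu
      rw [mem_HX] at hu
      obtain ⟨-, -, a2, m, a3, -, -, -⟩ := hT _ hu
      refine ⟨a2, ?_⟩
      rw [a3.1]
      have := a3.2.1
      positivity
    · intro u hu
      exact (hAP u hu).1)
  have h2 : (T.card : ℝ) = ∑ x ∈ S.V, ((HX T x).card : ℝ) := by
    have e := Finset.card_eq_sum_card_fiberwise (s := T) (t := S.V) (f := fun t => t.1)
      (fun t ht => Finset.mem_coe.2 (hV1 t (Finset.mem_coe.1 ht)))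
    rw [e]
    push_cast
    apply Finset.sum_congr rfl
    intro x _
    unfold HX
    rw [Finset.card_image_of_injOn]
    intro t ht t' ht' he
    have a1 := (Finset.mem_filter.1 (Finset.mem_coe.1 ht)).2
    have a2 := (Finset.mem_filter.1 (Finset.mem_coe.1 ht')).2
    exact Prod.ext (a1.trans a2.symm) he
  rw [h2, Finset.mul_sum]
  exact h1

theorem hk_of (S : Sys) (k : ℕ) (L : ℝ) (Q : Finset ℕ) (T : Finset (S.ι × S.ι × MZ)) (hT : TH S k L Q T)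
    (x : S.ι) : Hk S k L x (HX T x) := by
  intro u hu
  rw [mem_HX] at hu
  obtain ⟨-, a2, a3, m, a4, a5, a6, -⟩ := hT _ hu
  exact ⟨a2, a3, m, a4, a5, a6⟩

open Classical in
/-- pairs parallel at both ends -/
theorem c_bound (S : Sys) (k : ℕ) (B L : ℝ) (Q : Finset ℕ) (T : Finset (S.ι × S.ι × MZ)) (hT : TH S k L Q T)
    (hB : 1 ≤ B) (hL : 1 ≤ L) (hO : S.Ovl ((2 * S.C) ^ k) B) {v : S.ι → MZ}
    (hv : ∀ i ∈ S.V, Prim (v i) ∧ (v i).trace = 0 ∧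
      ((v i).det = 0 ∨ ∀ p ∈ Q, ¬ (p : ℤ) ∣ 2 * (v i).det)) :
    (((PQ T).filter (fun t => dsc (l1 t) ≠ 0 ∧ brk (tf (l1 t)) (v t.1.1) = 0 ∧
      brk (tf (l2 t)) (v t.1.2.1) = 0)).card : ℝ) ≤ (S.V.card : ℝ) * (L * (2 ^ (4 * k) * B)) ^ 2 := by
  have hV1 : ∀ t ∈ T, t.1 ∈ S.V := fun t ht => (hT t ht).1
  have h1 := cls_bound S.V T hV1 (fun t => dsc (l1 t) ≠ 0 ∧ brk (tf (l1 t)) (v t.1.1) = 0 ∧
      brk (tf (l2 t)) (v t.1.2.1) = 0) (fun _ => (L * (2 ^ (4 * k) * B)) ^ 2) (by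
    intro x hx A hA hAP
    rcases A.eq_empty_or_nonempty with hemp | ⟨u₀, hu₀⟩
    · rw [hemp, Finset.card_empty]
      push_cast
      positivity
    have hty : ∀ u ∈ A, (∀ p ∈ Q, ¬ (p : ℤ) ∣ 2 * (v x).det) ∧
        (∃ m : ℕ, Dv' S k Q x (v x) u.1 m ∧ (m : ℝ) ≤ L) ∧
        ∃ m : ℕ, Dv' S k Q x (v x) u.2 m ∧ (m : ℝ) ≤ L := by
      intro u hu
      obtain ⟨⟨a2, a3, a4⟩, a1⟩ := hAP u hu
      obtain ⟨b1, b2, -, b4⟩ := mem_PQ.1 a1
      have b4' : u.1.1 = u.2.1 := b4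
      have b1' : (x, u.1.1, u.1.2) ∈ T := b1
      have b2' : (x, u.1.1, u.2.2) ∈ T := by rw [b4']; exact b2
      obtain ⟨q1, q2, q3⟩ := type_c hT hv b1' b2' a2 a3 a4
      refine ⟨q1, q2, ?_⟩
      have e : (u.1.1, u.2.2) = u.2 := Prod.ext b4' rfl
      rw [e] at q3
      exact q3
    have hQx := (hty u₀ hu₀).1
    have htx := (hv x hx).2.1
    have d1 := div_card S k Q B L x (v x) hx hB hL hQx hO htx (A.image Prod.fst) (by
      intro u hu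
      obtain ⟨t, ht, rfl⟩ := Finset.mem_image.1 hu
      exact (hty t ht).2.1)
    have d2 := div_card S k Q B L x (v x) hx hB hL hQx hO htx (A.image Prod.snd) (by
      intro u hu
      obtain ⟨t, ht, rfl⟩ := Finset.mem_image.1 hu
      exact (hty t ht).2.2)
    have hsub : A ⊆ (A.image Prod.fst) ×ˢ (A.image Prod.snd) := by
      intro t ht
      rw [Finset.mem_product]
      exact ⟨Finset.mem_image_of_mem _ ht, Finset.mem_image_of_mem _ ht⟩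
    have c3 := Finset.card_le_card hsub
    rw [Finset.card_product] at c3
    calc (A.card : ℝ) ≤ ((A.image Prod.fst).card : ℝ) * ((A.image Prod.snd).card : ℝ) := by
          exact_mod_cast c3
      _ ≤ (L * (2 ^ (4 * k) * B)) * (L * (2 ^ (4 * k) * B)) :=
          mul_le_mul d1 d2 (Nat.cast_nonneg _) (by positivity)
      _ = (L * (2 ^ (4 * k) * B)) ^ 2 := by ring)
  rw [Finset.sum_const, nsmul_eq_mul] at h1
  exact h1

open Classical in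
/-- the partition of the pairs -/
theorem cover {ι : Type} (T : Finset (ι × ι × MZ)) (v : ι → MZ) :
    ((PQ T).card : ℝ) ≤ (((PQ T).filter (fun t => tf (l1 t) = 0)).card : ℝ) +
      ((((PQ T).filter (fun t => dsc (l1 t) = 0 ∧ tf (l1 t) ≠ 0)).card : ℝ) +
      ((((PQ T).filter (fun t => dsc (l1 t) ≠ 0 ∧ brk (tf (l1 t)) (v t.1.1) ≠ 0)).card : ℝ) +
      ((((PQ T).filter (fun t => dsc (l1 t) ≠ 0 ∧ brk (tf (l2 t)) (v t.1.2.1) ≠ 0)).card : ℝ) +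
      (((PQ T).filter (fun t => dsc (l1 t) ≠ 0 ∧ brk (tf (l1 t)) (v t.1.1) = 0 ∧
        brk (tf (l2 t)) (v t.1.2.1) = 0)).card : ℝ)))) := by
  have hcov : PQ T ⊆ ((PQ T).filter (fun t => tf (l1 t) = 0)) ∪
      (((PQ T).filter (fun t => dsc (l1 t) = 0 ∧ tf (l1 t) ≠ 0)) ∪
      (((PQ T).filter (fun t => dsc (l1 t) ≠ 0 ∧ brk (tf (l1 t)) (v t.1.1) ≠ 0)) ∪
      (((PQ T).filter (fun t => dsc (l1 t) ≠ 0 ∧ brk (tf (l2 t)) (v t.1.2.1) ≠ 0)) ∪
      ((PQ T).filter (fun t => dsc (l1 t) ≠ 0 ∧ brk (tf (l1 t)) (v t.1.1) = 0 ∧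
        brk (tf (l2 t)) (v t.1.2.1) = 0))))) := by
    intro t ht
    simp only [Finset.mem_union, Finset.mem_filter]
    by_cases g1 : tf (l1 t) = 0
    · exact Or.inl ⟨ht, g1⟩
    by_cases g2 : dsc (l1 t) = 0
    · exact Or.inr (Or.inl ⟨ht, g2, g1⟩)
    by_cases g3 : brk (tf (l1 t)) (v t.1.1) = 0
    · by_cases g4 : brk (tf (l2 t)) (v t.1.2.1) = 0
      · exact Or.inr (Or.inr (Or.inr (Or.inr ⟨ht, g2, g3, g4⟩)))
      · exact Or.inr (Or.inr (Or.inr (Or.inl ⟨ht, g2, g4⟩)))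
    · exact Or.inr (Or.inr (Or.inl ⟨ht, g2, g3⟩))
  have h1 := Finset.card_le_card hcov
  have h2 := h1.trans ((Finset.card_union_le _ _).trans (add_le_add le_rfl
    ((Finset.card_union_le _ _).trans (add_le_add le_rfl ((Finset.card_union_le _ _).trans
      (add_le_add le_rfl (Finset.card_union_le _ _)))))))
  exact_mod_cast h2

end Pool.Agent.A54.HSV.C1M

namespace Pool.Agent.A54.HSV

open Matrix _root_.HSL _root_.Pool.Agent.A54.HSL C1M

theorem tC1 : V_C1 := by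
  classical
  intro k C R ε hk hC hR hε
  obtain ⟨K1, hK1⟩ := offCount k C R (ε / 2) hk hC hR (by positivity)
  obtain ⟨K2, hK2⟩ := nilCount k C R (ε / 2) hk hC hR (by positivity)
  set X : ℝ := 3 + (2 ^ (4 * k)) ^ 2 with hX
  have hX0 : 0 ≤ X := by positivity
  refine ⟨max (max K1 K2) (max 1 (X ^ (1 / (ε / 2)))), ?_⟩
  intro S B L D Q v T hSC hSR hK hB hU hO hL1 hL2 hv hT hsym
  have k1 : K1 ≤ S.K := (le_max_left _ _).trans ((le_max_left _ _).trans hK)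
  have k2 : K2 ≤ S.K := (le_max_right _ _).trans ((le_max_left _ _).trans hK)
  have k3 : 1 ≤ S.K := (le_max_left _ _).trans ((le_max_right _ _).trans hK)
  have k4 : X ^ (1 / (ε / 2)) ≤ S.K := (le_max_right _ _).trans ((le_max_right _ _).trans hK)
  have hK0 : 0 < S.K := by linarith
  have hXK : X ≤ S.K ^ (ε / 2) := absorb hX0 (by positivity) k4
  have hL3 : L ≤ S.K ^ 3 := hL2.trans (pow_le_pow_right₀ k3 (by norm_num))
  have hw0 : 0 ≤ S.w := by unfold Sys.w; positivity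
  have hCC : C ≤ (2 * C) ^ k := by
    calc C ≤ 2 * C := by linarith
      _ = (2 * C) ^ 1 := (pow_one _).symm
      _ ≤ (2 * C) ^ k := pow_le_pow_right₀ (by linarith) hk
  have hTH : TH S k L Q T := by
    intro t ht
    obtain ⟨a1, a2, a3, m, a4, a5, a6, a7⟩ := hT t ht
    refine ⟨a1, a2, a3, m, ?_, a5, a6, a7⟩
    rw [hSC]
    exact tFr.2.2.2.2.2.2 C ((2 * C) ^ k) S.w _ _ m _ hw0 hCC a4
  have hV1 : ∀ t ∈ T, t.1 ∈ S.V := fun t ht => (hTH t ht).1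
  have hV2 : ∀ t ∈ T, t.1 ∈ S.V ∧ t.2.1 ∈ S.V := fun t ht => ⟨(hTH t ht).1, (hTH t ht).2.1⟩
  have hO' : S.Ovl ((2 * S.C) ^ k) B := by rw [hSC]; exact hO
  have hvv : ∀ i ∈ S.V, Prim (v i) ∧ (v i).trace = 0 ∧
      ((v i).det = 0 ∨ ∀ p ∈ Q, ¬ (p : ℤ) ∣ 2 * (v i).det) := by
    intro i hi
    obtain ⟨-, b2, -, b4, -, -, -, -, b9⟩ := hv i hi
    exact ⟨b2, b4, b9⟩
  -- the classes
  have c0 := sc_bound S k L Q T hTH
  have cN : (((PQ T).filter (fun t => dsc (l1 t) = 0 ∧ tf (l1 t) ≠ 0)).card : ℝ) ≤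
      (S.V.card : ℝ) * (B * S.K ^ (ε / 2) * (L ^ 4 / S.K ^ 2)) := by
    have h1 := cls_bound S.V T hV1 (fun t => dsc (l1 t) = 0 ∧ tf (l1 t) ≠ 0)
      (fun _ => B * S.K ^ (ε / 2) * (L ^ 4 / S.K ^ 2)) (fun x hx A hA hAP =>
        hK2 S B L hSC hSR k2 hB hU hO hL1 hL3 x hx (HX T x) (hk_of S k L Q T hTH x) A hA
          (fun u hu => (hAP u hu).1))
    rw [Finset.sum_const, nsmul_eq_mul] at h1
    exact h1
  have cA : (((PQ T).filter (fun t => dsc (l1 t) ≠ 0 ∧ brk (tf (l1 t)) (v t.1.1) ≠ 0)).card : ℝ) ≤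
      (S.V.card : ℝ) * (B * S.K ^ (ε / 2) * (L ^ 6 / S.K ^ 4 + L ^ 4 / S.K ^ 2)) := by
    have h1 := cls_bound S.V T hV1 (fun t => dsc (l1 t) ≠ 0 ∧ brk (tf (l1 t)) (v t.1.1) ≠ 0)
      (fun _ => B * S.K ^ (ε / 2) * (L ^ 6 / S.K ^ 4 + L ^ 4 / S.K ^ 2)) (by
        intro x hx A hA hAP
        obtain ⟨b1, b2, b3, b4, b5, b6, b7, b8, -⟩ := hv x hx
        exact hK1 S B L (D x) (v x) hSC hSR k1 hB hU hO hL1 hL3 x hx ⟨b1, b2, b3, b4, b5, b6, b7, b8⟩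
          (HX T x) (hk_of S k L Q T hTH x) A hA (fun u hu => (hAP u hu).1))
    rw [Finset.sum_const, nsmul_eq_mul] at h1
    exact h1
  have cB : (((PQ T).filter (fun t => dsc (l1 t) ≠ 0 ∧ brk (tf (l2 t)) (v t.1.2.1) ≠ 0)).card : ℝ) ≤
      (((PQ T).filter (fun t => dsc (l1 t) ≠ 0 ∧ brk (tf (l1 t)) (v t.1.1) ≠ 0)).card : ℝ) := by
    exact_mod_cast rev_bound T v hsym
  have cC := c_bound S k B L Q T hTH hB hL1 hO' hvv
  have hcard := cover T v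
  have hcs := cs_T S.V T hV2
  generalize (((PQ T).filter (fun t => tf (l1 t) = 0)).card : ℝ) = n0 at c0 hcard
  generalize (((PQ T).filter (fun t => dsc (l1 t) = 0 ∧ tf (l1 t) ≠ 0)).card : ℝ) = nN at cN hcard
  generalize (((PQ T).filter (fun t => dsc (l1 t) ≠ 0 ∧ brk (tf (l2 t)) (v t.1.2.1) ≠ 0)).card : ℝ) = nB
    at cB hcard
  generalize (((PQ T).filter (fun t => dsc (l1 t) ≠ 0 ∧ brk (tf (l1 t)) (v t.1.1) ≠ 0)).card : ℝ) = nA
    at cA cB hcard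
  generalize (((PQ T).filter (fun t => dsc (l1 t) ≠ 0 ∧ brk (tf (l1 t)) (v t.1.1) = 0 ∧
      brk (tf (l2 t)) (v t.1.2.1) = 0)).card : ℝ) = nC at cC hcard
  generalize ((PQ T).card : ℝ) = nP at hcard hcs
  have hn0 : (0 : ℝ) ≤ (S.V.card : ℝ) := Nat.cast_nonneg _
  generalize (S.V.card : ℝ) = n at *
  generalize (T.card : ℝ) = nT at *
  generalize S.K = K at *
  have hL6 : 0 ≤ L ^ 6 / K ^ 4 := by positivity
  have hL4 : 0 ≤ L ^ 4 / K ^ 2 := by positivity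
  have hL22 : 0 ≤ L ^ 2 := by positivity
  have hBB : B ≤ B ^ 2 := by nlinarith
  have hKe : 1 ≤ K ^ (ε / 2) := Real.one_le_rpow k3 (by positivity)
  have hE : (B * K ^ (ε / 2) * (L ^ 4 / K ^ 2)) + ((B * K ^ (ε / 2) * (L ^ 6 / K ^ 4 + L ^ 4 / K ^ 2)) +
      ((B * K ^ (ε / 2) * (L ^ 6 / K ^ 4 + L ^ 4 / K ^ 2)) + (L * (2 ^ (4 * k) * B)) ^ 2)) ≤
        B ^ 2 * K ^ ε * (L ^ 6 / K ^ 4 + L ^ 4 / K ^ 2 + L ^ 2) := by
    have q0 : B * K ^ (ε / 2) ≤ B ^ 2 * K ^ (ε / 2) := mul_le_mul_of_nonneg_right hBB (by positivity)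
    have q1 : B * K ^ (ε / 2) * (L ^ 4 / K ^ 2) ≤
        B ^ 2 * K ^ (ε / 2) * (L ^ 6 / K ^ 4 + L ^ 4 / K ^ 2 + L ^ 2) :=
      mul_le_mul q0 (by linarith) hL4 (by positivity)
    have q2 : B * K ^ (ε / 2) * (L ^ 6 / K ^ 4 + L ^ 4 / K ^ 2) ≤
        B ^ 2 * K ^ (ε / 2) * (L ^ 6 / K ^ 4 + L ^ 4 / K ^ 2 + L ^ 2) :=
      mul_le_mul q0 (by linarith) (by positivity) (by positivity)
    have q3 : (L * (2 ^ (4 * k) * B)) ^ 2 ≤
        B ^ 2 * K ^ (ε / 2) * ((2 ^ (4 * k)) ^ 2 * (L ^ 6 / K ^ 4 + L ^ 4 / K ^ 2 + L ^ 2)) := by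
      calc (L * (2 ^ (4 * k) * B)) ^ 2 = B ^ 2 * 1 * ((2 ^ (4 * k)) ^ 2 * L ^ 2) := by ring
        _ ≤ B ^ 2 * K ^ (ε / 2) * ((2 ^ (4 * k)) ^ 2 * (L ^ 6 / K ^ 4 + L ^ 4 / K ^ 2 + L ^ 2)) := by
            apply mul_le_mul
            · exact mul_le_mul_of_nonneg_left hKe (by positivity)
            · apply mul_le_mul_of_nonneg_left _ (by positivity)
              linarith
            · positivity
            · positivity
    have e1 : K ^ ε = K ^ (ε / 2) * K ^ (ε / 2) := by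
      rw [← Real.rpow_add hK0]; congr 1; ring
    calc _ ≤ B ^ 2 * K ^ (ε / 2) * (L ^ 6 / K ^ 4 + L ^ 4 / K ^ 2 + L ^ 2) +
          (B ^ 2 * K ^ (ε / 2) * (L ^ 6 / K ^ 4 + L ^ 4 / K ^ 2 + L ^ 2) +
          (B ^ 2 * K ^ (ε / 2) * (L ^ 6 / K ^ 4 + L ^ 4 / K ^ 2 + L ^ 2) +
          B ^ 2 * K ^ (ε / 2) * ((2 ^ (4 * k)) ^ 2 * (L ^ 6 / K ^ 4 + L ^ 4 / K ^ 2 + L ^ 2)))) :=
          add_le_add q1 (add_le_add q2 (add_le_add q2 q3))
      _ = B ^ 2 * K ^ (ε / 2) * (X * (L ^ 6 / K ^ 4 + L ^ 4 / K ^ 2 + L ^ 2)) := by rw [hX]; ring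
      _ ≤ B ^ 2 * K ^ (ε / 2) * (K ^ (ε / 2) * (L ^ 6 / K ^ 4 + L ^ 4 / K ^ 2 + L ^ 2)) := by
          apply mul_le_mul_of_nonneg_left _ (by positivity)
          exact mul_le_mul_of_nonneg_right hXK (by positivity)
      _ = B ^ 2 * K ^ ε * (L ^ 6 / K ^ 4 + L ^ 4 / K ^ 2 + L ^ 2) := by rw [e1]; ring
  have hPc : nP ≤ 2 * nT + n * (B ^ 2 * K ^ ε * (L ^ 6 / K ^ 4 + L ^ 4 / K ^ 2 + L ^ 2)) := by
    have g1 := mul_le_mul_of_nonneg_left hE hn0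
    rw [mul_add, mul_add, mul_add] at g1
    linarith
  calc nT ^ 2 ≤ n ^ 2 * nP := hcs
    _ ≤ n ^ 2 * (2 * nT + n * (B ^ 2 * K ^ ε * (L ^ 6 / K ^ 4 + L ^ 4 / K ^ 2 + L ^ 2))) :=
        mul_le_mul_of_nonneg_left hPc (by positivity)
    _ = n ^ 3 * (B ^ 2 * K ^ ε * (L ^ 6 / K ^ 4 + L ^ 4 / K ^ 2 + L ^ 2)) + 2 * n ^ 2 * nT := by ring

end Pool.Agent.A54.HSV
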