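import Pool.Agent.Lib.HS.C.Cel
import Pool.Agent.Lib.MP_a54f13_nt.Hp.Hgt
import Pool.Agent.Lib.MP_a54f13_nt.Hp.Tub
import Pool.Agent.Lib.MP_a54f13_nt.Hp.Unf

/-!
# HS/Bd/V: cells of the fundamental domain at every height (helper84)

`cl w (j, z)`: the points of `FF` whose height is about `2^j` and which lie in the cell `cel 5 w z` after division by
`2^j`. Two points `x`, `y` of one cell have `x⁻¹ y` with bounded diagonal and off-diagonal entries at most `C w`; the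
constant does not depend on the height.
-/

set_option autoImplicit false

namespace Pool.Agent.A54.HSV

open MeasureTheory Filter Topology Set
open scoped ContDiff ComplexConjugate UpperHalfPlane MatrixGroups ENNReal
open Pool.Agent.A54.Dyn (G fl base ze io mk4 dom)
open Pool.Agent.A54.Hp Pool.Agent.A54.HS

noncomputable section

/-- entries of the first row -/
lemma ent (g : G) : g 0 0 = (base g).re * g 1 0 + (base g).im * g 1 1 ∧
    g 0 1 = (base g).re * g 1 1 - (base g).im * g 1 0 := by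
  have h1 := Dyn.base_coe g
  have h2 : (g 1 0 : ℂ) * Complex.I + g 1 1 ≠ 0 := Dyn.denom_ne g UpperHalfPlane.I
  rw [eq_div_iff h2] at h1
  have h3 := congrArg Complex.re h1
  have h4 := congrArg Complex.im h1
  simp only [Complex.mul_re, Complex.mul_im, Complex.add_re, Complex.add_im, Complex.ofReal_re,
    Complex.ofReal_im, Complex.I_re, Complex.I_im, UpperHalfPlane.coe_re, UpperHalfPlane.coe_im] at h3 h4
  constructor
  · linarith
  · linarith

/-- the level of the height -/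
def lv (g : G) : ℕ := Nat.log 2 ⌊(base g).im⌋₊

/-- division by `2^j` -/
def dv (j : ℕ) (g : G) : G := fl (-((j : ℝ) * Real.log 2)) * g

lemma measurable_lv : Measurable lv := by
  have h1 : Measurable fun g : G => (base g).im :=
    (UpperHalfPlane.continuous_im.comp Dyn.continuous_base).measurable
  have h2 : Measurable fun g : G => ⌊(base g).im⌋₊ := Nat.measurable_floor.comp h1
  exact (measurable_of_countable (Nat.log 2)).comp h2

lemma measurable_dv (j : ℕ) : Measurable (dv j) := by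
  refine Continuous.measurable ?_
  unfold dv
  exact continuous_const.mul continuous_id

/-- the cell of the index `(j, z)` -/
def cl (w : ℝ) (t : ℕ × (Fin 3 → ℤ)) : Set G := {g | g ∈ FF ∧ lv g = t.1 ∧ dv t.1 g ∈ cel 5 w t.2}

/-- the index of a point -/
def ix (w : ℝ) (g : G) : ℕ × (Fin 3 → ℤ) := (lv g, cub w (dv (lv g) g))

theorem cl_meas (w : ℝ) (t : ℕ × (Fin 3 → ℤ)) : MeasurableSet (cl w t) := by
  have e : cl w t = FF ∩ (lv ⁻¹' {t.1} ∩ dv t.1 ⁻¹' cel 5 w t.2) := by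
    ext g
    rfl
  rw [e]
  exact UnfM.measurableSet_FF.inter ((measurable_lv (measurableSet_singleton _)).inter
    (measurable_dv t.1 (meas_cel 5 w t.2)))

theorem cl_disj (w : ℝ) (t t' : ℕ × (Fin 3 → ℤ)) (h : t ≠ t') : Disjoint (cl w t) (cl w t') := by
  refine Set.disjoint_left.2 fun g h1 h2 => h ?_
  obtain ⟨-, h3, h4⟩ := h1
  obtain ⟨-, h5, h6⟩ := h2
  have e1 : t.1 = t'.1 := h3.symm.trans h5
  rw [← e1] at h6
  have e2 : t.2 = t'.2 := (mem_cel.1 h4).2.symm.trans (mem_cel.1 h6).2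
  exact Prod.ext e1 e2

/-- the dyadic height -/
lemma dyad' (g : G) (hg' : base g ∈ ModularGroup.fd) : (3 : ℝ) / 4 * (2 : ℝ) ^ lv g ≤ (base g).im ∧
    (base g).im ≤ 2 * (2 : ℝ) ^ lv g ∧ |(base g).re| ≤ 1 / 2 := by
  have h1 : 3 ≤ 4 * (base g).im ^ 2 := ModularGroup.three_le_four_mul_im_sq_of_mem_fd hg'
  have h2 : |(base g).re| ≤ 1 / 2 := hg'.2
  have h0 := (base g).im_pos
  refine ⟨?_, ?_, h2⟩
  · by_cases h3 : ⌊(base g).im⌋₊ = 0
    · unfold lv
      rw [h3]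
      simp only [Nat.log_zero_right, pow_zero]
      nlinarith
    · have h4 : 2 ^ lv g ≤ ⌊(base g).im⌋₊ := Nat.pow_log_le_self 2 h3
      have h5 : ((2 ^ lv g : ℕ) : ℝ) ≤ (base g).im := by
        refine le_trans ?_ (Nat.floor_le h0.le)
        exact_mod_cast h4
      push_cast at h5
      have h6 : (0 : ℝ) < 2 ^ lv g := by positivity
      linarith
  · have h4 : ⌊(base g).im⌋₊ < 2 ^ (lv g + 1) := Nat.lt_pow_succ_log_self (by norm_num) _
    have h5 : (base g).im < (⌊(base g).im⌋₊ : ℝ) + 1 := Nat.lt_floor_add_one _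
    have h6 : (⌊(base g).im⌋₊ : ℝ) + 1 ≤ ((2 ^ (lv g + 1) : ℕ) : ℝ) := by exact_mod_cast h4
    push_cast at h6
    rw [pow_succ] at h6
    linarith

lemma dyad (g : G) (hg : g ∈ FF) : (3 : ℝ) / 4 * (2 : ℝ) ^ lv g ≤ (base g).im ∧
    (base g).im ≤ 2 * (2 : ℝ) ^ lv g ∧ |(base g).re| ≤ 1 / 2 :=
  dyad' g (ModularGroup.fdo_subset_fd hg)

lemma exp_half (j : ℕ) : Real.exp ((j : ℝ) * Real.log 2) = 2 ^ j := by
  rw [mul_comm, Real.exp_mul, Real.exp_log (by norm_num), Real.rpow_natCast]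

/-- points of the fundamental domain are bounded after division by their height -/
lemma dv_mem' (g : G) (hg : base g ∈ ModularGroup.fd) : dv (lv g) g ∈ Om 5 := by
  obtain ⟨h1, h2, h3⟩ := dyad' g hg
  set E : ℝ := (2 : ℝ) ^ lv g with hE
  have hE0 : 0 < E := by positivity
  set s : ℝ := (lv g : ℝ) * Real.log 2 with hs
  have hEs : Real.exp s = E := exp_half _
  set r : ℝ := Real.exp (s / 2) with hr
  have hr0 : 0 < r := Real.exp_pos _
  have hrr : r * r = E := by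
    rw [hr, ← Real.exp_add, ← hEs]
    congr 1
    ring
  have hE1 : 1 ≤ E := one_le_pow₀ (by norm_num)
  have hr' : Real.exp (-s / 2) = r⁻¹ := by
    rw [hr, ← Real.exp_neg]
    congr 1
    ring
  obtain ⟨e1, e2⟩ := ent g
  have h4 := HgtM.im_base g
  have h5 := HgtM.bot_pos g
  have h0 := (base g).im_pos
  -- the entries
  have d00 : dv (lv g) g 0 0 = r⁻¹ * g 0 0 := by
    unfold dv
    rw [Dyn.mul_00, Dyn.fl_00, Dyn.fl_01, ← hs, hr']
    ring
  have d01 : dv (lv g) g 0 1 = r⁻¹ * g 0 1 := by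
    unfold dv
    rw [Dyn.mul_01, Dyn.fl_00, Dyn.fl_01, ← hs, hr']
    ring
  have hr'' : Real.exp (- -s / 2) = r := by
    rw [hr]
    congr 1
    ring
  have d10 : dv (lv g) g 1 0 = r * g 1 0 := by
    unfold dv
    rw [Dyn.mul_10, Dyn.fl_10, Dyn.fl_11, ← hs, hr'']
    ring
  have d11 : dv (lv g) g 1 1 = r * g 1 1 := by
    unfold dv
    rw [Dyn.mul_11, Dyn.fl_10, Dyn.fl_11, ← hs, hr'']
    ring
  -- the second row
  have h6 : (g 1 0 ^ 2 + g 1 1 ^ 2) * (base g).im = 1 := by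
    rw [h4]
    field_simp
  have h7 : E * (g 1 0 ^ 2 + g 1 1 ^ 2) ≤ 4 / 3 := by
    have : 3 / 4 * E * (g 1 0 ^ 2 + g 1 1 ^ 2) ≤ (base g).im * (g 1 0 ^ 2 + g 1 1 ^ 2) :=
      mul_le_mul_of_nonneg_right h1 h5.le
    rw [mul_comm (base g).im, h6] at this
    linarith
  have c1 : (r * g 1 0) ^ 2 ≤ 4 / 3 := by
    have : (r * g 1 0) ^ 2 = E * g 1 0 ^ 2 := by
      rw [mul_pow, sq r, hrr]
    rw [this]
    nlinarith [mul_nonneg hE0.le (sq_nonneg (g 1 1))]
  have c2 : (r * g 1 1) ^ 2 ≤ 4 / 3 := by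
    have : (r * g 1 1) ^ 2 = E * g 1 1 ^ 2 := by
      rw [mul_pow, sq r, hrr]
    rw [this]
    nlinarith [mul_nonneg hE0.le (sq_nonneg (g 1 0))]
  have b1 : |r * g 1 0| ≤ 2 := abs_le_of_sq_le_sq (by linarith) (by norm_num) |> fun h => h
  have b2 : |r * g 1 1| ≤ 2 := abs_le_of_sq_le_sq (by linarith) (by norm_num) |> fun h => h
  -- the first row
  set q : ℝ := (base g).im / E with hq
  have hq0 : 0 ≤ q := by positivity
  have hq1 : q ≤ 2 := by
    rw [hq, div_le_iff₀ hE0]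
    exact h2
  set x : ℝ := (base g).re / E with hx
  have hx1 : |x| ≤ 1 / 2 := by
    rw [hx, abs_div, abs_of_pos hE0, div_le_iff₀ hE0]
    linarith
  have f00 : r⁻¹ * g 0 0 = x * (r * g 1 0) + q * (r * g 1 1) := by
    rw [e1, hx, hq, ← hrr]
    field_simp
  have f01 : r⁻¹ * g 0 1 = x * (r * g 1 1) - q * (r * g 1 0) := by
    rw [e2, hx, hq, ← hrr]
    field_simp
  have hmul : ∀ a b A B : ℝ, |a| ≤ A → |b| ≤ B → |a * b| ≤ A * B := by
    intro a b A B ha hb
    rw [abs_mul]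
    exact mul_le_mul ha hb (abs_nonneg _) ((abs_nonneg _).trans ha)
  have hq2 : |q| ≤ 2 := by rwa [abs_of_nonneg hq0]
  intro i j
  fin_cases i <;> fin_cases j
  · show |dv (lv g) g 0 0| ≤ 5
    rw [d00, f00]
    refine (abs_add_le _ _).trans ?_
    linarith [hmul _ _ _ _ hx1 b1, hmul _ _ _ _ hq2 b2]
  · show |dv (lv g) g 0 1| ≤ 5
    rw [d01, f01]
    refine (abs_sub _ _).trans ?_
    linarith [hmul _ _ _ _ hx1 b2, hmul _ _ _ _ hq2 b1]
  · show |dv (lv g) g 1 0| ≤ 5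
    rw [d10]
    linarith
  · show |dv (lv g) g 1 1| ≤ 5
    rw [d11]
    linarith

lemma dv_mem (g : G) (hg : g ∈ FF) : dv (lv g) g ∈ Om 5 := dv_mem' g (ModularGroup.fdo_subset_fd hg)

/-- every point of the fundamental domain lies in its cell -/
theorem mem_cl (w : ℝ) {g : G} (hg : g ∈ FF) : g ∈ cl w (ix w g) :=
  ⟨hg, rfl, mem_cel.2 ⟨dv_mem g hg, rfl⟩⟩

/-- **number of cells** up to height `H` -/
theorem cl_card : ∃ C : ℝ, 1 ≤ C ∧ ∀ w H : ℝ, 0 < w → w ≤ 1 → 1 ≤ H →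
    ∃ J : Finset (ℕ × (Fin 3 → ℤ)), (J.card : ℝ) ≤ C * (1 + Real.log H) * (1 / w) ^ 3 ∧
      ∀ g ∈ FF, (base g).im ≤ H → ix w g ∈ J := by
  refine ⟨2 * 104 ^ 3, by norm_num, fun w H hw hw1 hH => ?_⟩
  set N : ℤ := ⌈50 / w⌉ with hN
  have hN1 : (N : ℝ) < 50 / w + 1 := Int.ceil_lt_add_one _
  have hN2 : 50 / w ≤ (N : ℝ) := Int.le_ceil _
  have hN0 : 0 ≤ N := Int.ceil_nonneg (by positivity)
  refine ⟨Finset.range (Nat.log 2 ⌊H⌋₊ + 1) ×ˢ Fintype.piFinset fun _ => Finset.Icc (-N - 1) N, ?_, ?_⟩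
  · rw [Finset.card_product, Fintype.card_piFinset, Finset.prod_const, Finset.card_range, Int.card_Icc]
    simp only [Finset.card_univ, Fintype.card_fin]
    have h1 : ((N + 1 - (-N - 1)).toNat : ℝ) = 2 * N + 2 := by
      have : ((N + 1 - (-N - 1)).toNat : ℤ) = N + 1 - (-N - 1) := Int.toNat_of_nonneg (by omega)
      have h2 : (((N + 1 - (-N - 1)).toNat : ℤ) : ℝ) = ((N + 1 - (-N - 1) : ℤ) : ℝ) := by rw [this]
      push_cast at h2
      linarith
    have hw2 : 1 ≤ 1 / w := by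
      rw [le_div_iff₀ hw]
      linarith
    have h3 : (2 : ℝ) * N + 2 ≤ 104 * (1 / w) := by
      have : (50 : ℝ) / w = 50 * (1 / w) := by ring
      linarith
    have h3' : (0 : ℝ) ≤ 2 * N + 2 := by
      have : (0 : ℝ) ≤ N := by exact_mod_cast hN0
      linarith
    have h4 : ((Nat.log 2 ⌊H⌋₊ : ℕ) : ℝ) ≤ 2 * Real.log H := by
      have hf : ⌊H⌋₊ ≠ 0 := by
        have : 1 ≤ ⌊H⌋₊ := Nat.le_floor (by simpa using hH)
        omega
      have h5 : ((2 ^ Nat.log 2 ⌊H⌋₊ : ℕ) : ℝ) ≤ H := by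
        refine le_trans ?_ (Nat.floor_le (by linarith))
        exact_mod_cast Nat.pow_log_le_self 2 hf
      push_cast at h5
      have h6 := Real.log_le_log (by positivity) h5
      rw [Real.log_pow] at h6
      have h7 : (1 : ℝ) / 2 ≤ Real.log 2 := by linarith [Real.log_two_gt_d9]
      have h8 : (0 : ℝ) ≤ ((Nat.log 2 ⌊H⌋₊ : ℕ) : ℝ) := by positivity
      nlinarith
    have h9 : 0 ≤ Real.log H := Real.log_nonneg hH
    push_cast
    rw [h1]
    have h10 : (2 * (N : ℝ) + 2) ^ 3 ≤ (104 * (1 / w)) ^ 3 := pow_le_pow_left₀ h3' h3 3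
    calc (((Nat.log 2 ⌊H⌋₊ : ℕ) : ℝ) + 1) * (2 * (N : ℝ) + 2) ^ 3
        ≤ (2 * (1 + Real.log H)) * (104 * (1 / w)) ^ 3 :=
          mul_le_mul (by linarith) h10 (by positivity) (by positivity)
      _ = 2 * 104 ^ 3 * (1 + Real.log H) * (1 / w) ^ 3 := by ring
  · intro g hg hgH
    rw [Finset.mem_product, Fintype.mem_piFinset]
    refine ⟨?_, fun i => ?_⟩
    · rw [Finset.mem_range]
      show lv g < _
      unfold lv
      exact Nat.lt_succ_of_le (Nat.log_mono_right (Nat.floor_le_floor hgH))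
    · show cub w (dv (lv g) g) i ∈ Finset.Icc (-N - 1) N
      have h1 := dv_mem g hg
      set y := dv (lv g) g with hy
      have h2 : |xi y i| ≤ 50 := by
        have hb : ∀ a b c d : Fin 2, |y a b * y c d| ≤ 25 := by
          intro a b c d
          rw [abs_mul]
          calc |y a b| * |y c d| ≤ 5 * 5 := mul_le_mul (h1 a b) (h1 c d) (abs_nonneg _) (by norm_num)
            _ = 25 := by norm_num
        fin_cases i
        · show |y 0 0 * y 1 1 + y 0 1 * y 1 0| ≤ 50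
          refine (abs_add_le _ _).trans ?_
          linarith [hb 0 0 1 1, hb 0 1 1 0]
        · show |(-(y 0 0 * y 0 1))| ≤ 50
          rw [abs_neg]
          linarith [hb 0 0 0 1]
        · show |y 1 0 * y 1 1| ≤ 50
          linarith [hb 1 0 1 1]
      have h3 := abs_le.1 h2
      have h4 : -(50 / w) ≤ xi y i / w := by
        rw [← neg_div]
        exact div_le_div_of_nonneg_right h3.1 hw.le
      have h5 : xi y i / w ≤ 50 / w := div_le_div_of_nonneg_right h3.2 hw.le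
      rw [Finset.mem_Icc]
      constructor
      · show -N - 1 ≤ ⌊xi y i / w⌋
        rw [Int.le_floor]
        push_cast
        linarith
      · show ⌊xi y i / w⌋ ≤ N
        have h6 : ((⌊xi y i / w⌋ : ℤ) : ℝ) ≤ N := (Int.floor_le _).trans (h5.trans hN2)
        exact_mod_cast h6

/-- **two points of one cell** -/
theorem cl_tub : ∃ C : ℝ, 1 ≤ C ∧ ∀ (w : ℝ) (t : ℕ × (Fin 3 → ℤ)), 0 < w → ∀ x ∈ cl w t, ∀ y ∈ cl w t,
    |(x⁻¹ * y) 0 0| ≤ C ∧ |(x⁻¹ * y) 1 1| ≤ C ∧ |(x⁻¹ * y) 0 1| ≤ C * w ∧ |(x⁻¹ * y) 1 0| ≤ C * w := by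
  obtain ⟨C, hC, h⟩ := stmtTub 5 (by norm_num)
  refine ⟨C, hC, fun w t hw x hx y hy => ?_⟩
  have h1 : dv t.1 x ∈ Tb 5 (xi (dv t.1 x)) w := cel_sub_Tb hw hx.2.2 hx.2.2
  have h2 : dv t.1 y ∈ Tb 5 (xi (dv t.1 x)) w := cel_sub_Tb hw hx.2.2 hy.2.2
  have h3 := h _ w hw _ h1 _ h2
  have h4 : (dv t.1 x)⁻¹ * dv t.1 y = x⁻¹ * y := by
    unfold dv
    group
  rw [h4] at h3
  exact h3

end

end Pool.Agent.A54.HSV
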