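import Pool.Agent.Lib.HS.Bd.V.Spec

/-!
# HS/Bd/V, module Comp: composition of levels (helper54)
-/

set_option autoImplicit false

namespace Pool.Agent.A54.HSV

open MeasureTheory Filter Topology Set
open scoped ContDiff ComplexConjugate UpperHalfPlane MatrixGroups ENNReal
open Pool.Agent.A54.Dyn (G fl base ze io mk4 dom)
open Pool.Agent.A54.Av (Mat NonSc)
open Pool.Agent.A54.HS
open Pool.Agent.A54.Hp Pool.Agent.A54.Hp.Hk Pool.Agent.A54.Hp.A2M

noncomputable section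

namespace CompM

/-- sums over a map which is at most two to one -/
lemma two_one {α β : Type} (P : α → Prop) [DecidablePred P] (φ : α → β) (f : β → ℝ≥0∞)
    (h2 : ∀ a, P a → ∃ a', ∀ b, P b → φ b = φ a → b = a ∨ b = a') :
    ∑' a, (if P a then f (φ a) else 0) ≤ 2 * ∑' b, f b := by
  classical
  have h1 : ∀ a, (if P a then f (φ a) else 0) = ∑' b, if P a ∧ φ a = b then f b else 0 := by
    intro a
    by_cases h : P a
    · simp only [h, if_true, true_and]
      rw [tsum_eq_single (φ a) (fun b hb => if_neg (fun h' => hb h'.symm))]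
      simp
    · simp only [h, if_false, false_and, tsum_zero]
  rw [tsum_congr h1, ENNReal.tsum_comm, ← ENNReal.tsum_mul_left]
  refine ENNReal.tsum_le_tsum fun b => ?_
  by_cases h : ∃ a, P a ∧ φ a = b
  · obtain ⟨a, ha, hab⟩ := h
    obtain ⟨a', ha'⟩ := h2 a ha
    rw [tsum_eq_sum (s := ({a, a'} : Finset α)) (fun c hc => if_neg (fun h' => hc (by
      rcases ha' c h'.1 (h'.2.trans hab.symm) with h3 | h3 <;> simp [h3])))]
    refine (Finset.sum_le_card_nsmul _ _ (f b) (fun c _ => by split_ifs <;> simp)).trans ?_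
    rw [nsmul_eq_mul]
    refine mul_le_mul_left ?_ _
    exact_mod_cast Finset.card_le_two
  · have h3 : ∀ a, (if P a ∧ φ a = b then f b else 0) = 0 :=
      fun a => if_neg (fun h' => h ⟨a, h'⟩)
    rw [tsum_congr h3, tsum_zero]
    exact zero_le

/-- the product of primitive matrices of coprime determinants is primitive -/
lemma Pr_mul {n n' : ℕ} (hc : Nat.Coprime n n') {s s' : Mat} (hs : s.det = ((n * n : ℕ) : ℤ))
    (hs' : s'.det = ((n' * n' : ℕ) : ℤ)) (h : Pr s) (h' : Pr s') : Pr (s * s') := by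
  intro ℓ hℓ hd
  by_cases h1 : ℓ ∣ n
  · have h2 : ¬ ℓ ∣ n' := fun h2 => by
      have h3 := Nat.dvd_gcd h1 h2
      rw [hc] at h3
      exact hℓ.one_lt.ne' (Nat.dvd_one.1 h3)
    refine h ℓ hℓ (PD_of_mul_right hℓ ?_ hd)
    rw [hs']
    intro h3
    have h4 : ℓ ∣ n' * n' := by exact_mod_cast h3
    rcases (Nat.Prime.dvd_mul hℓ).1 h4 with h5 | h5 <;> exact h2 h5
  · refine h' ℓ hℓ (PD_of_mul hℓ ?_ hd)
    rw [hs]
    intro h3
    have h4 : ℓ ∣ n * n := by exact_mod_cast h3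
    rcases (Nat.Prime.dvd_mul hℓ).1 h4 with h5 | h5 <;> exact h1 h5

/-- right cancellation -/
lemma canc {a b s : Mat} (hs : s.det ≠ 0) (h : a * s = b * s) : a = b := by
  have h1 : a * s * s.adjugate = b * s * s.adjugate := by rw [h]
  rw [Matrix.mul_assoc, Matrix.mul_assoc, Matrix.mul_adjugate, Matrix.mul_smul, Matrix.mul_smul,
    Matrix.mul_one, Matrix.mul_one] at h1
  ext i j
  have h2 := congrFun (congrFun h1 i) j
  simp only [Matrix.smul_apply, smul_eq_mul] at h2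
  exact mul_left_cancel₀ hs h2

/-- one pair of levels -/
lemma one (hFFu : V_FFu) (hCls : HSL.S_Cls) (hNm : StmtNm) {n n' : ℕ} (hn : 0 < n) (hn' : 0 < n')
    (hc : Nat.Coprime n n') (F : G → ℝ≥0∞) {U : Set G} (hU : U ⊆ FF) (y : G) :
    hq (U.indicator (hq F (n * n))) (n' * n') y ≤ 2 * hq F (n * n' * (n * n')) y := by
  classical
  have hpos : 0 < n * n := Nat.mul_pos hn hn
  have hpos' : 0 < n' * n' := Nat.mul_pos hn' hn'
  let φ : Mn (n' * n') × Mn (n * n) → Mn (n * n' * (n * n')) := fun x => ⟨x.2.1 * x.1.1, by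
    rw [Matrix.det_mul, x.2.2, x.1.2]
    push_cast
    ring⟩
  let P : Mn (n' * n') × Mn (n * n) → Prop := fun x => Pr x.1.1 ∧ Pr x.2.1 ∧ nm x.1.1 * y ∈ U
  have h1 : hq (U.indicator (hq F (n * n))) (n' * n') y =
      ∑' x : Mn (n' * n') × Mn (n * n), if P x then
        (fun h : Mn (n * n' * (n * n')) => if Pr h.1 then F (nm h.1 * y) else 0) (φ x) else 0 := by
    refine Eq.trans ?_ (ENNReal.tsum_prod (f := fun (s' : Mn (n' * n')) (s : Mn (n * n)) => if P (s', s) then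
        (fun h : Mn (n * n' * (n * n')) => if Pr h.1 then F (nm h.1 * y) else 0) (φ (s', s)) else 0)).symm
    unfold hq
    refine tsum_congr fun s' => ?_
    by_cases h2 : Pr s'.1
    · rw [if_pos h2]
      by_cases h3 : nm s'.1 * y ∈ U
      · rw [Set.indicator_of_mem h3]
        refine tsum_congr fun s => ?_
        by_cases h4 : Pr s.1
        · have h5 : P (s', s) := ⟨h2, h4, h3⟩
          have h6 : Pr (s.1 * s'.1) := Pr_mul hc s.2 s'.2 h4 h2
          rw [if_pos h4, if_pos h5]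
          change _ = if Pr (s.1 * s'.1) then F (nm (s.1 * s'.1) * y) else 0
          rw [if_pos h6, hNm.1 _ _ (det_pos hpos s) (det_pos hpos' s'), mul_assoc]
        · have h5 : ¬ P (s', s) := fun h => h4 h.2.1
          rw [if_neg h4, if_neg h5]
      · rw [Set.indicator_of_notMem h3]
        have h5 : ∀ s : Mn (n * n), ¬ P (s', s) := fun s h => h3 h.2.2
        simp only [h5, if_false, tsum_zero]
    · have h5 : ∀ s : Mn (n * n), ¬ P (s', s) := fun s h => h2 h.1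
      simp only [h5, if_false, tsum_zero, h2]
  rw [h1]
  refine two_one P φ (fun h : Mn (n * n' * (n * n')) => if Pr h.1 then F (nm h.1 * y) else 0) ?_
  rintro ⟨s', s⟩ ha
  refine ⟨(⟨-s'.1, by rw [Matrix.det_neg, s'.2]; simp⟩, ⟨-s.1, by rw [Matrix.det_neg, s.2]; simp⟩), ?_⟩
  rintro ⟨t', t⟩ hb hab
  have hab' : t.1 * t'.1 = s.1 * s'.1 := congrArg Subtype.val hab
  obtain ⟨γ, hγ, hγ'⟩ := hCls s'.1 s.1 t'.1 t.1 hab'.symm (det_pos hpos' s') (by rw [s'.2, t'.2])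
    (by rw [s.2, t.2]) (by
      rw [s'.2, s.2]
      exact Nat.isCoprime_iff_coprime.2 ((hc.symm.mul_left hc.symm).mul_right
        (hc.symm.mul_left hc.symm)))
  have h3 : nm t'.1 = io ⟨γ, hγ⟩ * nm s'.1 := by
    rw [hγ', hNm.1 γ s'.1 (by rw [hγ]; exact one_pos) (det_pos hpos' s')]
    congr 1
    exact hNm.2.1 ⟨γ, hγ⟩
  have h4 : io ⟨γ, hγ⟩ * (nm s'.1 * y) ∈ FF := by
    rw [← mul_assoc, ← h3]
    exact hU hb.2.2
  rcases hFFu.1 (nm s'.1 * y) (hU ha.2.2) ⟨γ, hγ⟩ h4 with h5 | h5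
  · left
    have h6 : γ = 1 := congrArg Subtype.val h5
    rw [h6, Matrix.one_mul] at hγ'
    have h7 : t'.1 = s'.1 := hγ'
    rw [h7] at hab'
    exact Prod.ext (Subtype.ext h7) (Subtype.ext (canc (det_pos hpos' s').ne' hab'))
  · right
    have h6 : γ = -1 := by
      have h := congrArg Subtype.val h5
      simpa using h
    rw [h6, Matrix.neg_mul, Matrix.one_mul] at hγ'
    have h7 : t'.1 = -s'.1 := hγ'
    rw [h7, Matrix.mul_neg, ← Matrix.neg_mul] at hab'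
    refine Prod.ext (Subtype.ext h7) (Subtype.ext ?_)
    have h8 : -t.1 = s.1 := canc (det_pos hpos' s').ne' hab'
    exact neg_eq_iff_eq_neg.1 h8

end CompM

open CompM in
theorem tComp (hFFu : V_FFu) (hLev : V_Lev) (hCls : HSL.S_Cls) (hNm : StmtNm) : V_Comp := by
  classical
  intro Q1 Q2 hQ1 hQ2 hd j1 j2 F U hU y
  obtain ⟨hL1, -, hE1⟩ := hLev.1 Q1 hQ1 j1
  obtain ⟨hL2, -, hE2⟩ := hLev.1 Q2 hQ2 j2
  have hco : ∀ n ∈ Lev Q1 j1, ∀ n' ∈ Lev Q2 j2, Nat.Coprime n n' := by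
    intro n hn n' hn'
    refine Nat.coprime_of_dvd fun k hk h1 h2 => ?_
    exact Finset.disjoint_left.1 hd (((hL1 n).1 hn).2.1 k hk h1) (((hL2 n').1 hn').2.1 k hk h2)
  have hp1 : ∀ n ∈ Lev Q1 j1, 0 < n := fun n hn => Nat.pos_of_ne_zero ((hL1 n).1 hn).1
  have hp2 : ∀ n ∈ Lev Q2 j2, 0 < n := fun n hn => Nat.pos_of_ne_zero ((hL2 n).1 hn).1
  have hinj : Set.InjOn (fun t : ℕ × ℕ => t.1 * t.2) ((Lev Q1 j1 ×ˢ Lev Q2 j2 : Finset (ℕ × ℕ)) : Set (ℕ × ℕ)) := by
    rintro ⟨n, n'⟩ hn ⟨m, m'⟩ hm hnm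
    rw [Finset.mem_coe, Finset.mem_product] at hn hm
    have h1 : n * n' = m * m' := hnm
    have h2 : n ∣ m := (hco n hn.1 m' hm.2).dvd_of_dvd_mul_right (Dvd.intro n' h1)
    have h3 : m ∣ n := (hco m hm.1 n' hn.2).dvd_of_dvd_mul_right (Dvd.intro m' h1.symm)
    have h4 : n = m := Nat.dvd_antisymm h2 h3
    rw [h4] at h1
    have h5 : n' = m' := Nat.eq_of_mul_eq_mul_left (hp1 m hm.1) h1
    rw [h4, h5]
  rw [hE2]
  have h1 : ∀ z, El Q1 j1 F z = ∑ n ∈ Lev Q1 j1, (n : ℝ≥0∞)⁻¹ * hq F (n * n) z := fun z => hE1 F z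
  have h2 : ∀ n' ∈ Lev Q2 j2, hq (U.indicator (El Q1 j1 F)) (n' * n') y =
      ∑ n ∈ Lev Q1 j1, (n : ℝ≥0∞)⁻¹ * hq (U.indicator (hq F (n * n))) (n' * n') y := by
    intro n' _
    unfold hq
    simp only [← ENNReal.tsum_mul_left]
    rw [← Summable.tsum_finsetSum (fun _ _ => ENNReal.summable)]
    refine tsum_congr fun s' => ?_
    by_cases h3 : Pr s'.1
    · simp only [h3, if_true]
      by_cases h4 : nm s'.1 * y ∈ U
      · simp only [Set.indicator_of_mem h4]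
        rw [h1]
        rfl
      · simp only [Set.indicator_of_notMem h4, mul_zero, Finset.sum_const_zero]
    · simp only [h3, if_false, mul_zero, Finset.sum_const_zero]
  unfold EM L2
  rw [Finset.sum_image hinj, Finset.sum_product_right, Finset.mul_sum]
  refine Finset.sum_le_sum fun n' hn' => ?_
  rw [h2 n' hn', Finset.mul_sum, Finset.mul_sum]
  refine Finset.sum_le_sum fun n hn => ?_
  have h5 := one hFFu hCls hNm (hp1 n hn) (hp2 n' hn') (hco n hn n' hn') F hU y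
  have h6 : ((n * n' : ℕ) : ℝ≥0∞)⁻¹ = (n' : ℝ≥0∞)⁻¹ * (n : ℝ≥0∞)⁻¹ := by
    rw [mul_comm n n', inv_mul_nat (hp2 n' hn').ne']
  calc (n' : ℝ≥0∞)⁻¹ * ((n : ℝ≥0∞)⁻¹ * hq (U.indicator (hq F (n * n))) (n' * n') y)
      ≤ (n' : ℝ≥0∞)⁻¹ * ((n : ℝ≥0∞)⁻¹ * (2 * hq F (n * n' * (n * n')) y)) := by gcongr
    _ = 2 * (((n * n' : ℕ) : ℝ≥0∞)⁻¹ * hq F (n * n' * (n * n')) y) := by
        rw [h6]
        ring

end

end Pool.Agent.A54.HSV
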