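import Pool.Agent.Lib.HS.Bd.V.Spec

/-!
# HS/Bd/V: large moments are attained by the top level
-/

set_option autoImplicit false

namespace Pool.Agent.A54.HSV

open MeasureTheory Filter Topology Set
open scoped ContDiff ComplexConjugate UpperHalfPlane MatrixGroups ENNReal
open Pool.Agent.A54.Dyn (G fl base ze io mk4 dom)
open Pool.Agent.A54.Av (Mat NonSc)
open Pool.Agent.A54.HS
open Pool.Agent.A54.Hp Pool.Agent.A54.Hp.Hk Pool.Agent.A54.Hp.A2M

noncomputable section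

theorem tCv : StmtNuL → StmtUnf → StmtNm → StmtDds → StmtTot → V_Cv := by
  classical
  intro hNu hUnf hNm hDds hTot k R hk hR
  obtain ⟨CD, hCD0, hCD⟩ := hDds.2 R hR
  obtain ⟨CT, hCT0, hCT⟩ := hTot R hR
  set K0 : ℝ := max 1 (Ck (2 * k)).toReal with hK0d
  have hK01 : 1 ≤ K0 := le_max_left _ _
  have hkR : (1 : ℝ) ≤ k := by exact_mod_cast hk
  set B : ℝ := 4 * k * K0 with hBd
  have hB1 : 1 ≤ B := by
    rw [hBd]
    nlinarith
  have hB0 : 0 < B := by linarith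
  set C1 : ℝ := (B ^ 2) ^ k * CD with hC1
  have hC10 : 0 ≤ C1 := by positivity
  refine ⟨1 + C1 + 2 * K0, by linarith, ?_⟩
  intro l Φ hE U hU hUR M hM Q hQM hQn hbig
  have hM0 : 0 < M := by linarith
  have hQ : ∀ p ∈ Q, p.Prime ∧ M < (p : ℝ) ∧ (p : ℝ) ≤ 2 * M := by
    intro p hp
    have h1 := hQM hp
    unfold Pm at h1
    rw [Finset.mem_filter, Finset.mem_Ioc] at h1
    refine ⟨h1.2, (Nat.floor_lt hM0.le).1 h1.1.1, ?_⟩
    exact (Nat.le_floor_iff (by linarith)).1 h1.1.2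
  have hQp : ∀ p ∈ Q, p.Prime := fun p hp => (hQ p hp).1
  -- `ms Φ U` is finite
  have hmsT : ms Φ U ≠ ⊤ := by
    have h1 : ms Φ U ≤ ms Φ (Om R) := lintegral_mono_set hUR
    exact ne_top_of_le_ne_top ENNReal.ofReal_ne_top (h1.trans (hCT l Φ hE))
  set m : ℝ := (ms Φ U).toReal with hm
  have hms : ms Φ U = ENNReal.ofReal m := (ENNReal.ofReal_toReal hmsT).symm
  have hm0 : 0 ≤ m := ENNReal.toReal_nonneg
  obtain ⟨q, hq⟩ : ∃ q : ℝ, q = (Q.card : ℝ) := ⟨_, rfl⟩
  have hqE : (Q.card : ℝ≥0∞) = ENNReal.ofReal q := by rw [hq]; exact (ENNReal.ofReal_natCast _).symm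
  have hqN : ((Q.card : ℝ≥0∞)).toReal = q := by rw [hq]; exact ENNReal.toReal_natCast _
  have hq0 : 0 ≤ q := by rw [hq]; exact Nat.cast_nonneg _
  have hcard : 1 ≤ Q.card := Finset.card_pos.2 hQn
  have hq1 : 1 ≤ q := by rw [hq]; exact_mod_cast hcard
  clear hq
  -- the moments
  set F := AIkM.ff Φ U with hFd
  have hF : Measurable F := AIkM.ff_meas hE.cont hU
  have hmiT : ∀ j : ℕ, mi M ^ j ≠ ⊤ := fun j => ENNReal.pow_ne_top
    (ne_top_of_le_ne_top ENNReal.one_ne_top (mi_le hM))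
  have heT : ∀ j, ∫⁻ x, F x * El Q j F x ∂nu ≠ ⊤ := fun j =>
    ne_top_of_le_ne_top (ENNReal.mul_ne_top (hmiT j)
      (Dd_sum_top hNm hDds hE.cont hU hUR hmsT hM hQ j)) (El_int hE.cont hU hM hQ j)
  have hup : ∀ i, aa Q F i ≤ Ck i * ∑ j ∈ Finset.range (i + 1), (Q.card : ℝ≥0∞) ^ ((i - j) / 2) *
      ∫⁻ x, F x * El Q j F x ∂nu := by
    intro i
    have m1 : ∀ j, Measurable fun x => F x * El Q j F x := fun j => hF.mul (meas_El Q j hF)
    have e1 : Ck i * ∑ j ∈ Finset.range (i + 1), (Q.card : ℝ≥0∞) ^ ((i - j) / 2) *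
        ∫⁻ x, F x * El Q j F x ∂nu = ∫⁻ x, Ck i * ∑ j ∈ Finset.range (i + 1),
          (Q.card : ℝ≥0∞) ^ ((i - j) / 2) * (F x * El Q j F x) ∂nu := by
      rw [lintegral_const_mul _ (Finset.measurable_sum _ fun j _ => (m1 j).const_mul _),
        lintegral_finsetSum _ fun j _ => (m1 j).const_mul _]
      congr 1
      exact Finset.sum_congr rfl fun j _ => (lintegral_const_mul _ (m1 j)).symm
    rw [e1]
    unfold aa
    refine lintegral_mono fun x => ?_
    refine (mul_le_mul_right (pow_le hNm hQp hcard F i x) (F x)).trans (le_of_eq ?_)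
    rw [mul_left_comm, Finset.mul_sum]
    congr 1
    exact Finset.sum_congr rfl fun j _ => by ring
  have haT : ∀ i, aa Q F i ≠ ⊤ := by
    intro i
    refine ne_top_of_le_ne_top (ENNReal.mul_ne_top (Ck_top i) (ENNReal.sum_ne_top.2 fun j _ =>
      ENNReal.mul_ne_top (ENNReal.pow_ne_top (ENNReal.natCast_ne_top _)) (heT j))) (hup i)
  have hea : ∀ j, ∫⁻ x, F x * El Q j F x ∂nu ≤ aa Q F j := fun j =>
    lintegral_mono fun x => mul_le_mul_right (le_pow hNm hQp F j x) (F x)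
  set a : ℕ → ℝ := fun i => (aa Q F i).toReal with had
  set e : ℕ → ℝ := fun j => (∫⁻ x, F x * El Q j F x ∂nu).toReal with hed
  have hcs : ∀ i j, a (i + j) ^ 2 ≤ a (2 * i) * a (2 * j) := by
    intro i j
    have h1 := ENNReal.toReal_mono (ENNReal.mul_ne_top (haT _) (haT _)) (aa_cs hNu hUnf hNm hQp hF i j)
    rw [ENNReal.toReal_pow, ENNReal.toReal_mul] at h1
    exact h1
  -- the bottom moment
  have h00 : a 0 ≤ CD * m := by
    have h1 : aa Q F 0 = ∑' γ : SL(2, ℤ), Dd Φ U (io γ) := by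
      have h2 : aa Q F 0 = AIkM.II F 1 := rfl
      rw [h2, AIkM.II_eq hE.cont hU, ← Equiv.tsum_eq eSL (fun s : Mn 1 => Dd Φ U (nm s.1))]
      refine tsum_congr fun γ => ?_
      change Dd Φ U (nm (γ : Mat)) = _
      rw [hNm.2.1]
    have h2 := hCD Φ hE.cont U hU hUR
    rw [← h1, hms, ← ENNReal.ofReal_mul hCD0] at h2
    exact ENNReal.toReal_le_of_le_ofReal (by positivity) h2
  have hbigR : (1 + C1 + 2 * K0) * (q ^ k * m) ≤ a (2 * k) := by
    rw [hqE, hms, ← ENNReal.ofReal_pow hq0, ← ENNReal.ofReal_mul (by positivity),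
      ← ENNReal.ofReal_mul (by positivity)] at hbig
    exact (ENNReal.ofReal_le_iff_le_toReal (haT _)).1 hbig
  have h0 : (B ^ 2 * q) ^ k * a 0 ≤ a (2 * k) := by
    refine le_trans ?_ hbigR
    have h3 : (B ^ 2 * q) ^ k * a 0 ≤ (B ^ 2 * q) ^ k * (CD * m) :=
      mul_le_mul_of_nonneg_left h00 (by positivity)
    refine h3.trans ?_
    have h4 : (B ^ 2 * q) ^ k * (CD * m) = C1 * (q ^ k * m) := by
      rw [hC1, mul_pow]
      ring
    rw [h4]
    exact mul_le_mul_of_nonneg_right (by linarith) (by positivity)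
  -- the upper bound
  have hupR : a (2 * k) ≤ K0 * ∑ j ∈ Finset.range (2 * k + 1), q ^ ((2 * k - j) / 2) * e j := by
    have h1 := ENNReal.toReal_mono (ENNReal.mul_ne_top (Ck_top (2 * k)) (ENNReal.sum_ne_top.2 fun j _ =>
      ENNReal.mul_ne_top (ENNReal.pow_ne_top (ENNReal.natCast_ne_top _)) (heT j))) (hup (2 * k))
    rw [ENNReal.toReal_mul, ENNReal.toReal_sum fun j _ =>
      ENNReal.mul_ne_top (ENNReal.pow_ne_top (ENNReal.natCast_ne_top _)) (heT j)] at h1
    have h2 : ∀ j ∈ Finset.range (2 * k + 1), ((Q.card : ℝ≥0∞) ^ ((2 * k - j) / 2) *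
        ∫⁻ x, F x * El Q j F x ∂nu).toReal = q ^ ((2 * k - j) / 2) * e j := by
      intro j _
      rw [ENNReal.toReal_mul, ENNReal.toReal_pow, hqN]
    rw [Finset.sum_congr rfl h2] at h1
    refine h1.trans (mul_le_mul_of_nonneg_right (le_max_right _ _) ?_)
    exact Finset.sum_nonneg fun j _ => mul_nonneg (by positivity) ENNReal.toReal_nonneg
  have hfin := absorb k hk hK01 hBd hq1 a e (fun _ => ENNReal.toReal_nonneg)
    (fun _ => ENNReal.toReal_nonneg) (fun j => ENNReal.toReal_mono (haT j) (hea j)) hcs h0 hupR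
  have h9 : a (2 * k) ≤ (1 + C1 + 2 * K0) * e (2 * k) :=
    hfin.trans (mul_le_mul_of_nonneg_right (by linarith) ENNReal.toReal_nonneg)
  rw [← ENNReal.ofReal_toReal (haT (2 * k)), ← ENNReal.ofReal_toReal (heT (2 * k)),
    ← ENNReal.ofReal_mul (by positivity)]
  exact ENNReal.ofReal_le_ofReal h9

end

end Pool.Agent.A54.HSV
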