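import Pool.Agent.Lib.HS.Bd.V.Spec

/-!
# HS/Bd/V, module Dz: few cells are near short vectors (helper40)
-/

set_option autoImplicit false

namespace Pool.Agent.A54.HSV

open MeasureTheory Filter Topology Set
open scoped ContDiff ComplexConjugate UpperHalfPlane MatrixGroups ENNReal
open Pool.Agent.A54.Dyn (G fl base ze io mk4 dom)
open Pool.Agent.A54.Av (Mat NonSc)
open Pool.Agent.A54.HS
open Pool.Agent.A54.Hp Pool.Agent.A54.Hp.Hk Pool.Agent.A54.Hp.A2M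

noncomputable section

namespace DzM

/-! ### counting lattice points -/

lemma card_box (k : ℕ) (z0 : Fin 3 → ℤ) :
    (Fintype.piFinset (fun i => Finset.Icc (z0 i - (k : ℤ)) (z0 i + (k : ℤ)))).card
      = (2 * k + 1) ^ 3 := by
  rw [Fintype.card_piFinset]
  have h : ∀ i, (Finset.Icc (z0 i - (k : ℤ)) (z0 i + (k : ℤ))).card = 2 * k + 1 := by
    intro i
    rw [Int.card_Icc]
    omega
  simp only [h, Finset.prod_const, Finset.card_univ, Fintype.card_fin]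

lemma box_le (L : ℝ) (hL : 0 ≤ L) (z0 : Fin 3 → ℤ) (S : Finset (Fin 3 → ℤ))
    (hS : ∀ z ∈ S, ∀ i, |(z i : ℝ) - (z0 i : ℝ)| ≤ L) : (S.card : ℝ) ≤ (2 * L + 1) ^ 3 := by
  have hsub : S ⊆ Fintype.piFinset
      (fun i => Finset.Icc (z0 i - ((⌊L⌋₊ : ℕ) : ℤ)) (z0 i + ((⌊L⌋₊ : ℕ) : ℤ))) := by
    intro z hz
    rw [Fintype.mem_piFinset]
    intro i
    have h1 := abs_le.mp (hS z hz i)
    have h2 : z i - z0 i ≤ ⌊L⌋ := Int.le_floor.mpr (by push_cast; linarith)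
    have h3 : z0 i - z i ≤ ⌊L⌋ := Int.le_floor.mpr (by push_cast; linarith)
    rw [← Int.natCast_floor_eq_floor hL] at h2 h3
    rw [Finset.mem_Icc]
    omega
  have h5 := Finset.card_le_card hsub
  rw [card_box] at h5
  have h6 : (S.card : ℝ) ≤ (2 * (⌊L⌋₊ : ℝ) + 1) ^ 3 := by exact_mod_cast h5
  have h7 := Nat.floor_le hL
  have h8 : (2 * (⌊L⌋₊ : ℝ) + 1) ^ 3 ≤ (2 * L + 1) ^ 3 :=
    pow_le_pow_left₀ (by positivity) (by linarith) 3
  exact h6.trans h8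

/-- the largest entry -/
def J (n : Fin 3 → ℤ) : ℕ := max (max (n 0).natAbs (n 1).natAbs) (n 2).natAbs

lemma le_J (n : Fin 3 → ℤ) (i : Fin 3) : (n i).natAbs ≤ J n := by
  unfold J
  fin_cases i
  · exact (le_max_left _ _).trans (le_max_left _ _)
  · exact (le_max_right _ _).trans (le_max_left _ _)
  · exact le_max_right _ _

lemma J_eq (n : Fin 3 → ℤ) : ∃ i, (n i).natAbs = J n := by
  unfold J
  rcases max_choice (max (n 0).natAbs (n 1).natAbs) (n 2).natAbs with h | h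
  · rcases max_choice (n 0).natAbs (n 1).natAbs with h' | h'
    · exact ⟨0, by rw [h, h']⟩
    · exact ⟨1, by rw [h, h']⟩
  · exact ⟨2, by rw [h]⟩

lemma J_pos {n : Fin 3 → ℤ} (h : n ≠ 0) : 1 ≤ J n := by
  by_contra h1
  apply h
  funext i
  have h2 := le_J n i
  have h3 : (n i).natAbs = 0 := by omega
  exact Int.natAbs_eq_zero.mp h3

lemma abs_eq_nat (z : ℤ) : |(z : ℝ)| = (z.natAbs : ℝ) := by
  rw [Nat.cast_natAbs, Int.cast_abs]

/-- the vectors with largest entry `k + 1` -/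
lemma sph (k : ℕ) (S : Finset (Fin 3 → ℤ)) (hS : ∀ n ∈ S, J n = k + 1) :
    S.card ≤ 26 * (k + 1) ^ 2 := by
  classical
  have hd : Disjoint S (Fintype.piFinset
      (fun i => Finset.Icc ((0 : Fin 3 → ℤ) i - (k : ℤ)) ((0 : Fin 3 → ℤ) i + (k : ℤ)))) := by
    rw [Finset.disjoint_left]
    intro n hn hn'
    obtain ⟨i, hi⟩ := J_eq n
    have h1 := hS n hn
    have h2 := Fintype.mem_piFinset.mp hn' i
    rw [Finset.mem_Icc] at h2
    simp only [Pi.zero_apply] at h2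
    omega
  have hu : S ∪ (Fintype.piFinset
      (fun i => Finset.Icc ((0 : Fin 3 → ℤ) i - (k : ℤ)) ((0 : Fin 3 → ℤ) i + (k : ℤ)))) ⊆
      Fintype.piFinset (fun i => Finset.Icc ((0 : Fin 3 → ℤ) i - ((k + 1 : ℕ) : ℤ))
        ((0 : Fin 3 → ℤ) i + ((k + 1 : ℕ) : ℤ))) := by
    intro n hn
    rw [Fintype.mem_piFinset]
    intro i
    rw [Finset.mem_Icc]
    simp only [Pi.zero_apply]
    rcases Finset.mem_union.mp hn with hn | hn
    · have h1 := hS n hn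
      have h2 := le_J n i
      push_cast
      omega
    · have h2 := Fintype.mem_piFinset.mp hn i
      rw [Finset.mem_Icc] at h2
      simp only [Pi.zero_apply] at h2
      push_cast
      omega
  have h := Finset.card_le_card hu
  rw [Finset.card_union_of_disjoint hd, card_box, card_box] at h
  have e : (2 * (k + 1) + 1) ^ 3 = (2 * k + 1) ^ 3 + (24 * (k + 1) ^ 2 + 2) := by ring
  have e1 : 1 ≤ (k + 1) ^ 2 := Nat.one_le_pow _ _ (Nat.succ_pos k)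
  rw [e] at h
  linarith

/-! ### data of a cell near a short vector -/

/-- the point `ξ` is near the line of the integral vector `n` -/
structure Nr (R w D : ℝ) (ξ : Fin 3 → ℝ) (n : Fin 3 → ℤ) (φ : ℝ) : Prop where
  pos : 0 < φ
  up : φ ≤ 2 * D
  nz : n ≠ 0
  bd : ∀ i, |ξ i| ≤ 2 * R ^ 2
  ap : ∀ i, |(n i : ℝ) - φ * ξ i| ≤ 4 * R ^ 2 * D * w
  qd : |φ ^ 2 - ((n 0 : ℝ) ^ 2 + 4 * (n 1 : ℝ) * (n 2 : ℝ))| ≤ 4 * D ^ 2 * w ^ 2

lemma alg {p q r s α β γ f0 f1 f2 : ℝ} (hd : p * s - q * r = 1)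
    (h0 : f0 = α * (p * s + q * r) + β * (r * s) - γ * (p * q))
    (h1 : f1 = 2 * α * (q * s) + β * s ^ 2 - γ * q ^ 2)
    (h2 : f2 = - (2 * α * (p * r)) - β * r ^ 2 + γ * p ^ 2) :
    α = f0 * (p * s + q * r) + (f2 * (q * s) - f1 * (p * r)) ∧
    β = 2 * f0 * (-(p * q)) + (f1 * (p * p) - f2 * (q * q)) ∧
    γ = 2 * f0 * (r * s) + (f2 * (s * s) - f1 * (r * r)) ∧
    f0 ^ 2 = α ^ 2 + β * γ - f1 * f2 := by
  subst h0 h1 h2
  refine ⟨?_, ?_, ?_, ?_⟩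
  · linear_combination (-α * (p * s - q * r + 1)) * hd
  · linear_combination (-β * (p * s - q * r + 1)) * hd
  · linear_combination (-γ * (p * s - q * r + 1)) * hd
  · linear_combination ((α ^ 2 + β * γ) * (p * s - q * r + 1)) * hd

lemma mulb {x y X Y : ℝ} (hx : |x| ≤ X) (hy : |y| ≤ Y) : |x * y| ≤ X * Y := by
  rw [abs_mul]
  exact mul_le_mul hx hy (abs_nonneg _) ((abs_nonneg _).trans hx)

lemma err {R e x y a b c d : ℝ} (hx : |x| ≤ e) (hy : |y| ≤ e) (ha : |a| ≤ R) (hb : |b| ≤ R)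
    (hc : |c| ≤ R) (hd : |d| ≤ R) : |x * (a * b) - y * (c * d)| ≤ 2 * R ^ 2 * e := by
  have h1 := mulb hx (mulb ha hb)
  have h2 := mulb hy (mulb hc hd)
  calc |x * (a * b) - y * (c * d)| ≤ |x * (a * b)| + |y * (c * d)| := abs_sub _ _
    _ ≤ e * (R * R) + e * (R * R) := add_le_add h1 h2
    _ = 2 * R ^ 2 * e := by ring

lemma frf (a : G) (v : HSL.MZ) (htr : v.trace = 0) :
    HSL.fr a.1 a.1 v 0 0 = (v 0 0 : ℝ) * (a.1 0 0 * a.1 1 1 + a.1 0 1 * a.1 1 0) +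
      (v 0 1 : ℝ) * (a.1 1 0 * a.1 1 1) - (v 1 0 : ℝ) * (a.1 0 0 * a.1 0 1) ∧
    HSL.fr a.1 a.1 v 0 1 = 2 * (v 0 0 : ℝ) * (a.1 0 1 * a.1 1 1) +
      (v 0 1 : ℝ) * a.1 1 1 ^ 2 - (v 1 0 : ℝ) * a.1 0 1 ^ 2 ∧
    HSL.fr a.1 a.1 v 1 0 = - (2 * (v 0 0 : ℝ) * (a.1 0 0 * a.1 1 0)) -
      (v 0 1 : ℝ) * a.1 1 0 ^ 2 + (v 1 0 : ℝ) * a.1 0 0 ^ 2 := by
  have h1 : (v 1 1 : ℝ) = - (v 0 0 : ℝ) := by
    rw [Matrix.trace_fin_two] at htr
    have h2 : v 1 1 = - v 0 0 := by linarith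
    rw [h2]
    push_cast
    ring
  simp only [HSL.fr, HSL.toR, Matrix.adjugate_fin_two, Matrix.mul_apply, Fin.sum_univ_two,
    Matrix.map_apply, Matrix.of_apply, Matrix.cons_val', Matrix.cons_val_zero,
    Matrix.cons_val_one, Matrix.cons_val_fin_one, h1]
  refine ⟨?_, ?_, ?_⟩ <;> ring

/-- the case of a positive diagonal entry -/
lemma core {R w D : ℝ} (hR : 1 ≤ R) (hw : 0 < w) (hD : 1 ≤ D) {a : G} (ha : a ∈ Om R)
    (v : HSL.MZ) (hv : v ≠ 0) (htr : v.trace = 0) (h0 : |HSL.fr a.1 a.1 v 0 0| < D)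
    (h1 : |HSL.fr a.1 a.1 v 0 1| < D * w) (h2 : |HSL.fr a.1 a.1 v 1 0| < D * w)
    (hp : 0 < HSL.fr a.1 a.1 v 0 0) :
    ∃ (n : Fin 3 → ℤ) (φ : ℝ), Nr R w D (xi a) n φ := by
  have hdet : a.1 0 0 * a.1 1 1 - a.1 0 1 * a.1 1 0 = 1 := Dyn.det_eq a
  obtain ⟨e0, e1, e2⟩ := frf a v htr
  obtain ⟨k0, k1, k2, k3⟩ := alg hdet e0 e1 e2
  have r00 : |a.1 0 0| ≤ R := ha 0 0
  have r01 : |a.1 0 1| ≤ R := ha 0 1
  have r10 : |a.1 1 0| ≤ R := ha 1 0
  have r11 : |a.1 1 1| ≤ R := ha 1 1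
  have hR0 : 0 ≤ R := by linarith
  have x0 : xi a 0 = a.1 0 0 * a.1 1 1 + a.1 0 1 * a.1 1 0 := rfl
  have x1 : xi a 1 = -(a.1 0 0 * a.1 0 1) := rfl
  have x2 : xi a 2 = a.1 1 0 * a.1 1 1 := rfl
  have b0 := err h2.le h1.le r01 r11 r00 r10
  have b1 := err h1.le h2.le r00 r00 r01 r01
  have b2 := err h2.le h1.le r11 r11 r10 r10
  set f0 := HSL.fr a.1 a.1 v 0 0 with hf0
  set f1 := HSL.fr a.1 a.1 v 0 1 with hf1
  set f2 := HSL.fr a.1 a.1 v 1 0 with hf2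
  have hDw : 0 < D * w := by positivity
  have hRDw : 0 < R ^ 2 * (D * w) := by positivity
  refine ⟨![2 * v 0 0, v 0 1, v 1 0], 2 * f0, ?_⟩
  have n0 : (![2 * v 0 0, v 0 1, v 1 0] : Fin 3 → ℤ) 0 = 2 * v 0 0 := rfl
  have n1 : (![2 * v 0 0, v 0 1, v 1 0] : Fin 3 → ℤ) 1 = v 0 1 := rfl
  have n2 : (![2 * v 0 0, v 0 1, v 1 0] : Fin 3 → ℤ) 2 = v 1 0 := rfl
  refine ⟨by linarith, ?_, ?_, ?_, ?_, ?_⟩
  · have := (abs_lt.mp h0).2
    linarith
  · intro hn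
    apply hv
    have g0 := congrFun hn 0
    have g1 := congrFun hn 1
    have g2 := congrFun hn 2
    rw [n0] at g0
    rw [n1] at g1
    rw [n2] at g2
    simp only [Pi.zero_apply] at g0 g1 g2
    rw [Matrix.trace_fin_two] at htr
    ext i j
    fin_cases i <;> fin_cases j
    · show v 0 0 = 0
      linarith
    · show v 0 1 = 0
      exact g1
    · show v 1 0 = 0
      exact g2
    · show v 1 1 = 0
      linarith
  · intro i
    have hRR : 0 ≤ R * R := by positivity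
    fin_cases i
    · show |xi a 0| ≤ _
      rw [x0]
      have t1 := mulb r00 r11
      have t2 := mulb r01 r10
      have t3 := abs_add_le (a.1 0 0 * a.1 1 1) (a.1 0 1 * a.1 1 0)
      nlinarith
    · show |xi a 1| ≤ _
      rw [x1, abs_neg]
      have t1 := mulb r00 r01
      nlinarith
    · show |xi a 2| ≤ _
      rw [x2]
      have t1 := mulb r10 r11
      nlinarith
  · intro i
    fin_cases i
    · show |(((![2 * v 0 0, v 0 1, v 1 0] : Fin 3 → ℤ) 0 : ℤ) : ℝ) - 2 * f0 * xi a 0| ≤ _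
      rw [n0, x0]
      push_cast
      have e : 2 * (v 0 0 : ℝ) - 2 * f0 * (a.1 0 0 * a.1 1 1 + a.1 0 1 * a.1 1 0) =
          2 * (f2 * (a.1 0 1 * a.1 1 1) - f1 * (a.1 0 0 * a.1 1 0)) := by
        linear_combination 2 * k0
      rw [e, abs_mul, abs_of_pos (by norm_num : (0 : ℝ) < 2)]
      linarith
    · show |(((![2 * v 0 0, v 0 1, v 1 0] : Fin 3 → ℤ) 1 : ℤ) : ℝ) - 2 * f0 * xi a 1| ≤ _
      rw [n1, x1]
      have e : (v 0 1 : ℝ) - 2 * f0 * (-(a.1 0 0 * a.1 0 1)) =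
          f1 * (a.1 0 0 * a.1 0 0) - f2 * (a.1 0 1 * a.1 0 1) := by
        linear_combination k1
      rw [e]
      linarith
    · show |(((![2 * v 0 0, v 0 1, v 1 0] : Fin 3 → ℤ) 2 : ℤ) : ℝ) - 2 * f0 * xi a 2| ≤ _
      rw [n2, x2]
      have e : (v 1 0 : ℝ) - 2 * f0 * (a.1 1 0 * a.1 1 1) =
          f2 * (a.1 1 1 * a.1 1 1) - f1 * (a.1 1 0 * a.1 1 0) := by
        linear_combination k2
      rw [e]
      linarith
  · rw [n0, n1, n2]
    push_cast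
    have e : (2 * f0) ^ 2 - ((2 * (v 0 0 : ℝ)) ^ 2 + 4 * (v 0 1 : ℝ) * (v 1 0 : ℝ)) =
        -(4 * (f1 * f2)) := by
      linear_combination 4 * k3
    rw [e, abs_neg, abs_mul, abs_of_pos (by norm_num : (0 : ℝ) < 4)]
    have t := mulb h1.le h2.le
    calc 4 * |f1 * f2| ≤ 4 * ((D * w) * (D * w)) := by linarith
      _ = 4 * D ^ 2 * w ^ 2 := by ring

lemma fr_neg (a b : HSL.MR) (v : HSL.MZ) (i j : Fin 2) :
    HSL.fr a b (-v) i j = - HSL.fr a b v i j := by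
  have h : HSL.toR (-v) = - HSL.toR v := by
    ext i j
    simp [HSL.toR]
  unfold HSL.fr
  rw [h, Matrix.mul_neg, Matrix.neg_mul, Matrix.neg_apply]

lemma ex {R w D : ℝ} (hR : 1 ≤ R) (hw : 0 < w) (hD : 1 ≤ D) (hC : 8 * R ^ 2 * w * D ≤ 1) {a : G}
    (ha : a ∈ Om R) (h : ¬ Dg D w a.1) : ∃ (n : Fin 3 → ℤ) (φ : ℝ), Nr R w D (xi a) n φ := by
  unfold Dg at h
  push Not at h
  obtain ⟨v, hv, htr, h0, h1, h2, -⟩ := h
  rcases lt_trichotomy (HSL.fr a.1 a.1 v 0 0) 0 with hs | hs | hs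
  · refine core hR hw hD ha (-v) (neg_ne_zero.mpr hv) ?_ ?_ ?_ ?_ ?_
    · rw [Matrix.trace_neg, htr, neg_zero]
    · rw [fr_neg, abs_neg]; exact h0
    · rw [fr_neg, abs_neg]; exact h1
    · rw [fr_neg, abs_neg]; exact h2
    · rw [fr_neg]; linarith
  · exfalso
    apply hv
    have hdet : a.1 0 0 * a.1 1 1 - a.1 0 1 * a.1 1 0 = 1 := Dyn.det_eq a
    obtain ⟨e0, e1, e2⟩ := frf a v htr
    obtain ⟨k0, k1, k2, -⟩ := alg hdet e0 e1 e2
    have r00 : |a.1 0 0| ≤ R := ha 0 0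
    have r01 : |a.1 0 1| ≤ R := ha 0 1
    have r10 : |a.1 1 0| ≤ R := ha 1 0
    have r11 : |a.1 1 1| ≤ R := ha 1 1
    have b0 := err h2.le h1.le r01 r11 r00 r10
    have b1 := err h1.le h2.le r00 r00 r01 r01
    have b2 := err h2.le h1.le r11 r11 r10 r10
    rw [hs] at k0 k1 k2
    have z0 : ∀ z : ℤ, |(z : ℝ)| ≤ 2 * R ^ 2 * (D * w) → z = 0 := by
      intro z hz
      by_contra hne
      have h3 : (1 : ℤ) ≤ |z| := Int.one_le_abs hne
      have h4 : (1 : ℝ) ≤ |(z : ℝ)| := by exact_mod_cast h3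
      linarith
    have g0 : v 0 0 = 0 := z0 _ (by rw [k0, zero_mul, zero_add]; exact b0)
    have g1 : v 0 1 = 0 := z0 _ (by rw [k1, mul_zero, zero_mul, zero_add]; exact b1)
    have g2 : v 1 0 = 0 := z0 _ (by rw [k2, mul_zero, zero_mul, zero_add]; exact b2)
    rw [Matrix.trace_fin_two] at htr
    ext i j
    fin_cases i <;> fin_cases j
    · show v 0 0 = 0
      exact g0
    · show v 0 1 = 0
      exact g1
    · show v 1 0 = 0
      exact g2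
    · show v 1 1 = 0
      linarith
  · exact core hR hw hD ha v hv htr h0 h1 h2 hs

/-- size of `φ` -/
lemma lowb {R w D : ℝ} {ξ : Fin 3 → ℝ} {n : Fin 3 → ℤ} {φ : ℝ} (hR : 1 ≤ R)
    (hC : 8 * R ^ 2 * w * D ≤ 1) (h : Nr R w D ξ n φ) :
    (J n : ℝ) ≤ 4 * R ^ 2 * φ ∧ (J n : ℝ) ≤ 5 * R ^ 2 * D ∨ D < 1 := by
  by_cases hD : D < 1
  · exact Or.inr hD
  left
  have hD1 : 1 ≤ D := not_lt.mp hD
  have hJ : (1 : ℝ) ≤ (J n : ℝ) := by exact_mod_cast J_pos h.nz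
  obtain ⟨i, hi⟩ := J_eq n
  have h1 := h.ap i
  have h2 := h.bd i
  have h3 : |(n i : ℝ)| = (J n : ℝ) := by rw [abs_eq_nat, hi]
  have h4 : |(n i : ℝ)| ≤ |(n i : ℝ) - φ * ξ i| + |φ * ξ i| := by
    have := abs_add_le ((n i : ℝ) - φ * ξ i) (φ * ξ i)
    rwa [sub_add_cancel] at this
  have h5 : |φ * ξ i| ≤ φ * (2 * R ^ 2) := mulb (by rw [abs_of_pos h.pos]) h2
  have h6 : (J n : ℝ) ≤ 1 / 2 + 2 * R ^ 2 * φ := by
    rw [← h3]
    linarith
  have h7 : 1 ≤ R ^ 2 := one_le_pow₀ hR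
  have h8 : φ ≤ 2 * D := h.up
  have h9 : 1 ≤ R ^ 2 * D := by nlinarith
  constructor
  · linarith
  · have h10 : R ^ 2 * φ ≤ R ^ 2 * (2 * D) := mul_le_mul_of_nonneg_left h8 (by positivity)
    linarith

/-- two points near the same vector -/
lemma two {R w D : ℝ} {ξ ξ' : Fin 3 → ℝ} {n : Fin 3 → ℤ} {φ φ' : ℝ} (hR : 1 ≤ R) (hw : 0 < w)
    (hD : 1 ≤ D) (hC : 8 * R ^ 2 * w * D ≤ 1) (h : Nr R w D ξ n φ) (h' : Nr R w D ξ' n φ')
    (i : Fin 3) : |ξ i - ξ' i| ≤ 288 * R ^ 6 * D * w / (J n : ℝ) := by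
  have hJ : (1 : ℝ) ≤ (J n : ℝ) := by exact_mod_cast J_pos h.nz
  obtain ⟨j, hj⟩ : ∃ j : ℝ, j = (J n : ℝ) := ⟨_, rfl⟩
  have l1 : j ≤ 4 * R ^ 2 * φ := by
    rcases lowb hR hC h with h1 | h1
    · rw [hj]; exact h1.1
    · linarith
  have l2 : j ≤ 4 * R ^ 2 * φ' := by
    rcases lowb hR hC h' with h1 | h1
    · rw [hj]; exact h1.1
    · linarith
  rw [← hj] at hJ ⊢
  have hj0 : 0 < j := by linarith
  have hR2 : 1 ≤ R ^ 2 := one_le_pow₀ hR
  have hφ : 0 < φ := h.pos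
  have hφ' : 0 < φ' := h'.pos
  have hni : |(n i : ℝ)| ≤ j := by
    rw [abs_eq_nat, hj]
    exact_mod_cast le_J n i
  obtain ⟨e, he⟩ : ∃ e : ℝ, e = 4 * R ^ 2 * D * w := ⟨_, rfl⟩
  have a1 := h.ap i
  have a2 := h'.ap i
  rw [← he] at a1 a2
  have he0 : 0 < e := by rw [he]; positivity
  -- difference of the squares
  have q1 : |φ ^ 2 - φ' ^ 2| ≤ 8 * D ^ 2 * w ^ 2 := by
    have b1 := abs_le.mp h.qd
    have b2 := abs_le.mp h'.qd
    rw [abs_le]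
    constructor <;> linarith [b1.1, b1.2, b2.1, b2.2]
  have q2 : |φ - φ'| * (φ + φ') ≤ 8 * D ^ 2 * w ^ 2 := by
    have : |φ ^ 2 - φ' ^ 2| = |φ - φ'| * (φ + φ') := by
      rw [show φ ^ 2 - φ' ^ 2 = (φ - φ') * (φ + φ') by ring, abs_mul,
        abs_of_pos (by linarith : 0 < φ + φ')]
    rw [← this]
    exact q1
  have q3 : |φ - φ'| * j ≤ 2 * R ^ 2 * (8 * D ^ 2 * w ^ 2) := by
    have b1 : j ≤ 2 * R ^ 2 * (φ + φ') := by linarith
    calc |φ - φ'| * j ≤ |φ - φ'| * (2 * R ^ 2 * (φ + φ')) :=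
          mul_le_mul_of_nonneg_left b1 (abs_nonneg _)
      _ = 2 * R ^ 2 * (|φ - φ'| * (φ + φ')) := by ring
      _ ≤ 2 * R ^ 2 * (8 * D ^ 2 * w ^ 2) := mul_le_mul_of_nonneg_left q2 (by positivity)
  -- the identity
  have id1 : φ * φ' * (ξ i - ξ' i) = (φ' - φ) * (n i : ℝ) - φ' * ((n i : ℝ) - φ * ξ i) +
      φ * ((n i : ℝ) - φ' * ξ' i) := by ring
  have up1 : φ * φ' * |ξ i - ξ' i| ≤ |φ - φ'| * j + φ' * e + φ * e := by
    have c1 : φ * φ' * |ξ i - ξ' i| = |φ * φ' * (ξ i - ξ' i)| := by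
      rw [abs_mul, abs_of_pos (mul_pos hφ hφ')]
    rw [c1, id1]
    have c2 : |(φ' - φ) * (n i : ℝ)| ≤ |φ - φ'| * j := by
      rw [abs_mul, abs_sub_comm φ' φ]
      exact mul_le_mul_of_nonneg_left hni (abs_nonneg _)
    have c3 : |φ' * ((n i : ℝ) - φ * ξ i)| ≤ φ' * e := by
      rw [abs_mul, abs_of_pos hφ']
      exact mul_le_mul_of_nonneg_left a1 hφ'.le
    have c4 : |φ * ((n i : ℝ) - φ' * ξ' i)| ≤ φ * e := by
      rw [abs_mul, abs_of_pos hφ]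
      exact mul_le_mul_of_nonneg_left a2 hφ.le
    have c5 := abs_add_le ((φ' - φ) * (n i : ℝ) - φ' * ((n i : ℝ) - φ * ξ i))
      (φ * ((n i : ℝ) - φ' * ξ' i))
    have c6 := abs_sub ((φ' - φ) * (n i : ℝ)) (φ' * ((n i : ℝ) - φ * ξ i))
    linarith
  obtain ⟨X, hX⟩ : ∃ X : ℝ, X = |ξ i - ξ' i| := ⟨_, rfl⟩
  rw [← hX] at up1 ⊢
  -- divide by `φ φ'`
  have u1 : X ≤ |φ - φ'| * j / (φ * φ') + e / φ + e / φ' := by
    have hpp : 0 < φ * φ' := mul_pos hφ hφ'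
    have c : |φ - φ'| * j / (φ * φ') + e / φ + e / φ' =
        (|φ - φ'| * j + φ' * e + φ * e) / (φ * φ') := by
      field_simp
    rw [c, le_div_iff₀ hpp]
    linarith
  have u2 : 1 / φ ≤ 4 * R ^ 2 / j := by
    rw [div_le_div_iff₀ hφ hj0]
    linarith
  have u3 : 1 / φ' ≤ 4 * R ^ 2 / j := by
    rw [div_le_div_iff₀ hφ' hj0]
    linarith
  have u4 : e / φ ≤ e * (4 * R ^ 2 / j) := by
    rw [div_eq_mul_one_div]
    exact mul_le_mul_of_nonneg_left u2 he0.le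
  have u5 : e / φ' ≤ e * (4 * R ^ 2 / j) := by
    rw [div_eq_mul_one_div]
    exact mul_le_mul_of_nonneg_left u3 he0.le
  have u6 : |φ - φ'| * j / (φ * φ') ≤
      2 * R ^ 2 * (8 * D ^ 2 * w ^ 2) * ((4 * R ^ 2 / j) * (4 * R ^ 2 / j)) := by
    have c : |φ - φ'| * j / (φ * φ') = |φ - φ'| * j * ((1 / φ) * (1 / φ')) := by
      field_simp
    rw [c]
    exact mul_le_mul q3 (mul_le_mul u2 u3 (by positivity) (by positivity)) (by positivity)
      (by positivity)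
  have hwD : D * w ≤ 1 := by
    have h1 : 0 < w * D := by positivity
    nlinarith
  have u7 : 2 * R ^ 2 * (8 * D ^ 2 * w ^ 2) * ((4 * R ^ 2 / j) * (4 * R ^ 2 / j)) ≤
      256 * R ^ 6 * D * w / j := by
    have c : 2 * R ^ 2 * (8 * D ^ 2 * w ^ 2) * ((4 * R ^ 2 / j) * (4 * R ^ 2 / j)) =
        (256 * R ^ 6 * D * w / j) * (D * w / j) := by
      field_simp
      ring
    rw [c]
    have c1 : D * w / j ≤ 1 := by
      rw [div_le_one hj0]
      linarith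
    exact mul_le_of_le_one_right (by positivity) c1
  have u8 : e * (4 * R ^ 2 / j) ≤ 16 * R ^ 6 * D * w / j := by
    rw [he]
    have c : 4 * R ^ 2 * D * w * (4 * R ^ 2 / j) = 16 * R ^ 4 * D * w / j := by
      field_simp
      ring
    rw [c]
    have c1 : R ^ 4 ≤ R ^ 6 := pow_le_pow_right₀ hR (by norm_num)
    gcongr
  have u9 : 256 * R ^ 6 * D * w / j + 16 * R ^ 6 * D * w / j + 16 * R ^ 6 * D * w / j =
      288 * R ^ 6 * D * w / j := by ring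
  linarith

/-- cells with the same vector -/
lemma fib {R w D : ℝ} (hR : 1 ≤ R) (hw : 0 < w) (hD : 1 ≤ D) (hC : 8 * R ^ 2 * w * D ≤ 1)
    (n : Fin 3 → ℤ) (S : Finset (Fin 3 → ℤ))
    (hS : ∀ z ∈ S, (cel R w z).Nonempty ∧ ∃ φ, Nr R w D (xi (rp R w z)) n φ) :
    (S.card : ℝ) ≤ (600 * R ^ 6 * D / (J n : ℝ)) ^ 3 := by
  rcases S.eq_empty_or_nonempty with hS0 | ⟨z0, hz0⟩
  · rw [hS0]
    simp only [Finset.card_empty, Nat.cast_zero]
    positivity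
  obtain ⟨ne0, φ0, h0⟩ := hS z0 hz0
  have hJ : (1 : ℝ) ≤ (J n : ℝ) := by exact_mod_cast J_pos h0.nz
  have hj0 : (0 : ℝ) < (J n : ℝ) := by linarith
  have hcel : ∀ z : Fin 3 → ℤ, (cel R w z).Nonempty → ∀ i, ⌊xi (rp R w z) i / w⌋ = z i := by
    intro z hz i
    have h1 : rp R w z ∈ cel R w z := by
      unfold Pool.Agent.A54.HS.rp
      rw [dif_pos hz]
      exact hz.some_mem
    exact h1.2 i
  have hL0 : 0 ≤ 288 * R ^ 6 * D / (J n : ℝ) + 1 := by positivity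
  have hb := box_le (288 * R ^ 6 * D / (J n : ℝ) + 1) hL0 z0 S ?_
  · have hJD : (J n : ℝ) ≤ 5 * R ^ 2 * D := by
      rcases lowb hR hC h0 with h1 | h1
      · exact h1.2
      · linarith
    have h26 : R ^ 2 ≤ R ^ 6 := pow_le_pow_right₀ hR (by norm_num)
    have h3 : 1 ≤ 5 * R ^ 6 * D / (J n : ℝ) := by
      rw [one_le_div hj0]
      have : 5 * R ^ 2 * D ≤ 5 * R ^ 6 * D := by gcongr
      linarith
    have h4 : 2 * (288 * R ^ 6 * D / (J n : ℝ) + 1) + 1 ≤ 600 * R ^ 6 * D / (J n : ℝ) := by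
      have h5 : 600 * R ^ 6 * D / (J n : ℝ) = 576 * R ^ 6 * D / (J n : ℝ) +
          (24 / 5) * (5 * R ^ 6 * D / (J n : ℝ)) := by ring
      have h6 : 2 * (288 * R ^ 6 * D / (J n : ℝ) + 1) + 1 =
          576 * R ^ 6 * D / (J n : ℝ) + 3 := by ring
      rw [h5, h6]
      linarith
    exact hb.trans (pow_le_pow_left₀ (by positivity) h4 3)
  · intro z hz i
    obtain ⟨ne, φ, h1⟩ := hS z hz
    have h2 := two hR hw hD hC h1 h0 i
    have e1 := hcel z ne i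
    have e2 := hcel z0 ne0 i
    have f1 := Int.floor_le (xi (rp R w z) i / w)
    have f2 := Int.lt_floor_add_one (xi (rp R w z) i / w)
    have f3 := Int.floor_le (xi (rp R w z0) i / w)
    have f4 := Int.lt_floor_add_one (xi (rp R w z0) i / w)
    rw [e1] at f1 f2
    rw [e2] at f3 f4
    have h3 : |xi (rp R w z) i / w - xi (rp R w z0) i / w| ≤ 288 * R ^ 6 * D / (J n : ℝ) := by
      rw [← sub_div, abs_div, abs_of_pos hw, div_le_iff₀ hw]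
      calc _ ≤ 288 * R ^ 6 * D * w / (J n : ℝ) := h2
        _ = 288 * R ^ 6 * D / (J n : ℝ) * w := by ring
    have h4 := abs_le.mp h3
    rw [abs_le]
    constructor <;> linarith [h4.1, h4.2]

end DzM

open DzM

theorem tDz : V_Dz := by
  classical
  intro R hR
  have hR0 : 0 < R := by linarith
  have hR2 : 1 ≤ R ^ 2 := one_le_pow₀ hR
  have hR18 : 1 ≤ R ^ 18 := one_le_pow₀ hR
  refine ⟨26 * 600 ^ 3 * R ^ 18 * (1 + 5 * R ^ 2), ?_, ?_⟩
  · nlinarith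
  intro w D hw _ hD hC V hV
  have hC' : 8 * R ^ 2 * w * D ≤ 1 := by
    refine le_trans ?_ hC
    have h1 : 8 * R ^ 2 ≤ 26 * 600 ^ 3 * R ^ 18 * (1 + 5 * R ^ 2) := by nlinarith
    have h2 : 0 < w * D := by positivity
    nlinarith
  have hex : ∀ z ∈ V, ∃ n : Fin 3 → ℤ, ∃ φ : ℝ, Nr R w D (xi (rp R w z)) n φ := by
    intro z hz
    obtain ⟨hne, hnd⟩ := hV z hz
    have h1 : rp R w z ∈ cel R w z := by
      unfold Pool.Agent.A54.HS.rp
      rw [dif_pos hne]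
      exact hne.some_mem
    exact ex hR hw hD hC' (cel_sub R w z h1) hnd
  choose! nv hnv using hex
  obtain ⟨J0, hJ0⟩ : ∃ J0 : ℕ, J0 = ⌊5 * R ^ 2 * D⌋₊ := ⟨_, rfl⟩
  have hJr : ∀ z ∈ V, (J (nv z) : ℝ) ≤ 5 * R ^ 2 * D := by
    intro z hz
    obtain ⟨φ, h1⟩ := hnv z hz
    rcases lowb hR hC' h1 with h2 | h2
    · exact h2.2
    · linarith
  have hmap : ∀ z ∈ V, J (nv z) ∈ Finset.Icc 1 J0 := by
    intro z hz
    obtain ⟨φ, h1⟩ := hnv z hz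
    rw [Finset.mem_Icc]
    refine ⟨J_pos h1.nz, ?_⟩
    rw [hJ0]
    exact Nat.le_floor (hJr z hz)
  -- one size
  have hone : ∀ j ∈ Finset.Icc 1 J0, ((V.filter (fun z => J (nv z) = j)).card : ℝ) ≤
      26 * 600 ^ 3 * R ^ 18 * D ^ 3 * (j : ℝ)⁻¹ := by
    intro j hj
    rw [Finset.mem_Icc] at hj
    obtain ⟨k, rfl⟩ : ∃ k, j = k + 1 := ⟨j - 1, by omega⟩
    obtain ⟨Vj, hVj⟩ : ∃ Vj, Vj = V.filter (fun z => J (nv z) = k + 1) := ⟨_, rfl⟩
    rw [← hVj]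
    have hcard : (Vj.card : ℝ) = ∑ n ∈ Vj.image nv, ((Vj.filter (fun z => nv z = n)).card : ℝ) := by
      rw [Finset.card_eq_sum_card_image nv Vj]
      push_cast
      rfl
    have himg : ∀ n ∈ Vj.image nv, J n = k + 1 := by
      intro n hn
      obtain ⟨z, hz, rfl⟩ := Finset.mem_image.mp hn
      rw [hVj] at hz
      exact (Finset.mem_filter.mp hz).2
    have hs := sph k (Vj.image nv) himg
    have hs' : ((Vj.image nv).card : ℝ) ≤ 26 * ((k + 1 : ℕ) : ℝ) ^ 2 := by exact_mod_cast hs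
    have hf : ∀ n ∈ Vj.image nv, ((Vj.filter (fun z => nv z = n)).card : ℝ) ≤
        (600 * R ^ 6 * D / ((k + 1 : ℕ) : ℝ)) ^ 3 := by
      intro n hn
      rw [← himg n hn]
      apply fib hR hw hD hC' n
      intro z hz
      obtain ⟨hz1, hz2⟩ := Finset.mem_filter.mp hz
      rw [hVj] at hz1
      have hzV := (Finset.mem_filter.mp hz1).1
      refine ⟨(hV z hzV).1, ?_⟩
      rw [← hz2]
      exact hnv z hzV
    have hk0 : (0 : ℝ) < ((k + 1 : ℕ) : ℝ) := by positivity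
    calc (Vj.card : ℝ) = ∑ n ∈ Vj.image nv, ((Vj.filter (fun z => nv z = n)).card : ℝ) := hcard
      _ ≤ ∑ _n ∈ Vj.image nv, (600 * R ^ 6 * D / ((k + 1 : ℕ) : ℝ)) ^ 3 := Finset.sum_le_sum hf
      _ = ((Vj.image nv).card : ℝ) * (600 * R ^ 6 * D / ((k + 1 : ℕ) : ℝ)) ^ 3 := by
          rw [Finset.sum_const, nsmul_eq_mul]
      _ ≤ (26 * ((k + 1 : ℕ) : ℝ) ^ 2) * (600 * R ^ 6 * D / ((k + 1 : ℕ) : ℝ)) ^ 3 :=
          mul_le_mul_of_nonneg_right hs' (by positivity)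
      _ = 26 * 600 ^ 3 * R ^ 18 * D ^ 3 * ((k + 1 : ℕ) : ℝ)⁻¹ := by
          field_simp
  have hsum : (V.card : ℝ) ≤ 26 * 600 ^ 3 * R ^ 18 * D ^ 3 * ∑ j ∈ Finset.Icc 1 J0, (j : ℝ)⁻¹ := by
    rw [Finset.card_eq_sum_card_fiberwise hmap]
    push_cast
    rw [Finset.mul_sum]
    exact Finset.sum_le_sum hone
  have hharm : ∑ j ∈ Finset.Icc 1 J0, (j : ℝ)⁻¹ ≤ 1 + Real.log J0 := by
    have h1 := harmonic_le_one_add_log J0
    rw [harmonic_eq_sum_Icc] at h1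
    push_cast at h1
    exact h1
  have hlog : 1 + Real.log J0 ≤ (1 + 5 * R ^ 2) * (1 + Real.log D) := by
    have hlD : 0 ≤ Real.log D := Real.log_nonneg hD
    have hX : 0 < 5 * R ^ 2 * D := by positivity
    have h1 : Real.log J0 ≤ Real.log (5 * R ^ 2 * D) := by
      rcases Nat.eq_zero_or_pos J0 with h0 | h0
      · rw [h0]
        simp only [Nat.cast_zero, Real.log_zero]
        apply Real.log_nonneg
        nlinarith
      · apply Real.log_le_log (by exact_mod_cast h0)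
        rw [hJ0]
        exact Nat.floor_le hX.le
    have h2 : Real.log (5 * R ^ 2 * D) = Real.log (5 * R ^ 2) + Real.log D := by
      rw [Real.log_mul (by positivity) (by positivity)]
    have h3 : Real.log (5 * R ^ 2) ≤ 5 * R ^ 2 := Real.log_le_self (by positivity)
    have h4 : 0 ≤ 5 * R ^ 2 * Real.log D := by positivity
    nlinarith
  have hK : 0 ≤ 26 * 600 ^ 3 * R ^ 18 * D ^ 3 := by positivity
  calc (V.card : ℝ) ≤ 26 * 600 ^ 3 * R ^ 18 * D ^ 3 * ∑ j ∈ Finset.Icc 1 J0, (j : ℝ)⁻¹ := hsum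
    _ ≤ 26 * 600 ^ 3 * R ^ 18 * D ^ 3 * ((1 + 5 * R ^ 2) * (1 + Real.log D)) :=
        mul_le_mul_of_nonneg_left (hharm.trans hlog) hK
    _ = 26 * 600 ^ 3 * R ^ 18 * (1 + 5 * R ^ 2) * D ^ 3 * (1 + Real.log D) := by ring

end

end Pool.Agent.A54.HSV
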