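import Pool.Agent.Lib.HS.Bd.V.Spec
import Pool.Agent.Lib.MP_a54f13_nt.Hp.FlH

/-!
# HS/Bd/V/FFu: the fundamental domain (helper12)
-/

set_option autoImplicit false

namespace Pool.Agent.A54.HSV

open MeasureTheory Filter Topology Set
open scoped ContDiff ComplexConjugate UpperHalfPlane MatrixGroups ENNReal
open Pool.Agent.A54.Dyn (G fl base ze io mk4 dom)
open Pool.Agent.A54.Av (Mat NonSc)
open Pool.Agent.A54.HS
open Pool.Agent.A54.Hp Pool.Agent.A54.Hp.Hk Pool.Agent.A54.Hp.A2M

noncomputable section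

namespace FFuM

lemma base_io (γ : SL(2, ℤ)) (g : G) : base (io γ * g) = γ • base g := by
  rw [Dyn.base_mul]
  rfl

lemma mem_ff (γ : SL(2, ℤ)) (g : G) : io γ * g ∈ FF ↔ γ • base g ∈ ModularGroup.fdo := by
  show base (io γ * g) ∈ ModularGroup.fdo ↔ _
  rw [base_io]

/-- the number of translates in the fundamental domain -/
lemma cnt (g : G) : ∑' γ : SL(2, ℤ), FF.indicator (fun _ => (1 : ℝ≥0∞)) (io γ * g) ≤ 2 := by
  simp_rw [FlHM.ind_eq]
  exact FlHM.cnt_le _

end FFuM

open FFuM in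
/-- **FFu** the fundamental domain -/
theorem tFFu (hNm : StmtNm) : V_FFu := by
  constructor
  · intro y hy γ hγ
    rw [mem_ff] at hγ
    exact ModularGroup.eq_one_or_neg_one_of_mem_fdo_mem_fdo (show base y ∈ ModularGroup.fdo from hy) hγ
  · intro Φ W hΦ hW y
    rw [hs_one hNm]
    have h1 : ∀ γ : SL(2, ℤ), AIkM.ff Φ (FF ∩ W) (io γ * y) =
        FF.indicator (fun _ => (1 : ℝ≥0∞)) (io γ * y) * W.indicator (fun x => ‖Φ x‖ₑ) y := by
      intro γ
      unfold AIkM.ff
      by_cases h2 : io γ * y ∈ FF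
      · by_cases h3 : y ∈ W
        · rw [indicator_of_mem (show io γ * y ∈ FF ∩ W from ⟨h2, (hW γ y).2 h3⟩), indicator_of_mem h2,
            indicator_of_mem h3, one_mul, hΦ]
        · rw [indicator_of_notMem (fun h4 => h3 ((hW γ y).1 h4.2)), indicator_of_notMem h3, mul_zero]
      · rw [indicator_of_notMem (fun h4 => h2 h4.1), indicator_of_notMem h2, zero_mul]
    simp_rw [h1]
    rw [ENNReal.tsum_mul_right]
    exact mul_le_mul' (cnt y) le_rfl

end

end Pool.Agent.A54.HSV
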