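import Pool.Agent.Lib.HS.Bd.V.Spec

/-!
# HS/Bd/V, module G2: the second moment (helper78)
-/

set_option autoImplicit false

namespace Pool.Agent.A54.HSV

open MeasureTheory Filter Topology Set
open scoped ContDiff ComplexConjugate UpperHalfPlane MatrixGroups ENNReal
open Pool.Agent.A54.Dyn (G fl base ze io mk4 dom)
open Pool.Agent.A54.Av (Mat NonSc)
open Pool.Agent.A54.HS
open Pool.Agent.A54.Hp Pool.Agent.A54.Hp.Hk Pool.Agent.A54.Hp.A2M

noncomputable section

theorem tG2 (hNu : StmtNuL) (hUnf : StmtUnf) (hNm : StmtNm) : V_G2 := by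
  intro Q hQ k F hF
  have h1 := FF_prod hNu hUnf hNm hQ hF k k
  rw [← two_mul] at h1
  rw [← h1]
  refine lintegral_mono fun y => ?_
  have h2 : El Q k F y ≤ hs ((As Q)^[k] F) 1 y := by
    rw [← Ao_iter_hs hNm hQ F k]
    exact le_pow hNm hQ F k y
  rw [_root_.sq]
  exact mul_le_mul' h2 h2

end

end Pool.Agent.A54.HSV
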