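import Pool.Agent.Lib.HS.Bd.V.Cl
import Pool.Agent.Lib.MP_a54f13_nt.Hp.NuLeft

/-!
# HS/Bd/V: tubes at every height, self-overlap, greedy classes (helper84)

`Nd C w`: elements of `G` with diagonal at most `C`, off-diagonal at most `C w`; the tube of `y` is `y Nd C w`.
-/

set_option autoImplicit false

namespace Pool.Agent.A54.HSV

open MeasureTheory Filter Topology Set
open scoped ContDiff ComplexConjugate UpperHalfPlane MatrixGroups ENNReal
open Pool.Agent.A54.Dyn (G fl base ze io mk4 dom)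
open Pool.Agent.A54.Hp Pool.Agent.A54.HS

noncomputable section

/-- near the diagonal group -/
def Nd (C w : ℝ) : Set G := {b | |b 0 0| ≤ C ∧ |b 1 1| ≤ C ∧ |b 0 1| ≤ C * w ∧ |b 1 0| ≤ C * w}

lemma nd_inv {C w : ℝ} {b : G} (h : b ∈ Nd C w) : b⁻¹ ∈ Nd C w := by
  obtain ⟨h1, h2, h3, h4⟩ := h
  refine ⟨?_, ?_, ?_, ?_⟩
  · rw [Dyn.inv_00]; exact h2
  · rw [Dyn.inv_11]; exact h1
  · rw [Dyn.inv_01, abs_neg]; exact h3
  · rw [Dyn.inv_10, abs_neg]; exact h4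

lemma nd_mul {C C' w : ℝ} (hw : 0 ≤ w) (hw1 : w ≤ 1) {b b' : G} (h : b ∈ Nd C w) (h' : b' ∈ Nd C' w) :
    b * b' ∈ Nd (2 * (C * C')) w := by
  obtain ⟨h1, h2, h3, h4⟩ := h
  obtain ⟨k1, k2, k3, k4⟩ := h'
  have hC : 0 ≤ C := (abs_nonneg _).trans h1
  have hC' : 0 ≤ C' := (abs_nonneg _).trans k1
  have key : ∀ x y X Y : ℝ, |x| ≤ X → |y| ≤ Y → |x * y| ≤ X * Y := by
    intro x y X Y hx hy
    rw [abs_mul]
    exact mul_le_mul hx hy (abs_nonneg _) ((abs_nonneg _).trans hx)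
  have hCC : 0 ≤ C * C' := mul_nonneg hC hC'
  have hww : w * w ≤ 1 := by nlinarith
  refine ⟨?_, ?_, ?_, ?_⟩
  · rw [Dyn.mul_00]
    refine (abs_add_le _ _).trans ?_
    have e1 := key _ _ _ _ h1 k1
    have e2 := key _ _ _ _ h3 k4
    nlinarith
  · rw [Dyn.mul_11]
    refine (abs_add_le _ _).trans ?_
    have e1 := key _ _ _ _ h4 k3
    have e2 := key _ _ _ _ h2 k2
    nlinarith
  · rw [Dyn.mul_01]
    refine (abs_add_le _ _).trans ?_
    have e1 := key _ _ _ _ h1 k3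
    have e2 := key _ _ _ _ h3 k2
    nlinarith
  · rw [Dyn.mul_10]
    refine (abs_add_le _ _).trans ?_
    have e1 := key _ _ _ _ h4 k1
    have e2 := key _ _ _ _ h2 k4
    nlinarith

lemma one_mem_nd {C w : ℝ} (hC : 1 ≤ C) (hw : 0 ≤ w) : (1 : G) ∈ Nd C w := by
  have h : 0 ≤ C * w := by positivity
  refine ⟨?_, ?_, ?_, ?_⟩
  · rw [show (1 : G) 0 0 = 1 from rfl, abs_one]; exact hC
  · rw [show (1 : G) 1 1 = 1 from rfl, abs_one]; exact hC
  · rw [show (1 : G) 0 1 = 0 from rfl, abs_zero]; exact h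
  · rw [show (1 : G) 1 0 = 0 from rfl, abs_zero]; exact h

lemma measurableSet_nd (C w : ℝ) : MeasurableSet (Nd C w) := by
  have h : ∀ i j : Fin 2, ∀ c : ℝ, MeasurableSet {b : G | |b i j| ≤ c} := fun i j c =>
    measurableSet_le ((Dyn.continuous_entry i j).abs.measurable) measurable_const
  exact ((h 0 0 _).inter ((h 1 1 _).inter ((h 0 1 _).inter (h 1 0 _))))

/-- the tube of `y` -/
def tu (C w : ℝ) (y : G) : Set G := {g | y⁻¹ * g ∈ Nd C w}

lemma measurableSet_tu (C w : ℝ) (y : G) : MeasurableSet (tu C w y) :=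
  (measurable_const_mul y⁻¹) (measurableSet_nd C w)

lemma mul_bd {A B : G} {a b : ℝ} (hA : ∀ i j, |A i j| ≤ a) (hB : ∀ i j, |B i j| ≤ b) (i j : Fin 2) :
    |(A * B) i j| ≤ 2 * (a * b) := by
  have ha : 0 ≤ a := (abs_nonneg _).trans (hA 0 0)
  have key : ∀ k, |A i k * B k j| ≤ a * b := by
    intro k
    rw [abs_mul]
    exact mul_le_mul (hA i k) (hB k j) (abs_nonneg _) ha
  rw [Matrix.SpecialLinearGroup.coe_mul, Matrix.mul_apply, Fin.sum_univ_two]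
  refine (abs_add_le _ _).trans ?_
  linarith [key 0, key 1]

lemma inv_bd {A : G} {a : ℝ} (hA : ∀ i j, |A i j| ≤ a) (i j : Fin 2) : |A⁻¹ i j| ≤ a := by
  fin_cases i <;> fin_cases j
  · show |A⁻¹ 0 0| ≤ a
    rw [Dyn.inv_00]; exact hA 1 1
  · show |A⁻¹ 0 1| ≤ a
    rw [Dyn.inv_01, abs_neg]; exact hA 0 1
  · show |A⁻¹ 1 0| ≤ a
    rw [Dyn.inv_10, abs_neg]; exact hA 1 0
  · show |A⁻¹ 1 1| ≤ a
    rw [Dyn.inv_11]; exact hA 0 0

/-- the elements which move a tube near itself have bounded entries (base point in the fundamental domain) -/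
lemma selfov_fd {C w H : ℝ} (hC : 1 ≤ C) (hw : 0 < w) (hw1 : w ≤ 1) {y : G} (hy : base y ∈ ModularGroup.fd)
    (hH : (base y).im ≤ H) (hwH : 2 * C * w * H < 1) (γ : SL(2, ℤ)) (h : y⁻¹ * (io γ * y) ∈ Nd C w)
    (i j : Fin 2) : |(((γ i j : ℤ) : ℝ))| ≤ 10000 * C ^ 2 := by
  obtain ⟨d1, d2, d3⟩ := dyad' y hy
  have hy5 := dv_mem' y hy
  set E : ℝ := (2 : ℝ) ^ lv y with hE
  have hE0 : 0 < E := by positivity
  have hE1 : 1 ≤ E := one_le_pow₀ (by norm_num)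
  set s : ℝ := (lv y : ℝ) * Real.log 2 with hs
  have hEs : Real.exp s = E := exp_half _
  set y' : G := dv (lv y) y with hy'
  set δ : G := y⁻¹ * (io γ * y) with hδ
  have hyy : y = fl s * y' := by
    rw [hy']
    unfold dv
    rw [← mul_assoc, ← Dyn.fl_add, add_neg_cancel, Dyn.fl_zero, one_mul]
  have hδC : ∀ i j, |δ i j| ≤ C := by
    obtain ⟨h1, h2, h3, h4⟩ := h
    have hCw : C * w ≤ C := by nlinarith
    intro i j
    fin_cases i <;> fin_cases j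
    · exact h1
    · exact h3.trans hCw
    · exact h4.trans hCw
    · exact h2
  set D : G := y' * (δ * y'⁻¹) with hD
  have hD100 : ∀ i j, |D i j| ≤ 100 * C := by
    intro i j
    have := mul_bd hy5 (mul_bd hδC (inv_bd hy5)) i j
    refine this.trans (le_of_eq ?_)
    ring
  have hγ : io γ = fl s * (D * fl (-s)) := by
    rw [hD, hδ, Dyn.fl_neg]
    rw [hyy]
    group
  have e00 : ((γ 0 0 : ℤ) : ℝ) = D 0 0 := by
    rw [← HgtM.io_apply γ 0 0, hγ, Dyn.mul_00, Dyn.mul_00, Dyn.mul_10, Dyn.fl_00, Dyn.fl_01, Dyn.fl_00, Dyn.fl_10]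
    have : Real.exp (s / 2) * Real.exp (-s / 2) = 1 := by
      rw [← Real.exp_add, show s / 2 + -s / 2 = 0 by ring, Real.exp_zero]
    linear_combination (D 0 0) * this
  have e11 : ((γ 1 1 : ℤ) : ℝ) = D 1 1 := by
    rw [← HgtM.io_apply γ 1 1, hγ, Dyn.mul_11, Dyn.mul_01, Dyn.mul_11, Dyn.fl_11, Dyn.fl_10, Dyn.fl_01, Dyn.fl_11]
    have : Real.exp (-s / 2) * Real.exp (- -s / 2) = 1 := by
      rw [← Real.exp_add, show -s / 2 + - -s / 2 = 0 by ring, Real.exp_zero]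
    linear_combination (D 1 1) * this
  have e01 : ((γ 0 1 : ℤ) : ℝ) = E * D 0 1 := by
    rw [← HgtM.io_apply γ 0 1, hγ, Dyn.mul_01, Dyn.mul_01, Dyn.mul_11, Dyn.fl_00, Dyn.fl_01, Dyn.fl_01, Dyn.fl_11]
    have : Real.exp (s / 2) * Real.exp (- -s / 2) = E := by
      rw [← Real.exp_add, show s / 2 + - -s / 2 = s by ring, hEs]
    linear_combination (D 0 1) * this
  have e10 : E * ((γ 1 0 : ℤ) : ℝ) = D 1 0 := by
    rw [← HgtM.io_apply γ 1 0, hγ, Dyn.mul_10, Dyn.mul_00, Dyn.mul_10, Dyn.fl_10, Dyn.fl_11, Dyn.fl_00, Dyn.fl_10]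
    have : E * (Real.exp (-s / 2) * Real.exp (-s / 2)) = 1 := by
      rw [← Real.exp_add, ← hEs, ← Real.exp_add, show s + (-s / 2 + -s / 2) = 0 by ring, Real.exp_zero]
    linear_combination (D 1 0) * this
  have hC2 : C ≤ C ^ 2 := by nlinarith
  have hC1 : 100 * C ≤ 10000 * C ^ 2 := by nlinarith
  have h1C : 1 ≤ 10000 * C ^ 2 := by nlinarith
  by_cases hcase : E ≤ 100 * C
  · fin_cases i <;> fin_cases j
    · show |((γ 0 0 : ℤ) : ℝ)| ≤ _
      rw [e00]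
      exact (hD100 0 0).trans hC1
    · show |((γ 0 1 : ℤ) : ℝ)| ≤ _
      rw [e01, abs_mul, abs_of_pos hE0]
      calc E * |D 0 1| ≤ (100 * C) * (100 * C) :=
            mul_le_mul hcase (hD100 0 1) (abs_nonneg _) (by linarith)
        _ = 10000 * C ^ 2 := by ring
    · show |((γ 1 0 : ℤ) : ℝ)| ≤ _
      have h1 : |E * ((γ 1 0 : ℤ) : ℝ)| ≤ 100 * C := by
        rw [e10]
        exact hD100 1 0
      rw [abs_mul, abs_of_pos hE0] at h1
      nlinarith [abs_nonneg ((γ 1 0 : ℤ) : ℝ)]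
    · show |((γ 1 1 : ℤ) : ℝ)| ≤ _
      rw [e11]
      exact (hD100 1 1).trans hC1
  · rw [not_le] at hcase
    have h10 : γ 1 0 = 0 := by
      have h1 : |E * ((γ 1 0 : ℤ) : ℝ)| ≤ 100 * C := by
        rw [e10]
        exact hD100 1 0
      rw [abs_mul, abs_of_pos hE0] at h1
      have h2 : |((γ 1 0 : ℤ) : ℝ)| < 1 := by
        by_contra hcon
        rw [not_lt] at hcon
        nlinarith
      have h3 : |γ 1 0| < 1 := by exact_mod_cast h2
      have h4 := abs_lt.1 h3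
      omega
    have hdet := γ.det_coe
    rw [Matrix.det_fin_two] at hdet
    have h10' : γ.1 1 0 = 0 := h10
    rw [h10', mul_zero, sub_zero] at hdet
    have h01 : γ 0 1 = 0 := by
      have k01 : δ 0 1 = (γ 0 1 : ℤ) * y 1 1 ^ 2 := by
        rw [hδ, Dyn.mul_01, Dyn.mul_01, Dyn.mul_11, Dyn.inv_00, Dyn.inv_01, HgtM.io_apply, HgtM.io_apply,
          HgtM.io_apply, HgtM.io_apply, h10]
        have h5 : ((γ 0 0 : ℤ) : ℝ) = ((γ 1 1 : ℤ) : ℝ) := by
          rcases Int.eq_one_or_neg_one_of_mul_eq_one' hdet with ⟨ha, hb⟩ | ⟨ha, hb⟩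
          · rw [show γ 0 0 = 1 from ha, show γ 1 1 = 1 from hb]
          · rw [show γ 0 0 = -1 from ha, show γ 1 1 = -1 from hb]
        rw [h5]
        push_cast
        ring
      have k10 : δ 1 0 = -((γ 0 1 : ℤ) * y 1 0 ^ 2) := by
        rw [hδ, Dyn.mul_10, Dyn.mul_00, Dyn.mul_10, Dyn.inv_10, Dyn.inv_11, HgtM.io_apply, HgtM.io_apply,
          HgtM.io_apply, HgtM.io_apply, h10]
        have h5 : ((γ 0 0 : ℤ) : ℝ) = ((γ 1 1 : ℤ) : ℝ) := by
          rcases Int.eq_one_or_neg_one_of_mul_eq_one' hdet with ⟨ha, hb⟩ | ⟨ha, hb⟩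
          · rw [show γ 0 0 = 1 from ha, show γ 1 1 = 1 from hb]
          · rw [show γ 0 0 = -1 from ha, show γ 1 1 = -1 from hb]
        rw [h5]
        push_cast
        ring
      obtain ⟨-, -, h3, h4⟩ := h
      rw [k01, abs_mul, abs_of_nonneg (sq_nonneg (y 1 1))] at h3
      rw [k10, abs_neg, abs_mul, abs_of_nonneg (sq_nonneg (y 1 0))] at h4
      have h6 := HgtM.im_base y
      have h7 := HgtM.bot_pos y
      have h8 : (y 1 0 ^ 2 + y 1 1 ^ 2) * (base y).im = 1 := by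
        rw [h6]
        field_simp
      have him := (base y).im_pos
      have h9 : |((γ 0 1 : ℤ) : ℝ)| * (y 1 0 ^ 2 + y 1 1 ^ 2) ≤ 2 * C * w := by nlinarith
      have h11 : |((γ 0 1 : ℤ) : ℝ)| ≤ 2 * C * w * (base y).im := by
        have := mul_le_mul_of_nonneg_right h9 him.le
        rw [mul_assoc, h8, mul_one] at this
        exact this
      have h12 : |((γ 0 1 : ℤ) : ℝ)| < 1 := by
        have : 2 * C * w * (base y).im ≤ 2 * C * w * H :=
          mul_le_mul_of_nonneg_left hH (by positivity)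
        linarith
      have h13 : |γ 0 1| < 1 := by exact_mod_cast h12
      have h14 := abs_lt.1 h13
      omega
    fin_cases i <;> fin_cases j
    · show |((γ 0 0 : ℤ) : ℝ)| ≤ _
      rw [e00]
      exact (hD100 0 0).trans hC1
    · show |((γ 0 1 : ℤ) : ℝ)| ≤ _
      rw [h01]
      simp only [Int.cast_zero, abs_zero]
      linarith
    · show |((γ 1 0 : ℤ) : ℝ)| ≤ _
      rw [h10]
      simp only [Int.cast_zero, abs_zero]
      linarith
    · show |((γ 1 1 : ℤ) : ℝ)| ≤ _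
      rw [e11]
      exact (hD100 1 1).trans hC1

lemma io_mul' (γ γ' : SL(2, ℤ)) : io (γ * γ') = io γ * io γ' :=
  map_mul (Matrix.SpecialLinearGroup.map (Int.castRingHom ℝ)) γ γ'

/-- **self-overlap** of a tube -/
theorem selfov (C : ℝ) (hC : 1 ≤ C) : ∃ N : ℕ, 1 ≤ N ∧ ∀ (w H : ℝ) (y : G), 0 < w → w ≤ 1 →
    (∀ γ : SL(2, ℤ), (base (io γ * y)).im ≤ H) → 2 * C * w * H < 1 → ∀ T : Finset SL(2, ℤ),
      (∀ γ ∈ T, y⁻¹ * (io γ * y) ∈ Nd C w) → T.card ≤ N := by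
  classical
  set B : ℤ := ⌊10000 * C ^ 2⌋ with hB
  refine ⟨(Fintype.piFinset fun _ : Fin 2 × Fin 2 => Finset.Icc (-B) B).card, ?_, ?_⟩
  · rw [Finset.one_le_card]
    refine ⟨fun _ => 0, ?_⟩
    rw [Fintype.mem_piFinset]
    intro _
    have : 0 ≤ B := Int.floor_nonneg.2 (by positivity)
    rw [Finset.mem_Icc]
    omega
  intro w H y hw hw1 hH hwH T hT
  obtain ⟨γ0, hγ0⟩ := ModularGroup.exists_smul_mem_fd (base y)
  rw [← UnfM.base_io_mul] at hγ0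
  refine Finset.card_le_card_of_injOn (fun γ t => (γ0 * γ * γ0⁻¹) t.1 t.2) ?_ ?_
  · intro γ hγ
    rw [Finset.mem_coe, Fintype.mem_piFinset]
    intro t
    have h1 : (io γ0 * y)⁻¹ * (io (γ0 * γ * γ0⁻¹) * (io γ0 * y)) ∈ Nd C w := by
      have h2 := hT γ hγ
      have h3 : (io γ0 * y)⁻¹ * (io (γ0 * γ * γ0⁻¹) * (io γ0 * y)) = y⁻¹ * (io γ * y) := by
        rw [io_mul', io_mul', UnfM.io_inv]
        group
      rw [h3]
      exact h2
    have h4 := selfov_fd hC hw hw1 hγ0 (hH γ0) hwH (γ0 * γ * γ0⁻¹) h1 t.1 t.2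
    have h5 : |(((γ0 * γ * γ0⁻¹) t.1 t.2 : ℤ) : ℝ)| ≤ 10000 * C ^ 2 := h4
    rw [← Int.cast_abs] at h5
    have h6 : |(γ0 * γ * γ0⁻¹) t.1 t.2| ≤ B := Int.le_floor.2 h5
    rw [Finset.mem_Icc]
    exact abs_le.1 h6
  · intro γ _ γ' _ he
    have h1 : γ0 * γ * γ0⁻¹ = γ0 * γ' * γ0⁻¹ := by
      ext i j
      exact congrFun he (i, j)
    exact mul_left_cancel (mul_right_cancel h1)

/-- two tubes have meeting orbits -/
def Mee (C w : ℝ) (x y : G) : Prop := ∃ (γ : SL(2, ℤ)) (g : G), g ∈ tu C w x ∧ io γ * g ∈ tu C w y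

lemma mee_symm {C w : ℝ} {x y : G} (h : Mee C w x y) : Mee C w y x := by
  obtain ⟨γ, g, h1, h2⟩ := h
  refine ⟨γ⁻¹, io γ * g, h2, ?_⟩
  rw [UnfM.io_inv, inv_mul_cancel_left]
  exact h1

/-- the centre of the one is near the orbit of the centre of the other -/
lemma mee_nd {C w : ℝ} (hw : 0 ≤ w) (hw1 : w ≤ 1) {x y : G} (h : Mee C w x y) :
    ∃ γ : SL(2, ℤ), y⁻¹ * (io γ * x) ∈ Nd (2 * (C * C)) w := by
  obtain ⟨γ, g, h1, h2⟩ := h
  refine ⟨γ, ?_⟩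
  have h3 : y⁻¹ * (io γ * x) = (y⁻¹ * (io γ * g)) * (x⁻¹ * g)⁻¹ := by group
  rw [h3]
  exact nd_mul hw hw1 h2 (nd_inv h1)

/-- **greedy choice** of tubes with disjoint orbits -/
theorem greedy {ι : Type} (E : Finset ι) (e : ι → G) (C w : ℝ) (hC : 1 ≤ C) (hw : 0 ≤ w) :
    ∃ E' ⊆ E, (∀ i ∈ E', ∀ j ∈ E', i ≠ j → ¬ Mee C w (e i) (e j)) ∧
      ∀ i ∈ E, ∃ j ∈ E', Mee C w (e i) (e j) := by
  classical
  have hself : ∀ i, Mee C w (e i) (e i) := by
    intro i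
    refine ⟨1, e i, ?_, ?_⟩
    · show (e i)⁻¹ * e i ∈ Nd C w
      rw [inv_mul_cancel]
      exact one_mem_nd hC hw
    · show (e i)⁻¹ * (io 1 * e i) ∈ Nd C w
      have : io (1 : SL(2, ℤ)) = 1 := map_one (Matrix.SpecialLinearGroup.map (Int.castRingHom ℝ))
      rw [this, one_mul, inv_mul_cancel]
      exact one_mem_nd hC hw
  set S : Finset (Finset ι) := E.powerset.filter fun F =>
    ∀ i ∈ F, ∀ j ∈ F, i ≠ j → ¬ Mee C w (e i) (e j) with hS
  have hne : S.Nonempty := ⟨∅, by simp [hS]⟩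
  obtain ⟨F, hF, hmax⟩ := S.exists_max_image Finset.card hne
  rw [hS, Finset.mem_filter, Finset.mem_powerset] at hF
  refine ⟨F, hF.1, hF.2, fun i hi => ?_⟩
  by_contra hcon
  push Not at hcon
  have hiF : i ∉ F := fun h => hcon i h (hself i)
  have h1 : insert i F ∈ S := by
    rw [hS, Finset.mem_filter, Finset.mem_powerset]
    refine ⟨Finset.insert_subset hi hF.1, ?_⟩
    intro a ha b hb hab
    rw [Finset.mem_insert] at ha hb
    rcases ha with rfl | ha <;> rcases hb with rfl | hb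
    · exact absurd rfl hab
    · exact hcon b hb
    · exact fun h => hcon a ha (mee_symm h)
    · exact hF.2 a ha b hb hab
  have h2 := hmax _ h1
  rw [Finset.card_insert_of_notMem hiF] at h2
  omega

/-- **mass of tubes** with disjoint orbits -/
theorem mass_le {ι : Type} (hUnf : StmtUnf) (Φ : G → ℂ) (hΦ : Measurable Φ)
    (hinv : ∀ (γ : SL(2, ℤ)) (g : G), Φ (io γ * g) = Φ g) (W : Set G) (hW : MeasurableSet W)
    (hWinv : ∀ (γ : SL(2, ℤ)) (g : G), io γ * g ∈ W ↔ g ∈ W) (E : Finset ι) (e : ι → G) (C w : ℝ)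
    (hw : 0 ≤ w) (hw1 : w ≤ 1) (hdis : ∀ i ∈ E, ∀ j ∈ E, i ≠ j → ¬ Mee C w (e i) (e j)) (N : ℕ)
    (hN : ∀ i ∈ E, ∀ T : Finset SL(2, ℤ), (∀ γ ∈ T, (e i)⁻¹ * (io γ * e i) ∈ Nd (2 * (C * C)) w) →
      T.card ≤ N) :
    2 * ∑ i ∈ E, ms Φ (W ∩ tu C w (e i)) ≤ (N : ℝ≥0∞) * ms Φ (FF ∩ W) := by
  classical
  have hmeas : ∀ i, MeasurableSet (W ∩ tu C w (e i)) := fun i => hW.inter (measurableSet_tu C w (e i))
  set f : G → ℝ≥0∞ := fun g => ∑ i ∈ E, (W ∩ tu C w (e i)).indicator (fun g => ‖Φ g‖ₑ ^ 2) g with hf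
  have hfm : Measurable f := by
    refine Finset.measurable_sum _ fun i _ => ?_
    exact (hΦ.enorm.pow_const 2).indicator (hmeas i)
  have h1 : ∑ i ∈ E, ms Φ (W ∩ tu C w (e i)) = ∫⁻ g, f g ∂nu := by
    rw [hf, lintegral_finsetSum]
    · refine Finset.sum_congr rfl fun i _ => ?_
      unfold ms
      rw [lintegral_indicator (hmeas i)]
    · intro i _
      exact (hΦ.enorm.pow_const 2).indicator (hmeas i)
  rw [h1, ← hUnf.1 f hfm]
  have h2 : ∑' γ : SL(2, ℤ), ∫⁻ g in FF, f (io γ * g) ∂nu =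
      ∫⁻ g in FF, ∑' γ : SL(2, ℤ), f (io γ * g) ∂nu := by
    have : Countable SL(2, ℤ) := Pl.U1M.countable_sl
    rw [lintegral_tsum]
    intro γ
    exact (hfm.comp (measurable_const_mul (io γ))).aemeasurable
  rw [h2]
  have h3 : ∀ g : G, ∑' γ : SL(2, ℤ), f (io γ * g) ≤
      (N : ℝ≥0∞) * W.indicator (fun g => ‖Φ g‖ₑ ^ 2) g := by
    intro g
    by_cases hgW : g ∈ W
    · rw [indicator_of_mem hgW]
      rw [ENNReal.tsum_eq_iSup_sum]
      refine iSup_le fun T => ?_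
      set P : Finset (SL(2, ℤ) × ι) := (T ×ˢ E).filter fun t => io t.1 * g ∈ tu C w (e t.2) with hP
      have e1 : ∑ γ ∈ T, f (io γ * g) = (P.card : ℝ≥0∞) * ‖Φ g‖ₑ ^ 2 := by
        rw [hP, Finset.card_filter, Nat.cast_sum, Finset.sum_mul, Finset.sum_product]
        refine Finset.sum_congr rfl fun γ _ => ?_
        show ∑ i ∈ E, (W ∩ tu C w (e i)).indicator (fun g => ‖Φ g‖ₑ ^ 2) (io γ * g) = _
        refine Finset.sum_congr rfl fun i _ => ?_
        by_cases hi : io γ * g ∈ tu C w (e i)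
        · have hm : io γ * g ∈ W ∩ tu C w (e i) := ⟨(hWinv γ g).2 hgW, hi⟩
          rw [indicator_of_mem hm, if_pos hi, hinv, Nat.cast_one, one_mul]
        · have hm : io γ * g ∉ W ∩ tu C w (e i) := fun h => hi h.2
          rw [indicator_of_notMem hm, if_neg hi, Nat.cast_zero, zero_mul]
      rw [e1]
      refine mul_le_mul' ?_ le_rfl
      have hcard : P.card ≤ N := by
        rcases P.eq_empty_or_nonempty with h0 | ⟨⟨γ0, i0⟩, h0⟩
        · rw [h0, Finset.card_empty]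
          exact Nat.zero_le _
        rw [hP, Finset.mem_filter, Finset.mem_product] at h0
        obtain ⟨⟨-, hi0⟩, hg0⟩ := h0
        have hall : ∀ t ∈ P, t.2 = i0 := by
          intro t ht
          rw [hP, Finset.mem_filter, Finset.mem_product] at ht
          obtain ⟨⟨-, hi⟩, hgt⟩ := ht
          by_contra hne
          refine hdis t.2 hi i0 hi0 hne ⟨γ0 * t.1⁻¹, io t.1 * g, hgt, ?_⟩
          rw [io_mul', UnfM.io_inv, mul_assoc, inv_mul_cancel_left]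
          exact hg0
        have hT' := hN i0 hi0 (P.image fun t => t.1 * γ0⁻¹) (by
          intro γ hγ
          obtain ⟨t, ht, rfl⟩ := Finset.mem_image.1 hγ
          have hti := hall t ht
          rw [hP, Finset.mem_filter, Finset.mem_product] at ht
          have h5 : io t.1 * g ∈ tu C w (e i0) := by
            rw [← hti]
            exact ht.2
          have h6 : (e i0)⁻¹ * (io (t.1 * γ0⁻¹) * e i0) =
              ((e i0)⁻¹ * (io t.1 * g)) * ((e i0)⁻¹ * (io γ0 * g))⁻¹ := by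
            rw [io_mul', UnfM.io_inv]
            group
          rw [h6]
          exact nd_mul hw hw1 h5 (nd_inv hg0))
        rw [Finset.card_image_of_injOn] at hT'
        · exact hT'
        · intro t ht t' ht' he
          have h7 : t.1 = t'.1 := mul_right_cancel he
          exact Prod.ext h7 ((hall t ht).trans (hall t' ht').symm)
      exact_mod_cast hcard
    · rw [indicator_of_notMem hgW, mul_zero]
      refine le_of_eq (ENNReal.tsum_eq_zero.2 fun γ => ?_)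
      show ∑ i ∈ E, (W ∩ tu C w (e i)).indicator (fun g => ‖Φ g‖ₑ ^ 2) (io γ * g) = 0
      refine Finset.sum_eq_zero fun i _ => indicator_of_notMem ?_ _
      intro h
      exact hgW ((hWinv γ g).1 h.1)
  refine (lintegral_mono h3).trans ?_
  have hNm : Measurable (W.indicator fun g => ‖Φ g‖ₑ ^ 2) := (hΦ.enorm.pow_const 2).indicator hW
  rw [lintegral_const_mul _ hNm]
  refine mul_le_mul' le_rfl (le_of_eq ?_)
  unfold ms
  rw [setLIntegral_indicator hW, inter_comm]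

/-- heights of the translates of a bounded point -/
lemma height_le {R : ℝ} {y : G} (hy : y ∈ Om R) (γ : SL(2, ℤ)) : (base (io γ * y)).im ≤ 4 * R ^ 2 := by
  have hR : 0 ≤ R := (abs_nonneg _).trans (hy 0 0)
  have h1 := HgtM.im_base (io γ * y)
  have h2 := HgtM.bot_pos (io γ * y)
  set p : ℝ := (io γ * y) 1 0 with hp
  set q : ℝ := (io γ * y) 1 1 with hq
  have hi := inv_bd hy
  -- the bottom row of `γ`
  have h3 : io γ = (io γ * y) * y⁻¹ := by group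
  have e0 : ((γ 1 0 : ℤ) : ℝ) = p * y⁻¹ 0 0 + q * y⁻¹ 1 0 := by
    rw [← HgtM.io_apply γ 1 0]
    conv_lhs => rw [h3]
    rw [Dyn.mul_10]
  have e1 : ((γ 1 1 : ℤ) : ℝ) = p * y⁻¹ 0 1 + q * y⁻¹ 1 1 := by
    rw [← HgtM.io_apply γ 1 1]
    conv_lhs => rw [h3]
    rw [Dyn.mul_11]
  have hge : (1 : ℝ) ≤ ((γ 1 0 : ℤ) : ℝ) ^ 2 + ((γ 1 1 : ℤ) : ℝ) ^ 2 := by
    have hdet := γ.det_coe
    rw [Matrix.det_fin_two] at hdet
    have h5 : (1 : ℤ) ≤ γ 1 0 ^ 2 + γ 1 1 ^ 2 := by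
      by_contra hcon
      rw [not_le] at hcon
      have h6 : γ 1 0 ^ 2 = 0 := by nlinarith [sq_nonneg (γ 1 0), sq_nonneg (γ 1 1)]
      have h7 : γ 1 1 ^ 2 = 0 := by nlinarith [sq_nonneg (γ 1 0), sq_nonneg (γ 1 1)]
      have h8 : γ.1 1 0 = 0 := by simpa using h6
      have h9 : γ.1 1 1 = 0 := by simpa using h7
      rw [h8, h9] at hdet
      simp at hdet
    exact_mod_cast h5
  have cs : ∀ a b c d : ℝ, (a * c + b * d) ^ 2 ≤ (a ^ 2 + b ^ 2) * (c ^ 2 + d ^ 2) := by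
    intro a b c d
    nlinarith [sq_nonneg (a * d - b * c)]
  have sqle : ∀ i j, (y⁻¹ i j) ^ 2 ≤ R ^ 2 := by
    intro i j
    rw [← sq_abs]
    exact pow_le_pow_left₀ (abs_nonneg _) (hi i j) 2
  have h4 : (1 : ℝ) ≤ (p ^ 2 + q ^ 2) * (4 * R ^ 2) := by
    rw [e0, e1] at hge
    have c0 := cs p q (y⁻¹ 0 0) (y⁻¹ 1 0)
    have c1 := cs p q (y⁻¹ 0 1) (y⁻¹ 1 1)
    have hpq : 0 ≤ p ^ 2 + q ^ 2 := by positivity
    have k0 : (p ^ 2 + q ^ 2) * (y⁻¹ 0 0 ^ 2 + y⁻¹ 1 0 ^ 2) ≤ (p ^ 2 + q ^ 2) * (2 * R ^ 2) :=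
      mul_le_mul_of_nonneg_left (by linarith [sqle 0 0, sqle 1 0]) hpq
    have k1 : (p ^ 2 + q ^ 2) * (y⁻¹ 0 1 ^ 2 + y⁻¹ 1 1 ^ 2) ≤ (p ^ 2 + q ^ 2) * (2 * R ^ 2) :=
      mul_le_mul_of_nonneg_left (by linarith [sqle 0 1, sqle 1 1]) hpq
    linarith
  rw [h1, div_le_iff₀ h2]
  linarith

/-- **self-overlap** of the tubes of bounded points and their translates: `8 C w R'² < 1` -/
theorem selfov_Om (C : ℝ) (hC : 1 ≤ C) : ∃ N : ℕ, 1 ≤ N ∧ ∀ (w R' : ℝ) (y : G), 0 < w → w ≤ 1 →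
    8 * C * w * R' ^ 2 < 1 → (∃ γ : SL(2, ℤ), io γ * y ∈ Om R') → ∀ T : Finset SL(2, ℤ),
      (∀ γ ∈ T, y⁻¹ * (io γ * y) ∈ Nd C w) → T.card ≤ N := by
  obtain ⟨N, hN1, hN⟩ := selfov C hC
  refine ⟨N, hN1, fun w R' y hw hw1 h8 ⟨γ0, hγ0⟩ T hT => ?_⟩
  refine hN w (4 * R' ^ 2) y hw hw1 (fun γ => ?_) (by linarith) T hT
  have h1 := height_le hγ0 (γ * γ0⁻¹)
  have h2 : io (γ * γ0⁻¹) * (io γ0 * y) = io γ * y := by
    rw [io_mul', UnfM.io_inv]
    group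
  rw [h2] at h1
  exact h1

/-- every point has boundedly many translates in a tube: `16 C² w R'² < 1` -/
theorem tube_card (C : ℝ) (hC : 1 ≤ C) : ∃ N : ℕ, 1 ≤ N ∧ ∀ (w R' : ℝ) (c x : G), 0 < w → w ≤ 1 →
    16 * C ^ 2 * w * R' ^ 2 < 1 → (∃ γ : SL(2, ℤ), io γ * c ∈ Om R') → ∀ T : Finset SL(2, ℤ),
      (∀ γ ∈ T, io γ * x ∈ tu C w c) → T.card ≤ N := by
  classical
  obtain ⟨N, hN1, hN⟩ := selfov_Om (2 * (C * C)) (by nlinarith)
  refine ⟨N, hN1, fun w R' c x hw hw1 h8 hc T hT => ?_⟩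
  rcases T.eq_empty_or_nonempty with rfl | ⟨γ0, h0⟩
  · simp
  have h1 := hN w R' c hw hw1 (by nlinarith) hc (T.image fun γ => γ * γ0⁻¹) (by
    intro γ' hγ'
    obtain ⟨γ, hγ, rfl⟩ := Finset.mem_image.1 hγ'
    have h6 : c⁻¹ * (io (γ * γ0⁻¹) * c) = (c⁻¹ * (io γ * x)) * (c⁻¹ * (io γ0 * x))⁻¹ := by
      rw [io_mul', UnfM.io_inv]
      group
    rw [h6]
    exact nd_mul hw.le hw1 (hT γ hγ) (nd_inv (hT γ0 h0)))
  rwa [Finset.card_image_of_injective _ (mul_left_injective _)] at h1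

/-- **greedy classes**, final form: tubes with disjoint orbits, every tube of the list meets the orbit of a chosen one,
and the masses of the chosen ones add up to at most a constant times the mass of the quotient -/
theorem greedy_mass (C : ℝ) (hC : 1 ≤ C) : ∃ N : ℕ, 1 ≤ N ∧ ∀ (Φ : G → ℂ), Measurable Φ →
    (∀ (γ : SL(2, ℤ)) (g : G), Φ (io γ * g) = Φ g) → ∀ W : Set G, MeasurableSet W →
    (∀ (γ : SL(2, ℤ)) (g : G), io γ * g ∈ W ↔ g ∈ W) → ∀ (ι : Type) (E : Finset ι) (e : ι → G) (w R' : ℝ),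
    0 < w → w ≤ 1 → 16 * C ^ 2 * w * R' ^ 2 < 1 → (∀ i ∈ E, ∃ γ : SL(2, ℤ), io γ * e i ∈ Om R') →
    ∃ E' ⊆ E, (∀ i ∈ E', ∀ j ∈ E', i ≠ j → ¬ Mee C w (e i) (e j)) ∧ (∀ i ∈ E, ∃ j ∈ E', Mee C w (e i) (e j)) ∧
      2 * ∑ i ∈ E', ms Φ (W ∩ tu C w (e i)) ≤ (N : ℝ≥0∞) * ms Φ (FF ∩ W) := by
  obtain ⟨N, hN1, hN⟩ := selfov_Om (2 * (C * C)) (by nlinarith)
  refine ⟨N, hN1, fun Φ hΦ hinv W hW hWinv ι E e w R' hw hw1 h8 hE => ?_⟩
  obtain ⟨E', h1, h2, h3⟩ := greedy E e C w hC hw.le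
  refine ⟨E', h1, h2, h3, ?_⟩
  exact mass_le (stmtUnf stmtNuL) Φ hΦ hinv W hW hWinv E' e C w hw.le hw1 h2 N
    fun i hi T hT => hN w R' (e i) hw hw1 (by nlinarith) (hE i (h1 hi)) T hT

end

end Pool.Agent.A54.HSV
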