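import Pool.Agent.Lib.HS.Bd.V.Spec
import Pool.Agent.Lib.HS.Bd.V.Gr

/-!
# HS/Bd/V/Gre: greedy classes (helper84)
-/

set_option autoImplicit false

namespace Pool.Agent.A54.HSV

open MeasureTheory Filter Topology Set
open scoped ContDiff ComplexConjugate UpperHalfPlane MatrixGroups ENNReal
open Pool.Agent.A54.Dyn (G fl base ze io mk4 dom)
open Pool.Agent.A54.Av (Mat NonSc)
open Pool.Agent.A54.HS
open Pool.Agent.A54.Hp Pool.Agent.A54.Hp.Hk Pool.Agent.A54.Hp.A2M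

/-- **Gre** greedy classes -/
theorem tGre (_hUnf : StmtUnf) (_hNm : StmtNm) (_hBx : V_Bx) (_hSov : V_Sov) : V_Gre := by
  intro C hC
  obtain ⟨N, hN1, hN⟩ := greedy_mass C hC
  have hC2 : 0 < 32 * C ^ 2 := by positivity
  refine ⟨N, 1 / (32 * C ^ 2), by exact_mod_cast hN1, by positivity, ?_⟩
  intro w R' hw hw1 hR' hwR Φ hΦ hinv W0 hW hWi H c hH
  have h1 : 16 * C ^ 2 * w * R' ^ 2 < 1 := by
    rw [le_div_iff₀ hC2] at hwR
    nlinarith
  obtain ⟨Y, hY, -, h2, h3⟩ := hN Φ hΦ.measurable hinv W0 hW hWi Mat H c w R' hw hw1 h1 hH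
  refine ⟨Y, hY, ?_, ?_⟩
  · intro i hi
    obtain ⟨j, hj, γ, u, hu, hu'⟩ := h2 i hi
    exact ⟨j, hj, γ, u, hu, hu'⟩
  · rw [ENNReal.ofReal_natCast]
    refine le_trans ?_ h3
    rw [two_mul]
    exact le_self_add

end Pool.Agent.A54.HSV
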