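import Pool.Agent.Lib.HS.Bd.V.Spec

/-!
# HS/Bd/V: the paths from one cell (helper1)
-/

set_option autoImplicit false

namespace Pool.Agent.A54.HSV

open MeasureTheory Filter Topology Set
open scoped ContDiff ComplexConjugate UpperHalfPlane MatrixGroups ENNReal
open Pool.Agent.A54.Dyn (G fl base ze io mk4 dom)
open Pool.Agent.A54.Av (Mat NonSc)
open Pool.Agent.A54.HS
open Pool.Agent.A54.Hp Pool.Agent.A54.Hp.Hk Pool.Agent.A54.Hp.A2M

noncomputable section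

namespace HM

lemma measFF : MeasurableSet FF := Dyn.measurable_base ModularGroup.isOpen_fdo.measurableSet

lemma meas_ff {Φ : G → ℂ} (hΦ : Continuous Φ) {U : Set G} (hU : MeasurableSet U) :
    Measurable (AIkM.ff Φ U) := (hΦ.enorm.measurable).indicator hU

/-- a point moved inside a cell -/
lemma mv (hBx : V_Bx) {C₀ w R : ℝ} (hCT : CT R w C₀) {z : Fin 3 → ℤ} {x0 x : G}
    (hx0 : x0 ∈ cel R w z) (hx : x ∈ cel R w z) (h : G) : h * x ∈ tb C₀ w (h * x0) :=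
  (hBx.2.2.2.1 C₀ w h x x0).2 (hCT z x0 hx0 x hx)

/-- one correlation which is not zero -/
lemma hit (hIx : V_Ix) (hBx : V_Bx) {C₀ : ℝ} (hC₀ : 1 ≤ C₀) {Φ : G → ℂ} (hΦ : Continuous Φ)
    {R w A δ : ℝ} (hw : 0 < w) (hw1 : w ≤ 1) (hCT : CT R w C₀) {W0 W : Set G}
    (hW : MeasurableSet W) (hWH : W ⊆ Hv Φ W0 C₀ w δ) {z : Fin 3 → ℤ}
    (hz : ms Φ (cel R w z) ≤ ENNReal.ofReal (2 * A)) {x0 : G} (hx0 : x0 ∈ cel R w z) (h : G)
    (h0 : Ix Φ W h (cel R w z) ≠ 0) :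
    (∃ x ∈ cel R w z, h * x ∈ W) ∧
      ENNReal.ofReal δ ≤ ms Φ (W0 ∩ tb (4 * C₀ ^ 2) w (h * x0)) ∧
      Ix Φ W h (cel R w z) ^ 2 ≤
        ENNReal.ofReal (2 * A) * ms Φ (W0 ∩ tb (4 * C₀ ^ 2) w (h * x0)) := by
  obtain ⟨h1, h2⟩ := hIx Φ hΦ W (cel R w z) hW (meas_cel R w z) h
  obtain ⟨x, hx, hxW⟩ := h2 h0
  have hC2 : C₀ ≤ 4 * C₀ ^ 2 := by nlinarith
  have hC3 : 2 * C₀ * C₀ ≤ 4 * C₀ ^ 2 := by nlinarith
  refine ⟨⟨x, hx, hxW⟩, ?_, ?_⟩
  · refine (hWH hxW).2.trans (lintegral_mono_set ?_)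
    rintro u ⟨hu1, hu2⟩
    refine ⟨hu1, ?_⟩
    have h3 := hBx.2.2.1 C₀ C₀ w (h * x) (h * x0) u hw.le hw1 hC₀ hC₀ (mv hBx hCT hx0 hx h) hu2
    exact hBx.2.2.2.2.2.2.2.1 _ _ w _ hC3 hw.le h3
  · refine h1.trans (mul_le_mul' hz (lintegral_mono_set ?_))
    rintro y ⟨hy1, hy2⟩
    refine ⟨(hWH hy1).1, ?_⟩
    have h5 := mv hBx hCT hx0 hy2 h
    rw [mul_inv_cancel_left] at h5
    exact hBx.2.2.2.2.2.2.2.1 _ _ w _ hC2 hw.le h5

/-- the tube mass is bounded -/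
lemma top (hBx : V_Bx) {C₀ C' c₁ : ℝ} (hC₀ : 1 ≤ C₀)
    (hG : ∀ (w R' : ℝ), 0 < w → w ≤ 1 → 1 ≤ R' → w * R' ^ 2 ≤ c₁ →
      ∀ (Φ : G → ℂ), Continuous Φ → (∀ (γ : SL(2, ℤ)) (g : G), Φ (io γ * g) = Φ g) →
      ∀ W0 : Set G, MeasurableSet W0 → LInv W0 →
      ∀ (H : Finset Mat) (c : Mat → G), (∀ i ∈ H, ∃ γ : SL(2, ℤ), io γ * c i ∈ Om R') →
        ∃ Y : Finset Mat, Y ⊆ H ∧ (∀ i ∈ H, ∃ j ∈ Y, ∃ γ : SL(2, ℤ),
          ∃ u ∈ tb (4 * C₀ ^ 2) w (c i), io γ * u ∈ tb (4 * C₀ ^ 2) w (c j)) ∧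
          ∑ j ∈ Y, ms Φ (W0 ∩ tb (4 * C₀ ^ 2) w (c j)) ≤ ENNReal.ofReal C' * ms Φ (FF ∩ W0))
    {l : ℕ → ℝ} {Φ : G → ℂ} (hE : HE l Φ) {R w R' : ℝ} (hw : 0 < w) (hw1 : w ≤ 1)
    (hR' : 1 ≤ R') (hwR : w * (2 * R' * C₀) ^ 2 ≤ c₁) (hCT : CT R w C₀) {W0 : Set G}
    (hW0 : MeasurableSet W0) (hI : LInv W0) (hh : ∀ y ∈ W0, ∃ γ : SL(2, ℤ), io γ * y ∈ Om R')
    {z : Fin 3 → ℤ} {x0 x : G} (hx0 : x0 ∈ cel R w z) (hx : x ∈ cel R w z) (r : Mat)
    (hr : nm r * x ∈ W0) :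
    ms Φ (W0 ∩ tb (4 * C₀ ^ 2) w (nm r * x0)) ≤ ENNReal.ofReal C' * 2 := by
  classical
  obtain ⟨γ, hγ⟩ := hh _ hr
  have h1 : io γ * (nm r * x0) ∈ Om (2 * R' * C₀) := by
    refine hBx.2.2.2.2.2.1 C₀ w R' (io γ * (nm r * x)) (io γ * (nm r * x0)) hw.le hw1 hC₀ hR' hγ ?_
    exact (hBx.2.2.2.1 C₀ w (io γ) _ _).2 (mv hBx hCT hx hx0 (nm r))
  have hR2 : 1 ≤ 2 * R' * C₀ := by nlinarith
  obtain ⟨Y, hY1, hY2, hY3⟩ := hG w (2 * R' * C₀) hw hw1 hR2 hwR Φ hE.cont hE.inv W0 hW0 hI {r}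
    (fun s => nm s * x0) (by
      intro i hi
      rw [Finset.mem_singleton] at hi
      rw [hi]
      exact ⟨γ, h1⟩)
  obtain ⟨j, hj, -⟩ := hY2 r (Finset.mem_singleton_self r)
  have hYr : Y = {r} := by
    refine Finset.Subset.antisymm hY1 ?_
    rw [Finset.singleton_subset_iff]
    have := Finset.mem_singleton.1 (hY1 hj)
    rwa [this] at hj
  rw [hYr, Finset.sum_singleton] at hY3
  refine hY3.trans (mul_le_mul' le_rfl ?_)
  exact (lintegral_mono_set Set.inter_subset_left).trans hE.norm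

/-- dyadic classes -/
lemma dyad (δ : ℝ) (a : ℝ≥0∞) (h1 : ENNReal.ofReal δ ≤ a) : ∀ n : ℕ,
    a < ENNReal.ofReal (2 ^ n * δ) → ∃ i ∈ Finset.range n,
      ENNReal.ofReal (2 ^ i * δ) ≤ a ∧ a ≤ ENNReal.ofReal (2 * (2 ^ i * δ)) := by
  intro n
  induction n with
  | zero =>
    intro h
    rw [pow_zero, one_mul] at h
    exact absurd h (not_lt.2 h1)
  | succ n ih =>
    intro h
    by_cases h2 : a < ENNReal.ofReal (2 ^ n * δ)
    · obtain ⟨i, hi, h3⟩ := ih h2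
      exact ⟨i, Finset.mem_range.2 ((Finset.mem_range.1 hi).trans (Nat.lt_succ_self n)), h3⟩
    · refine ⟨n, Finset.mem_range.2 (Nat.lt_succ_self n), not_lt.1 h2, ?_⟩
      refine h.le.trans (le_of_eq ?_)
      congr 1
      ring

/-- the number of classes -/
lemma ncl (C' δ : ℝ) (hC' : 1 ≤ C') (hδ : 0 < δ) (hδ1 : δ ≤ 1) : ∃ n : ℕ, 0 < n ∧
    2 * C' < 2 ^ n * δ ∧ 4 * (n : ℝ) ≤ max 8 (2 * C') * (1 + Real.log (max 8 (2 * C') / δ)) := by
  set Y : ℝ := 2 * C' / δ with hY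
  have hY1 : 1 ≤ Y := by
    rw [hY, le_div_iff₀ hδ]
    linarith
  have hlog : 0 ≤ Real.log Y := Real.log_nonneg hY1
  have hl2 : (1 : ℝ) / 2 ≤ Real.log 2 := by
    have := Real.log_two_gt_d9
    linarith
  refine ⟨⌊Real.log Y / Real.log 2⌋₊ + 1, Nat.succ_pos _, ?_, ?_⟩
  · have h1 := Nat.lt_floor_add_one (Real.log Y / Real.log 2)
    have hl0 : 0 < Real.log 2 := by linarith
    rw [div_lt_iff₀ hl0] at h1
    have h2 : Real.log Y < Real.log (2 ^ (⌊Real.log Y / Real.log 2⌋₊ + 1)) := by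
      rw [Real.log_pow]
      push_cast
      exact h1
    have h3 : Y < 2 ^ (⌊Real.log Y / Real.log 2⌋₊ + 1) :=
      (Real.log_lt_log_iff (by linarith) (by positivity)).1 h2
    rw [hY, div_lt_iff₀ hδ] at h3
    exact h3
  · have h1 : ((⌊Real.log Y / Real.log 2⌋₊ : ℕ) : ℝ) ≤ Real.log Y / Real.log 2 :=
      Nat.floor_le (div_nonneg hlog (by linarith))
    have h2 : Real.log Y / Real.log 2 ≤ 2 * Real.log Y := by
      rw [div_le_iff₀ (by linarith)]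
      nlinarith
    have h3 : Real.log Y ≤ Real.log (max 8 (2 * C') / δ) := by
      refine Real.log_le_log (by linarith) ?_
      rw [hY]
      exact div_le_div_of_nonneg_right (le_max_right _ _) hδ.le
    have h8 : (8 : ℝ) ≤ max 8 (2 * C') := le_max_left _ _
    push_cast
    nlinarith

end HM

open HM in
theorem tH : V_Bil → V_Ix → V_Bx → V_Her → V_Gre → V_H := by
  classical
  intro hBil hIx hBx hHer hGre R C₀ hR hC₀
  obtain ⟨C', c₁, hC', hc₁, hG⟩ := hGre (4 * C₀ ^ 2) (by nlinarith)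
  have hC₀p : (0 : ℝ) < C₀ := by linarith
  refine ⟨max 8 (2 * C'), c₁ / (4 * C₀ ^ 2), (by norm_num : (1 : ℝ) ≤ 8).trans (le_max_left _ _),
    by positivity, ?_⟩
  intro l Φ hE w A δ K R' hw hw1 hA hδ hδ1 hK hR' hwR hCT V hVn hCM W0 W hW0 hI0 hW hI hWH hht L hL
  obtain ⟨n, hn0, hn1, hn2⟩ := ncl C' δ hC' hδ hδ1
  have hwR2 : w * (2 * R' * C₀) ^ 2 ≤ c₁ := by
    rw [le_div_iff₀ (by positivity)] at hwR
    calc w * (2 * R' * C₀) ^ 2 = w * R' ^ 2 * (4 * C₀ ^ 2) := by ring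
      _ ≤ c₁ := hwR
  -- the cells are not empty
  have hx0 : ∀ z ∈ V, rp R w z ∈ cel R w z := by
    intro z hz
    have h1 : (cel R w z).Nonempty := by
      by_contra hc
      rw [Set.not_nonempty_iff_eq_empty] at hc
      have h2 := (hCM z hz).1
      rw [hc] at h2
      have h3 : ms Φ ∅ = 0 := by simp [ms]
      rw [h3] at h2
      exact absurd (ENNReal.ofReal_eq_zero.1 (le_antisymm h2 bot_le)) (not_le.2 hA)
    rw [HS.rp, dif_pos h1]
    exact h1.some_mem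
  set RL : Finset Mat := L.biUnion RepN with hRL
  -- the tube mass
  set a : (Fin 3 → ℤ) → Mat → ℝ≥0∞ := fun z r =>
    ms Φ (W0 ∩ tb (4 * C₀ ^ 2) w (nm r * rp R w z)) with ha
  set Hc : (Fin 3 → ℤ) → ℕ → Finset Mat := fun z i => RL.filter (fun r =>
    Ix Φ W (nm r) (cel R w z) ≠ 0 ∧ ENNReal.ofReal (2 ^ i * δ) ≤ a z r ∧
      a z r ≤ ENNReal.ofReal (2 * (2 ^ i * δ))) with hHc
  -- one cell
  have hcell : ∀ z ∈ V, ∑ r ∈ RL, Ix Φ W (nm r) (cel R w z) ≤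
      ∑ i ∈ Finset.range n, ((Hc z i).card : ℝ≥0∞) * ENNReal.ofReal (2 * √(A * (2 ^ i * δ))) := by
    intro z hz
    have h1 : ∀ r ∈ RL, Ix Φ W (nm r) (cel R w z) ≤ ∑ i ∈ Finset.range n,
        if r ∈ Hc z i then ENNReal.ofReal (2 * √(A * (2 ^ i * δ))) else 0 := by
      intro r hr
      by_cases h0 : Ix Φ W (nm r) (cel R w z) = 0
      · rw [h0]
        exact bot_le
      obtain ⟨⟨x, hx, hxW⟩, h2, h3⟩ := hit hIx hBx hC₀ hE.cont hw hw1 hCT hW hWH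
        (hCM z hz).2 (hx0 z hz) (nm r) h0
      have h4 := top hBx hC₀ hG hE hw hw1 hR' hwR2 hCT hW0 hI0 hht (hx0 z hz) hx r
        (hWH hxW).1
      have h5 : a z r < ENNReal.ofReal (2 ^ n * δ) := by
        refine h4.trans_lt ?_
        have h6 : (2 : ℝ≥0∞) = ENNReal.ofReal 2 := by simp
        rw [h6, ← ENNReal.ofReal_mul (by linarith), mul_comm C' 2]
        exact (ENNReal.ofReal_lt_ofReal_iff (by positivity)).2 hn1
      obtain ⟨i, hi, h6, h7⟩ := dyad δ (a z r) h2 n h5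
      have h8 : r ∈ Hc z i := Finset.mem_filter.2 ⟨hr, h0, h6, h7⟩
      have h9 : Ix Φ W (nm r) (cel R w z) ≤ ENNReal.ofReal (2 * √(A * (2 ^ i * δ))) := by
        have h10 : Ix Φ W (nm r) (cel R w z) ^ 2 ≤
            ENNReal.ofReal (2 * √(A * (2 ^ i * δ))) ^ 2 := by
          refine h3.trans ((mul_le_mul' le_rfl h7).trans (le_of_eq ?_))
          rw [← ENNReal.ofReal_mul (by positivity), ← ENNReal.ofReal_pow (by positivity), mul_pow,
            Real.sq_sqrt (by positivity)]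
          congr 1
          ring
        exact (ENNReal.pow_le_pow_left_iff (by norm_num)).1 h10
      refine h9.trans ?_
      have h11 := Finset.single_le_sum (f := fun i =>
        if r ∈ Hc z i then ENNReal.ofReal (2 * √(A * (2 ^ i * δ))) else 0)
        (fun _ _ => bot_le) hi
      rw [if_pos h8] at h11
      exact h11
    refine (Finset.sum_le_sum h1).trans ?_
    rw [Finset.sum_comm]
    refine Finset.sum_le_sum fun i _ => ?_
    rw [← Finset.sum_filter, Finset.sum_const, nsmul_eq_mul]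
    refine mul_le_mul' ?_ le_rfl
    have h2 : (RL.filter (fun r => r ∈ Hc z i)).card ≤ (Hc z i).card :=
      Finset.card_le_card (fun r hr => (Finset.mem_filter.1 hr).2)
    exact_mod_cast h2
  -- the largest term
  have hne : (V ×ˢ Finset.range n).Nonempty :=
    Finset.Nonempty.product hVn (Finset.nonempty_range_iff.2 hn0.ne')
  obtain ⟨⟨z, i⟩, hzi, hmax⟩ := Finset.exists_max_image (V ×ˢ Finset.range n)
    (fun t => √(A * (2 ^ t.2 * δ)) * ((Hc t.1 t.2).card : ℝ)) hne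
  rw [Finset.mem_product] at hzi
  set F : ℝ := √(A * (2 ^ i * δ)) * ((Hc z i).card : ℝ) with hF
  have hF0 : 0 ≤ F := by positivity
  have hcell2 : ∀ z' ∈ V, ∑ r ∈ RL, Ix Φ W (nm r) (cel R w z') ≤
      ENNReal.ofReal ((n : ℝ) * (2 * F)) := by
    intro z' hz'
    refine (hcell z' hz').trans ?_
    have h1 : ∀ i' ∈ Finset.range n, ((Hc z' i').card : ℝ≥0∞) *
        ENNReal.ofReal (2 * √(A * (2 ^ i' * δ))) ≤ ENNReal.ofReal (2 * F) := by
      intro i' hi'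
      have h2 := hmax (z', i') (Finset.mem_product.2 ⟨hz', hi'⟩)
      rw [← ENNReal.ofReal_natCast, ← ENNReal.ofReal_mul (Nat.cast_nonneg _)]
      refine ENNReal.ofReal_le_ofReal ?_
      calc ((Hc z' i').card : ℝ) * (2 * √(A * (2 ^ i' * δ)))
          = 2 * (√(A * (2 ^ i' * δ)) * ((Hc z' i').card : ℝ)) := by ring
        _ ≤ 2 * F := by linarith
    refine (Finset.sum_le_sum h1).trans (le_of_eq ?_)
    rw [Finset.sum_const, Finset.card_range, nsmul_eq_mul, ← ENNReal.ofReal_natCast,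
      ← ENNReal.ofReal_mul (Nat.cast_nonneg _)]
  refine ⟨2 ^ i * δ, z, Hc z i, ?_, hzi.1, ?_, ?_⟩
  · have h1 : (1 : ℝ) ≤ 2 ^ i := one_le_pow₀ (by norm_num)
    nlinarith
  · intro r hr
    obtain ⟨hr1, hr2, hr3, -⟩ := Finset.mem_filter.1 hr
    rw [hRL, Finset.mem_biUnion] at hr1
    obtain ⟨m, hm, hrm⟩ := hr1
    obtain ⟨h1, -, -⟩ := hit hIx hBx hC₀ hE.cont hw hw1 hCT hW hWH
      (hCM z hzi.1).2 (hx0 z hzi.1) (nm r) hr2
    exact ⟨m, hm, hrm, h1, hr3⟩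
  · -- the sum
    have mF : Measurable (AIkM.ff Φ (celU R w V)) := meas_ff hE.cont (meas_celU R w V)
    have mU : Measurable (AIkM.ff Φ (FF ∩ W)) := meas_ff hE.cont (measFF.inter hW)
    have e1 : ∫⁻ x, AIkM.ff Φ (FF ∩ W) x * EM L (AIkM.ff Φ (celU R w V)) x ∂nu =
        ∑ m ∈ L, (m : ℝ≥0∞)⁻¹ *
          ∫⁻ x, AIkM.ff Φ (FF ∩ W) x * hq (AIkM.ff Φ (celU R w V)) (m * m) x ∂nu := by
      have e2 : ∀ x, AIkM.ff Φ (FF ∩ W) x * EM L (AIkM.ff Φ (celU R w V)) x =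
          ∑ m ∈ L, (m : ℝ≥0∞)⁻¹ *
            (AIkM.ff Φ (FF ∩ W) x * hq (AIkM.ff Φ (celU R w V)) (m * m) x) := by
        intro x
        rw [EM, Finset.mul_sum]
        refine Finset.sum_congr rfl fun m _ => ?_
        ring
      have m2 : ∀ m : ℕ, Measurable fun x => AIkM.ff Φ (FF ∩ W) x *
          hq (AIkM.ff Φ (celU R w V)) (m * m) x := fun m => mU.mul (meas_hq mF _)
      have m3 : ∀ m ∈ L, Measurable fun x => (m : ℝ≥0∞)⁻¹ *
          (AIkM.ff Φ (FF ∩ W) x * hq (AIkM.ff Φ (celU R w V)) (m * m) x) :=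
        fun m _ => (m2 m).const_mul _
      simp_rw [e2]
      rw [lintegral_finsetSum _ m3]
      exact Finset.sum_congr rfl fun m _ => lintegral_const_mul _ (m2 m)
    rw [e1]
    have h1 : ∀ m ∈ L, (m : ℝ≥0∞)⁻¹ *
        ∫⁻ x, AIkM.ff Φ (FF ∩ W) x * hq (AIkM.ff Φ (celU R w V)) (m * m) x ∂nu ≤
          ENNReal.ofReal (2 / K) * ∑ z ∈ V, ∑ r ∈ RepN m, Ix Φ W (nm r) (cel R w z) := by
      intro m hm
      obtain ⟨hm0, hmK⟩ := hL m hm
      have hm0' : (0 : ℝ) < m := by exact_mod_cast hm0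
      have h2 := hBil l Φ hE R w V W hW hI m hm0
      have h3 : (m : ℝ≥0∞)⁻¹ ≤ ENNReal.ofReal (1 / K) := by
        have h4 : (m : ℝ≥0∞)⁻¹ = ENNReal.ofReal ((m : ℝ)⁻¹) := by
          rw [ENNReal.ofReal_inv_of_pos hm0', ENNReal.ofReal_natCast]
        rw [h4]
        refine ENNReal.ofReal_le_ofReal ?_
        rw [one_div]
        exact inv_anti₀ hK hmK
      refine (mul_le_mul' h3 h2).trans (le_of_eq ?_)
      rw [← mul_assoc]
      congr 1
      have h5 : (2 : ℝ≥0∞) = ENNReal.ofReal 2 := by simp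
      rw [h5, ← ENNReal.ofReal_mul (by positivity)]
      congr 1
      ring
    refine (Finset.sum_le_sum h1).trans ?_
    rw [← Finset.mul_sum, Finset.sum_comm]
    have hdis : ∀ z' : Fin 3 → ℤ, ∑ m ∈ L, ∑ r ∈ RepN m, Ix Φ W (nm r) (cel R w z') =
        ∑ r ∈ RL, Ix Φ W (nm r) (cel R w z') := by
      intro z'
      rw [hRL, Finset.sum_biUnion]
      intro m hm m' hm' hne'
      rw [Function.onFun, Finset.disjoint_left]
      intro r hr hr'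
      have d1 := ((hHer m (hL m (Finset.mem_coe.1 hm)).1).1 r hr).2.1
      have d2 := ((hHer m' (hL m' (Finset.mem_coe.1 hm')).1).1 r hr').2.1
      apply hne'
      have d3 : (m : ℤ) * m = (m' : ℤ) * m' := d1.symm.trans d2
      have d4 : m * m = m' * m' := by exact_mod_cast d3
      exact Nat.mul_self_inj.1 d4
    have h2 : ∑ z' ∈ V, ∑ m ∈ L, ∑ r ∈ RepN m, Ix Φ W (nm r) (cel R w z') ≤
        ENNReal.ofReal ((V.card : ℝ) * ((n : ℝ) * (2 * F))) := by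
      have h3 : ∀ z' ∈ V, ∑ m ∈ L, ∑ r ∈ RepN m, Ix Φ W (nm r) (cel R w z') ≤
          ENNReal.ofReal ((n : ℝ) * (2 * F)) := by
        intro z' hz'
        rw [hdis]
        exact hcell2 z' hz'
      refine (Finset.sum_le_sum h3).trans (le_of_eq ?_)
      rw [Finset.sum_const, nsmul_eq_mul, ← ENNReal.ofReal_natCast,
        ← ENNReal.ofReal_mul (Nat.cast_nonneg _)]
    refine (mul_le_mul' le_rfl h2).trans ?_
    rw [← ENNReal.ofReal_mul (by positivity)]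
    refine ENNReal.ofReal_le_ofReal ?_
    have h4 : (0 : ℝ) ≤ (V.card : ℝ) / K := by positivity
    calc 2 / K * ((V.card : ℝ) * ((n : ℝ) * (2 * F)))
        = (4 * (n : ℝ)) * ((V.card : ℝ) / K) * F := by ring
      _ ≤ (max 8 (2 * C') * (1 + Real.log (max 8 (2 * C') / δ))) * ((V.card : ℝ) / K) * F := by
          gcongr
      _ = _ := by
          rw [hF]
          ring

end

end Pool.Agent.A54.HSV
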