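import Pool.Agent.Lib.HS.Am2
import Pool.Agent.Lib.HS.L.Mult
import Pool.Agent.Lib.MP_a54f13_nt.Hp.Nm

/-!
# HS/Bd/V: Hermite representatives (helper84)
-/

set_option autoImplicit false

namespace Pool.Agent.A54.HSV.RpM

open MeasureTheory Filter Topology Set
open scoped ContDiff ComplexConjugate UpperHalfPlane MatrixGroups ENNReal
open Pool.Agent.A54.Dyn (G fl base ze io mk4 dom)
open Pool.Agent.A54.Av (Mat NonSc)
open Pool.Agent.A54.Hp Pool.Agent.A54.HS Pool.Agent.A54.Hp.Hk Pool.Agent.A54.Hp.A2M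

noncomputable section

open Classical in
/-- the reduced upper triangular primitive matrices of determinant `N` -/
def RepN (N : ℕ) : Finset Mat :=
  ((N.divisors ×ˢ Finset.range N).image fun t : ℕ × ℕ =>
    (!![(t.1 : ℤ), (t.2 : ℤ); 0, ((N / t.1 : ℕ) : ℤ)] : Mat)).filter fun r =>
      Pr r ∧ r 0 1 < r 1 1

lemma mem_RepN {N : ℕ} (hN : 0 < N) {r : Mat} : r ∈ RepN N ↔ Pr r ∧ r 1 0 = 0 ∧ 0 < r 0 0 ∧ 0 ≤ r 0 1 ∧
    r 0 1 < r 1 1 ∧ r.det = (N : ℤ) := by
  classical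
  unfold RepN
  rw [Finset.mem_filter, Finset.mem_image]
  constructor
  · rintro ⟨⟨t, ht, rfl⟩, h1, h2⟩
    rw [Finset.mem_product, Nat.mem_divisors, Finset.mem_range] at ht
    obtain ⟨⟨ht1, -⟩, ht2⟩ := ht
    have ht0 : 0 < t.1 := Nat.pos_of_dvd_of_pos ht1 hN
    refine ⟨h1, rfl, ?_, ?_, h2, ?_⟩
    · show (0 : ℤ) < (t.1 : ℤ)
      exact_mod_cast ht0
    · show (0 : ℤ) ≤ (t.2 : ℤ)
      positivity
    · rw [Matrix.det_fin_two_of, mul_zero, sub_zero]
      exact_mod_cast Nat.mul_div_cancel' ht1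
  · rintro ⟨h1, h2, h3, h4, h5, h6⟩
    refine ⟨⟨((r 0 0).toNat, (r 0 1).toNat), ?_, ?_⟩, h1, h5⟩
    · rw [Matrix.det_fin_two, h2, mul_zero, sub_zero] at h6
      have e0 : ((r 0 0).toNat : ℤ) = r 0 0 := Int.toNat_of_nonneg h3.le
      have e1 : ((r 0 1).toNat : ℤ) = r 0 1 := Int.toNat_of_nonneg h4
      rw [Finset.mem_product, Nat.mem_divisors, Finset.mem_range]
      refine ⟨⟨?_, hN.ne'⟩, ?_⟩
      · show (r 0 0).toNat ∣ N
        rw [← Int.natCast_dvd_natCast, e0]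
        exact ⟨r 1 1, h6.symm⟩
      · show (r 0 1).toNat < N
        have : ((r 0 1).toNat : ℤ) < N := by
          rw [e1, ← h6]
          nlinarith
        exact_mod_cast this
    · rw [Matrix.det_fin_two, h2, mul_zero, sub_zero] at h6
      have e0 : ((r 0 0).toNat : ℤ) = r 0 0 := Int.toNat_of_nonneg h3.le
      have e1 : ((r 0 1).toNat : ℤ) = r 0 1 := Int.toNat_of_nonneg h4
      have e2 : ((N / (r 0 0).toNat : ℕ) : ℤ) = r 1 1 := by
        rw [Int.natCast_div, e0, ← h6]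
        exact Int.mul_ediv_cancel_left _ h3.ne'
      ext i j
      fin_cases i <;> fin_cases j
      · exact e0
      · exact e1
      · exact h2.symm
      · exact e2

lemma det_RepN {N : ℕ} (hN : 0 < N) {r : Mat} (h : r ∈ RepN N) : r.det = (N : ℤ) :=
  ((mem_RepN hN).1 h).2.2.2.2.2

lemma Pr_RepN {N : ℕ} (hN : 0 < N) {r : Mat} (h : r ∈ RepN N) : Pr r := ((mem_RepN hN).1 h).1

/-- **number** of representatives -/
theorem card_RepN (N : ℕ) : (RepN N).card ≤ N.divisors.card * N := by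
  classical
  unfold RepN
  refine (Finset.card_filter_le _ _).trans (Finset.card_image_le.trans ?_)
  rw [Finset.card_product, Finset.card_range]

/-- **inequivalent** -/
theorem RepN_inj {N : ℕ} (hN : 0 < N) {r r' : Mat} (h : r ∈ RepN N) (h' : r' ∈ RepN N) (γ : Mat)
    (hγ : γ.det = 1) (he : r' = γ * r) : r = r' ∧ γ = 1 := by
  obtain ⟨-, h1, h2, h3, h4, h5⟩ := (mem_RepN hN).1 h
  obtain ⟨-, k1, k2, k3, k4, k5⟩ := (mem_RepN hN).1 h'
  have hr1 : 0 < r 1 1 := lt_of_le_of_lt h3 h4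
  have e00 : r' 0 0 = γ 0 0 * r 0 0 := by
    rw [he, Matrix.mul_apply, Fin.sum_univ_two, h1, mul_zero, add_zero]
  have e01 : r' 0 1 = γ 0 0 * r 0 1 + γ 0 1 * r 1 1 := by
    rw [he, Matrix.mul_apply, Fin.sum_univ_two]
  have e10 : r' 1 0 = γ 1 0 * r 0 0 := by
    rw [he, Matrix.mul_apply, Fin.sum_univ_two, h1, mul_zero, add_zero]
  have e11 : r' 1 1 = γ 1 0 * r 0 1 + γ 1 1 * r 1 1 := by
    rw [he, Matrix.mul_apply, Fin.sum_univ_two]
  have g10 : γ 1 0 = 0 := by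
    rw [k1] at e10
    rcases mul_eq_zero.1 e10.symm with h | h
    · exact h
    · omega
  rw [Matrix.det_fin_two, g10, mul_zero, sub_zero] at hγ
  have g00 : 0 < γ 0 0 := by
    rw [e00] at k2
    exact (mul_pos_iff_of_pos_right h2).1 k2
  have g00' : γ 0 0 = 1 ∧ γ 1 1 = 1 := by
    rcases Int.eq_one_or_neg_one_of_mul_eq_one' hγ with h | h
    · exact h
    · omega
  rw [g00'.1, one_mul] at e00 e01
  rw [g10, zero_mul, zero_add, g00'.2, one_mul] at e11
  have g01 : γ 0 1 = 0 := by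
    by_contra hne
    rcases lt_or_gt_of_ne hne with hlt | hgt
    · have : γ 0 1 ≤ -1 := by omega
      nlinarith
    · have : 1 ≤ γ 0 1 := by omega
      nlinarith
  refine ⟨?_, ?_⟩
  · ext i j
    fin_cases i <;> fin_cases j
    · exact e00.symm
    · show r 0 1 = r' 0 1
      rw [e01, g01, zero_mul, add_zero]
    · show r 1 0 = r' 1 0
      rw [h1, k1]
    · exact e11.symm
  · ext i j
    fin_cases i <;> fin_cases j
    · exact g00'.1
    · exact g01
    · exact g10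
    · exact g00'.2

lemma Pr_unim {γ s : Mat} (hγ : γ.det = 1) (h : Pr s) : Pr (γ * s) := by
  intro ℓ hℓ hP
  refine h ℓ hℓ (PD_of_mul hℓ ?_ hP)
  rw [hγ]
  intro hd
  have h3 : ℓ ∣ 1 := by exact_mod_cast hd
  have := Nat.le_of_dvd one_pos h3
  have := hℓ.one_lt
  omega

/-- **existence** -/
theorem exists_RepN {N : ℕ} (hN : 0 < N) {s : Mat} (hs : s.det = (N : ℤ)) (hP : Pr s) :
    ∃ γ : Mat, γ.det = 1 ∧ ∃ r ∈ RepN N, s = γ * r := by
  obtain ⟨γ, α, β, δ, h1, h2, h3, h4, h5, h6⟩ := HSL.MultM.hermite_form s (N : ℤ) (by exact_mod_cast hN) hs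
  have hadj : γ.adjugate * γ = 1 := by rw [Matrix.adjugate_mul, h1, one_smul]
  refine ⟨γ.adjugate, ?_, γ * s, ?_, ?_⟩
  · rw [Matrix.det_adjugate, h1, one_pow]
  · rw [mem_RepN hN, h6]
    refine ⟨?_, rfl, h2, h3, h4, ?_⟩
    · rw [← h6]
      exact Pr_unim h1 hP
    · rw [Matrix.det_fin_two_of, mul_zero, sub_zero]
      exact h5
  · rw [← Matrix.mul_assoc, hadj, Matrix.one_mul]

open Classical in
/-- **unfolding of `hq`** over the representatives -/
theorem hq_RepN {N : ℕ} (hN : 0 < N) (F : G → ℝ≥0∞) (y : G) :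
    hq F N y = ∑ r ∈ RepN N, hs F 1 (nm r * y) := by
  have hNm := stmtNm
  have hNZ : (0 : ℤ) < (N : ℤ) := by exact_mod_cast hN
  set g : Mat → ℝ≥0∞ := fun s => F (nm s * y) with hg
  -- the map
  let e : (Mn 1 × {r // r ∈ RepN N}) → {m : Mn N // Pr m.1} := fun t =>
    ⟨⟨t.1.1 * t.2.1, by rw [Matrix.det_mul, t.1.2, det_RepN hN t.2.2]; push_cast; ring⟩,
      Pr_unim (by rw [t.1.2]; rfl) (Pr_RepN hN t.2.2)⟩
  have he : Function.Bijective e := by
    constructor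
    · rintro ⟨⟨a, ha⟩, ⟨r, hr⟩⟩ ⟨⟨b, hb⟩, ⟨r', hr'⟩⟩ hab
      have h1 : a * r = b * r' := congrArg (fun m => m.1.1) hab
      have ha' : a.det = 1 := by rw [ha]; rfl
      have hb' : b.det = 1 := by rw [hb]; rfl
      have hadj : b.adjugate * b = 1 := by rw [Matrix.adjugate_mul, hb', one_smul]
      have h2 : r' = (b.adjugate * a) * r := by
        rw [Matrix.mul_assoc, h1, ← Matrix.mul_assoc, hadj, Matrix.one_mul]
      have h3 : (b.adjugate * a).det = 1 := by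
        rw [Matrix.det_mul, Matrix.det_adjugate, ha', hb', one_pow, one_mul]
      obtain ⟨h4, h5⟩ := RepN_inj hN hr hr' _ h3 h2
      have h6 : a = b := by
        have : b * (b.adjugate * a) = b * 1 := by rw [h5]
        rw [← Matrix.mul_assoc, Matrix.mul_adjugate, hb', one_smul, Matrix.one_mul, Matrix.mul_one] at this
        exact this
      subst h4 h6
      rfl
    · rintro ⟨⟨m, hm⟩, hP⟩
      obtain ⟨γ, h1, r, hr, h2⟩ := exists_RepN hN hm hP
      refine ⟨(⟨γ, by rw [h1]; rfl⟩, ⟨r, hr⟩), ?_⟩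
      apply Subtype.ext
      apply Subtype.ext
      exact h2.symm
  have h1 : hq F N y = ∑' m : {m : Mn N // Pr m.1}, g m.1.1 := by
    unfold hq
    refine Eq.trans ?_ (tsum_subtype {m : Mn N | Pr m.1} fun m => g m.1).symm
    refine tsum_congr fun m => ?_
    by_cases hm : Pr m.1
    · rw [if_pos hm, indicator_of_mem (show m ∈ {m : Mn N | Pr m.1} from hm)]
    · rw [if_neg hm, indicator_of_notMem (show m ∉ {m : Mn N | Pr m.1} from hm)]
  rw [h1, ← (Equiv.ofBijective e he).tsum_eq fun m : {m : Mn N // Pr m.1} => g m.1.1]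
  have h2 : ∑' t : Mn 1 × {r // r ∈ RepN N}, g ((Equiv.ofBijective e he) t).1.1 =
      ∑' (a : Mn 1) (b : {r // r ∈ RepN N}), g (a.1 * b.1) :=
    ENNReal.tsum_prod (f := fun (a : Mn 1) (b : {r // r ∈ RepN N}) => g (a.1 * b.1))
  rw [h2, ENNReal.tsum_comm, tsum_fintype]
  rw [Finset.univ_eq_attach, ← Finset.sum_attach (RepN N) fun r => hs F 1 (nm r * y)]
  refine Finset.sum_congr rfl fun r _ => ?_
  unfold hs
  refine tsum_congr fun γ => ?_
  show F (nm (γ.1 * r.1) * y) = F (nm γ.1 * (nm r.1 * y))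
  rw [hNm.1 γ.1 r.1 (by rw [γ.2]; norm_num) (by rw [det_RepN hN r.2]; exact hNZ), mul_assoc]

end

end Pool.Agent.A54.HSV.RpM
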