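import Pool.Agent.Lib.HS.Bd.V.Spec
import Pool.Agent.Lib.HS.Bd.V.Rp

/-!
# HS/Bd/V/Her: Hermite representatives (helper84)
-/

set_option autoImplicit false

namespace Pool.Agent.A54.HSV

open MeasureTheory Filter Topology Set
open scoped ContDiff ComplexConjugate UpperHalfPlane MatrixGroups ENNReal
open Pool.Agent.A54.Dyn (G fl base ze io mk4 dom)
open Pool.Agent.A54.Av (Mat NonSc)
open Pool.Agent.A54.HS
open Pool.Agent.A54.Hp Pool.Agent.A54.Hp.Hk Pool.Agent.A54.Hp.A2M

noncomputable section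

namespace HerM

lemma repN_eq {n : ℕ} (hn : 0 < n) : RepN n = RpM.RepN (n * n) := by
  classical
  have hN : 0 < n * n := Nat.mul_pos hn hn
  have hN' : (0 : ℤ) < (n : ℤ) * n := by exact_mod_cast hN
  ext s
  rw [RpM.mem_RepN hN]
  unfold RepN
  rw [Finset.mem_filter, Finset.mem_image]
  constructor
  · rintro ⟨⟨t, -, rfl⟩, h1, h2, h3⟩
    have e : ((n * n : ℕ) : ℤ) = (n : ℤ) * n := by push_cast; ring
    rw [e]
    rw [Matrix.det_fin_two_of, mul_zero, sub_zero] at h2
    have h4 : (0 : ℤ) < (t.1 : ℤ) := by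
      rcases Nat.eq_zero_or_pos t.1 with h0 | h0
      · rw [h0] at h2
        simp only [Nat.cast_zero, zero_mul] at h2
        omega
      · exact_mod_cast h0
    refine ⟨h1, rfl, h4, ?_, h3, ?_⟩
    · show (0 : ℤ) ≤ (t.2.1 : ℤ)
      positivity
    · rw [Matrix.det_fin_two_of, mul_zero, sub_zero]
      exact h2
  · rintro ⟨h1, h2, h3, h4, h5, h6⟩
    have e : ((n * n : ℕ) : ℤ) = (n : ℤ) * n := by push_cast; ring
    rw [e] at h6
    have h7 : s 0 0 * s 1 1 = (n : ℤ) * n := by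
      rw [← h6, Matrix.det_fin_two, h2, mul_zero, sub_zero]
    have h8 : 0 < s 1 1 := lt_of_le_of_lt h4 h5
    have e0 : ((s 0 0).toNat : ℤ) = s 0 0 := Int.toNat_of_nonneg h3.le
    have e1 : ((s 0 1).toNat : ℤ) = s 0 1 := Int.toNat_of_nonneg h4
    have e2 : ((s 1 1).toNat : ℤ) = s 1 1 := Int.toNat_of_nonneg h8.le
    have b0 : s 0 0 ≤ (n : ℤ) * n := by nlinarith
    have b2 : s 1 1 ≤ (n : ℤ) * n := by nlinarith
    refine ⟨⟨((s 0 0).toNat, ((s 0 1).toNat, (s 1 1).toNat)), ?_, ?_⟩, h1, h6, h5⟩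
    · rw [Finset.mem_product, Finset.mem_product, Finset.mem_range, Finset.mem_range, Finset.mem_range]
      refine ⟨?_, ?_, ?_⟩
      · show (s 0 0).toNat < n ^ 2 + 1
        have : ((s 0 0).toNat : ℤ) < ((n ^ 2 + 1 : ℕ) : ℤ) := by
          rw [e0]
          push_cast
          nlinarith
        exact_mod_cast this
      · show (s 0 1).toNat < n ^ 2 + 1
        have : ((s 0 1).toNat : ℤ) < ((n ^ 2 + 1 : ℕ) : ℤ) := by
          rw [e1]
          push_cast
          nlinarith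
        exact_mod_cast this
      · show (s 1 1).toNat < n ^ 2 + 1
        have : ((s 1 1).toNat : ℤ) < ((n ^ 2 + 1 : ℕ) : ℤ) := by
          rw [e2]
          push_cast
          nlinarith
        exact_mod_cast this
    · ext i j
      fin_cases i <;> fin_cases j
      · exact e0
      · exact e1
      · exact h2.symm
      · exact e2

end HerM

/-- **Her** Hermite representatives -/
theorem tHer : V_Her := by
  classical
  intro n hn
  have hN : 0 < n * n := Nat.mul_pos hn hn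
  have e : ((n * n : ℕ) : ℤ) = (n : ℤ) * n := by push_cast; ring
  rw [HerM.repN_eq hn]
  refine ⟨?_, ?_, ?_, ?_, ?_⟩
  · intro r hr
    obtain ⟨h1, h2, h3, h4, h5, h6⟩ := (RpM.mem_RepN hN).1 hr
    rw [e] at h6
    have h7 : r 0 0 * r 1 1 = (n : ℤ) * n := by
      rw [← h6, Matrix.det_fin_two, h2, mul_zero, sub_zero]
    have h8 : 0 < r 1 1 := lt_of_le_of_lt h4 h5
    refine ⟨h1, h6, h2, fun i j => ?_⟩
    fin_cases i <;> fin_cases j
    · exact ⟨h3.le, by show r 0 0 ≤ _; nlinarith⟩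
    · exact ⟨h4, by show r 0 1 ≤ _; nlinarith⟩
    · show 0 ≤ r 1 0 ∧ r 1 0 ≤ _
      rw [h2]
      exact ⟨le_refl _, by positivity⟩
    · exact ⟨h8.le, by show r 1 1 ≤ _; nlinarith⟩
  · intro s hP hs
    obtain ⟨γ, h1, r, hr, h2⟩ := RpM.exists_RepN hN (s := s) (by rw [e]; exact hs) hP
    exact ⟨⟨γ, h1⟩, r, hr, h2⟩
  · intro r hr r' hr' γ hγ he
    exact (RpM.RepN_inj hN hr hr' γ hγ he).1.symm
  · have := RpM.card_RepN (n * n)
    rwa [sq]
  · intro F y
    exact RpM.hq_RepN hN F y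

end

end Pool.Agent.A54.HSV
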