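import Pool.Agent.Lib.HS.Bd.V.Spec
import Pool.Agent.Lib.MP_a54f13_nt.Hp.Nm

/-!
# HS/Bd/V: module Hgt, height of the support
-/

set_option autoImplicit false

namespace Pool.Agent.A54.HSV

open MeasureTheory Filter Topology Set
open scoped ContDiff ComplexConjugate UpperHalfPlane MatrixGroups ENNReal
open Pool.Agent.A54.Dyn (G fl base ze io mk4 dom)
open Pool.Agent.A54.Av (Mat NonSc)
open Pool.Agent.A54.HS
open Pool.Agent.A54.Hp Pool.Agent.A54.Hp.Hk Pool.Agent.A54.Hp.A2M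

noncomputable section

namespace HgtM

lemma ent_le {r : Mat} {n : ℕ} (hn : 0 < n) (hd : r.det = (n : ℤ) * n)
    (hr : ∀ i j, 0 ≤ r i j ∧ r i j ≤ (n : ℤ) ^ 2) (i j : Fin 2) : |nm r i j| ≤ (n : ℝ) := by
  have hnR : (0 : ℝ) < (n : ℝ) := by exact_mod_cast hn
  have hd0 : 0 < r.det := by rw [hd]; positivity
  have hs : √((r.det : ℤ) : ℝ) = (n : ℝ) := by
    rw [hd]; push_cast
    exact Real.sqrt_mul_self hnR.le
  rw [NmM.nm_of hd0, hs]
  have h0 : (0 : ℝ) ≤ ((r i j : ℤ) : ℝ) := by exact_mod_cast (hr i j).1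
  have h1 : ((r i j : ℤ) : ℝ) ≤ (n : ℝ) ^ 2 := by exact_mod_cast (hr i j).2
  rw [abs_of_nonneg (div_nonneg h0 hnR.le), div_le_iff₀ hnR]
  calc ((r i j : ℤ) : ℝ) ≤ (n : ℝ) ^ 2 := h1
    _ = (n : ℝ) * n := by ring

lemma prod_le {g x : G} {a R : ℝ} (ha : 0 ≤ a) (hg : ∀ i j, |g i j| ≤ a) (hx : x ∈ Om R) :
    ∀ i j, |(g * x) i j| ≤ 2 * a * R := by
  intro i j
  have hR : 0 ≤ R := (abs_nonneg _).trans (hx 0 0)
  rw [NmM.mul_ij]
  have h0 : |g i 0 * x 0 j| ≤ a * R := by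
    rw [abs_mul]; exact mul_le_mul (hg i 0) (hx 0 j) (abs_nonneg _) ha
  have h1 : |g i 1 * x 1 j| ≤ a * R := by
    rw [abs_mul]; exact mul_le_mul (hg i 1) (hx 1 j) (abs_nonneg _) ha
  have h2 := abs_add_le (g i 0 * x 0 j) (g i 1 * x 1 j)
  linarith

end HgtM

theorem tHgt (hLev : V_Lev) (hHer : V_Her) (hNm : StmtNm) : V_Hgt := by
  classical
  intro Φ k R M hR hM Q hQ V hV y hy
  have hQp : ∀ p ∈ Q, p.Prime := fun p hp => (Finset.mem_filter.mp (hQ hp)).2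
  unfold El at hy
  rw [Ne, ENNReal.tsum_eq_zero] at hy
  push Not at hy
  obtain ⟨n, hn⟩ := hy
  have hsm : Pool.Agent.A54.HS.sm Q k n := by
    by_contra h
    rw [if_neg h] at hn
    exact hn rfl
  rw [if_pos hsm] at hn
  have hq0 : hq (AIkM.ff Φ V) (n * n) y ≠ 0 := fun h => hn (by rw [h, mul_zero])
  unfold hq at hq0
  rw [Ne, ENNReal.tsum_eq_zero] at hq0
  push Not at hq0
  obtain ⟨m, hm⟩ := hq0
  have hPr : Pr m.1 := by
    by_contra h
    rw [if_neg h] at hm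
    exact hm rfl
  rw [if_pos hPr] at hm
  have hmem : nm m.1 * y ∈ V := by
    by_contra h
    exact hm (Set.indicator_of_notMem h _)
  have hmemR := hV hmem
  have hnL : n ∈ Lev Q k := ((hLev.1 Q hQp k).1 n).mpr hsm
  obtain ⟨hn0, -, hn2, -, -⟩ := hLev.2.1 Q M hM hQ k n hnL
  have hdet : m.1.det = (n : ℤ) * n := by rw [m.2]; push_cast; ring
  have hdetp : 0 < m.1.det := by rw [hdet]; positivity
  have hadet : m.1.adjugate.det = (n : ℤ) * n := by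
    rw [Matrix.det_adjugate, hdet]; simp
  obtain ⟨hH1, hH2, -, -, -⟩ := hHer n hn0
  obtain ⟨γ, r, hr, hrs⟩ := hH2 m.1.adjugate ((Pr_adj m.1).mpr hPr) hadet
  obtain ⟨-, hrdet, -, hrent⟩ := hH1 r hr
  have hrp : 0 < r.det := by rw [hrdet]; positivity
  have hγp : 0 < (γ : Mat).det := by rw [γ.det_coe]; norm_num
  have e1 : (nm m.1)⁻¹ = io γ * nm r := by
    rw [← hNm.2.2.1 m.1 hdetp, hrs, hNm.1 _ _ hγp hrp, hNm.2.1]
  refine ⟨γ⁻¹, ?_⟩
  have e2 : io γ⁻¹ * y = nm r * (nm m.1 * y) := by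
    have h1 : io γ⁻¹ = (io γ)⁻¹ := by
      unfold io
      exact map_inv _ _
    rw [h1, inv_mul_eq_iff_eq_mul, ← mul_assoc, ← e1, inv_mul_cancel_left]
  rw [e2]
  intro i j
  have hnR : (0 : ℝ) ≤ (n : ℝ) := Nat.cast_nonneg n
  have h3 := HgtM.prod_le hnR (HgtM.ent_le hn0 hrdet hrent) hmemR i j
  refine h3.trans ?_
  have h4 : 2 * (n : ℝ) ≤ 2 * (2 * M) ^ k := by linarith
  exact mul_le_mul_of_nonneg_right h4 (by linarith)

end

end Pool.Agent.A54.HSV
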