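import Pool.Agent.Lib.HS.Bd.V.Spec

/-!
# HS/Bd/V: the heavy part (helper58)
-/

set_option autoImplicit false

namespace Pool.Agent.A54.HSV

open MeasureTheory Filter Topology Set
open scoped ContDiff ComplexConjugate UpperHalfPlane MatrixGroups ENNReal
open Pool.Agent.A54.Dyn (G fl base ze io mk4 dom)
open Pool.Agent.A54.Av (Mat NonSc)
open Pool.Agent.A54.HS
open Pool.Agent.A54.Hp Pool.Agent.A54.Hp.Hk Pool.Agent.A54.Hp.A2M

noncomputable section

namespace HvM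

lemma closed_Bx (C w : ℝ) : IsClosed (Bx C w) := by
  have e : ∀ i j : Fin 2, Continuous fun g : G => |g i j| := fun i j => (Dyn.continuous_entry i j).abs
  exact (isClosed_le (e 0 0) continuous_const).inter ((isClosed_le (e 1 1) continuous_const).inter
    ((isClosed_le (e 0 1) continuous_const).inter (isClosed_le (e 1 0) continuous_const)))

/-- the relation `x ∈ tb C w y` -/
def Rt (C w : ℝ) : Set (G × G) := {z | z.1⁻¹ * z.2 ∈ Bx C w}

lemma meas_Rt (C w : ℝ) : MeasurableSet (Rt C w) := by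
  have h : Continuous fun z : G × G => z.1⁻¹ * z.2 := by fun_prop
  exact ((closed_Bx C w).preimage h).measurableSet

lemma ms_eq {Φ : G → ℂ} {W0 : Set G} (hW : MeasurableSet W0) {C w : ℝ} (hT : ∀ y : G, MeasurableSet (tb C w y)) (y : G) :
    ms Φ (W0 ∩ tb C w y) = ∫⁻ x, (W0.indicator (fun _ => (1 : ℝ≥0∞)) x * ‖Φ x‖ₑ ^ 2) *
      (Bx C w).indicator (fun _ => (1 : ℝ≥0∞)) (y⁻¹ * x) ∂nu := by
  unfold ms
  rw [← lintegral_indicator (hW.inter (hT y))]
  refine lintegral_congr fun x => ?_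
  by_cases h1 : x ∈ W0
  · by_cases h2 : y⁻¹ * x ∈ Bx C w
    · rw [Set.indicator_of_mem (show x ∈ W0 ∩ tb C w y from ⟨h1, h2⟩), Set.indicator_of_mem h1, Set.indicator_of_mem h2,
        one_mul, mul_one]
    · rw [Set.indicator_of_notMem (fun h : x ∈ W0 ∩ tb C w y => h2 h.2), Set.indicator_of_notMem h2, mul_zero]
  · rw [Set.indicator_of_notMem (fun h : x ∈ W0 ∩ tb C w y => h1 h.1), Set.indicator_of_notMem h1, zero_mul, zero_mul]

lemma meas_ms (hs : SigmaFinite nu) {Φ : G → ℂ} (hΦ : Continuous Φ) {W0 : Set G} (hW : MeasurableSet W0) {C w : ℝ}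
    (hT : ∀ y : G, MeasurableSet (tb C w y)) : Measurable fun y : G => ms Φ (W0 ∩ tb C w y) := by
  have hm : Measurable fun g : G => ‖Φ g‖ₑ ^ 2 := (hΦ.measurable.enorm).pow_const 2
  have hK : Measurable fun z : G × G => (W0.indicator (fun _ => (1 : ℝ≥0∞)) z.2 * ‖Φ z.2‖ₑ ^ 2) *
      (Bx C w).indicator (fun _ => (1 : ℝ≥0∞)) (z.1⁻¹ * z.2) := by
    refine Measurable.mul ?_ ?_
    · exact ((measurable_const.indicator hW).mul hm).comp measurable_snd
    · exact (measurable_const (a := (1 : ℝ≥0∞))).indicator (meas_Rt C w)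
  have h := hK.lintegral_prod_right' (ν := nu)
  have e : (fun y : G => ms Φ (W0 ∩ tb C w y)) = fun y : G => ∫⁻ x, (W0.indicator (fun _ => (1 : ℝ≥0∞)) x * ‖Φ x‖ₑ ^ 2) *
      (Bx C w).indicator (fun _ => (1 : ℝ≥0∞)) (y⁻¹ * x) ∂nu := funext fun y => ms_eq hW hT y
  rw [e]
  exact h

lemma ms_inv (hL : nu.IsMulLeftInvariant) {Φ : G → ℂ} (hI : ∀ (γ : SL(2, ℤ)) (g : G), Φ (io γ * g) = Φ g) {W0 : Set G}
    (hW : MeasurableSet W0) (hV : LInv W0) {C w : ℝ} (hT : ∀ y : G, MeasurableSet (tb C w y)) (γ : SL(2, ℤ)) (y : G) :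
    ms Φ (W0 ∩ tb C w (io γ * y)) = ms Φ (W0 ∩ tb C w y) := by
  rw [ms_eq hW hT, ms_eq hW hT,
    ← lintegral_mul_left_eq_self (μ := nu) (fun x => (W0.indicator (fun _ => (1 : ℝ≥0∞)) x * ‖Φ x‖ₑ ^ 2) *
      (Bx C w).indicator (fun _ => (1 : ℝ≥0∞)) ((io γ * y)⁻¹ * x)) (io γ)]
  refine lintegral_congr fun x => ?_
  have e1 : (io γ * y)⁻¹ * (io γ * x) = y⁻¹ * x := by group
  have e2 : W0.indicator (fun _ => (1 : ℝ≥0∞)) (io γ * x) = W0.indicator (fun _ => (1 : ℝ≥0∞)) x := by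
    by_cases h : x ∈ W0
    · rw [Set.indicator_of_mem h, Set.indicator_of_mem ((hV γ x).mpr h)]
    · rw [Set.indicator_of_notMem h, Set.indicator_of_notMem (fun h' => h ((hV γ x).mp h'))]
  rw [e1, e2, hI]

end HvM

theorem tHv (hNuL : StmtNuL) (hBx : V_Bx) : V_Hv := by
  intro Φ hΦ hI W0 hW hV C w δ
  have hT : ∀ y : G, MeasurableSet (tb C w y) := hBx.1 C w
  constructor
  · exact hW.inter (measurableSet_le measurable_const (HvM.meas_ms hNuL.2.2.1 hΦ hW hT))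
  · intro γ g
    change (io γ * g ∈ W0 ∧ ENNReal.ofReal δ ≤ ms Φ (W0 ∩ tb C w (io γ * g))) ↔
      (g ∈ W0 ∧ ENNReal.ofReal δ ≤ ms Φ (W0 ∩ tb C w g))
    rw [HvM.ms_inv hNuL.1 hI hW hV hT, hV γ g]

end

end Pool.Agent.A54.HSV
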