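import Pool.Agent.Lib.HS.Bd.V.Spec

/-!
# HS/Bd/V, module Inv: invariance of `El` and symmetry of `hq` (helper63)
-/

set_option autoImplicit false

namespace Pool.Agent.A54.HSV

open MeasureTheory Filter Topology Set
open scoped ContDiff ComplexConjugate UpperHalfPlane MatrixGroups ENNReal
open Pool.Agent.A54.Dyn (G fl base ze io mk4 dom)
open Pool.Agent.A54.Av (Mat NonSc)
open Pool.Agent.A54.HS
open Pool.Agent.A54.Hp Pool.Agent.A54.Hp.Hk Pool.Agent.A54.Hp.A2M

noncomputable section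

namespace InvM

/-- right multiplication by `γ` preserves primitivity -/
lemma Pr_mul (m : Mat) (γ : SL(2, ℤ)) : Pr (m * (γ : Mat)) ↔ Pr m := by
  refine forall_congr' fun ℓ => forall_congr' fun hℓ => not_congr ?_
  refine ⟨fun h => PD_of_mul_right hℓ ?_ h, fun h => PD_mul_right _ h⟩
  rw [γ.det_coe]
  intro hd
  have h3 : ℓ ∣ 1 := by exact_mod_cast hd
  have := Nat.le_of_dvd one_pos h3
  have := hℓ.one_lt
  omega

/-- the sum over the primitive matrices is invariant -/
lemma hq_inv (hNm : StmtNm) (F : G → ℝ≥0∞) {n : ℕ} (hn : 0 < n) (γ : SL(2, ℤ)) (y : G) :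
    hq F n (io γ * y) = hq F n y := by
  classical
  unfold hq
  rw [← Equiv.tsum_eq (rmul n γ) (fun m : Mn n => if Pr m.1 then F (nm m.1 * y) else 0)]
  refine tsum_congr fun m => ?_
  change (if Pr m.1 then F (nm m.1 * (io γ * y)) else 0) =
    if Pr (m.1 * (γ : Mat)) then F (nm (m.1 * (γ : Mat)) * y) else 0
  rw [nm_mul_io hNm (det_pos hn m), mul_assoc]
  by_cases h : Pr m.1
  · rw [if_pos h, if_pos ((Pr_mul m.1 γ).2 h)]
  · rw [if_neg h, if_neg fun h' => h ((Pr_mul m.1 γ).1 h')]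

/-- the level functions are invariant -/
lemma El_inv (hNm : StmtNm) (Q : Finset ℕ) (j : ℕ) (F : G → ℝ≥0∞) (γ : SL(2, ℤ)) (y : G) :
    El Q j F (io γ * y) = El Q j F y := by
  classical
  unfold El
  refine tsum_congr fun n => ?_
  by_cases h : Pool.Agent.A54.HS.sm Q j n
  · rw [if_pos h, if_pos h, hq_inv hNm F (Nat.mul_pos (Nat.pos_of_ne_zero h.1)
      (Nat.pos_of_ne_zero h.1))]
  · rw [if_neg h, if_neg h]

/-- the integral of a product with `hq` as a sum -/
lemma int_hq {F F' : G → ℝ≥0∞} (hF : Measurable F) (hF' : Measurable F') (n : ℕ)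
    [DecidablePred Pr] : ∫⁻ x, F x * hq F' n x ∂nu =
      ∑' m : Mn n, if Pr m.1 then ∫⁻ x, F x * F' (nm m.1 * x) ∂nu else 0 := by
  have := countMn n
  unfold hq
  simp only [← ENNReal.tsum_mul_left]
  rw [lintegral_tsum]
  · refine tsum_congr fun m => ?_
    by_cases h : Pr m.1
    · simp only [h, if_true]
    · simp only [h, if_false, mul_zero, lintegral_zero]
  · intro m
    by_cases h : Pr m.1
    · simp only [h, if_true]
      exact (hF.mul (meas_mul hF' _)).aemeasurable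
    · simp only [h, if_false, mul_zero]
      exact aemeasurable_const

/-- the symmetry -/
lemma sym (hNu : StmtNuL) (hNm : StmtNm) {F1 F2 : G → ℝ≥0∞} (h1 : Measurable F1)
    (h2 : Measurable F2) {n : ℕ} (hn : 0 < n) :
    ∫⁻ x, F1 x * hq F2 n x ∂nu = ∫⁻ x, F2 x * hq F1 n x ∂nu := by
  classical
  have := hNu.1
  rw [int_hq h1 h2 n, int_hq h2 h1 n, ← Equiv.tsum_eq (adjE n) (fun m : Mn n =>
    if Pr m.1 then ∫⁻ x, F2 x * F1 (nm m.1 * x) ∂nu else 0)]
  refine tsum_congr fun m => ?_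
  change _ = if Pr m.1.adjugate then ∫⁻ x, F2 x * F1 (nm m.1.adjugate * x) ∂nu else 0
  by_cases h : Pr m.1
  · rw [if_pos h, if_pos ((Pr_adj m.1).2 h), hNm.2.2.1 m.1 (det_pos hn m),
      ← lintegral_mul_left_eq_self (μ := nu) (fun g => F2 g * F1 ((nm m.1)⁻¹ * g)) (nm m.1)]
    simp only [inv_mul_cancel_left]
    exact lintegral_congr fun x => mul_comm _ _
  · rw [if_neg h, if_neg fun h' => h ((Pr_adj m.1).1 h')]

end InvM

/-- **Inv** invariance of `El` and symmetry of `hq`. -/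
theorem tInv : StmtNuL → StmtNm → V_Inv := fun hNu hNm =>
  ⟨fun Q j F γ y => InvM.El_inv hNm Q j F γ y, fun _ _ h1 h2 _ hn =>
    InvM.sym hNu hNm h1 h2 (Nat.mul_pos hn hn)⟩

end

end Pool.Agent.A54.HSV
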