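import Pool.Agent.Lib.HS.Bd.V.Spec

/-!
# HS/Bd/V: correlations (`V_Ix`), helper73
-/

set_option autoImplicit false

namespace Pool.Agent.A54.HSV

open MeasureTheory Filter Topology Set
open scoped ContDiff ComplexConjugate UpperHalfPlane MatrixGroups ENNReal
open Pool.Agent.A54.Dyn (G fl base ze io mk4 dom)
open Pool.Agent.A54.Av (Mat NonSc)
open Pool.Agent.A54.HS
open Pool.Agent.A54.Hp Pool.Agent.A54.Hp.Hk Pool.Agent.A54.Hp.A2M

noncomputable section

theorem tIx (hNu : StmtNuL) : V_Ix := by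
  intro Φ hΦ W c hW hc h
  have := hNu.1
  constructor
  · have mf : Measurable (fun y : G => ‖Φ y‖ₑ) := hΦ.enorm.measurable
    have m1 : Measurable (W.indicator fun y : G => ‖Φ y‖ₑ) := mf.indicator hW
    have m2 : Measurable fun x : G => W.indicator (fun y : G => ‖Φ y‖ₑ) (h * x) := meas_mul m1 h
    have hS : MeasurableSet (W ∩ {y : G | h⁻¹ * y ∈ c}) := by
      refine hW.inter ?_
      have m3 : Measurable fun y : G => h⁻¹ * y := measurable_const_mul h⁻¹
      exact m3 hc
    have h1 := AIkM.cs (nu.restrict c) (fun y : G => ‖Φ y‖ₑ)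
      (fun x : G => W.indicator (fun y : G => ‖Φ y‖ₑ) (h * x)) mf m2
    have e1 : ∫⁻ x in c, (W.indicator (fun y : G => ‖Φ y‖ₑ) (h * x)) ^ 2 ∂nu =
        ms Φ (W ∩ {y : G | h⁻¹ * y ∈ c}) := by
      have e2 : ms Φ (W ∩ {y : G | h⁻¹ * y ∈ c}) =
          ∫⁻ x, (W ∩ {y : G | h⁻¹ * y ∈ c}).indicator (fun y : G => ‖Φ y‖ₑ ^ 2) (h * x) ∂nu := by
        unfold ms
        rw [← lintegral_indicator hS]
        exact (lintegral_mul_left_eq_self (μ := nu)
          (fun x => (W ∩ {y : G | h⁻¹ * y ∈ c}).indicator (fun y : G => ‖Φ y‖ₑ ^ 2) x) h).symm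
      rw [e2, ← lintegral_indicator hc]
      refine lintegral_congr fun x => ?_
      by_cases hx : x ∈ c
      · rw [Set.indicator_of_mem hx]
        by_cases hy : h * x ∈ W
        · have hm : h * x ∈ W ∩ {y : G | h⁻¹ * y ∈ c} := ⟨hy, by
            show h⁻¹ * (h * x) ∈ c
            rwa [inv_mul_cancel_left]⟩
          rw [Set.indicator_of_mem hy, Set.indicator_of_mem hm]
        · rw [Set.indicator_of_notMem hy, Set.indicator_of_notMem (fun hm => hy hm.1)]
          simp
      · have hm : h * x ∉ W ∩ {y : G | h⁻¹ * y ∈ c} := fun hm => hx (by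
          have h2 : h⁻¹ * (h * x) ∈ c := hm.2
          rwa [inv_mul_cancel_left] at h2)
        rw [Set.indicator_of_notMem hx, Set.indicator_of_notMem hm]
    rw [e1] at h1
    exact h1
  · intro hne
    by_contra hcon
    push Not at hcon
    apply hne
    unfold Ix
    rw [← lintegral_indicator hc]
    have h0 : ∀ x : G, c.indicator (fun x => ‖Φ x‖ₑ * W.indicator (fun y : G => ‖Φ y‖ₑ) (h * x)) x = 0 := by
      intro x
      by_cases hx : x ∈ c
      · rw [Set.indicator_of_mem hx, Set.indicator_of_notMem (hcon x hx), mul_zero]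
      · rw [Set.indicator_of_notMem hx]
    simp only [h0, lintegral_zero]

end

end Pool.Agent.A54.HSV
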