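import Pool.Agent.Lib.HS.Bd.V.Spec

/-!
# HS/Bd/V: module J, the lower bound of the two step correlation (helper53)
-/

set_option autoImplicit false

namespace Pool.Agent.A54.HSV

open MeasureTheory Filter Topology Set
open scoped ContDiff ComplexConjugate UpperHalfPlane MatrixGroups ENNReal
open Pool.Agent.A54.Dyn (G fl base ze io mk4 dom)
open Pool.Agent.A54.Av (Mat NonSc)
open Pool.Agent.A54.HS
open Pool.Agent.A54.Hp Pool.Agent.A54.Hp.Hk Pool.Agent.A54.Hp.A2M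

noncomputable section

namespace JM

lemma hq_mono {F F' : G → ℝ≥0∞} (h : ∀ y, F y ≤ F' y) (n : ℕ) (y : G) : hq F n y ≤ hq F' n y := by
  classical
  unfold hq
  refine ENNReal.tsum_le_tsum fun m => ?_
  by_cases hm : Pr m.1
  · simp only [hm, if_true]
    exact h _
  · simp only [hm, if_false]
    exact le_refl _

lemma hq_smul (c : ℝ≥0∞) (F : G → ℝ≥0∞) (n : ℕ) (y : G) : hq (fun x => c * F x) n y = c * hq F n y := by
  classical
  unfold hq
  rw [← ENNReal.tsum_mul_left]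
  refine tsum_congr fun m => ?_
  by_cases hm : Pr m.1
  · simp only [hm, if_true]
  · simp only [hm, if_false, mul_zero]

lemma El_mono {F F' : G → ℝ≥0∞} (h : ∀ y, F y ≤ F' y) (Q : Finset ℕ) (j : ℕ) (y : G) : El Q j F y ≤ El Q j F' y := by
  classical
  unfold El
  refine ENNReal.tsum_le_tsum fun n => ?_
  by_cases hm : Pool.Agent.A54.HS.sm Q j n
  · simp only [hm, if_true]
    gcongr
    exact hq_mono h _ _
  · simp only [hm, if_false]
    exact le_refl _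

lemma El_smul (c : ℝ≥0∞) (F : G → ℝ≥0∞) (Q : Finset ℕ) (j : ℕ) (y : G) :
    El Q j (fun x => c * F x) y = c * El Q j F y := by
  classical
  unfold El
  rw [← ENNReal.tsum_mul_left]
  refine tsum_congr fun n => ?_
  by_cases hm : Pool.Agent.A54.HS.sm Q j n
  · simp only [hm, if_true]
    rw [hq_smul, ← mul_assoc, ← mul_assoc, mul_comm c]
  · simp only [hm, if_false, mul_zero]

lemma Pm_prime {M : ℝ} {Q : Finset ℕ} (h : Q ⊆ Pm M) : ∀ p ∈ Q, p.Prime := by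
  intro p hp
  exact (Finset.mem_filter.1 (h hp)).2

end JM

theorem tJ (hAIF : V_AIF) (hComp : V_Comp) (hHgt : V_Hgt) (_hLev : V_Lev) : V_J := by
  intro k j R hk hj hR
  obtain ⟨C, hC1, hA⟩ := hAIF j hj
  refine ⟨2 * C, by linarith, ?_⟩
  intro l Φ hE w M1 M2 g m₁ V hM1 hM2 hg hm₁ Q1 Q2 hQ1 hQ2 hd hl W hWm hWi hWs hms hbig
  have hV : celU R w V ⊆ Om R := fun x hx => hx.1
  have hht : ∀ y ∈ W, ∃ γ : SL(2, ℤ), io γ * y ∈ Om (2 * (2 * M1) ^ k * R) := by
    intro y hy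
    refine hHgt Φ k R M1 hR hM1 Q1 hQ1 (celU R w V) hV y ?_
    intro h0
    have h1 := (hWs hy).1
    have h2 := (hWs hy).2
    rw [h0] at h1 h2
    have h3 : ENNReal.ofReal g * ‖Φ y‖ₑ = 0 := le_antisymm h1 zero_le
    have h4 : ‖Φ y‖ₑ = 0 := by
      rcases mul_eq_zero.1 h3 with h | h
      · rw [ENNReal.ofReal_eq_zero] at h
        linarith
      · exact h
    rw [h4, mul_zero] at h2
    exact lt_irrefl _ h2
  have hq : ((Q2.card : ℝ≥0∞)) = ENNReal.ofReal (Q2.card : ℝ) := (ENNReal.ofReal_natCast _).symm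
  have hCC : ENNReal.ofReal C ≤ (Q2.card : ℝ≥0∞) ^ j * ms Φ (FF ∩ W) := by
    rw [hms, hq, ← ENNReal.ofReal_pow (Nat.cast_nonneg _), ← ENNReal.ofReal_mul (by positivity)]
    exact ENNReal.ofReal_le_ofReal (by linarith)
  have h5 := hA l Φ hE W hWm hWi _ hht M2 hM2 Q2 hQ2 hl hCC
  rw [hms, hq, ← ENNReal.ofReal_pow (Nat.cast_nonneg _), ← ENNReal.ofReal_pow hm₁,
    ← ENNReal.ofReal_mul (by positivity)] at h5
  set F : G → ℝ≥0∞ := AIkM.ff Φ (celU R w V) with hF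
  set FU : G → ℝ≥0∞ := AIkM.ff Φ (FF ∩ W) with hFU
  have hpt : ∀ x, ENNReal.ofReal g * FU x ≤ (FF ∩ W).indicator (El Q1 k F) x := by
    intro x
    by_cases hx : x ∈ FF ∩ W
    · rw [hFU]
      unfold AIkM.ff
      rw [Set.indicator_of_mem hx, Set.indicator_of_mem hx]
      exact (hWs hx.2).1
    · rw [hFU]
      unfold AIkM.ff
      rw [Set.indicator_of_notMem hx, Set.indicator_of_notMem hx, mul_zero]
  have hpt2 : ∀ x, ENNReal.ofReal g * El Q2 (2 * j) FU x ≤ 2 * EM (L2 Q1 Q2 k (2 * j)) F x := by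
    intro x
    rw [← JM.El_smul]
    exact (JM.El_mono hpt Q2 (2 * j) x).trans
      (hComp Q1 Q2 (JM.Pm_prime hQ1) (JM.Pm_prime hQ2) hd k (2 * j) F (FF ∩ W) Set.inter_subset_left x)
  have hint : ENNReal.ofReal g * ∫⁻ x, FU x * El Q2 (2 * j) FU x ∂nu ≤
      2 * ∫⁻ x, FU x * EM (L2 Q1 Q2 k (2 * j)) F x ∂nu := by
    rw [← lintegral_const_mul' _ _ ENNReal.ofReal_ne_top, ← lintegral_const_mul' _ _ (by norm_num)]
    refine lintegral_mono fun x => ?_
    calc ENNReal.ofReal g * (FU x * El Q2 (2 * j) FU x) = FU x * (ENNReal.ofReal g * El Q2 (2 * j) FU x) := by ring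
      _ ≤ FU x * (2 * EM (L2 Q1 Q2 k (2 * j)) F x) := mul_le_mul_right (hpt2 x) _
      _ = 2 * (FU x * EM (L2 Q1 Q2 k (2 * j)) F x) := by ring
  calc ENNReal.ofReal (g * (Q2.card : ℝ) ^ (2 * j) * m₁ ^ 2)
      = ENNReal.ofReal g * ENNReal.ofReal ((Q2.card : ℝ) ^ (2 * j) * m₁ ^ 2) := by
        rw [← ENNReal.ofReal_mul hg.le, mul_assoc]
    _ ≤ ENNReal.ofReal g * (ENNReal.ofReal C * ∫⁻ x, FU x * El Q2 (2 * j) FU x ∂nu) := by
        gcongr
    _ = ENNReal.ofReal C * (ENNReal.ofReal g * ∫⁻ x, FU x * El Q2 (2 * j) FU x ∂nu) := by ring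
    _ ≤ ENNReal.ofReal C * (2 * ∫⁻ x, FU x * EM (L2 Q1 Q2 k (2 * j)) F x ∂nu) := by
        gcongr
    _ = ENNReal.ofReal (2 * C) * ∫⁻ x, FU x * EM (L2 Q1 Q2 k (2 * j)) F x ∂nu := by
        rw [ENNReal.ofReal_mul (by norm_num)]
        norm_num
        ring

end

end Pool.Agent.A54.HSV
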