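import Pool.Agent.Lib.HS.Bd.V.Spec
import Pool.Agent.Lib.HS.Cel3

/-!
# HS/Bd/V, module K1: case 1 is impossible (helper54)
-/

set_option autoImplicit false

namespace Pool.Agent.A54.HSV

open MeasureTheory Filter Topology Set
open scoped ContDiff ComplexConjugate UpperHalfPlane MatrixGroups ENNReal
open Pool.Agent.A54.Dyn (G fl base ze io mk4 dom)
open Pool.Agent.A54.Av (Mat NonSc)
open Pool.Agent.A54.HS
open Pool.Agent.A54.Hp Pool.Agent.A54.Hp.Hk Pool.Agent.A54.Hp.A2M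

noncomputable section

namespace K1M

/-! ### Real numbers -/

lemma small {c η : ℝ} (hc : 1 ≤ c) (hη : 0 < η) :
    ∃ w₀ : ℝ, 0 < w₀ ∧ w₀ ≤ 1 ∧ ∀ w : ℝ, 0 < w → w ≤ w₀ → c ≤ w ^ (-η) := by
  refine ⟨c ^ (-(1 / η)), Real.rpow_pos_of_pos (by linarith) _,
    Real.rpow_le_one_of_one_le_of_nonpos hc (by rw [neg_nonpos]; positivity), fun w hw hww => ?_⟩
  have h1 : (c ^ (-(1 / η))) ^ (-η) ≤ w ^ (-η) :=
    Real.rpow_le_rpow_of_nonpos hw hww (by linarith)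
  rw [← Real.rpow_mul (by linarith)] at h1
  have e : -(1 / η) * -η = 1 := by field_simp
  rw [e, Real.rpow_one] at h1
  exact h1

/-- the contradiction of case 1 -/
lemma num {c c₁ B s₁ ν ρ w q N T A M K C₃ Ca : ℝ} (hc : 1 ≤ c) (hB : 1 ≤ B) (hC₃ : 1 ≤ C₃) (hCa : 1 ≤ Ca)
    (hc₁ : c₁ = 2 * Ca * C₃ ^ 500) (hν : ν ≤ 1) (hρ : 0 < ρ) (hs : ν - 1 / 2 + 4 * ρ ≤ 2 * s₁)
    (hw : 0 < w) (hw1 : w ≤ 1) (hN : 0 ≤ N) (hT : 0 ≤ T) (hA : 0 < A)
    (hM : M = w ^ (-(1 / 2000) : ℝ)) (hK : K = w ^ (-(1 / 2) : ℝ))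
    (hsm1 : 6 * c₁ ^ 2 * c ^ 6 * B ^ 2 ≤ w ^ (-(3 * ρ))) (hsm2 : 4 * c₁ ≤ w ^ (-ρ))
    (h1 : w ^ (-s₁) * q ^ 500 * (N * A) < Ca * (w ^ (1 / 2 : ℝ) * (2 * A * T)))
    (h2 : T ^ 2 ≤ N ^ 3 * (B ^ 2 * K ^ ρ * ((c * K) ^ 6 / K ^ 4 + (c * K) ^ 4 / K ^ 2 + (c * K) ^ 2)) +
      2 * N ^ 2 * T)
    (h3 : N ≤ w ^ (-ν)) (h4 : M ^ (1 - ρ) ≤ C₃ * q) : False := by
  have hK0 : 0 < K := by rw [hK]; exact Real.rpow_pos_of_pos hw _
  have hp : ∀ a : ℝ, 0 < w ^ a := fun a => Real.rpow_pos_of_pos hw a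
  have hmono : ∀ {a b : ℝ}, b ≤ a → w ^ a ≤ w ^ b := fun h => Real.rpow_le_rpow_of_exponent_ge hw hw1 h
  have hc₁0 : 0 < c₁ := by rw [hc₁]; positivity
  have hT0 : 0 < T := by
    rcases hT.lt_or_eq with h | h
    · exact h
    · exfalso
      rw [← h] at h1
      have h5 : 0 ≤ w ^ (-s₁) * q ^ 500 * (N * A) := by have := hp (-s₁); positivity
      simp only [mul_zero] at h1
      linarith
  have hN0 : 0 < N := by
    rcases hN.lt_or_eq with h | h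
    · exact h
    · exfalso
      rw [← h] at h2
      simp only [ne_eq, OfNat.ofNat_ne_zero, not_false_eq_true, zero_pow, zero_mul, mul_zero, add_zero] at h2
      nlinarith
  -- the lower bound
  set X : ℝ := w ^ (-(3 / 4 + s₁ - ρ / 4)) with hX
  have hX0 : 0 < X := hp _
  have h5 : X * N < c₁ * T := by
    have e1 : w ^ (-s₁) * q ^ 500 * N < 2 * Ca * w ^ (1 / 2 : ℝ) * T := by
      have e2 : (w ^ (-s₁) * q ^ 500 * N) * A < (2 * Ca * w ^ (1 / 2 : ℝ) * T) * A := by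
        calc (w ^ (-s₁) * q ^ 500 * N) * A = w ^ (-s₁) * q ^ 500 * (N * A) := by ring
          _ < _ := h1
          _ = _ := by ring
      exact lt_of_mul_lt_mul_right e2 hA.le
    have e3 : w ^ (-((1 - ρ) / 4)) ≤ C₃ ^ 500 * q ^ 500 := by
      calc w ^ (-((1 - ρ) / 4)) = (M ^ (1 - ρ)) ^ 500 := by
            rw [hM, ← Real.rpow_natCast, ← Real.rpow_mul hw.le, ← Real.rpow_mul hw.le]
            congr 1
            push_cast
            ring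
        _ ≤ (C₃ * q) ^ 500 := pow_le_pow_left₀ (Real.rpow_nonneg (by rw [hM]; exact (hp _).le) _) h4 500
        _ = _ := mul_pow _ _ _
    have e4 : w ^ (-s₁) * w ^ (-((1 - ρ) / 4)) * N < w ^ (1 / 2 : ℝ) * (c₁ * T) := by
      calc w ^ (-s₁) * w ^ (-((1 - ρ) / 4)) * N ≤ w ^ (-s₁) * (C₃ ^ 500 * q ^ 500) * N := by
            have := hp (-s₁)
            gcongr
        _ = C₃ ^ 500 * (w ^ (-s₁) * q ^ 500 * N) := by ring
        _ < C₃ ^ 500 * (2 * Ca * w ^ (1 / 2 : ℝ) * T) := by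
            refine mul_lt_mul_of_pos_left e1 (by positivity)
        _ = _ := by rw [hc₁]; ring
    have e5 : w ^ (1 / 2 : ℝ) * X = w ^ (-s₁) * w ^ (-((1 - ρ) / 4)) := by
      rw [hX, ← Real.rpow_add hw, ← Real.rpow_add hw]
      congr 1
      ring
    rw [← e5, mul_assoc] at e4
    exact lt_of_mul_lt_mul_left e4 (hp _).le
  -- the upper bound
  set E : ℝ := 3 * c ^ 6 * B ^ 2 * w ^ (-(1 + ρ / 2)) with hE
  have hE0 : 0 < E := by rw [hE]; have := hp (-(1 + ρ / 2)); positivity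
  have h6 : T ^ 2 ≤ N ^ 3 * E + 2 * N ^ 2 * T := by
    refine h2.trans ?_
    have e1 : (c * K) ^ 6 / K ^ 4 + (c * K) ^ 4 / K ^ 2 + (c * K) ^ 2 = (c ^ 6 + c ^ 4 + c ^ 2) * K ^ 2 := by
      field_simp
    have e2 : c ^ 6 + c ^ 4 + c ^ 2 ≤ 3 * c ^ 6 := by
      have a1 : c ^ 4 ≤ c ^ 6 := pow_le_pow_right₀ hc (by norm_num)
      have a2 : c ^ 2 ≤ c ^ 6 := pow_le_pow_right₀ hc (by norm_num)
      linarith
    have e3 : K ^ ρ * K ^ 2 = w ^ (-(1 + ρ / 2)) := by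
      rw [hK, ← Real.rpow_natCast (w ^ (-(1 / 2) : ℝ)) 2, ← Real.rpow_mul hw.le, ← Real.rpow_mul hw.le,
        ← Real.rpow_add hw]
      congr 1
      push_cast
      ring
    have e4 : B ^ 2 * K ^ ρ * ((c * K) ^ 6 / K ^ 4 + (c * K) ^ 4 / K ^ 2 + (c * K) ^ 2) ≤ E := by
      rw [e1]
      calc B ^ 2 * K ^ ρ * ((c ^ 6 + c ^ 4 + c ^ 2) * K ^ 2)
          = (c ^ 6 + c ^ 4 + c ^ 2) * (B ^ 2 * (K ^ ρ * K ^ 2)) := by ring
        _ ≤ (3 * c ^ 6) * (B ^ 2 * (K ^ ρ * K ^ 2)) := by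
            refine mul_le_mul_of_nonneg_right e2 ?_
            have := Real.rpow_pos_of_pos hK0 ρ
            positivity
        _ = E := by rw [e3, hE]; ring
    have e5 : N ^ 3 * (B ^ 2 * K ^ ρ * ((c * K) ^ 6 / K ^ 4 + (c * K) ^ 4 / K ^ 2 + (c * K) ^ 2)) ≤ N ^ 3 * E :=
      mul_le_mul_of_nonneg_left e4 (by positivity)
    linarith
  by_cases hcase : 2 * T ≤ N * E
  · have e1 : T ^ 2 ≤ 2 * N ^ 3 * E := by
      have a1 : 2 * N ^ 2 * T ≤ N ^ 2 * (N * E) := by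
        calc 2 * N ^ 2 * T = N ^ 2 * (2 * T) := by ring
          _ ≤ _ := mul_le_mul_of_nonneg_left hcase (by positivity)
      have a2 : N ^ 2 * (N * E) = N ^ 3 * E := by ring
      linarith
    have e2 : X ^ 2 * N ^ 2 < c₁ ^ 2 * (2 * N ^ 3 * E) := by
      calc X ^ 2 * N ^ 2 = (X * N) ^ 2 := by ring
        _ < (c₁ * T) ^ 2 := pow_lt_pow_left₀ h5 (by positivity) (by norm_num)
        _ = c₁ ^ 2 * T ^ 2 := by ring
        _ ≤ _ := mul_le_mul_of_nonneg_left e1 (by positivity)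
    have e3 : X ^ 2 < 2 * c₁ ^ 2 * E * N := by
      have e4 : X ^ 2 * N ^ 2 < (2 * c₁ ^ 2 * E * N) * N ^ 2 := by
        calc X ^ 2 * N ^ 2 < c₁ ^ 2 * (2 * N ^ 3 * E) := e2
          _ = _ := by ring
      exact lt_of_mul_lt_mul_right e4 (by positivity)
    have e4 : 2 * c₁ ^ 2 * E * N ≤ X ^ 2 := by
      calc 2 * c₁ ^ 2 * E * N ≤ 2 * c₁ ^ 2 * E * w ^ (-ν) := mul_le_mul_of_nonneg_left h3 (by positivity)
        _ = (6 * c₁ ^ 2 * c ^ 6 * B ^ 2) * (w ^ (-(1 + ρ / 2)) * w ^ (-ν)) := by rw [hE]; ring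
        _ ≤ w ^ (-(3 * ρ)) * (w ^ (-(1 + ρ / 2)) * w ^ (-ν)) := by
            refine mul_le_mul_of_nonneg_right hsm1 ?_
            exact (mul_pos (hp _) (hp _)).le
        _ = w ^ (-(3 * ρ + (1 + ρ / 2) + ν)) := by
            rw [← Real.rpow_add hw, ← Real.rpow_add hw]
            congr 1
            ring
        _ ≤ w ^ (-(3 / 4 + s₁ - ρ / 4) * 2) := hmono (by linarith)
        _ = X ^ 2 := by
            rw [hX, ← Real.rpow_natCast, ← Real.rpow_mul hw.le]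
            norm_num
    linarith
  · rw [not_le] at hcase
    have e1 : T ≤ 4 * N ^ 2 := by
      have a1 : N ^ 3 * E ≤ N ^ 2 * (2 * T) := by
        calc N ^ 3 * E = N ^ 2 * (N * E) := by ring
          _ ≤ _ := mul_le_mul_of_nonneg_left hcase.le (by positivity)
      have a2 : T * T ≤ (4 * N ^ 2) * T := by nlinarith
      exact le_of_mul_le_mul_right a2 hT0
    have e2 : X < 4 * c₁ * N := by
      have a1 : X * N < (4 * c₁ * N) * N := by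
        calc X * N < c₁ * T := h5
          _ ≤ c₁ * (4 * N ^ 2) := mul_le_mul_of_nonneg_left e1 hc₁0.le
          _ = _ := by ring
      exact lt_of_mul_lt_mul_right a1 hN0.le
    have e3 : 4 * c₁ * N ≤ X := by
      calc 4 * c₁ * N ≤ 4 * c₁ * w ^ (-ν) := mul_le_mul_of_nonneg_left h3 (by positivity)
        _ ≤ w ^ (-ρ) * w ^ (-ν) := mul_le_mul_of_nonneg_right hsm2 (hp _).le
        _ = w ^ (-(ρ + ν)) := by
            rw [← Real.rpow_add hw]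
            congr 1
            ring
        _ ≤ X := hmono (by linarith)
    linarith

/-! ### The system of cells -/

lemma Un_cel (R w : ℝ) (W : Finset (Fin 3 → ℤ)) : Un (cel R w) W = celU R w W := by
  ext g
  unfold Un celU
  simp only [mem_iUnion, mem_cel, exists_prop, mem_ofPred_eq]
  exact ⟨fun ⟨z, h1, h2, h3⟩ => ⟨h2, h3 ▸ h1⟩, fun ⟨h1, h2⟩ => ⟨_, h2, h1, rfl⟩⟩

lemma sy_w {w : ℝ} (hw : 0 < w) (R C : ℝ) (V : Finset (Fin 3 → ℤ)) : (sy R w C V).w = w := by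
  unfold HSL.Sys.w
  change 1 / (KK w) ^ 2 = w
  unfold KK
  rw [← Real.rpow_natCast, ← Real.rpow_mul hw.le]
  norm_num
  rw [Real.rpow_neg_one, inv_inv]

lemma ne_of_ms {Φ : G → ℂ} {A : ℝ} (hA : 0 < A) {U : Set G} (h : ENNReal.ofReal A ≤ ms Φ U) : U.Nonempty := by
  by_contra hn
  rw [Set.not_nonempty_iff_eq_empty] at hn
  rw [hn] at h
  unfold ms at h
  rw [Measure.restrict_empty, lintegral_zero_measure, nonpos_iff_eq_zero, ENNReal.ofReal_eq_zero] at h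
  linarith

lemma rp_mem {R w : ℝ} {z : Fin 3 → ℤ} (h : (cel R w z).Nonempty) : HS.rp R w z ∈ cel R w z := by
  unfold HS.rp
  rw [dif_pos h]
  exact h.some_mem

lemma unim {R w C : ℝ} {V : Finset (Fin 3 → ℤ)} (h : ∀ z ∈ V, (cel R w z).Nonempty) : (sy R w C V).Unim := by
  intro z hz
  refine ⟨(HS.rp R w z).2, fun a b => ?_⟩
  exact (cel_sub R w z (rp_mem (h z hz))) a b

lemma det_adj2 (s : Mat) : s.adjugate.det = s.det := by
  rw [Matrix.det_adjugate]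
  simp

/-- the moment as a number of returns -/
lemma mom (hNu : StmtNuL) {l : ℕ → ℝ} {Φ : G → ℂ} (hE : HE l Φ) {R w A M : ℝ} (hM : 1 ≤ M)
    {V : Finset (Fin 3 → ℤ)} (hV : CM Φ R w A V) {Q : Finset ℕ} (hQ : Q ⊆ Pm M) (j : ℕ)
    (T : Finset ((Fin 3 → ℤ) × (Fin 3 → ℤ) × Mat)) (hT : Trp (cel R w) V (Lv2 Q j) ⊆ T) :
    ∫⁻ x, AIkM.ff Φ (celU R w V) x * El Q j (AIkM.ff Φ (celU R w V)) x ∂nu ≤
      mi M ^ j * (ENNReal.ofReal (2 * A) * (T.card : ℝ≥0∞)) := by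
  have hP : ∀ p ∈ Q, p.Prime ∧ M < (p : ℝ) ∧ (p : ℝ) ≤ 2 * M := by
    intro p hp
    have h1 := hQ hp
    unfold Pm at h1
    rw [Finset.mem_filter, Finset.mem_Ioc] at h1
    exact ⟨h1.2, (Nat.floor_lt (by linarith)).1 h1.1.1, (Nat.le_floor_iff (by linarith)).1 h1.1.2⟩
  refine (El_int hE.cont (meas_celU R w V) hM hP j).trans (mul_le_mul_right ?_ _)
  have h1 := sum_Un hNu hE.cont (c := cel R w) (W := V) (fun z _ => meas_cel R w z)
    (fun z hz => (hV z hz).2) (Lv2 Q j) T hT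
  rw [Un_cel] at h1
  exact h1

end K1M

open K1M in
theorem tK1 (hCv : V_Cv) (hC1 : V_C1) (_hLev : V_Lev) (_hBx : V_Bx) (hOv : StmtOv) (hMc : StmtMc)
    (hNu : StmtNuL) (hNm : StmtNm) : V_K1 := by
  intro R C₃ s₁ ν ρ hR hC₃ hs₁ hν hρ hs
  obtain ⟨Ca, hCa1, hCa⟩ := hCv 500 R (by norm_num) hR
  obtain ⟨C, hC1', hC⟩ := hMc R hR
  obtain ⟨B₀, hB₀1, hB₀⟩ := hOv R hR
  obtain ⟨K0, hK0⟩ := hC1 500 C R ρ (by norm_num) hC1' hR hρ
  obtain ⟨c, hc⟩ : ∃ c : ℝ, c = 2 ^ 1000 := ⟨_, rfl⟩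
  have hc1 : 1 ≤ c := by rw [hc]; exact one_le_pow₀ (by norm_num)
  obtain ⟨Cp, hCp⟩ : ∃ Cp : ℝ, Cp = (2 * C) ^ 500 := ⟨_, rfl⟩
  have hCp1 : 1 ≤ Cp := by rw [hCp]; exact one_le_pow₀ (by linarith)
  obtain ⟨B, hB⟩ : ∃ B : ℝ, B = B₀ * Cp ^ 14 := ⟨_, rfl⟩
  have hB1 : 1 ≤ B := by
    rw [hB]
    have h1 : 1 ≤ Cp ^ 14 := one_le_pow₀ hCp1
    nlinarith
  obtain ⟨c₁, hc₁⟩ : ∃ c₁ : ℝ, c₁ = 2 * Ca * C₃ ^ 500 := ⟨_, rfl⟩
  have hc₁1 : 1 ≤ c₁ := by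
    rw [hc₁]
    have h1 : 1 ≤ C₃ ^ 500 := one_le_pow₀ hC₃
    nlinarith
  obtain ⟨u1, hu10, hu11, hu1⟩ := small (c := 6 * c₁ ^ 2 * c ^ 6 * B ^ 2) (η := 3 * ρ) (by
    have a1 : 1 ≤ c₁ ^ 2 := one_le_pow₀ hc₁1
    have a2 : 1 ≤ c ^ 6 := one_le_pow₀ hc1
    have a3 : 1 ≤ B ^ 2 := one_le_pow₀ hB1
    have a4 : 1 ≤ 6 * c₁ ^ 2 := by linarith
    exact one_le_mul_of_one_le_of_one_le (one_le_mul_of_one_le_of_one_le a4 a2) a3) (by positivity)
  obtain ⟨u2, hu20, hu21, hu2⟩ := small (c := 4 * c₁) (η := ρ) (by linarith) hρ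
  obtain ⟨u3, hu30, hu31, hu3⟩ := small (c := Ca) (η := s₁) hCa1 hs₁
  obtain ⟨u4, hu40, hu41, hu4⟩ := small (c := max c K0) (η := 1 / 2) (hc1.trans (le_max_left _ _)) (by norm_num)
  refine ⟨ρ, min (min u1 u2) (min u3 u4), hρ, lt_min (lt_min hu10 hu20) (lt_min hu30 hu40),
    (min_le_left _ _).trans ((min_le_left _ _).trans hu11), ?_⟩
  intro l Φ hE w A hw hww hA V hV hVc Q hQ hQc v D hvD
  have hw1 : w ≤ u1 := hww.trans ((min_le_left _ _).trans (min_le_left _ _))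
  have hw2 : w ≤ u2 := hww.trans ((min_le_left _ _).trans (min_le_right _ _))
  have hw3 : w ≤ u3 := hww.trans ((min_le_right _ _).trans (min_le_left _ _))
  have hw4 : w ≤ u4 := hww.trans ((min_le_right _ _).trans (min_le_right _ _))
  have hwo : w ≤ 1 := hw1.trans hu11
  have hp : ∀ a : ℝ, 0 < w ^ a := fun a => Real.rpow_pos_of_pos hw a
  obtain ⟨M, hM⟩ : ∃ M : ℝ, M = w ^ (-(1 / 2000) : ℝ) := ⟨_, rfl⟩
  rw [← hM] at hQ hQc
  have hM1 : 1 ≤ M := by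
    rw [hM]
    exact Real.one_le_rpow_of_pos_of_le_one_of_nonpos hw hwo (by norm_num)
  obtain ⟨K, hK⟩ : ∃ K : ℝ, K = w ^ (-(1 / 2) : ℝ) := ⟨_, rfl⟩
  have hKM : M ^ 1000 = K := by
    rw [hM, hK, ← Real.rpow_natCast, ← Real.rpow_mul hw.le]
    norm_num
  have hcK : c ≤ K := by rw [hK]; exact (le_max_left _ _).trans (hu4 w hw hw4)
  have hK0K : K0 ≤ K := by rw [hK]; exact (le_max_right _ _).trans (hu4 w hw hw4)
  have hK1 : 1 ≤ K := hc1.trans hcK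
  have hP : ∀ p ∈ Q, p.Prime ∧ M < (p : ℝ) ∧ (p : ℝ) ≤ 2 * M := by
    intro p hp
    have h1 := hQ hp
    unfold Pm at h1
    rw [Finset.mem_filter, Finset.mem_Ioc] at h1
    exact ⟨h1.2, (Nat.floor_lt (by linarith)).1 h1.1.1, (Nat.le_floor_iff (by linarith)).1 h1.1.2⟩
  have hQn : Q.Nonempty := by
    rw [← Finset.card_pos]
    have h1 : 0 < C₃ * (Q.card : ℝ) := lt_of_lt_of_le (Real.rpow_pos_of_pos (by linarith) _) hQc
    have h2 : (0 : ℝ) < Q.card := pos_of_mul_pos_right h1 (by linarith)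
    exact_mod_cast h2
  by_contra hcon
  rw [not_le] at hcon
  -- the returns
  have hne : ∀ z ∈ V, (cel R w z).Nonempty := fun z hz => ne_of_ms hA (hV z hz).1
  have hfin : (Trp (cel R w) V (Lv2 Q 1000)).Finite :=
    Trp_finite hNm (by linarith) (fun z _ => cel_sub R w z) (Lv2_size hM1 hQ 1000)
  obtain ⟨T, hT⟩ : ∃ T : Finset ((Fin 3 → ℤ) × (Fin 3 → ℤ) × Mat), T = hfin.toFinset := ⟨_, rfl⟩
  have hTm : ∀ t, t ∈ T ↔ t ∈ Trp (cel R w) V (Lv2 Q 1000) := fun t => by rw [hT, Set.Finite.mem_toFinset]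
  have hmom := mom hNu hE hM1 hV hQ 1000 T (fun t ht => (hTm t).2 ht)
  -- the lower bound for `T`
  have hCvV := hCa l Φ hE (celU R w V) (meas_celU R w V) (celU_sub R w V) M hM1 Q hQ hQn
  rw [show (2 * 500 : ℕ) = 1000 from rfl] at hCvV
  have e0 : ENNReal.ofReal (w ^ (-s₁) * (Q.card : ℝ) ^ 500) =
      ENNReal.ofReal (w ^ (-s₁)) * (Q.card : ℝ≥0∞) ^ 500 := by
    rw [ENNReal.ofReal_mul (hp _).le, ENNReal.ofReal_pow (Nat.cast_nonneg _), ENNReal.ofReal_natCast]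
  have e1 : aa Q (AIkM.ff Φ (celU R w V)) 1000 ≤
      ENNReal.ofReal Ca * ∫⁻ x, AIkM.ff Φ (celU R w V) x * El Q 1000 (AIkM.ff Φ (celU R w V)) x ∂nu := by
    refine hCvV (le_trans ?_ hcon.le)
    rw [e0, mul_assoc]
    exact mul_le_mul_left (ENNReal.ofReal_le_ofReal (hu3 w hw hw3)) _
  have e2 : ENNReal.ofReal A * (V.card : ℝ≥0∞) ≤ ms Φ (celU R w V) := by
    rw [ms_celU]
    calc ENNReal.ofReal A * (V.card : ℝ≥0∞) = ∑ _z ∈ V, ENNReal.ofReal A := by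
          rw [Finset.sum_const, nsmul_eq_mul, mul_comm]
      _ ≤ _ := Finset.sum_le_sum fun z hz => (hV z hz).1
  have e3 : mi M ^ 1000 = ENNReal.ofReal (w ^ (1 / 2 : ℝ)) := by
    unfold mi
    rw [← ENNReal.ofReal_inv_of_pos (by linarith), ← ENNReal.ofReal_pow (by positivity), inv_pow, hKM, hK,
      ← Real.rpow_neg hw.le]
    norm_num
  have e4 : ENNReal.ofReal (w ^ (-s₁) * (Q.card : ℝ) ^ 500 * ((V.card : ℝ) * A)) <
      ENNReal.ofReal (Ca * (w ^ (1 / 2 : ℝ) * (2 * A * (T.card : ℝ)))) := by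
    calc ENNReal.ofReal (w ^ (-s₁) * (Q.card : ℝ) ^ 500 * ((V.card : ℝ) * A))
        = ENNReal.ofReal (w ^ (-s₁) * (Q.card : ℝ) ^ 500) * (ENNReal.ofReal A * (V.card : ℝ≥0∞)) := by
          rw [ENNReal.ofReal_mul (by have := hp (-s₁); positivity),
            ENNReal.ofReal_mul (Nat.cast_nonneg _), ENNReal.ofReal_natCast, mul_comm (V.card : ℝ≥0∞)]
      _ ≤ ENNReal.ofReal (w ^ (-s₁) * (Q.card : ℝ) ^ 500) * ms Φ (celU R w V) := mul_le_mul_right e2 _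
      _ < aa Q (AIkM.ff Φ (celU R w V)) 1000 := hcon
      _ ≤ _ := e1
      _ ≤ ENNReal.ofReal Ca * (mi M ^ 1000 * (ENNReal.ofReal (2 * A) * (T.card : ℝ≥0∞))) :=
          mul_le_mul_right hmom _
      _ = _ := by
          rw [e3, ENNReal.ofReal_mul (show 0 ≤ Ca by linarith),
            ENNReal.ofReal_mul (show 0 ≤ w ^ (1 / 2 : ℝ) from (hp _).le),
            ENNReal.ofReal_mul (show (0 : ℝ) ≤ 2 * A by linarith), ENNReal.ofReal_natCast]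
  have e5 := lt_of_not_ge fun h => absurd (ENNReal.ofReal_le_ofReal h) (not_le.2 e4)
  -- the upper bound for `T`
  obtain ⟨L, hL⟩ : ∃ L : ℝ, L = c * K := ⟨_, rfl⟩
  have hL2 : L = (2 * M) ^ 1000 := by rw [hL, mul_pow, hKM, hc]
  have e6 := hK0 (sy R w C V) B L D Q v T rfl rfl (by
      change K0 ≤ KK w
      have h1 : KK w = K := hK.symm
      rw [h1]
      exact hK0K) hB1 (unim hne) (by
      have h1 := hB₀ w hw hwo C V hne Cp hCp1
      rw [hB, ← hCp]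
      exact h1) (by rw [hL]; exact one_le_mul_of_one_le_of_one_le hc1 hK1) (by
      change L ≤ KK w ^ 2
      have h1 : KK w = K := hK.symm
      rw [h1, hL, pow_two]
      exact mul_le_mul_of_nonneg_right hcK (zero_le_one.trans hK1)) (by
      intro i hi
      rw [sy_w hw]
      exact hvD i hi) (by
      intro t ht
      obtain ⟨h1, h2, ⟨h3, n, h4, h5⟩, h6⟩ := (hTm t).1 ht
      refine ⟨h1, h2, Prim_of_Pr h3, n, ?_, ?_, ?_, h4.2.1⟩
      · rw [sy_w hw]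
        exact hC w hw hwo t.1 t.2.1 t.2.2 n (Nat.pos_of_ne_zero h4.1) (by rw [h5]; ring) h6
      · rw [hL2]
        exact (sm_size hM1 hP 1000 n h4).2
      · have h7 := h4.2.2
        rw [ArithmeticFunction.cardFactors_apply] at h7
        rw [h7]) (by
      intro t ht
      obtain ⟨h1, h2, ⟨h3, n, h4, h5⟩, x, h6, h7⟩ := (hTm t).1 ht
      have h8 : 0 < t.2.2.det := (Lv2_size hM1 hQ 1000 t.2.2 ⟨h3, n, h4, h5⟩).1
      refine (hTm _).2 ⟨h2, h1, ⟨(Pr_adj _).2 h3, n, h4, by rw [det_adj2]; exact h5⟩,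
        nm t.2.2 * x, h7, ?_⟩
      change nm t.2.2.adjugate * (nm t.2.2 * x) ∈ cel R w t.1
      rw [hNm.2.2.1 t.2.2 h8, inv_mul_cancel_left]
      exact h6)
  have e7 : ((T.card : ℝ)) ^ 2 ≤ (V.card : ℝ) ^ 3 * (B ^ 2 * K ^ ρ *
      ((c * K) ^ 6 / K ^ 4 + (c * K) ^ 4 / K ^ 2 + (c * K) ^ 2)) + 2 * (V.card : ℝ) ^ 2 * (T.card : ℝ) := by
    rw [hL] at e6
    rw [hK]
    rw [hK] at e6
    exact e6
  exact num hc1 hB1 hC₃ hCa1 hc₁ hν hρ hs hw hwo (Nat.cast_nonneg V.card)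
    (Nat.cast_nonneg T.card) hA hM hK (hu1 w hw hw1) (hu2 w hw hw2) e5 e7 hVc hQc

end

end Pool.Agent.A54.HSV
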