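import Pool.Agent.Lib.HS.Bd.V.Spec

/-!
# HS/Bd/V/K2: the fan with many paths
-/

set_option autoImplicit false

namespace Pool.Agent.A54.HSV

open MeasureTheory Filter Topology Set
open scoped ContDiff ComplexConjugate UpperHalfPlane MatrixGroups ENNReal
open Pool.Agent.A54.Dyn (G fl base ze io mk4 dom)
open Pool.Agent.A54.Av (Mat NonSc)
open Pool.Agent.A54.HS
open Pool.Agent.A54.Hp Pool.Agent.A54.Hp.Hk Pool.Agent.A54.Hp.A2M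

noncomputable section

namespace K2M

lemma num1 {P E K N A S g m Λ Λ' n nY α CU CY C1 : ℝ} (hP : 0 < P) (hE : 0 < E) (hK : 0 < K) (hN : 0 < N)
    (hA : 0 < A) (hS : 0 < S) (hg : 0 < g) (hm : 0 < m) (hΛ : 0 < Λ) (hΛ' : 0 < Λ') (hnY : 0 ≤ nY)
    (hα : 0 < α) (hCU : 0 < CU) (hC1 : 0 < C1)
    (h1 : g * E * m ^ 2 * K ≤ C1 * Λ' * N * √(A * α) * n) (h2 : P * A * N ≤ CU * Λ * (g * m))
    (h3 : (P * A * N) ^ 2 ≤ CU * Λ ^ 2 * (S * m)) (h4 : nY * α ≤ 4 * CY * m) :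
    nY * (P ^ 4 * A ^ 3 * N ^ 2 * E ^ 2 * K ^ 2) ≤ 4 * CY * C1 ^ 2 * CU ^ 3 * Λ ^ 4 * Λ' ^ 2 * S * n ^ 2 := by
  have hAα : 0 ≤ A * α := by positivity
  have e1 : (g * E * m ^ 2 * K) ^ 2 ≤ (C1 * Λ' * N * √(A * α) * n) ^ 2 :=
    pow_le_pow_left₀ (by positivity) h1 2
  have e2 : (C1 * Λ' * N * √(A * α) * n) ^ 2 = C1 ^ 2 * Λ' ^ 2 * N ^ 2 * A * n ^ 2 * α := by
    have := Real.sq_sqrt hAα
    calc (C1 * Λ' * N * √(A * α) * n) ^ 2 = C1 ^ 2 * Λ' ^ 2 * N ^ 2 * n ^ 2 * (√(A * α)) ^ 2 := by ring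
      _ = _ := by rw [this]; ring
  rw [e2] at e1
  have e3 : m * (nY * (g ^ 2 * E ^ 2 * m ^ 3 * K ^ 2)) ≤ m * (4 * CY * C1 ^ 2 * Λ' ^ 2 * N ^ 2 * A * n ^ 2) := by
    calc m * (nY * (g ^ 2 * E ^ 2 * m ^ 3 * K ^ 2)) = nY * (g * E * m ^ 2 * K) ^ 2 := by ring
      _ ≤ nY * (C1 ^ 2 * Λ' ^ 2 * N ^ 2 * A * n ^ 2 * α) := mul_le_mul_of_nonneg_left e1 hnY
      _ = (C1 ^ 2 * Λ' ^ 2 * N ^ 2 * A * n ^ 2) * (nY * α) := by ring
      _ ≤ (C1 ^ 2 * Λ' ^ 2 * N ^ 2 * A * n ^ 2) * (4 * CY * m) := mul_le_mul_of_nonneg_left h4 (by positivity)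
      _ = _ := by ring
  have e4 := le_of_mul_le_mul_left e3 hm
  have e5 : (P * A * N) ^ 2 ≤ (CU * Λ * (g * m)) ^ 2 := pow_le_pow_left₀ (by positivity) h2 2
  have e6 : (P * A * N) ^ 2 * (P * A * N) ^ 2 ≤ (CU * Λ * (g * m)) ^ 2 * (CU * Λ ^ 2 * (S * m)) :=
    mul_le_mul e5 h3 (by positivity) (by positivity)
  have e7 : (N ^ 2 * A) * (nY * (P ^ 4 * A ^ 3 * N ^ 2 * E ^ 2 * K ^ 2)) ≤
      (N ^ 2 * A) * (4 * CY * C1 ^ 2 * CU ^ 3 * Λ ^ 4 * Λ' ^ 2 * S * n ^ 2) := by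
    calc (N ^ 2 * A) * (nY * (P ^ 4 * A ^ 3 * N ^ 2 * E ^ 2 * K ^ 2)) =
          (nY * E ^ 2 * K ^ 2) * ((P * A * N) ^ 2 * (P * A * N) ^ 2) := by ring
      _ ≤ (nY * E ^ 2 * K ^ 2) * ((CU * Λ * (g * m)) ^ 2 * (CU * Λ ^ 2 * (S * m))) :=
        mul_le_mul_of_nonneg_left e6 (by positivity)
      _ = (CU ^ 3 * Λ ^ 4 * S) * (nY * (g ^ 2 * E ^ 2 * m ^ 3 * K ^ 2)) := by ring
      _ ≤ (CU ^ 3 * Λ ^ 4 * S) * (4 * CY * C1 ^ 2 * Λ' ^ 2 * N ^ 2 * A * n ^ 2) :=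
        mul_le_mul_of_nonneg_left e4 (by positivity)
      _ = _ := by ring
  exact le_of_mul_le_mul_left e7 (by positivity)

lemma num2 {P E N A g m Λ Λ' n nY α CU CY C1 M E2 : ℝ} (hE : 0 < E) (hN : 0 < N)
    (hA : 0 < A) (hg : 0 < g) (hm : 0 < m) (hΛ : 0 < Λ) (hΛ' : 0 < Λ') (hn : 0 ≤ n) (hnY : 0 ≤ nY)
    (hM : 0 < M) (hE2 : 0 < E2) (hCU : 1 ≤ CU) (hC1 : 0 < C1)
    (hα : A / (CU * Λ ^ 2 * M ^ 2) ≤ α)
    (h1 : g * E * m ^ 2 * (M * E2) ≤ C1 * Λ' * N * √(A * α) * n) (h2 : P * A * N ≤ CU * Λ * (g * m))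
    (h4 : nY * α ≤ 4 * CY * m) :
    nY * (P * E * E2 * A) ≤ 4 * CY * C1 * CU ^ 2 * Λ ^ 2 * Λ' * n := by
  have hCU0 : 0 < CU := by linarith
  have hα0 : 0 < α := lt_of_lt_of_le (by positivity) hα
  have hsα : 0 < √α := Real.sqrt_pos.2 hα0
  have hsA : 0 < √A := Real.sqrt_pos.2 hA
  have a1 : √(A * α) * √α = √A * α := by
    rw [Real.sqrt_mul hA.le, mul_assoc, Real.mul_self_sqrt hα0.le]
  have e1 : m * (nY * (g * E * m * (M * E2)) * √α) ≤ m * (4 * CY * C1 * Λ' * N * √A * n) := by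
    calc m * (nY * (g * E * m * (M * E2)) * √α) = (nY * √α) * (g * E * m ^ 2 * (M * E2)) := by ring
      _ ≤ (nY * √α) * (C1 * Λ' * N * √(A * α) * n) := mul_le_mul_of_nonneg_left h1 (by positivity)
      _ = (C1 * Λ' * N * n * nY) * (√(A * α) * √α) := by ring
      _ = (C1 * Λ' * N * n * √A) * (nY * α) := by rw [a1]; ring
      _ ≤ (C1 * Λ' * N * n * √A) * (4 * CY * m) := mul_le_mul_of_nonneg_left h4 (by positivity)
      _ = _ := by ring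
  have e2 := le_of_mul_le_mul_left e1 hm
  -- `√A ≤ CU Λ M √α`
  have e3 : √A ≤ CU * Λ * M * √α := by
    rw [div_le_iff₀ (by positivity)] at hα
    have : A ≤ (CU * Λ * M * √α) ^ 2 := by
      have h5 : (CU * Λ * M * √α) ^ 2 = CU ^ 2 * Λ ^ 2 * M ^ 2 * α := by
        have := Real.sq_sqrt hα0.le
        calc (CU * Λ * M * √α) ^ 2 = CU ^ 2 * Λ ^ 2 * M ^ 2 * (√α) ^ 2 := by ring
          _ = _ := by rw [this]
      rw [h5]
      have h6 : CU ≤ CU ^ 2 := by nlinarith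
      calc A ≤ α * (CU * Λ ^ 2 * M ^ 2) := hα
        _ ≤ α * (CU ^ 2 * Λ ^ 2 * M ^ 2) := by gcongr
        _ = _ := by ring
    calc √A ≤ √((CU * Λ * M * √α) ^ 2) := Real.sqrt_le_sqrt this
      _ = _ := Real.sqrt_sq (by positivity)
  have e4 : (√A * M * N) * (nY * (P * E * E2 * A)) ≤ (√A * M * N) * (4 * CY * C1 * CU ^ 2 * Λ ^ 2 * Λ' * n) := by
    calc (√A * M * N) * (nY * (P * E * E2 * A)) = (√A * M * nY * E * E2) * (P * A * N) := by ring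
      _ ≤ (√A * M * nY * E * E2) * (CU * Λ * (g * m)) := mul_le_mul_of_nonneg_left h2 (by positivity)
      _ = √A * (nY * (g * E * m * (M * E2)) * (CU * Λ)) := by ring
      _ ≤ (CU * Λ * M * √α) * (nY * (g * E * m * (M * E2)) * (CU * Λ)) :=
        mul_le_mul_of_nonneg_right e3 (by positivity)
      _ = (CU ^ 2 * Λ ^ 2 * M) * (nY * (g * E * m * (M * E2)) * √α) := by ring
      _ ≤ (CU ^ 2 * Λ ^ 2 * M) * (4 * CY * C1 * Λ' * N * √A * n) := mul_le_mul_of_nonneg_left e2 (by positivity)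
      _ = _ := by ring
  exact le_of_mul_le_mul_left e4 (by positivity)

lemma meas_Ws {Φ : G → ℂ} (hΦ : Continuous Φ) {F : G → ℝ≥0∞} (hF : Measurable F) (g : ℝ) :
    MeasurableSet (Ws Φ F g) := by
  have h1 : Measurable (fun y => ‖Φ y‖ₑ) := hΦ.measurable.enorm
  exact (measurableSet_le (h1.const_mul _) hF).inter (measurableSet_lt hF (h1.const_mul _))

lemma inv_Ws {Φ : G → ℂ} (hΦ : ∀ (γ : SL(2, ℤ)) (g : G), Φ (io γ * g) = Φ g) {F : G → ℝ≥0∞}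
    (hF : ∀ (γ : SL(2, ℤ)) (y : G), F (io γ * y) = F y) (g : ℝ) : LInv (Ws Φ F g) := by
  intro γ y
  simp only [Ws, Set.mem_ofPred_eq, hΦ, hF]

lemma Ws_ne {Φ : G → ℂ} {F : G → ℝ≥0∞} {g : ℝ} {y : G} (h : y ∈ Ws Φ F g) : F y ≠ 0 := by
  intro h0
  obtain ⟨h1, h2⟩ := h
  rw [h0] at h1 h2
  rcases mul_eq_zero.1 (le_antisymm h1 zero_le) with h3 | h3
  · have : g ≤ 0 := ENNReal.ofReal_eq_zero.1 h3
    rw [ENNReal.ofReal_eq_zero.2 (by linarith), zero_mul] at h2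
    exact lt_irrefl _ h2
  · rw [h3, mul_zero] at h2
    exact lt_irrefl _ h2

lemma log_bound {C δ' A Λ M X : ℝ} (hC : 0 < C) (hA : 0 < A) (hΛ : 1 ≤ Λ) (hM : 0 < M) (hΛX : Λ ≤ X)
    (hδ' : δ' = A / (C * Λ ^ 2 * M)) {CH C' : ℝ} (hCH : 0 < CH) (hC' : CH * C ≤ C')
    (hX : 1 + Real.log (C' * M / A) ≤ X) : 1 + Real.log (CH / δ') ≤ 3 * X := by
  have hΛ0 : 0 < Λ := by linarith
  have h1 : CH / δ' = (CH * C * M / A) * Λ ^ 2 := by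
    rw [hδ']
    field_simp
  rw [h1, Real.log_mul (by positivity) (by positivity), Real.log_pow]
  have h2 : Real.log Λ ≤ Λ - 1 := Real.log_le_sub_one_of_pos hΛ0
  have h3 : Real.log (CH * C * M / A) ≤ Real.log (C' * M / A) := by
    apply Real.log_le_log (by positivity)
    gcongr
  push_cast
  nlinarith

lemma fan_mono {C C' w L : ℝ} {r : ℕ} {a : HSL.MR} {b : Mat → HSL.MR} {H : Finset (Mat × HSL.MZ)} (hC : C ≤ C')
    (hw : 0 ≤ w) (h : Fan C w L r a b H) : Fan C' w L r a b H := by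
  refine ⟨fun t ht => ?_, h.inq⟩
  obtain ⟨h1, h2, m, ⟨h3, h4, h5, h6, h7, h8⟩, h9, h10⟩ := h.ret t ht
  refine ⟨h1, h2, m, ⟨h3, h4, h5.trans ?_, h6.trans ?_, h7.trans ?_, h8.trans ?_⟩, h9, h10⟩ <;> gcongr

end K2M

open K2M

theorem tK2 (hU : V_U) (hJ : V_J) (hH : V_H) (hY : V_Y)
    (hHgt : V_Hgt) (hLev : V_Lev) (hBx : V_Bx) (hHv : V_Hv) (hInv : V_Inv) : V_K2 := by
  intro k j R hk hj hR
  obtain ⟨C₀, hC₀, hCT⟩ := hBx.2.2.2.2.1 R hR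
  obtain ⟨CU, hCU, hU⟩ := hU k R C₀ hk hR hC₀
  obtain ⟨CJ, hCJ, hJ⟩ := hJ k j R hk hj hR
  obtain ⟨CH, cH, hCH, hcH, hH⟩ := hH R C₀ hR hC₀
  obtain ⟨CY, cY, hCY, hcY, hY⟩ := hY C₀ hC₀
  have hR0 : 0 < R := by linarith
  have hCU0 : 0 < CU := by linarith
  have hCJ0 : 0 < CJ := by linarith
  have hCH0 : 0 < CH := by linarith
  have hCY0 : 0 < CY := by linarith
  set C1 := CJ * CH with hC1
  have hC1p : 1 ≤ C1 := one_le_mul_of_one_le_of_one_le hCJ hCH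
  have hC10 : 0 < C1 := by linarith
  set C : ℝ := 36 * CY * C1 ^ 2 * CU ^ 3 with hC
  have i1 : CU ≤ CU ^ 3 := by nlinarith [mul_nonneg (sub_nonneg.2 hCU) (sub_nonneg.2 hCU), mul_pos hCU0 hCU0]
  have i1' : CU ^ 2 ≤ CU ^ 3 := by nlinarith [mul_nonneg (sub_nonneg.2 hCU) (sub_nonneg.2 hCU), mul_pos hCU0 hCU0]
  have i2 : C1 ≤ C1 ^ 2 := by nlinarith
  have i3 : CJ ≤ C1 := by nlinarith
  have i4 : CH ≤ C1 := by nlinarith
  have hCC : C1 * CU ≤ C := by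
    calc C1 * CU = 1 * C1 * CU := by ring
      _ ≤ (36 * CY) * C1 ^ 2 * CU ^ 3 := by gcongr; linarith
      _ = C := by rw [hC]
  have hC_CU : CU ≤ C := le_trans (by nlinarith) hCC
  have hC_J : CU * CJ ≤ C := le_trans (by nlinarith) hCC
  have hC_H : CH * CU ≤ C := le_trans (by nlinarith) hCC
  have hC_CY : CY ≤ C := by
    calc CY = 1 * CY * 1 ^ 2 * 1 ^ 3 := by ring
      _ ≤ 36 * CY * C1 ^ 2 * CU ^ 3 := by gcongr; norm_num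
      _ = C := by rw [hC]
  have hC1' : 1 ≤ C := hCU.trans hC_CU
  have hC0 : 0 < C := by linarith
  have hc : 0 < min cH cY := lt_min hcH hcY
  refine ⟨C, min cH cY / (4 * 4 ^ k * R ^ 2), hC1', by positivity, ?_⟩
  intro l Φ hE w A M1 M2 S hw hw1 hA hA1 hM1 hM2 hS hwM V hV hCM Q1 Q2 hQ1 hQ2 hdis hl1 hl2 hcard haa X hX1 hX hXS
  have hM10 : 0 < M1 := by linarith
  have hM20 : 0 < M2 := by linarith
  obtain ⟨g, Λ, m₀', m₁, hg, hΛ, hm₁, hΛX, hm₀e', hm₁e, hm₀₁', hm₁2, hU1, hU2⟩ :=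
    hU l Φ hE w A M1 S hw hw1 hA hM1 hS.le (hCT w hw) V hV hCM Q1 hQ1 hl1 (hC_CU.trans hcard) haa
  -- replace `m₀` by its positive part
  obtain ⟨m₀, hm₀, hm₀e, hm₀₁⟩ : ∃ m₀ : ℝ, 0 ≤ m₀ ∧
      ms Φ (FF ∩ Ws Φ (El Q1 k (AIkM.ff Φ (celU R w V))) g) = ENNReal.ofReal m₀ ∧ m₀ ≤ 4 * m₁ := by
    refine ⟨max m₀' 0, le_max_right _ _, ?_, max_le hm₀₁' (by linarith)⟩
    rw [hm₀e']
    rcases le_total m₀' 0 with h | h
    · rw [max_eq_right h, ENNReal.ofReal_eq_zero.2 h, ENNReal.ofReal_zero]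
    · rw [max_eq_left h]
  have hq1 : 0 < (Q1.card : ℝ) := lt_of_lt_of_le hC0 hcard
  have hN : 0 < (V.card : ℝ) := by exact_mod_cast hV.card_pos
  have hΛ0 : 0 < Λ := by linarith
  set T : ℝ := (Q1.card : ℝ) ^ k * A * V.card with hT
  have hT0 : 0 < T := by positivity
  have hlog1 : 0 ≤ Real.log (C * M1 ^ (2 * k) / A) := by
    apply Real.log_nonneg
    rw [le_div_iff₀ hA, one_mul]
    calc A ≤ 1 := hA1
      _ ≤ C * M1 ^ (2 * k) := one_le_mul_of_one_le_of_one_le hC1' (one_le_pow₀ hM1)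
  have hlog2 : Real.log (CU * (S + 1) / T) ≤ Real.log (C * (S + 1) / T) := by
    apply Real.log_le_log (by positivity)
    gcongr
  have hΛX' : Λ ≤ X := by linarith
  have hlog3 : 0 ≤ Real.log (C * (S + 1) / T) := by linarith
  have hX0 : 0 < X := by linarith
  -- the sets
  set F : G → ℝ≥0∞ := AIkM.ff Φ (celU R w V) with hF
  have hFm : Measurable F := (hE.cont.measurable.enorm).indicator (meas_celU R w V)
  set W0 : Set G := Ws Φ (El Q1 k F) g with hW0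
  have hW0m : MeasurableSet W0 := meas_Ws hE.cont (meas_El Q1 k hFm) g
  have hW0i : LInv W0 := inv_Ws hE.inv (fun γ y => hInv.1 Q1 k F γ y) g
  set δ : ℝ := A / (CU * Λ ^ 2 * M1 ^ (2 * k)) with hδ
  have hδ0 : 0 < δ := by positivity
  have hδ1 : δ ≤ 1 := by
    rw [hδ, div_le_one (by positivity)]
    calc A ≤ 1 := hA1
      _ ≤ CU * Λ ^ 2 * M1 ^ (2 * k) := one_le_mul_of_one_le_of_one_le
          (one_le_mul_of_one_le_of_one_le hCU (one_le_pow₀ hΛ)) (one_le_pow₀ hM1)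
  set W : Set G := Hv Φ W0 C₀ w δ with hW
  obtain ⟨hWm, hWi⟩ := hHv Φ hE.cont hE.inv W0 hW0m hW0i C₀ w δ
  have hWW0 : W ⊆ W0 := fun y hy => hy.1
  -- heights
  set R' : ℝ := 2 * (2 * M1) ^ k * R with hR'
  have hR'1 : 1 ≤ R' := by
    have : 1 ≤ (2 * M1) ^ k := one_le_pow₀ (by linarith)
    nlinarith
  have hR'e : w * R' ^ 2 ≤ min cH cY := by
    rw [le_div_iff₀ (by positivity)] at hwM
    calc w * R' ^ 2 = w * M1 ^ (2 * k) * (4 * 4 ^ k * R ^ 2) := by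
          have e4 : (4 : ℝ) ^ k = (2 ^ k) ^ 2 := by rw [← pow_mul, mul_comm, pow_mul]; norm_num
          rw [hR', mul_pow 2 M1 k, e4, show M1 ^ (2 * k) = (M1 ^ k) ^ 2 by rw [← pow_mul, mul_comm]]
          ring
      _ ≤ _ := hwM
  have hht : ∀ y ∈ W0, ∃ γ : SL(2, ℤ), io γ * y ∈ Om R' := fun y hy =>
    hHgt Φ k R M1 hR hM1 Q1 hQ1 (celU R w V) (celU_sub R w V) y (Ws_ne hy)
  -- J
  have hJ1 : C ≤ CU * ((Q2.card : ℝ) ^ j * m₁) := by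
    have h1 : (X ^ 2 * S) * C ≤ (X ^ 2 * S) * (CU * ((Q2.card : ℝ) ^ j * m₁)) := by
      calc (X ^ 2 * S) * C = C * X ^ 2 * S := by ring
        _ ≤ (Q2.card : ℝ) ^ j * T ^ 2 := hXS
        _ ≤ (Q2.card : ℝ) ^ j * (CU * Λ ^ 2 * (S * m₁)) := mul_le_mul_of_nonneg_left hU2 (by positivity)
        _ ≤ (Q2.card : ℝ) ^ j * (CU * X ^ 2 * (S * m₁)) := by gcongr
        _ = _ := by ring
    exact le_of_mul_le_mul_left h1 (by positivity)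
  have hJ2 : CJ ≤ (Q2.card : ℝ) ^ j * m₁ := by
    have h1 : CU * CJ ≤ CU * ((Q2.card : ℝ) ^ j * m₁) := hC_J.trans hJ1
    exact le_of_mul_le_mul_left h1 hCU0
  have hq2 : 0 < (Q2.card : ℝ) := by
    rcases (Nat.cast_nonneg (α := ℝ) Q2.card).lt_or_eq with h | h
    · exact h
    · rw [← h, zero_pow (by omega), zero_mul] at hJ2
      linarith
  have hJ3 := hJ l Φ hE w M1 M2 g m₁ V hM1 hM2 hg hm₁.le Q1 Q2 hQ1 hQ2 hdis hl2 W hWm hWi hWW0 hm₁e hJ2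
  -- levels
  set K : ℝ := M1 ^ k * M2 ^ (2 * j) with hK
  set Lm : ℝ := (2 * M1) ^ k * (2 * M2) ^ (2 * j) with hLm
  have hK0 : 0 < K := by positivity
  have hL2 := hLev.2.2 Q1 Q2 M1 M2 hM1 hM2 hQ1 hQ2 k (2 * j)
  -- H
  obtain ⟨α, z, H, hαδ, hzV, hHr, hHJ⟩ := hH l Φ hE w A δ K R' hw hw1 hA hδ0 hδ1 hK0 hR'1
    (hR'e.trans (min_le_left _ _)) (hCT w hw) V hV hCM W0 W hW0m hW0i hWm hWi subset_rfl hht
    (L2 Q1 Q2 k (2 * j)) (fun m hm => ⟨(hL2 m hm).1, (hL2 m hm).2.1⟩)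
  have hα0 : 0 < α := lt_of_lt_of_le hδ0 hαδ
  -- Y
  obtain ⟨Y, H', hYc, hHc, hHY, hFan⟩ := hY Φ hE.cont hE.inv w R R' α m₀ Lm (k + 2 * j) hw hw1 hR'1
    (hR'e.trans (min_le_right _ _)) hα0 hm₀ (hCT w hw) W0 hW0m hW0i hht hm₀e (L2 Q1 Q2 k (2 * j))
    (fun m hm => ⟨(hL2 m hm).1, (hL2 m hm).2.2.1, (hL2 m hm).2.2.2.le⟩) z H (fun r hr => by
      obtain ⟨m, hm, h1, ⟨x, hx, hx'⟩, h3⟩ := hHr r hr
      exact ⟨m, hm, h1, ⟨x, hx, hWW0 hx'⟩, h3⟩)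
  -- real inequalities
  set Λ' : ℝ := 1 + Real.log (CH / δ) with hΛ'
  have hΛ'X : Λ' ≤ 3 * X := log_bound (C := CU) (M := M1 ^ (2 * k)) (C' := C) hCU0 hA hΛ (by positivity) hΛX' hδ hCH0
    hC_H (by linarith)
  have hΛ'1 : 1 ≤ Λ' := by
    have : 0 ≤ Real.log (CH / δ) := by
      apply Real.log_nonneg
      rw [le_div_iff₀ hδ0, one_mul]
      linarith
    linarith
  have hΛ'0 : 0 < Λ' := by linarith
  have hI : g * (Q2.card : ℝ) ^ (2 * j) * m₁ ^ 2 * K ≤ C1 * Λ' * V.card * √(A * α) * H.card := by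
    have h1 : ENNReal.ofReal (g * (Q2.card : ℝ) ^ (2 * j) * m₁ ^ 2) ≤
        ENNReal.ofReal (CJ * (CH * Λ' * V.card / K * √(A * α) * H.card)) := by
      refine hJ3.trans ?_
      rw [ENNReal.ofReal_mul hCJ0.le]
      exact mul_le_mul_right hHJ _
    have h2 := (ENNReal.ofReal_le_ofReal_iff (by positivity)).1 h1
    calc g * (Q2.card : ℝ) ^ (2 * j) * m₁ ^ 2 * K ≤ CJ * (CH * Λ' * V.card / K * √(A * α) * H.card) * K :=
          mul_le_mul_of_nonneg_right h2 hK0.le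
      _ = _ := by rw [hC1]; field_simp
  have hIV : (Y.card : ℝ) * α ≤ 4 * CY * m₁ := by
    calc (Y.card : ℝ) * α ≤ CY * m₀ := hYc
      _ ≤ CY * (4 * m₁) := by gcongr
      _ = _ := by ring
  have hHpos : 0 < H.card := by
    rcases Nat.eq_zero_or_pos H.card with h | h
    · exfalso
      rw [h, Nat.cast_zero, mul_zero] at hI
      have : 0 < g * (Q2.card : ℝ) ^ (2 * j) * m₁ ^ 2 * K := by positivity
      linarith
    · exact h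
  have hn1 := num1 (P := (Q1.card : ℝ) ^ k) (E := (Q2.card : ℝ) ^ (2 * j)) (K := K) (N := V.card) (A := A) (S := S)
    (g := g) (m := m₁) (Λ := Λ) (Λ' := Λ') (n := H.card) (nY := Y.card) (α := α) (CU := CU) (CY := CY) (C1 := C1)
    (by positivity) (by positivity) hK0 hN hA hS hg hm₁ hΛ0 hΛ'0 (Nat.cast_nonneg _) hα0 hCU0 hC10 hI hU1 hU2 hIV
  have hn2 := num2 (P := (Q1.card : ℝ) ^ k) (E := (Q2.card : ℝ) ^ (2 * j)) (N := V.card) (A := A)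
    (g := g) (m := m₁) (Λ := Λ) (Λ' := Λ') (n := H.card) (nY := Y.card) (α := α) (CU := CU) (CY := CY) (C1 := C1)
    (M := M1 ^ k) (E2 := M2 ^ (2 * j)) (by positivity) hN hA hg hm₁ hΛ0 hΛ'0 (Nat.cast_nonneg _) (Nat.cast_nonneg _)
    (by positivity) (by positivity) hCU hC10 (by
      rw [show (M1 ^ k) ^ 2 = M1 ^ (2 * k) by rw [← pow_mul, mul_comm]]; exact hαδ) hI hU1 hIV
  refine ⟨z, Y, fun i => (nm i * rp R w z).1, H', hzV, by rw [hHc]; exact hHpos, hHY, fan_mono hC_CY hw.le hFan, ?_, ?_⟩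
  · rw [hHc]
    refine (le_of_eq (by ring)).trans (hn1.trans ?_)
    calc 4 * CY * C1 ^ 2 * CU ^ 3 * Λ ^ 4 * Λ' ^ 2 * S * (H.card : ℝ) ^ 2 ≤
          4 * CY * C1 ^ 2 * CU ^ 3 * X ^ 4 * (3 * X) ^ 2 * S * (H.card : ℝ) ^ 2 := by gcongr
      _ = C * X ^ 6 * S * (H.card : ℝ) ^ 2 := by rw [hC]; ring
      _ ≤ C * X ^ 8 * S * (H.card : ℝ) ^ 2 := by
        have : X ^ 6 ≤ X ^ 8 := pow_le_pow_right₀ hX1 (by norm_num)
        gcongr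
  · rw [hHc]
    refine hn2.trans ?_
    calc 4 * CY * C1 * CU ^ 2 * Λ ^ 2 * Λ' * (H.card : ℝ) ≤ 4 * CY * C1 ^ 2 * CU ^ 3 * X ^ 2 * (3 * X) * (H.card : ℝ) := by
          gcongr
      _ ≤ C * X ^ 3 * (H.card : ℝ) := by
        rw [hC]
        have : 0 ≤ CY * C1 ^ 2 * CU ^ 3 * X ^ 3 * (H.card : ℝ) := by positivity
        nlinarith
      _ ≤ C * X ^ 4 * (H.card : ℝ) := by
        have : X ^ 3 ≤ X ^ 4 := pow_le_pow_right₀ hX1 (by norm_num)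
        gcongr

end

end Pool.Agent.A54.HSV
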