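import Pool.Agent.Lib.HS.Bd.V.Spec

/-!
# HS/Bd/V: case 2 is impossible (`V_K3`)

helper74.
-/

set_option autoImplicit false

namespace Pool.Agent.A54.HSV

open MeasureTheory Filter Topology Set
open scoped ContDiff ComplexConjugate UpperHalfPlane MatrixGroups ENNReal
open Pool.Agent.A54.Dyn (G fl base ze io mk4 dom)
open Pool.Agent.A54.Av (Mat NonSc)
open Pool.Agent.A54.HS
open Pool.Agent.A54.Hp Pool.Agent.A54.Hp.Hk Pool.Agent.A54.Hp.A2M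

noncomputable section

namespace K3M

/-- negative powers of `w` beat constants -/
lemma big (B e : ℝ) (he : 0 < e) : ∃ w₁ : ℝ, 0 < w₁ ∧ w₁ ≤ 1 ∧ ∀ w : ℝ, 0 < w → w ≤ w₁ → B ≤ w ^ (-e) := by
  obtain ⟨X, hX⟩ := eventually_atTop.1 ((tendsto_rpow_atTop he).eventually_ge_atTop B)
  refine ⟨(max X 1)⁻¹, by positivity, inv_le_one_of_one_le₀ (le_max_right _ _), fun w hw hw1 => ?_⟩
  have h1 : X ≤ w⁻¹ := by
    refine (le_max_left X 1).trans ?_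
    rw [le_inv_comm₀ (by positivity) hw]
    exact hw1
  have h2 := hX _ h1
  rwa [Real.inv_rpow hw.le, ← Real.rpow_neg hw.le] at h2

/-- the product of the mass and the number of cells -/
lemma anb {w A N b ρ : ℝ} (hw : 0 < w) (hN : 0 ≤ A * N) (h1 : w ^ (1 + ρ) ≤ A ^ 2 * N)
    (h2 : A ≤ w ^ (1 - b)) : w ^ (b + ρ) ≤ A * N := by
  have h3 : w ^ (1 - b) * w ^ (b + ρ) ≤ w ^ (1 - b) * (A * N) := by
    rw [← Real.rpow_add hw]
    calc w ^ (1 - b + (b + ρ)) = w ^ (1 + ρ) := by congr 1; ring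
      _ ≤ A ^ 2 * N := h1
      _ = A * (A * N) := by ring
      _ ≤ _ := mul_le_mul_of_nonneg_right h2 hN
  exact le_of_mul_le_mul_left h3 (Real.rpow_pos_of_pos hw _)

/-- the hypothesis of `K2` -/
lemma numA {w A N x1 x2 C B b s s₁ ρ : ℝ} (hw : 0 < w) (hw1 : w ≤ 1) (hAN : w ^ (b + ρ) ≤ A * N) (hx1p : 0 ≤ x1)
    (hx2p : 0 ≤ x2) (hB : 0 < B) (hρ : 0 < ρ) (hx1 : w ^ (-(1 / 4) + ρ / 40) ≤ B * x1)
    (hx2 : w ^ (-((s - 1 / 4) / 2) + ρ / 50) ≤ x2) (hD : 2 * b + 2 * s₁ - 1 / 4 + 9 * ρ ≤ s)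
    (hbig : 2 * C * B ≤ w ^ (-ρ)) :
    C * (w ^ (-(ρ / 100))) ^ 2 * (w ^ (-s₁) * x1 * (2 * (A * N))) ≤ x2 * (x1 * A * N) ^ 2 := by
  have hp : ∀ a : ℝ, 0 < w ^ a := fun a => Real.rpow_pos_of_pos hw a
  have hANp : 0 < A * N := (hp _).trans_le hAN
  have e1 : (w ^ (-(ρ / 100))) ^ 2 = w ^ (-(ρ / 50)) := by
    rw [← Real.rpow_natCast, ← Real.rpow_mul hw.le]
    congr 1
    push_cast
    ring
  have h3 : 2 * C * (w ^ (-(ρ / 50)) * w ^ (-s₁)) * B ≤ B * (x1 * x2 * (A * N)) := by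
    calc 2 * C * (w ^ (-(ρ / 50)) * w ^ (-s₁)) * B = (2 * C * B) * (w ^ (-(ρ / 50)) * w ^ (-s₁)) := by ring
      _ ≤ w ^ (-ρ) * (w ^ (-(ρ / 50)) * w ^ (-s₁)) := mul_le_mul_of_nonneg_right hbig (by positivity)
      _ = w ^ (-ρ + (-(ρ / 50) + -s₁)) := by rw [Real.rpow_add hw, Real.rpow_add hw]
      _ ≤ w ^ ((-(1 / 4) + ρ / 40) + (-((s - 1 / 4) / 2) + ρ / 50) + (b + ρ)) :=
          Real.rpow_le_rpow_of_exponent_ge hw hw1 (by linarith)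
      _ = w ^ (-(1 / 4) + ρ / 40) * w ^ (-((s - 1 / 4) / 2) + ρ / 50) * w ^ (b + ρ) := by
          rw [Real.rpow_add hw, Real.rpow_add hw]
      _ ≤ (B * x1) * x2 * (A * N) := by gcongr
      _ = B * (x1 * x2 * (A * N)) := by ring
  have h4 : 2 * C * (w ^ (-(ρ / 50)) * w ^ (-s₁)) ≤ x1 * x2 * (A * N) := by
    rw [mul_comm] at h3
    exact le_of_mul_le_mul_left h3 hB
  rw [e1]
  calc C * w ^ (-(ρ / 50)) * (w ^ (-s₁) * x1 * (2 * (A * N)))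
      = (2 * C * (w ^ (-(ρ / 50)) * w ^ (-s₁))) * (x1 * (A * N)) := by ring
    _ ≤ (x1 * x2 * (A * N)) * (x1 * (A * N)) := mul_le_mul_of_nonneg_right h4 (by positivity)
    _ = x2 * (x1 * A * N) ^ 2 := by ring

/-- few paths for each end: contradiction -/
lemma numB {w A x1 x2 C B b₁ s ρ : ℝ} (hw : 0 < w) (hw1 : w ≤ 1) (hx1p : 0 ≤ x1)
    (hB : 0 < B) (hρ : 0 < ρ) (hA : w ^ (1 - b₁) ≤ A) (hx1 : w ^ (-(1 / 4) + ρ / 40) ≤ B * x1)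
    (hx2 : w ^ (-((s - 1 / 4) / 2) + ρ / 50) ≤ x2) (hD : 5 / 4 - b₁ + 9 * ρ ≤ 2 * s)
    (hbig : 4 * C * B < w ^ (-ρ)) :
    4 * (C * (w ^ (-(ρ / 100))) ^ 4) < x1 * x2 ^ 2 * w ^ (-(s - 1 / 4)) * A := by
  have hp : ∀ a : ℝ, 0 < w ^ a := fun a => Real.rpow_pos_of_pos hw a
  have e1 : (w ^ (-(ρ / 100))) ^ 4 = w ^ (-(ρ / 25)) := by
    rw [← Real.rpow_natCast, ← Real.rpow_mul hw.le]
    congr 1
    push_cast
    ring
  have e2 : (w ^ (-((s - 1 / 4) / 2) + ρ / 50)) ^ 2 = w ^ (-(s - 1 / 4) + ρ / 25) := by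
    rw [← Real.rpow_natCast, ← Real.rpow_mul hw.le]
    congr 1
    push_cast
    ring
  have h2 : w ^ (-(s - 1 / 4) + ρ / 25) ≤ x2 ^ 2 := by
    rw [← e2]
    exact pow_le_pow_left₀ (hp _).le hx2 2
  have h3 : B * (4 * (C * w ^ (-(ρ / 25)))) < B * (x1 * x2 ^ 2 * w ^ (-(s - 1 / 4)) * A) := by
    calc B * (4 * (C * w ^ (-(ρ / 25)))) = (4 * C * B) * w ^ (-(ρ / 25)) := by ring
      _ < w ^ (-ρ) * w ^ (-(ρ / 25)) := mul_lt_mul_of_pos_right hbig (hp _)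
      _ = w ^ (-ρ + -(ρ / 25)) := by rw [Real.rpow_add hw]
      _ ≤ w ^ ((-(1 / 4) + ρ / 40) + (-(s - 1 / 4) + ρ / 25) + (-(s - 1 / 4)) + (1 - b₁)) :=
          Real.rpow_le_rpow_of_exponent_ge hw hw1 (by linarith)
      _ = w ^ (-(1 / 4) + ρ / 40) * w ^ (-(s - 1 / 4) + ρ / 25) * w ^ (-(s - 1 / 4)) * w ^ (1 - b₁) := by
          rw [Real.rpow_add hw, Real.rpow_add hw, Real.rpow_add hw]
      _ ≤ (B * x1) * x2 ^ 2 * w ^ (-(s - 1 / 4)) * A := by gcongr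
      _ = _ := by ring
  rw [e1]
  exact lt_of_mul_lt_mul_left h3 hB.le

/-- the right side of `Pc` -/
lemma numE {w Λ s s₁ d ρ : ℝ} (hw : 0 < w) (hw1 : w ≤ 1) (hΛ : 1 ≤ Λ)
    (hA : 6 * s - 2 + 9 * ρ ≤ 4 * s - 3 / 4 - s₁) (hB : s₁ + 9 * ρ ≤ 1 / 4)
    (hC : 3 * s - 3 * d / 2 + 9 * ρ ≤ 4 * s - 3 / 4 - s₁) :
    (Λ * w ^ (-s)) ^ 6 * w ^ 2 + (Λ * w ^ (-s)) ^ 4 * w + ((Λ * w ^ (-s)) ^ 2 / w ^ (-d)) ^ (3 / 2 : ℝ) ≤
      3 * Λ ^ 6 * w ^ (-(4 * s - 3 / 4 - s₁ - 9 * ρ)) := by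
  have hp : ∀ a : ℝ, 0 < w ^ a := fun a => Real.rpow_pos_of_pos hw a
  have hΛ0 : 0 < Λ := by linarith
  have hmon : ∀ n : ℕ, n ≤ 6 → Λ ^ n ≤ Λ ^ 6 := fun n hn => pow_le_pow_right₀ hΛ hn
  have t1 : (Λ * w ^ (-s)) ^ 6 * w ^ 2 ≤ Λ ^ 6 * w ^ (-(4 * s - 3 / 4 - s₁ - 9 * ρ)) := by
    have e : (w ^ (-s)) ^ 6 * w ^ 2 = w ^ (-(6 * s - 2)) := by
      rw [← Real.rpow_natCast (w ^ (-s)), ← Real.rpow_mul hw.le, ← Real.rpow_natCast w 2, ← Real.rpow_add hw]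
      congr 1
      push_cast
      ring
    rw [mul_pow, mul_assoc, e]
    exact mul_le_mul_of_nonneg_left (Real.rpow_le_rpow_of_exponent_ge hw hw1 (by linarith)) (by positivity)
  have t2 : (Λ * w ^ (-s)) ^ 4 * w ≤ Λ ^ 6 * w ^ (-(4 * s - 3 / 4 - s₁ - 9 * ρ)) := by
    have e : (w ^ (-s)) ^ 4 * w = w ^ (-(4 * s - 1)) := by
      conv_lhs => rw [← Real.rpow_natCast (w ^ (-s)), ← Real.rpow_mul hw.le]
      nth_rewrite 2 [← Real.rpow_one w]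
      rw [← Real.rpow_add hw]
      congr 1
      push_cast
      ring
    rw [mul_pow, mul_assoc, e]
    exact mul_le_mul (hmon 4 (by norm_num)) (Real.rpow_le_rpow_of_exponent_ge hw hw1 (by linarith)) (hp _).le
      (by positivity)
  have t3 : ((Λ * w ^ (-s)) ^ 2 / w ^ (-d)) ^ (3 / 2 : ℝ) ≤ Λ ^ 6 * w ^ (-(4 * s - 3 / 4 - s₁ - 9 * ρ)) := by
    have e : (Λ * w ^ (-s)) ^ 2 / w ^ (-d) = Λ ^ 2 * w ^ (-(2 * s - d)) := by
      rw [mul_pow, mul_div_assoc]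
      congr 1
      rw [← Real.rpow_natCast (w ^ (-s)), ← Real.rpow_mul hw.le, ← Real.rpow_sub hw]
      congr 1
      push_cast
      ring
    have e' : (Λ ^ 2 : ℝ) ^ (3 / 2 : ℝ) = Λ ^ 3 := by
      rw [← Real.rpow_natCast Λ 2, ← Real.rpow_mul hΛ0.le, ← Real.rpow_natCast Λ 3]
      congr 1
      push_cast
      ring
    rw [e, Real.mul_rpow (by positivity) (hp _).le, e', ← Real.rpow_mul hw.le]
    exact mul_le_mul (hmon 3 (by norm_num)) (Real.rpow_le_rpow_of_exponent_ge hw hw1 (by linarith)) (hp _).le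
      (by positivity)
  linarith

/-- many paths for each end: contradiction -/
lemma numC {w A N x1 x2 C B Λ s s₁ ρ E : ℝ} (hw : 0 < w) (hw1 : w ≤ 1) (hx1p : 0 ≤ x1)
    (hB : 0 < B) (hC : 0 < C) (hρ : 0 < ρ) (hAN : w ^ (1 + ρ) ≤ A ^ 2 * N)
    (hx1 : w ^ (-(1 / 4) + ρ / 40) ≤ B * x1) (hx2 : w ^ (-((s - 1 / 4) / 2) + ρ / 50) ≤ x2)
    (hE : E ≤ 3 * Λ ^ 6 * w ^ (-(4 * s - 3 / 4 - s₁ - 9 * ρ)))
    (hbig : 12 * C * Λ ^ 6 * B ^ 3 < w ^ (-ρ)) :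
    4 * C * (w ^ (-(ρ / 100))) ^ 8 * w ^ (-s₁) * w ^ (-ρ) * E < x1 ^ 3 * (A ^ 2 * N) * x2 ^ 4 * (w ^ (-s)) ^ 2 := by
  have hp : ∀ a : ℝ, 0 < w ^ a := fun a => Real.rpow_pos_of_pos hw a
  have e1 : (w ^ (-(ρ / 100))) ^ 8 = w ^ (-(2 * ρ / 25)) := by
    rw [← Real.rpow_natCast, ← Real.rpow_mul hw.le]
    congr 1
    push_cast
    ring
  have e2 : (w ^ (-((s - 1 / 4) / 2) + ρ / 50)) ^ 4 = w ^ (-(2 * s - 1 / 2) + 2 * ρ / 25) := by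
    rw [← Real.rpow_natCast, ← Real.rpow_mul hw.le]
    congr 1
    push_cast
    ring
  have e3 : (w ^ (-(1 / 4) + ρ / 40)) ^ 3 = w ^ (-(3 / 4) + 3 * ρ / 40) := by
    rw [← Real.rpow_natCast, ← Real.rpow_mul hw.le]
    congr 1
    push_cast
    ring
  have e4 : (w ^ (-s)) ^ 2 = w ^ (-(2 * s)) := by
    rw [← Real.rpow_natCast, ← Real.rpow_mul hw.le]
    congr 1
    push_cast
    ring
  have h2 : w ^ (-(2 * s - 1 / 2) + 2 * ρ / 25) ≤ x2 ^ 4 := by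
    rw [← e2]
    exact pow_le_pow_left₀ (hp _).le hx2 4
  have h3 : w ^ (-(3 / 4) + 3 * ρ / 40) ≤ (B * x1) ^ 3 := by
    rw [← e3]
    exact pow_le_pow_left₀ (hp _).le hx1 3
  rw [e1, e4]
  have h4 : B ^ 3 * (4 * C * w ^ (-(2 * ρ / 25)) * w ^ (-s₁) * w ^ (-ρ) * E) <
      B ^ 3 * (x1 ^ 3 * (A ^ 2 * N) * x2 ^ 4 * w ^ (-(2 * s))) := by
    calc B ^ 3 * (4 * C * w ^ (-(2 * ρ / 25)) * w ^ (-s₁) * w ^ (-ρ) * E)
        ≤ B ^ 3 * (4 * C * w ^ (-(2 * ρ / 25)) * w ^ (-s₁) * w ^ (-ρ) *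
          (3 * Λ ^ 6 * w ^ (-(4 * s - 3 / 4 - s₁ - 9 * ρ)))) := by
            gcongr
      _ = (12 * C * Λ ^ 6 * B ^ 3) * (w ^ (-(2 * ρ / 25)) * w ^ (-s₁) * w ^ (-ρ) *
          w ^ (-(4 * s - 3 / 4 - s₁ - 9 * ρ))) := by ring
      _ < w ^ (-ρ) * (w ^ (-(2 * ρ / 25)) * w ^ (-s₁) * w ^ (-ρ) *
          w ^ (-(4 * s - 3 / 4 - s₁ - 9 * ρ))) := mul_lt_mul_of_pos_right hbig (by positivity)
      _ = w ^ (-ρ + (-(2 * ρ / 25) + -s₁ + -ρ + -(4 * s - 3 / 4 - s₁ - 9 * ρ))) := by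
          rw [Real.rpow_add hw, Real.rpow_add hw, Real.rpow_add hw, Real.rpow_add hw]
      _ ≤ w ^ ((-(3 / 4) + 3 * ρ / 40) + (1 + ρ) + (-(2 * s - 1 / 2) + 2 * ρ / 25) + -(2 * s)) :=
          Real.rpow_le_rpow_of_exponent_ge hw hw1 (by linarith)
      _ = w ^ (-(3 / 4) + 3 * ρ / 40) * w ^ (1 + ρ) * w ^ (-(2 * s - 1 / 2) + 2 * ρ / 25) * w ^ (-(2 * s)) := by
          rw [Real.rpow_add hw, Real.rpow_add hw, Real.rpow_add hw]
      _ ≤ (B * x1) ^ 3 * (A ^ 2 * N) * x2 ^ 4 * w ^ (-(2 * s)) :=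
          mul_le_mul_of_nonneg_right (mul_le_mul (mul_le_mul h3 hAN (hp _).le (by positivity)) h2 (hp _).le
            (mul_nonneg (by positivity) ((hp _).le.trans hAN))) (hp _).le
      _ = _ := by ring
  exact lt_of_mul_lt_mul_left h4 (by positivity)

/-- the logarithms -/
lemma numL {w A N x1 M C S b₁ b₂ s₁ ρ : ℝ} (hw : 0 < w) (hw1 : w ≤ 1) (hC : 1 ≤ C) (hρ : 0 < ρ) (hA0 : 0 < A)
    (hx1 : 1 ≤ x1) (hb1 : 0 ≤ b₁) (hb : b₂ + ρ ≤ 1) (hs₁ : s₁ ≤ 1) (hAN : w ^ (b₂ + ρ) ≤ A * N)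
    (hA : w ^ (1 - b₁) ≤ A) (hM : M = w ^ (-(1 / 2) : ℝ)) (hS : S = w ^ (-s₁) * x1 * (2 * (A * N)))
    (hbig : 1 + |Real.log (3 * C)| + |Real.log C| + 600 / ρ ≤ w ^ (-(ρ / 200))) :
    1 + Real.log (C * (S + 1) / (x1 * A * N)) + Real.log (C * M / A) ≤ w ^ (-(ρ / 100)) := by
  have hp : ∀ a : ℝ, 0 < w ^ a := fun a => Real.rpow_pos_of_pos hw a
  have hANp : 0 < A * N := (hp _).trans_le hAN
  have hx0 : 0 < x1 := by linarith
  have hxAN : 0 < x1 * A * N := by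
    rw [mul_assoc]
    positivity
  have hlw : 0 ≤ Real.log w⁻¹ := Real.log_nonneg ((one_le_inv₀ hw).2 hw1)
  have a1 : C * (S + 1) / (x1 * A * N) ≤ 3 * C * w⁻¹ := by
    rw [div_le_iff₀ hxAN]
    have b1 : w ^ (-s₁) ≤ w⁻¹ := by
      rw [← Real.rpow_neg_one]
      exact Real.rpow_le_rpow_of_exponent_ge hw hw1 (by linarith)
    have b2 : 1 ≤ w⁻¹ * (x1 * (A * N)) := by
      have c1 : w ^ (1 : ℝ) ≤ w ^ (b₂ + ρ) := Real.rpow_le_rpow_of_exponent_ge hw hw1 hb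
      rw [Real.rpow_one] at c1
      have c2 : w ≤ x1 * (A * N) := by
        calc w ≤ A * N := c1.trans hAN
          _ = 1 * (A * N) := (one_mul _).symm
          _ ≤ x1 * (A * N) := mul_le_mul_of_nonneg_right hx1 hANp.le
      calc (1 : ℝ) = w⁻¹ * w := (inv_mul_cancel₀ hw.ne').symm
        _ ≤ _ := mul_le_mul_of_nonneg_left c2 (by positivity)
    have b3 : S ≤ 2 * (w⁻¹ * (x1 * (A * N))) := by
      rw [hS]
      calc w ^ (-s₁) * x1 * (2 * (A * N)) = w ^ (-s₁) * (2 * (x1 * (A * N))) := by ring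
        _ ≤ w⁻¹ * (2 * (x1 * (A * N))) := mul_le_mul_of_nonneg_right b1 (by positivity)
        _ = _ := by ring
    calc C * (S + 1) ≤ C * (3 * (w⁻¹ * (x1 * (A * N)))) := mul_le_mul_of_nonneg_left (by linarith) (by linarith)
      _ = 3 * C * w⁻¹ * (x1 * A * N) := by ring
  have hS0 : 0 ≤ S := by rw [hS]; positivity
  have a2 : Real.log (C * (S + 1) / (x1 * A * N)) ≤ Real.log (3 * C) + Real.log w⁻¹ := by
    rw [← Real.log_mul (by positivity) (by positivity)]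
    exact Real.log_le_log (by positivity) a1
  have a3 : C * M / A ≤ C * (w⁻¹ * w⁻¹) := by
    rw [div_le_iff₀ hA0, hM]
    have b1 : w ^ (-(1 / 2) : ℝ) ≤ w⁻¹ * w⁻¹ * A := by
      calc w ^ (-(1 / 2) : ℝ) ≤ w ^ ((-1 : ℝ) + -1 + (1 - b₁)) :=
            Real.rpow_le_rpow_of_exponent_ge hw hw1 (by linarith)
        _ = w⁻¹ * w⁻¹ * w ^ (1 - b₁) := by
            rw [Real.rpow_add hw, Real.rpow_add hw, Real.rpow_neg_one]
        _ ≤ _ := by gcongr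
    calc C * w ^ (-(1 / 2) : ℝ) ≤ C * (w⁻¹ * w⁻¹ * A) := mul_le_mul_of_nonneg_left b1 (by linarith)
      _ = _ := by ring
  have a4 : Real.log (C * M / A) ≤ Real.log C + (Real.log w⁻¹ + Real.log w⁻¹) := by
    rw [← Real.log_mul (by positivity) (by positivity), ← Real.log_mul (by positivity) (by positivity)]
    refine Real.log_le_log ?_ a3
    rw [hM]
    positivity
  have a5 : Real.log w⁻¹ ≤ w ^ (-(ρ / 200)) / (ρ / 200) := by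
    have := Real.log_le_rpow_div (inv_nonneg.2 hw.le) (show 0 < ρ / 200 by positivity)
    rwa [Real.inv_rpow hw.le, ← Real.rpow_neg hw.le] at this
  have hT1 : 1 ≤ w ^ (-(ρ / 200)) := by
    have := abs_nonneg (Real.log (3 * C))
    have := abs_nonneg (Real.log C)
    have : 0 < 600 / ρ := by positivity
    linarith
  have a6 : w ^ (-(ρ / 100)) = w ^ (-(ρ / 200)) * w ^ (-(ρ / 200)) := by
    rw [← Real.rpow_add hw]
    congr 1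
    ring
  have a7 : w ^ (-(ρ / 200)) / (ρ / 200) = (200 / ρ) * w ^ (-(ρ / 200)) := by
    field_simp
  have b4 := le_abs_self (Real.log (3 * C))
  have b5 := le_abs_self (Real.log C)
  have b6 := abs_nonneg (Real.log (3 * C))
  have b7 := abs_nonneg (Real.log C)
  rw [a6]
  calc 1 + Real.log (C * (S + 1) / (x1 * A * N)) + Real.log (C * M / A)
      ≤ (1 + |Real.log (3 * C)| + |Real.log C|) + 3 * ((200 / ρ) * w ^ (-(ρ / 200))) := by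
        rw [← a7]
        linarith
    _ ≤ (1 + |Real.log (3 * C)| + |Real.log C|) * w ^ (-(ρ / 200)) + 3 * ((200 / ρ) * w ^ (-(ρ / 200))) := by
        have : (1 + |Real.log (3 * C)| + |Real.log C|) * 1 ≤
          (1 + |Real.log (3 * C)| + |Real.log C|) * w ^ (-(ρ / 200)) :=
          mul_le_mul_of_nonneg_left hT1 (by positivity)
        linarith
    _ = (1 + |Real.log (3 * C)| + |Real.log C| + 600 / ρ) * w ^ (-(ρ / 200)) := by ring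
    _ ≤ _ := mul_le_mul_of_nonneg_right hbig (hp _).le

/-- the representative of a cell of positive mass -/
lemma rp_mem {R w : ℝ} {z : Fin 3 → ℤ} (h : (cel R w z).Nonempty) : HS.rp R w z ∈ cel R w z := by
  unfold HS.rp
  rw [dif_pos h]
  exact h.some_mem

lemma cne {Φ : G → ℂ} {R w A : ℝ} (hA : 0 < A) {V : Finset (Fin 3 → ℤ)} (h : CM Φ R w A V) :
    ∀ z ∈ V, (cel R w z).Nonempty := by
  intro z hz
  rw [Set.nonempty_iff_ne_empty]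
  intro he
  have h1 := (h z hz).1
  rw [he] at h1
  have h2 : ms Φ (∅ : Set G) = 0 := by simp [ms]
  rw [h2, nonpos_iff_eq_zero, ENNReal.ofReal_eq_zero] at h1
  linarith

lemma ms_le {Φ : G → ℂ} {R w A : ℝ} {V : Finset (Fin 3 → ℤ)} (h : CM Φ R w A V) :
    ms Φ (celU R w V) ≤ ENNReal.ofReal (2 * (A * (V.card : ℝ))) := by
  rw [ms_celU]
  calc ∑ z ∈ V, ms Φ (cel R w z) ≤ ∑ _z ∈ V, ENNReal.ofReal (2 * A) := Finset.sum_le_sum fun z hz => (h z hz).2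
    _ = ENNReal.ofReal (2 * (A * (V.card : ℝ))) := by
        rw [Finset.sum_const, nsmul_eq_mul, show 2 * (A * (V.card : ℝ)) = (V.card : ℝ) * (2 * A) by ring,
          ENNReal.ofReal_mul (Nat.cast_nonneg _), ENNReal.ofReal_natCast]

/-- blocks of primes of different sizes are disjoint -/
lemma Pm_disj {Q1 Q2 : Finset ℕ} {M1 M2 : ℝ} (h1 : Q1 ⊆ Pm M1) (h2 : Q2 ⊆ Pm M2) (h : 2 * M2 ≤ M1) :
    Disjoint Q1 Q2 := by
  rw [Finset.disjoint_left]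
  intro p hp1 hp2
  have a1 := h1 hp1
  have a2 := h2 hp2
  simp only [Pm, Finset.mem_filter, Finset.mem_Ioc] at a1 a2
  have := Nat.floor_le_floor h
  omega

lemma pwL (k : ℕ) (M1 M2 : ℝ) : (2 * M1) ^ k * (2 * M2) ^ (2 * k) = (2 ^ k * 2 ^ (2 * k)) * (M1 ^ k * M2 ^ (2 * k)) := by
  rw [mul_pow, mul_pow]
  ring

/-- the power of a power -/
lemma rp_pow {w : ℝ} (hw : 0 < w) (a b : ℝ) (n : ℕ) (h : a * n = b) : (w ^ a) ^ n = w ^ b := by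
  rw [← Real.rpow_natCast, ← Real.rpow_mul hw.le, h]

end K3M

open K3M in
theorem tK3 (h2 : V_K2) (hP : V_Pc) (hCS : HSL.S_CS) : V_K3 := by
  intro R C₃ b₁ b₂ s s₁ d ρ hR hC₃ hb1 hb12 hb2 hs1 hs hs' hd hρ hA hB hC hBB hD
  obtain ⟨C, c₀, hC1, hc0, hK2⟩ := h2 500 500 R (by norm_num) (by norm_num) hR
  obtain ⟨w1, hw1, hw11, hPc⟩ := hP (500 + 2 * 500) C R ρ hC1 hR hρ
  obtain ⟨Λ, hΛ⟩ : ∃ Λ : ℝ, Λ = 2 ^ 500 * 2 ^ (2 * 500) := ⟨_, rfl⟩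
  have hΛ1 : 1 ≤ Λ := by
    rw [hΛ]
    exact one_le_mul_of_one_le_of_one_le (one_le_pow₀ (by norm_num)) (one_le_pow₀ (by norm_num))
  obtain ⟨B, hBe⟩ : ∃ B : ℝ, B = C₃ ^ 500 := ⟨_, rfl⟩
  have hB1 : 1 ≤ B := by
    rw [hBe]
    exact one_le_pow₀ hC₃
  have hB0 : 0 < B := by linarith
  have hC0 : 0 < C := by linarith
  have hρ1 : ρ ≤ 1 / 36 := by linarith
  -- the constants
  obtain ⟨Z, hZ⟩ : ∃ Z : ℝ, Z = c₀⁻¹ + 2 + C * C₃ + Λ + 4 * C * B + 12 * C * Λ ^ 6 * B ^ 3 + 1 +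
    |Real.log (3 * C)| + |Real.log C| + 600 / ρ := ⟨_, rfl⟩
  have p1 : 0 < c₀⁻¹ := by positivity
  have p2 : 0 < C * C₃ := by positivity
  have p3 : 0 < 4 * C * B := by positivity
  have p4 : 0 < 12 * C * Λ ^ 6 * B ^ 3 := by positivity
  have p5 := abs_nonneg (Real.log (3 * C))
  have p6 := abs_nonneg (Real.log C)
  have p7 : 0 < 600 / ρ := by positivity
  obtain ⟨w2, hw2, hw21, hbig⟩ := big Z (ρ / 1000) (by positivity)
  refine ⟨ρ / 10, min w1 w2, by positivity, lt_min hw1 hw2, (min_le_left _ _).trans hw11, ?_⟩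
  intro l Φ hE w A hw hww hA1 hA2 V hV hAN2 hDg Q1 Q2 hQ1 hQ2 hl1 hl2 hc1 hc2 haa
  have hw1' : w ≤ w1 := hww.trans (min_le_left _ _)
  have hwle : w ≤ 1 := hw1'.trans hw11
  have hT := hbig w hw (hww.trans (min_le_right _ _))
  have hp : ∀ a : ℝ, 0 < w ^ a := fun a => Real.rpow_pos_of_pos hw a
  have hpow : ∀ a b : ℝ, b ≤ a → w ^ a ≤ w ^ b := fun a b h => Real.rpow_le_rpow_of_exponent_ge hw hwle h
  have hTe : ∀ e : ℝ, ρ / 1000 ≤ e → Z ≤ w ^ (-e) := fun e he => hT.trans (hpow _ _ (by linarith))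
  have hA0 : 0 < A := (hp _).trans_le hA1
  have hAle : A ≤ 1 := hA2.trans (Real.rpow_le_one hw.le hwle (by linarith))
  have hN0 : 0 < (V.card : ℝ) := by
    rcases (Nat.cast_nonneg V.card : (0 : ℝ) ≤ V.card).lt_or_eq with h | h
    · exact h
    · rw [← h, mul_zero] at hAN2
      exact absurd hAN2 (not_le.2 (hp _))
  have hVne : V.Nonempty := by
    rw [← Finset.card_pos]
    exact_mod_cast hN0
  have hAN : w ^ (b₂ + ρ) ≤ A * (V.card : ℝ) := anb hw (by positivity) hAN2 hA2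
  -- sizes of the sets of primes
  obtain ⟨x1, hx1e⟩ : ∃ x1 : ℝ, x1 = (Q1.card : ℝ) ^ 500 := ⟨_, rfl⟩
  obtain ⟨x2, hx2e⟩ : ∃ x2 : ℝ, x2 = (Q2.card : ℝ) ^ 500 := ⟨_, rfl⟩
  have hx1 : w ^ (-(1 / 4) + ρ / 40) ≤ B * x1 := by
    have h3 := pow_le_pow_left₀ (Real.rpow_nonneg (hp _).le _) hc1 500
    rw [mul_pow, ← hBe, ← hx1e, ← Real.rpow_mul hw.le] at h3
    refine le_trans (le_of_eq ?_) h3
    refine (rp_pow hw _ _ 500 ?_).symm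
    push_cast
    ring
  have hx2 : w ^ (-((s - 1 / 4) / 2) + ρ / 50) ≤ x2 := by
    have h3 := pow_le_pow_left₀ (Real.rpow_nonneg (hp _).le _) hc2 500
    rw [← hx2e, ← Real.rpow_mul hw.le, rp_pow hw _ (-((s - 1 / 4) / 2) + (s - 1 / 4) * ρ / 20) 500
      (by push_cast; ring)] at h3
    refine le_trans (hpow _ _ ?_) h3
    have h4 : (s - 1 / 4) * ρ ≤ 3 / 8 * ρ := mul_le_mul_of_nonneg_right (by linarith) hρ.le
    linarith
  have hq1 : C * C₃ ≤ C₃ * (Q1.card : ℝ) := by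
    refine le_trans ?_ hc1
    rw [← Real.rpow_mul hw.le]
    refine le_trans ?_ ((hTe (1 / 4000) (by linarith)).trans (hpow _ _ (by linarith)))
    rw [hZ]
    linarith
  have hq1' : C ≤ (Q1.card : ℝ) := by
    rw [mul_comm C] at hq1
    exact le_of_mul_le_mul_left hq1 (by linarith)
  have hx11 : 1 ≤ x1 := by
    rw [hx1e]
    exact one_le_pow₀ (hC1.trans hq1')
  have hx10 : 0 ≤ x1 := by linarith
  have hx20 : 0 < x2 := (hp _).trans_le hx2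
  have hM1 : 1 ≤ w ^ (-(1 / 2000) : ℝ) := Real.one_le_rpow_of_pos_of_le_one_of_nonpos hw hwle (by norm_num)
  have hM2 : 1 ≤ w ^ (-((s - 1 / 4) / 1000) : ℝ) :=
    Real.one_le_rpow_of_pos_of_le_one_of_nonpos hw hwle (by linarith)
  have hdis : Disjoint Q1 Q2 := by
    refine Pm_disj hQ1 hQ2 ?_
    have h3 : 2 ≤ w ^ (-(1 / 8000) : ℝ) := by
      refine le_trans ?_ (hTe (1 / 8000) (by linarith))
      rw [hZ]
      linarith
    calc 2 * w ^ (-((s - 1 / 4) / 1000) : ℝ) ≤ w ^ (-(1 / 8000) : ℝ) * w ^ (-((s - 1 / 4) / 1000) : ℝ) :=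
          mul_le_mul_of_nonneg_right h3 (hp _).le
      _ = w ^ (-(1 / 8000) + -((s - 1 / 4) / 1000)) := by rw [Real.rpow_add hw]
      _ ≤ _ := hpow _ _ (by linarith)
  -- the bound `S`
  obtain ⟨S, hS⟩ : ∃ S : ℝ, S = w ^ (-s₁) * x1 * (2 * (A * (V.card : ℝ))) := ⟨_, rfl⟩
  have hS0 : 0 < S := by rw [hS]; have := hp (-s₁); positivity
  have haaS : aa Q1 (AIkM.ff Φ (celU R w V)) (2 * 500) ≤ ENNReal.ofReal S := by
    refine haa.trans ?_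
    rw [hS, ← hx1e, ENNReal.ofReal_mul (p := w ^ (-s₁) * x1) (by have := hp (-s₁); positivity)]
    exact mul_le_mul_right (ms_le hV) _
  have hM1k : (w ^ (-(1 / 2000) : ℝ)) ^ 500 = w ^ (-(1 / 4) : ℝ) := rp_pow hw _ _ _ (by push_cast; ring)
  have hM1kk : (w ^ (-(1 / 2000) : ℝ)) ^ (2 * 500) = w ^ (-(1 / 2) : ℝ) := rp_pow hw _ _ _ (by push_cast; ring)
  have hM2k : (w ^ (-((s - 1 / 4) / 1000) : ℝ)) ^ (2 * 500) = w ^ (-(s - 1 / 4)) :=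
    rp_pow hw _ _ _ (by push_cast; ring)
  have hMM : (w ^ (-(1 / 2000) : ℝ)) ^ 500 * (w ^ (-((s - 1 / 4) / 1000) : ℝ)) ^ (2 * 500) = w ^ (-s) := by
    rw [hM1k, hM2k, ← Real.rpow_add hw]
    congr 1
    ring
  have hx2sq : (Q2.card : ℝ) ^ (2 * 500) = x2 ^ 2 := by
    rw [hx2e, ← pow_mul, mul_comm 2 500]
  have hwc : w * (w ^ (-(1 / 2000) : ℝ)) ^ (2 * 500) ≤ c₀ := by
    rw [hM1kk]
    have h3 : c₀⁻¹ ≤ w ^ (-(1 / 2) : ℝ) := by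
      refine le_trans ?_ (hTe (1 / 2) (by linarith))
      rw [hZ]
      linarith
    have h4 : w * w ^ (-(1 / 2) : ℝ) * w ^ (-(1 / 2) : ℝ) = 1 := by
      rw [mul_assoc, ← Real.rpow_add hw]
      norm_num
      rw [Real.rpow_neg_one, mul_inv_cancel₀ hw.ne']
    calc w * w ^ (-(1 / 2) : ℝ) = w * w ^ (-(1 / 2) : ℝ) * (c₀⁻¹ * c₀) := by rw [inv_mul_cancel₀ hc0.ne', mul_one]
      _ = (w * w ^ (-(1 / 2) : ℝ) * c₀⁻¹) * c₀ := by ring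
      _ ≤ (w * w ^ (-(1 / 2) : ℝ) * w ^ (-(1 / 2) : ℝ)) * c₀ := by gcongr
      _ = c₀ := by rw [h4, one_mul]
  have hX1 : 1 ≤ w ^ (-(ρ / 100)) := Real.one_le_rpow_of_pos_of_le_one_of_nonpos hw hwle (by linarith)
  have hXL : 1 + Real.log (C * (S + 1) / ((Q1.card : ℝ) ^ 500 * A * V.card)) +
      Real.log (C * (w ^ (-(1 / 2000) : ℝ)) ^ (2 * 500) / A) ≤ w ^ (-(ρ / 100)) := by
    rw [← hx1e]
    refine numL hw hwle hC1 hρ hA0 hx11 hb1.le (by linarith) (by linarith) hAN hA1 hM1kk hS ?_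
    refine le_trans ?_ (hTe (ρ / 200) (by linarith))
    rw [hZ]
    linarith
  have hKA : C * (w ^ (-(ρ / 100))) ^ 2 * S ≤
      (Q2.card : ℝ) ^ 500 * ((Q1.card : ℝ) ^ 500 * A * V.card) ^ 2 := by
    rw [← hx1e, ← hx2e, hS]
    refine numA hw hwle hAN hx10 hx20.le hB0 hρ hx1 hx2 hD ?_
    refine le_trans ?_ (hTe ρ (by linarith))
    rw [hZ]
    linarith
  obtain ⟨z, Y, b, H, hz, hH0, hHY, hFan, hI1, hI2⟩ := hK2 l Φ hE w A _ _ S hw hwle hA0 hAle hM1 hM2 hS0 hwc V hVne hV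
    Q1 Q2 hQ1 hQ2 hdis hl1 hl2 hq1' haaS _ hX1 hXL hKA
  rw [pwL, ← hΛ, hMM] at hFan
  rw [hMM, hx2sq, ← hx1e] at hI1
  rw [hM2k, hx2sq, ← hx1e] at hI2
  have hL1 : 1 ≤ Λ * w ^ (-s) := one_le_mul_of_one_le_of_one_le hΛ1
    (Real.one_le_rpow_of_pos_of_le_one_of_nonpos hw hwle (by linarith))
  have hL2 : Λ * w ^ (-s) ≤ w ^ (-1 : ℝ) := by
    have h3 : Λ ≤ w ^ (-(3 / 8) : ℝ) := by
      refine le_trans ?_ (hTe (3 / 8) (by linarith))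
      rw [hZ]
      linarith
    calc Λ * w ^ (-s) ≤ w ^ (-(3 / 8) : ℝ) * w ^ (-s) := mul_le_mul_of_nonneg_right h3 (hp _).le
      _ = w ^ (-(3 / 8) + -s) := by rw [Real.rpow_add hw]
      _ ≤ _ := hpow _ _ (by linarith)
  have hrp := rp_mem (cne hA0 hV z hz)
  have hcard := hPc w (Λ * w ^ (-s)) (w ^ (-d)) hw hw1' hL1 hL2
    (Real.one_le_rpow_of_pos_of_le_one_of_nonpos hw hwle (by linarith)) (HS.rp R w z).1 b (HS.rp R w z).2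
    (fun i j => hrp.1 i j) (hDg z hz) H hFan
  have hcs := hCS Mat Y H hHY
  have hEb := numE (s₁ := s₁) (d := d) (ρ := ρ) hw hwle hΛ1 hA hB hC
  obtain ⟨E, hEe⟩ : ∃ E : ℝ, E = (Λ * w ^ (-s)) ^ 6 * w ^ 2 + (Λ * w ^ (-s)) ^ 4 * w +
    ((Λ * w ^ (-s)) ^ 2 / w ^ (-d)) ^ (3 / 2 : ℝ) := ⟨_, rfl⟩
  rw [← hEe] at hcard hEb
  have hH0' : (0 : ℝ) < H.card := by exact_mod_cast hH0
  have hY0 : (0 : ℝ) < Y.card := by
    obtain ⟨t, ht⟩ := Finset.card_pos.1 hH0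
    exact_mod_cast Finset.card_pos.2 ⟨_, hHY t ht⟩
  obtain ⟨nH, hnH⟩ : ∃ nH : ℝ, nH = H.card := ⟨_, rfl⟩
  obtain ⟨nY, hnY⟩ : ∃ nY : ℝ, nY = Y.card := ⟨_, rfl⟩
  rw [← hnH] at hI1 hI2 hcard hcs hH0'
  rw [← hnY] at hI1 hI2 hcs hY0
  have hmain : nH ^ 2 ≤ nY * (w ^ (-ρ) * E + 2 * nH) := hcs.trans (mul_le_mul_of_nonneg_left hcard hY0.le)
  rcases le_total nH (4 * nY) with hcase | hcase
  · have h3 := numB hw hwle hx10 hB0 hρ hA1 hx1 hx2 hBB (C := C) (by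
      refine lt_of_lt_of_le ?_ (hTe ρ (by linarith))
      rw [hZ]
      linarith)
    have h4 : nY * (x1 * x2 ^ 2 * w ^ (-(s - 1 / 4)) * A) ≤ nY * (4 * (C * (w ^ (-(ρ / 100))) ^ 4)) := by
      refine hI2.trans ?_
      calc C * (w ^ (-(ρ / 100))) ^ 4 * nH ≤ C * (w ^ (-(ρ / 100))) ^ 4 * (4 * nY) :=
            mul_le_mul_of_nonneg_left hcase (by have := hp (-(ρ / 100)); positivity)
        _ = _ := by ring
    exact absurd (le_of_mul_le_mul_left h4 hY0) (not_le.2 h3)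
  · have h3 := numC (C := C) (Λ := Λ) hw hwle hx10 hB0 hC0 hρ hAN2 hx1 hx2 hEb (by
      refine lt_of_lt_of_le ?_ (hTe ρ (by linarith))
      rw [hZ]
      linarith)
    have h4 : nH ^ 2 ≤ 2 * nY * (w ^ (-ρ) * E) := by
      have h7 := mul_le_mul_of_nonneg_right hcase hH0'.le
      linarith
    have h5 : nY * (x1 ^ 4 * A ^ 3 * (V.card : ℝ) ^ 2 * (x2 ^ 2) ^ 2 * (w ^ (-s)) ^ 2) ≤
        C * (w ^ (-(ρ / 100))) ^ 8 * S * (2 * nY * (w ^ (-ρ) * E)) :=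
      hI1.trans (mul_le_mul_of_nonneg_left h4 (by have := hp (-(ρ / 100)); positivity))
    have hfac : 0 < nY * (x1 * (A * (V.card : ℝ))) := by positivity
    have h6 : (nY * (x1 * (A * (V.card : ℝ)))) *
        (x1 ^ 3 * (A ^ 2 * (V.card : ℝ)) * x2 ^ 4 * (w ^ (-s)) ^ 2) ≤ (nY * (x1 * (A * (V.card : ℝ)))) *
        (4 * C * (w ^ (-(ρ / 100))) ^ 8 * w ^ (-s₁) * w ^ (-ρ) * E) := by
      calc _ = nY * (x1 ^ 4 * A ^ 3 * (V.card : ℝ) ^ 2 * (x2 ^ 2) ^ 2 * (w ^ (-s)) ^ 2) := by ring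
        _ ≤ _ := h5
        _ = _ := by rw [hS]; ring
    exact absurd (le_of_mul_le_mul_left h6 hfac) (not_le.2 h3)

end

end Pool.Agent.A54.HSV
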