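import Pool.Agent.Lib.HS.Bd.V.Spec

/-!
# HS/Bd/V: finite sets of levels

`V_Lev`: the set `Lev Q j` consists of the products of exactly `j` primes of `Q`; its cardinality, the operator of the
levels as a finite sum, the sizes of its elements, the number of prime factors and of divisors of the square.
-/

set_option autoImplicit false

namespace Pool.Agent.A54.HSV

open MeasureTheory Filter Topology Set
open scoped ContDiff ComplexConjugate UpperHalfPlane MatrixGroups ENNReal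
open Pool.Agent.A54.Dyn (G fl base ze io mk4 dom)
open Pool.Agent.A54.Av (Mat NonSc)
open Pool.Agent.A54.HS
open Pool.Agent.A54.Hp Pool.Agent.A54.Hp.Hk Pool.Agent.A54.Hp.A2M

noncomputable section

namespace LevM

/-- a product of `j + 1` primes of `Q` is a prime of `Q` times a product of `j` primes of `Q` -/
lemma dec {Q : Finset ℕ} (hQ : ∀ p ∈ Q, p.Prime) {j n : ℕ} (h : Pool.Agent.A54.HS.sm Q (j + 1) n) :
    ∃ p ∈ Q, ∃ m : ℕ, n = p * m ∧ Pool.Agent.A54.HS.sm Q j m := by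
  have hn1 : n ≠ 1 := by
    rintro rfl
    have h1 := h.2.2
    rw [ArithmeticFunction.cardFactors_one] at h1
    omega
  have hpQ := h.2.1 _ (Nat.minFac_prime hn1) (Nat.minFac_dvd n)
  obtain ⟨m, hm⟩ := Nat.minFac_dvd n
  refine ⟨n.minFac, hpQ, m, hm, ?_⟩
  rw [hm] at h
  exact (Pool.Agent.A54.HS.sm_dvd hQ hpQ).1 h

lemma dvd_pow {Q : Finset ℕ} (hQ : ∀ p ∈ Q, p.Prime) : ∀ (j n : ℕ), Pool.Agent.A54.HS.sm Q j n →
    n ∣ (∏ p ∈ Q, p) ^ j
  | 0, n, h => by
    rw [Pool.Agent.A54.HS.sm_zero h]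
    exact one_dvd _
  | j + 1, n, h => by
    obtain ⟨p, hp, m, rfl, hm⟩ := dec hQ h
    rw [pow_succ']
    exact mul_dvd_mul (Finset.dvd_prod_of_mem (fun p => p) hp) (dvd_pow hQ j m hm)

lemma mem {Q : Finset ℕ} (hQ : ∀ p ∈ Q, p.Prime) (j n : ℕ) : n ∈ Lev Q j ↔ Pool.Agent.A54.HS.sm Q j n := by
  classical
  unfold Lev
  rw [Finset.mem_filter, Nat.mem_divisors]
  constructor
  · exact fun h => h.2
  · intro h
    refine ⟨⟨dvd_pow hQ j n h, pow_ne_zero _ ?_⟩, h⟩
    exact Finset.prod_ne_zero_iff.2 fun p hp => (hQ p hp).ne_zero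

lemma card {Q : Finset ℕ} (hQ : ∀ p ∈ Q, p.Prime) : ∀ j : ℕ, (Lev Q j).card ≤ Q.card ^ j
  | 0 => by
    have h : Lev Q 0 ⊆ {1} := fun n hn => by
      rw [Finset.mem_singleton]
      exact Pool.Agent.A54.HS.sm_zero ((mem hQ 0 n).1 hn)
    simpa using Finset.card_le_card h
  | j + 1 => by
    classical
    have h : Lev Q (j + 1) ⊆ (Q ×ˢ Lev Q j).image (fun t => t.1 * t.2) := fun n hn => by
      obtain ⟨p, hp, m, hm, hs⟩ := dec hQ ((mem hQ (j + 1) n).1 hn)
      rw [Finset.mem_image]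
      exact ⟨(p, m), Finset.mem_product.2 ⟨hp, (mem hQ j m).2 hs⟩, hm.symm⟩
    refine (Finset.card_le_card h).trans (Finset.card_image_le.trans ?_)
    rw [Finset.card_product, pow_succ']
    exact Nat.mul_le_mul_left _ (card hQ j)

lemma El_eq {Q : Finset ℕ} (hQ : ∀ p ∈ Q, p.Prime) (j : ℕ) (F : G → ℝ≥0∞) (y : G) :
    Pool.Agent.A54.HS.El Q j F y = EM (Lev Q j) F y := by
  classical
  unfold Pool.Agent.A54.HS.El EM
  rw [tsum_eq_sum (s := Lev Q j)]
  · exact Finset.sum_congr rfl fun n hn => if_pos ((mem hQ j n).1 hn)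
  · intro n hn
    exact if_neg fun h => hn ((mem hQ j n).2 h)

lemma blk {Q : Finset ℕ} {M : ℝ} (hM : 1 ≤ M) (hQ : Q ⊆ Pm M) :
    ∀ p ∈ Q, p.Prime ∧ M < (p : ℝ) ∧ (p : ℝ) ≤ 2 * M := by
  intro p hp
  have h1 := hQ hp
  unfold Pm at h1
  rw [Finset.mem_filter, Finset.mem_Ioc] at h1
  exact ⟨h1.2, (Nat.floor_lt (by linarith)).1 h1.1.1, (Nat.le_floor_iff (by linarith)).1 h1.1.2⟩

/-- at most four divisors for each prime factor of the square -/
lemma div_card {Q : Finset ℕ} (hQ : ∀ p ∈ Q, p.Prime) : ∀ (j n : ℕ), Pool.Agent.A54.HS.sm Q j n →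
    (n ^ 2).divisors.card ≤ 4 ^ j
  | 0, n, h => by
    rw [Pool.Agent.A54.HS.sm_zero h]
    simp
  | j + 1, n, h => by
    classical
    obtain ⟨p, hp, m, rfl, hm⟩ := dec hQ h
    have h1 : (p ^ 2).divisors.card ≤ 4 := by
      rw [Nat.divisors_prime_pow (hQ p hp), Finset.card_map, Finset.card_range]
      norm_num
    rw [mul_pow, Nat.divisors_mul, pow_succ' 4 j]
    exact Finset.card_mul_le.trans (Nat.mul_le_mul h1 (div_card hQ j m hm))

lemma len {Q : Finset ℕ} {j n : ℕ} (h : Pool.Agent.A54.HS.sm Q j n) : n.primeFactorsList.length = j := by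
  rw [← ArithmeticFunction.cardFactors_apply]
  exact h.2.2

end LevM

/-- **Lev** the finite sets of levels -/
theorem tLev : V_Lev := by
  refine ⟨fun Q hQ j => ⟨LevM.mem hQ j, LevM.card hQ j, LevM.El_eq hQ j⟩, ?_, ?_⟩
  · intro Q M hM hQM j n hn
    have hb := LevM.blk hM hQM
    have hQ : ∀ p ∈ Q, p.Prime := fun p hp => (hb p hp).1
    have hs := (LevM.mem hQ j n).1 hn
    obtain ⟨h1, h2⟩ := Pool.Agent.A54.HS.sm_size hM hb j n hs
    exact ⟨Nat.pos_of_ne_zero hs.1, h1, h2, LevM.len hs, LevM.div_card hQ j n hs⟩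
  · intro Q1 Q2 M1 M2 hM1 hM2 hQ1 hQ2 j1 j2 m hm
    classical
    unfold L2 at hm
    rw [Finset.mem_image] at hm
    obtain ⟨⟨a, b⟩, hab, rfl⟩ := hm
    rw [Finset.mem_product] at hab
    have hb1 := LevM.blk hM1 hQ1
    have hb2 := LevM.blk hM2 hQ2
    have hs1 := (LevM.mem (fun p hp => (hb1 p hp).1) j1 a).1 hab.1
    have hs2 := (LevM.mem (fun p hp => (hb2 p hp).1) j2 b).1 hab.2
    obtain ⟨h1, h2⟩ := Pool.Agent.A54.HS.sm_size hM1 hb1 j1 a hs1
    obtain ⟨h3, h4⟩ := Pool.Agent.A54.HS.sm_size hM2 hb2 j2 b hs2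
    have hM10 : 0 < M1 := by linarith
    have hM20 : 0 < M2 := by linarith
    refine ⟨Nat.mul_pos (Nat.pos_of_ne_zero hs1.1) (Nat.pos_of_ne_zero hs2.1), ?_, ?_, ?_⟩
    · push_cast
      exact mul_le_mul h1 h3 (by positivity) (by positivity)
    · push_cast
      exact mul_le_mul h2 h4 (by positivity) (by positivity)
    · rw [← ArithmeticFunction.cardFactors_apply, ArithmeticFunction.cardFactors_mul hs1.1 hs2.1, hs1.2.2, hs2.2.2]

end

end Pool.Agent.A54.HSV
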