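import Pool.Agent.Lib.HS.Bd.V.Spec

/-!
# HS/Bd/V: the light part
-/

set_option autoImplicit false

namespace Pool.Agent.A54.HSV

open MeasureTheory Filter Topology Set
open scoped ContDiff ComplexConjugate UpperHalfPlane MatrixGroups ENNReal
open Pool.Agent.A54.Dyn (G fl base ze io mk4 dom)
open Pool.Agent.A54.Av (Mat NonSc)
open Pool.Agent.A54.HS
open Pool.Agent.A54.Hp Pool.Agent.A54.Hp.Hk Pool.Agent.A54.Hp.A2M

noncomputable section

namespace LtM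

lemma measFF : MeasurableSet FF := Dyn.measurable_base ModularGroup.isOpen_fdo.measurableSet

lemma meas_ff {Φ : G → ℂ} (hΦ : Continuous Φ) {U : Set G} (hU : MeasurableSet U) :
    Measurable (AIkM.ff Φ U) := (hΦ.enorm.measurable).indicator hU

/-- one correlation -/
lemma one (hIx : V_Ix) (hBx : V_Bx) {Φ : G → ℂ} (hΦ : Continuous Φ) {R w C A δ : ℝ} (hA : 0 ≤ A)
    (hCT : CT R w C) {W0 : Set G} (hW : MeasurableSet (W0 \ Hv Φ W0 C w δ)) {z : Fin 3 → ℤ}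
    (hz : ms Φ (cel R w z) ≤ ENNReal.ofReal (2 * A)) (h : G) :
    Ix Φ (W0 \ Hv Φ W0 C w δ) h (cel R w z) ≤ ENNReal.ofReal √(2 * A * δ) := by
  obtain ⟨h1, h2⟩ := hIx Φ hΦ (W0 \ Hv Φ W0 C w δ) (cel R w z) hW (meas_cel R w z) h
  by_cases h0 : Ix Φ (W0 \ Hv Φ W0 C w δ) h (cel R w z) = 0
  · rw [h0]
    exact bot_le
  obtain ⟨x, hx, hxW⟩ := h2 h0
  have h3 : ms Φ (W0 ∩ tb C w (h * x)) < ENNReal.ofReal δ := by
    by_contra h4
    exact hxW.2 ⟨hxW.1, not_lt.1 h4⟩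
  have h4 : ms Φ ((W0 \ Hv Φ W0 C w δ) ∩ {y | h⁻¹ * y ∈ cel R w z}) ≤ ENNReal.ofReal δ := by
    refine le_trans ?_ h3.le
    refine lintegral_mono_set ?_
    rintro y ⟨hy1, hy2⟩
    refine ⟨hy1.1, ?_⟩
    have h5 := (hBx.2.2.2.1 C w h (h⁻¹ * y) x).2 (hCT z x hx (h⁻¹ * y) hy2)
    rwa [mul_inv_cancel_left] at h5
  have h5 : Ix Φ (W0 \ Hv Φ W0 C w δ) h (cel R w z) ^ 2 ≤ ENNReal.ofReal √(2 * A * δ) ^ 2 := by
    refine h1.trans ((mul_le_mul' hz h4).trans (le_of_eq ?_))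
    rw [← ENNReal.ofReal_mul (by positivity), ← ENNReal.ofReal_pow (by positivity)]
    by_cases hδ : 0 ≤ δ
    · rw [Real.sq_sqrt (by positivity)]
    · have h6 : 2 * A * δ ≤ 0 := mul_nonpos_of_nonneg_of_nonpos (by positivity) (not_le.1 hδ).le
      rw [Real.sqrt_eq_zero_of_nonpos h6, ENNReal.ofReal_of_nonpos h6]
      simp
  exact (ENNReal.pow_le_pow_left_iff (by norm_num)).1 h5

end LtM

open LtM in
theorem tLt : V_Lev → V_Her → V_Bil → V_Ix → V_Bx → V_Hv → V_Lt := by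
  classical
  intro hLev hHer hBil hIx hBx hHv l Φ hE k R w C A δ M hw hw1 hC hA hδ hM hCT V hV Q hQ W0 hW0 hI0
  obtain ⟨hv1, hv2⟩ := hHv Φ hE.cont hE.inv W0 hW0 hI0 C w δ
  have hQp : ∀ p ∈ Q, p.Prime := fun p hp => (Finset.mem_filter.1 (hQ hp)).2
  set W' : Set G := W0 \ Hv Φ W0 C w δ with hW'
  have mW' : MeasurableSet W' := hW0.diff hv1
  have iW' : LInv W' := by
    intro γ g
    rw [hW', Set.mem_sdiff, Set.mem_sdiff, hI0 γ g, hv2 γ g]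
  have mF : Measurable (AIkM.ff Φ (celU R w V)) := meas_ff hE.cont (meas_celU R w V)
  have mU : Measurable (AIkM.ff Φ (FF ∩ W')) := meas_ff hE.cont (measFF.inter mW')
  obtain ⟨hL1, hL2, hL3⟩ := hLev.1 Q hQp k
  -- the left side
  have e1 : ∫⁻ y in FF ∩ W', El Q k (AIkM.ff Φ (celU R w V)) y * ‖Φ y‖ₑ ∂nu =
      ∑ m ∈ Lev Q k, (m : ℝ≥0∞)⁻¹ *
        ∫⁻ x, AIkM.ff Φ (FF ∩ W') x * hq (AIkM.ff Φ (celU R w V)) (m * m) x ∂nu := by
    rw [← lintegral_indicator (measFF.inter mW')]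
    have e2 : ∀ x, (FF ∩ W').indicator (fun y => El Q k (AIkM.ff Φ (celU R w V)) y * ‖Φ y‖ₑ) x =
        ∑ m ∈ Lev Q k, (m : ℝ≥0∞)⁻¹ * (AIkM.ff Φ (FF ∩ W') x * hq (AIkM.ff Φ (celU R w V)) (m * m) x) := by
      intro x
      by_cases hx : x ∈ FF ∩ W'
      · rw [indicator_of_mem hx, hL3, EM, Finset.sum_mul]
        have hf : AIkM.ff Φ (FF ∩ W') x = ‖Φ x‖ₑ := indicator_of_mem hx _
        refine Finset.sum_congr rfl fun m _ => ?_
        rw [hf]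
        ring
      · rw [indicator_of_notMem hx]
        have hf : AIkM.ff Φ (FF ∩ W') x = 0 := indicator_of_notMem hx _
        refine (Finset.sum_eq_zero fun m _ => ?_).symm
        rw [hf, zero_mul, mul_zero]
    have m2 : ∀ m : ℕ, Measurable fun x => AIkM.ff Φ (FF ∩ W') x * hq (AIkM.ff Φ (celU R w V)) (m * m) x :=
      fun m => mU.mul (meas_hq mF _)
    have m3 : ∀ m ∈ Lev Q k, Measurable fun x => (m : ℝ≥0∞)⁻¹ *
        (AIkM.ff Φ (FF ∩ W') x * hq (AIkM.ff Φ (celU R w V)) (m * m) x) := fun m _ => (m2 m).const_mul _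
    simp_rw [e2]
    rw [lintegral_finsetSum _ m3]
    exact Finset.sum_congr rfl fun m _ => lintegral_const_mul _ (m2 m)
  rw [e1]
  set X : ℝ := √(2 * A * δ) with hX
  have hX0 : 0 ≤ X := Real.sqrt_nonneg _
  -- one level
  have h1 : ∀ m ∈ Lev Q k, (m : ℝ≥0∞)⁻¹ *
      ∫⁻ x, AIkM.ff Φ (FF ∩ W') x * hq (AIkM.ff Φ (celU R w V)) (m * m) x ∂nu ≤
        ENNReal.ofReal (2 * 4 ^ k * (2 * M) ^ k * (V.card : ℝ) * X) := by
    intro m hm
    obtain ⟨hm0, -, hm1, -, hm2⟩ := hLev.2.1 Q M hM hQ k m hm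
    have hm0' : (0 : ℝ) < m := by exact_mod_cast hm0
    have h2 := hBil l Φ hE R w V W' mW' iW' m hm0
    have h3 : ∑ z ∈ V, ∑ r ∈ RepN m, Ix Φ W' (nm r) (cel R w z) ≤
        ENNReal.ofReal ((V.card : ℝ) * ((4 ^ k * (m : ℝ) ^ 2) * X)) := by
      have h4 : ∀ z ∈ V, ∑ r ∈ RepN m, Ix Φ W' (nm r) (cel R w z) ≤
          ENNReal.ofReal ((4 ^ k * (m : ℝ) ^ 2) * X) := by
        intro z hz
        refine (Finset.sum_le_sum fun r _ => one hIx hBx hE.cont hA hCT mW' (hV z hz) (nm r)).trans ?_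
        rw [Finset.sum_const, nsmul_eq_mul, ← ENNReal.ofReal_natCast, ← ENNReal.ofReal_mul (Nat.cast_nonneg _)]
        refine ENNReal.ofReal_le_ofReal (mul_le_mul_of_nonneg_right ?_ hX0)
        have h5 : (RepN m).card ≤ 4 ^ k * m ^ 2 :=
          ((hHer m hm0).2.2.2.1).trans (Nat.mul_le_mul_right _ hm2)
        exact_mod_cast h5
      refine (Finset.sum_le_sum h4).trans ?_
      rw [Finset.sum_const, nsmul_eq_mul, ← ENNReal.ofReal_natCast, ← ENNReal.ofReal_mul (Nat.cast_nonneg _)]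
    have h4 : (m : ℝ≥0∞)⁻¹ = ENNReal.ofReal ((m : ℝ)⁻¹) := by
      rw [ENNReal.ofReal_inv_of_pos hm0', ENNReal.ofReal_natCast]
    have h5 : (2 : ℝ≥0∞) = ENNReal.ofReal 2 := by simp
    refine (mul_le_mul' le_rfl (h2.trans (mul_le_mul' le_rfl h3))).trans ?_
    rw [h4, h5, ← ENNReal.ofReal_mul (by norm_num), ← ENNReal.ofReal_mul (by positivity)]
    refine ENNReal.ofReal_le_ofReal ?_
    calc (m : ℝ)⁻¹ * (2 * ((V.card : ℝ) * ((4 ^ k * (m : ℝ) ^ 2) * X)))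
        = 2 * 4 ^ k * (m : ℝ) * (V.card : ℝ) * X := by
          field_simp
      _ ≤ 2 * 4 ^ k * (2 * M) ^ k * (V.card : ℝ) * X := by
          gcongr
  refine (Finset.sum_le_sum h1).trans ?_
  rw [Finset.sum_const, nsmul_eq_mul, ← ENNReal.ofReal_natCast, ← ENNReal.ofReal_mul (Nat.cast_nonneg _)]
  refine ENNReal.ofReal_le_ofReal ?_
  have h6 : ((Lev Q k).card : ℝ) ≤ (Q.card : ℝ) ^ k := by exact_mod_cast hL2
  have hM0 : (0 : ℝ) ≤ M := by linarith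
  calc ((Lev Q k).card : ℝ) * (2 * 4 ^ k * (2 * M) ^ k * (V.card : ℝ) * X)
      ≤ (Q.card : ℝ) ^ k * (2 * 4 ^ k * (2 * M) ^ k * (V.card : ℝ) * X) :=
        mul_le_mul_of_nonneg_right h6 (by positivity)
    _ = _ := by ring

end

end Pool.Agent.A54.HSV
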