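import Pool.Agent.Lib.HS.Bd.V.Spec
import Pool.Agent.Lib.HS.Bd.Pc5

/-!
# HS/Bd/V: Pc, the pair count for a fan
-/

set_option autoImplicit false

namespace Pool.Agent.A54.HSV

open Pool.Agent.A54.Av (Mat)
open _root_.HSL _root_.HSL.PC

namespace PcM

/-- the pairs of a fan -/
theorem fan_prs {C w L : ℝ} {r : ℕ} {a : HSL.MR} {b : Mat → HSL.MR} {H : Finset (Mat × HSL.MZ)}
    (hC : 1 ≤ C) (hw : 0 ≤ w) (hw1 : w ≤ 1) (hF : Fan C w L r a b H) (k : ℕ) (hk : r ≤ 2 * k)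
    (A : Finset ((Mat × HSL.MZ) × (Mat × HSL.MZ))) (hA : A ⊆ HSL.prs H) :
    Prs (2 * C * C) w a k L 1 A (fun t => t.1.2) (fun t => t.2.2) := by
  obtain ⟨-, -, -, -, f5, f6, -⟩ := HSL.tFr
  constructor
  · intro t ht
    obtain ⟨g1, g2, g3⟩ := HSL.mem_prs.1 (hA ht)
    obtain ⟨p1, b1, m1, r1, l1, c1⟩ := hF.ret t.1 g1
    obtain ⟨p2, b2, m2, r2, l2, c2⟩ := hF.ret t.2 g2
    refine ⟨p1, p2, m1, m2, r1.2.1, r2.2.1, r1.1, r2.1, l1, l2, c1.trans hk, c2.trans hk, ?_⟩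
    rw [← g3] at r2
    have h := f5 C C w a (b t.1.1) a m1 m2 t.2.2.adjugate t.1.2 b1 hw hw1 hC hC r1 (f6 _ _ _ _ _ _ r2)
    have h2 := h.2.2
    have e : ((m2 * m1 : ℕ) : ℝ) = (m1 : ℝ) * m2 := by push_cast; ring
    rw [e] at h2
    exact h2
  · intro T hT hrel
    have h1 : T.card ≤ 1 := by
      rw [Finset.card_le_one]
      intro t ht t' ht'
      obtain ⟨g, hg, e1, e2⟩ := hrel t ht t' ht'
      obtain ⟨q1, q2, q3⟩ := HSL.mem_prs.1 (hA (hT ht))
      obtain ⟨q1', q2', q3'⟩ := HSL.mem_prs.1 (hA (hT ht'))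
      exact Prod.ext (hF.inq t.1 q1 t'.1 q1' g hg e1) (hF.inq t.2 q2 t'.2 q2' g hg e2)
    exact_mod_cast h1

end PcM

open PcM

theorem tPc : V_Pc := by
  intro r C R ε hC hR hε
  set k : ℕ := max r 1 with hk
  have hk1 : 1 ≤ k := le_max_right _ _
  have hrk : r ≤ 2 * k := by have : r ≤ k := le_max_left _ _; omega
  have hC' : 1 ≤ 2 * C * C := by nlinarith
  obtain ⟨K0, hK0⟩ := pcAll k (2 * C * C) R (2 * ε) hk1 hC' hR (by positivity)
  set K1 : ℝ := max K0 1 with hK1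
  have hK11 : 1 ≤ K1 := le_max_right _ _
  have hK1p : 0 < K1 := by linarith
  refine ⟨1 / K1 ^ 2, by positivity, by rw [div_le_one (by positivity)]; exact one_le_pow₀ hK11, ?_⟩
  intro w L D hw hw1 hL hLw hD a b ha hent hDg H hF
  set K : ℝ := 1 / √w with hK
  have hsw : 0 < √w := Real.sqrt_pos.2 hw
  have hKp : 0 < K := by positivity
  have hK2 : K ^ 2 = 1 / w := by
    rw [hK, div_pow, one_pow, Real.sq_sqrt hw.le]
  have hwK : 1 / K ^ 2 = w := by rw [hK2, one_div_one_div]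
  have hKK1 : K1 ≤ K := by
    have h1 : K1 ^ 2 ≤ K ^ 2 := by
      rw [hK2, le_div_iff₀ hw, mul_comm]
      rw [le_div_iff₀ (by positivity)] at hw1
      exact hw1
    exact (pow_le_pow_iff_left₀ hK1p.le hKp.le two_ne_zero).1 h1
  have hK1' : 1 ≤ K := hK11.trans hKK1
  have hw1' : w ≤ 1 := by
    rw [← hwK, div_le_one (by positivity)]; exact one_le_pow₀ hK1'
  have hLK : L ≤ K ^ 3 := by
    calc L ≤ w ^ (-1 : ℝ) := hLw
      _ = K ^ 2 := by rw [hK2, Real.rpow_neg_one, one_div]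
      _ ≤ K ^ 3 := pow_le_pow_right₀ hK1' (by norm_num)
  have hD0 : 0 < D := by linarith
  have hDq : Dq (fun _ => True) a K D := by
    intro v hv ht _ h0 h1 h2
    have e : D / K ^ 2 = D * w := by rw [← hwK]; ring
    rw [e] at h1 h2
    exact hDg v hv ht h0 h1 h2
  classical
  set A1 := (HSL.prs H).filter (fun t => tf (lp t) ≠ 0) with hA1
  set A2 := (HSL.prs H).filter (fun t => ¬ tf (lp t) ≠ 0) with hA2
  have hsplit : (HSL.prs H).card = A1.card + A2.card := (Finset.card_filter_add_card_filter_not _).symm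
  have c1 := hK0 _ K 1 L D a A1 (fun t => t.1.2) (fun t => t.2.2) ((le_max_left _ _).trans hKK1) le_rfl hL hLK hD0
    ha hent hDq (by
      rw [hwK]
      exact fan_prs hC hw.le hw1' hF k hrk A1 (Finset.filter_subset _ _))
    (fun t ht => (Finset.mem_filter.1 ht).2)
  have c2 : (A2.card : ℝ) ≤ 2 * (H.card : ℝ) := by
    apply HSL.tCL0 Mat H A2
    · intro t ht
      obtain ⟨p1, -, m, r1, -⟩ := hF.ret t ht
      refine ⟨p1, ?_⟩
      rw [r1.1]
      have := r1.2.1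
      positivity
    · exact Finset.filter_subset _ _
    · intro t ht
      exact not_not.1 (Finset.mem_filter.1 ht).2
  have hcast : ((HSL.prs H).card : ℝ) = (A1.card : ℝ) + (A2.card : ℝ) := by exact_mod_cast hsplit
  rw [hcast]
  have e1 : K ^ (2 * ε) = w ^ (-ε) := by
    have h2 : K ^ (2 : ℝ) = w⁻¹ := by
      rw [show (2 : ℝ) = ((2 : ℕ) : ℝ) by norm_num, Real.rpow_natCast, hK2, one_div]
    rw [Real.rpow_mul hKp.le, h2, Real.inv_rpow hw.le, Real.rpow_neg hw.le]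
  have e2 : L ^ 6 / K ^ 4 = L ^ 6 * w ^ 2 := by
    have : K ^ 4 = (1 / w) ^ 2 := by rw [← hK2]; ring
    rw [this]; field_simp
  have e3 : L ^ 4 / K ^ 2 = L ^ 4 * w := by
    rw [hK2]; field_simp
  have e4 : (L ^ 2 / D) ^ (3 / 2 : ℝ) = L ^ 3 / (D * √D) := by
    rw [Real.div_rpow (by positivity) hD0.le, HSL.rpow_thr L (by linarith), HSL.rpow_three_half D hD0.le]
    congr 1
    calc √D ^ 3 = √D * √D * √D := by ring
      _ = D * √D := by rw [Real.mul_self_sqrt hD0.le]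
  rw [e1, e2, e3, one_mul] at c1
  rw [e4]
  exact add_le_add c1 c2

end Pool.Agent.A54.HSV
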