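import Mathlib

/-!
# HS/Bd/V: dyadic pigeonhole for the quotient of two functions (helper84)
-/

set_option autoImplicit false

namespace Pool.Agent.A54.HSV

open MeasureTheory Filter Topology Set
open scoped ENNReal

noncomputable section

/-- Cauchy–Schwarz -/
lemma cs2 {X : Type} [MeasurableSpace X] (μ : Measure X) (G f : X → ℝ≥0∞) (hG : Measurable G)
    (hf : Measurable f) {T a B : ℝ} (hT : 0 < T) (ha : 0 < a) (hB : 0 < B)
    (h1 : ENNReal.ofReal T ≤ ∫⁻ x, G x * f x ∂μ) (h2 : ∫⁻ x, G x ^ 2 ∂μ ≤ ENNReal.ofReal a)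
    (h3 : ∫⁻ x, f x ^ 2 ∂μ ≤ ENNReal.ofReal B) : T ^ 2 ≤ a * B := by
  set t : ℝ := √(B / a) with ht
  have ht0 : 0 < t := Real.sqrt_pos.2 (by positivity)
  have htt : t * t = B / a := Real.mul_self_sqrt (by positivity)
  have hpt : ∀ x : ℝ≥0∞, ∀ y : ℝ≥0∞, 2 * (x * y) ≤ ENNReal.ofReal t * x ^ 2 + ENNReal.ofReal t⁻¹ * y ^ 2 := by
    intro x y
    rcases eq_or_ne x ⊤ with rfl | hx
    · have : ENNReal.ofReal t * (⊤ : ℝ≥0∞) ^ 2 = ⊤ := by
        rw [ENNReal.top_pow (by norm_num), ENNReal.mul_top]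
        exact (ENNReal.ofReal_pos.2 ht0).ne'
      rw [this, top_add]
      exact le_top
    rcases eq_or_ne y ⊤ with rfl | hy
    · have : ENNReal.ofReal t⁻¹ * (⊤ : ℝ≥0∞) ^ 2 = ⊤ := by
        rw [ENNReal.top_pow (by norm_num), ENNReal.mul_top]
        exact (ENNReal.ofReal_pos.2 (inv_pos.2 ht0)).ne'
      rw [this, add_top]
      exact le_top
    lift x to NNReal using hx
    lift y to NNReal using hy
    have e1 : (2 : ℝ≥0∞) * ((x : ℝ≥0∞) * y) = ENNReal.ofReal (2 * ((x : ℝ) * y)) := by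
      rw [ENNReal.ofReal_mul (by norm_num), ENNReal.ofReal_mul x.coe_nonneg]
      simp
    have e2 : ENNReal.ofReal t * (x : ℝ≥0∞) ^ 2 + ENNReal.ofReal t⁻¹ * (y : ℝ≥0∞) ^ 2 =
        ENNReal.ofReal (t * (x : ℝ) ^ 2 + t⁻¹ * (y : ℝ) ^ 2) := by
      rw [ENNReal.ofReal_add (by positivity) (by positivity), ENNReal.ofReal_mul ht0.le,
        ENNReal.ofReal_mul (inv_pos.2 ht0).le, ENNReal.ofReal_pow x.coe_nonneg,
          ENNReal.ofReal_pow y.coe_nonneg]
      simp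
    rw [e1, e2]
    refine ENNReal.ofReal_le_ofReal ?_
    have h5 : 0 ≤ t⁻¹ * (t * (x : ℝ) - y) ^ 2 := by positivity
    have h6 : t⁻¹ * (t * (x : ℝ) - y) ^ 2 = t * (x : ℝ) ^ 2 + t⁻¹ * (y : ℝ) ^ 2 - 2 * ((x : ℝ) * y) := by
      field_simp
      ring
    linarith
  have h4 : ENNReal.ofReal (2 * T) ≤ ENNReal.ofReal (t * a + t⁻¹ * B) := by
    calc ENNReal.ofReal (2 * T) = 2 * ENNReal.ofReal T := by
          rw [ENNReal.ofReal_mul (by norm_num)]
          simp
      _ ≤ 2 * ∫⁻ x, G x * f x ∂μ := mul_le_mul' le_rfl h1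
      _ = ∫⁻ x, 2 * (G x * f x) ∂μ := (lintegral_const_mul _ (hG.mul hf)).symm
      _ ≤ ∫⁻ x, (ENNReal.ofReal t * G x ^ 2 + ENNReal.ofReal t⁻¹ * f x ^ 2) ∂μ :=
          lintegral_mono fun x => hpt _ _
      _ = ENNReal.ofReal t * ∫⁻ x, G x ^ 2 ∂μ + ENNReal.ofReal t⁻¹ * ∫⁻ x, f x ^ 2 ∂μ := by
          rw [lintegral_add_left ((hG.pow_const 2).const_mul _), lintegral_const_mul _ (hG.pow_const 2),
            lintegral_const_mul _ (hf.pow_const 2)]
      _ ≤ ENNReal.ofReal t * ENNReal.ofReal a + ENNReal.ofReal t⁻¹ * ENNReal.ofReal B :=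
          add_le_add (mul_le_mul' le_rfl h2) (mul_le_mul' le_rfl h3)
      _ = _ := by
          rw [← ENNReal.ofReal_mul ht0.le, ← ENNReal.ofReal_mul (inv_pos.2 ht0).le,
            ← ENNReal.ofReal_add (by positivity) (by positivity)]
  have h5 : 2 * T ≤ t * a + t⁻¹ * B := (ENNReal.ofReal_le_ofReal_iff (by positivity)).1 h4
  have h6 : t⁻¹ * B = t * a := by
    have h8 : t * t * a = B := by
      rw [htt]
      field_simp
    have : t⁻¹ * (t * t * a) = t * a := by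
      field_simp
    rw [← h8]
    exact this
  rw [h6] at h5
  have h7 : T ≤ t * a := by linarith
  calc T ^ 2 ≤ (t * a) ^ 2 := pow_le_pow_left₀ hT.le h7 2
    _ = (t * t) * a * a := by ring
    _ = a * B := by
        rw [htt]
        field_simp

/-- **dyadic pigeonhole** for the quotient `G/f` -/
theorem pigeon {X : Type} [MeasurableSpace X] (μ : Measure X) (G f : X → ℝ≥0∞) (hG : Measurable G)
    (hf : Measurable f) {T a B : ℝ} (hT : 0 < T) (ha : 0 < a) (hB : 0 < B)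
    (h1 : ENNReal.ofReal T ≤ ∫⁻ x, G x * f x ∂μ) (h2 : ∫⁻ x, G x ^ 2 ∂μ ≤ ENNReal.ofReal a)
    (h3 : ∫⁻ x, f x ^ 2 ∂μ ≤ ENNReal.ofReal B) :
    ∃ g : ℝ, 0 < g ∧ T / (4 * B) ≤ g ∧ g ≤ 4 * a / T ∧
      ENNReal.ofReal T ≤ ENNReal.ofReal (12 * (1 + Real.log (a * B / T ^ 2))) *
        ∫⁻ x in {x | ENNReal.ofReal g * f x ≤ G x ∧ G x < ENNReal.ofReal (2 * g) * f x}, G x * f x ∂μ := by
  have hcs := cs2 μ G f hG hf hT ha hB h1 h2 h3
  set Y : ℝ := a * B / T ^ 2 with hY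
  have hT2 : 0 < T ^ 2 := by positivity
  have hY1 : 1 ≤ Y := by
    rw [hY, le_div_iff₀ hT2, one_mul]
    exact hcs
  have hlog : 0 ≤ Real.log Y := Real.log_nonneg hY1
  set g0 : ℝ := T / (4 * B) with hg0
  have hg00 : 0 < g0 := by positivity
  set n : ℕ := ⌈Real.logb 2 (16 * Y)⌉₊ with hn
  have h16 : 0 < 16 * Y := by positivity
  have hlb : (4 : ℝ) ≤ Real.logb 2 (16 * Y) := by
    rw [Real.le_logb_iff_rpow_le (by norm_num) h16]
    have : (2 : ℝ) ^ (4 : ℝ) = 16 := by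
      rw [show (4 : ℝ) = ((4 : ℕ) : ℝ) by norm_num, Real.rpow_natCast]
      norm_num
    rw [this]
    linarith
  have hn1 : (2 : ℝ) ^ n ≥ 16 * Y := by
    have h5 : Real.logb 2 (16 * Y) ≤ n := Nat.le_ceil _
    have h6 := (Real.logb_le_iff_le_rpow (by norm_num : (1 : ℝ) < 2) h16).1 h5
    rwa [Real.rpow_natCast] at h6
  have hn0 : 0 < n := by
    rw [hn, Nat.ceil_pos]
    linarith
  have hn2 : ∀ k < n, (2 : ℝ) ^ k ≤ 16 * Y := by
    intro k hk
    have h5 : (k : ℝ) ≤ Real.logb 2 (16 * Y) := by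
      have h6 : (n : ℝ) < Real.logb 2 (16 * Y) + 1 := Nat.ceil_lt_add_one (by linarith)
      have h7 : (k : ℝ) + 1 ≤ n := by exact_mod_cast hk
      linarith
    have h6 := (Real.le_logb_iff_rpow_le (by norm_num : (1 : ℝ) < 2) h16).1 h5
    rwa [Real.rpow_natCast] at h6
  have hn3 : (n : ℝ) ≤ 6 * (1 + Real.log Y) := by
    have h6 : (n : ℝ) < Real.logb 2 (16 * Y) + 1 := Nat.ceil_lt_add_one (by linarith)
    have h7 : Real.logb 2 (16 * Y) = 4 + Real.logb 2 Y := by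
      rw [Real.logb_mul (by norm_num) (by positivity)]
      congr 1
      rw [show (16 : ℝ) = 2 ^ (4 : ℕ) by norm_num, Real.logb_pow, Real.logb_self_eq_one (by norm_num)]
      norm_num
    have h8 : Real.logb 2 Y ≤ 2 * Real.log Y := by
      rw [Real.logb, div_le_iff₀ (Real.log_pos (by norm_num))]
      have h9 : (1 : ℝ) / 2 ≤ Real.log 2 := by linarith [Real.log_two_gt_d9]
      nlinarith
    linarith
  -- the parts
  set u : ℕ → ℝ := fun k => g0 * 2 ^ k with hu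
  have hu0 : ∀ k, 0 < u k := fun k => by
    show 0 < g0 * 2 ^ k
    positivity
  set S : ℕ → Set X := fun k => {x | ENNReal.ofReal (u k) * f x ≤ G x ∧
    G x < ENNReal.ofReal (2 * u k) * f x} with hS
  have hSm : ∀ k, MeasurableSet (S k) := fun k =>
    (measurableSet_le (hf.const_mul _) hG).inter (measurableSet_lt hG (hf.const_mul _))
  set A1 : Set X := {x | G x < ENNReal.ofReal g0 * f x} with hA1
  set A2 : Set X := {x | ENNReal.ofReal (u n) * f x ≤ G x} with hA2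
  have hA1m : MeasurableSet A1 := measurableSet_lt hG (hf.const_mul _)
  have hA2m : MeasurableSet A2 := measurableSet_le (hf.const_mul _) hG
  have hcov : (univ : Set X) ⊆ (A1 ∪ A2) ∪ ⋃ k ∈ Finset.range n, S k := by
    intro x _
    by_cases hx1 : x ∈ A1
    · exact Or.inl (Or.inl hx1)
    by_cases hx2 : x ∈ A2
    · exact Or.inl (Or.inr hx2)
    refine Or.inr ?_
    have hx1' : ENNReal.ofReal g0 * f x ≤ G x := not_lt.1 hx1
    have hx2' : G x < ENNReal.ofReal (u n) * f x := not_le.1 hx2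
    -- the first index where the inequality changes
    have hex : ∃ k, G x < ENNReal.ofReal (u k) * f x := ⟨n, hx2'⟩
    classical
    set k := Nat.find hex with hk
    have hk1 : G x < ENNReal.ofReal (u k) * f x := Nat.find_spec hex
    have hkn : k ≤ n := Nat.find_min' hex hx2'
    have hk0 : k ≠ 0 := by
      intro h0
      rw [h0] at hk1
      have : u 0 = g0 := by
        show g0 * 2 ^ 0 = g0
        ring
      rw [this] at hk1
      exact absurd hk1 (not_lt.2 hx1')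
    obtain ⟨j, hj⟩ := Nat.exists_eq_succ_of_ne_zero hk0
    have hj1 : ENNReal.ofReal (u j) * f x ≤ G x := by
      have : ¬ G x < ENNReal.ofReal (u j) * f x := Nat.find_min hex (by omega)
      exact not_lt.1 this
    have hj2 : u k = 2 * u j := by
      rw [hj]
      show g0 * 2 ^ (j + 1) = 2 * (g0 * 2 ^ j)
      ring
    rw [mem_iUnion₂]
    refine ⟨j, Finset.mem_range.2 (by omega), hj1, ?_⟩
    rw [← hj2]
    exact hk1
  have hI1 : ∫⁻ x in A1, G x * f x ∂μ ≤ ENNReal.ofReal (T / 4) := by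
    calc ∫⁻ x in A1, G x * f x ∂μ ≤ ∫⁻ x in A1, ENNReal.ofReal g0 * f x ^ 2 ∂μ := by
          refine setLIntegral_mono' hA1m fun x hx => ?_
          rw [sq, ← mul_assoc]
          exact mul_le_mul' (le_of_lt hx) le_rfl
      _ ≤ ∫⁻ x, ENNReal.ofReal g0 * f x ^ 2 ∂μ := setLIntegral_le_lintegral _ _
      _ = ENNReal.ofReal g0 * ∫⁻ x, f x ^ 2 ∂μ := lintegral_const_mul _ (hf.pow_const 2)
      _ ≤ ENNReal.ofReal g0 * ENNReal.ofReal B := mul_le_mul' le_rfl h3
      _ = ENNReal.ofReal (T / 4) := by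
          rw [← ENNReal.ofReal_mul hg00.le]
          congr 1
          rw [hg0]
          field_simp
  have hun : 4 * a / T ≤ u n := by
    show 4 * a / T ≤ g0 * 2 ^ n
    have : 4 * a / T = g0 * (16 * Y) := by
      rw [hg0, hY]
      field_simp
      ring
    rw [this]
    exact mul_le_mul_of_nonneg_left hn1 hg00.le
  have hI2 : ∫⁻ x in A2, G x * f x ∂μ ≤ ENNReal.ofReal (T / 4) := by
    calc ∫⁻ x in A2, G x * f x ∂μ ≤ ∫⁻ x in A2, ENNReal.ofReal (u n)⁻¹ * G x ^ 2 ∂μ := by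
          refine setLIntegral_mono' hA2m fun x hx => ?_
          have h5 : ENNReal.ofReal (u n) * f x ≤ G x := hx
          have h6 : f x ≤ ENNReal.ofReal (u n)⁻¹ * G x := by
            calc f x = ENNReal.ofReal (u n)⁻¹ * (ENNReal.ofReal (u n) * f x) := by
                  rw [← mul_assoc, ← ENNReal.ofReal_mul (inv_pos.2 (hu0 n)).le,
                    inv_mul_cancel₀ (hu0 n).ne', ENNReal.ofReal_one, one_mul]
              _ ≤ _ := mul_le_mul' le_rfl h5
          calc G x * f x ≤ G x * (ENNReal.ofReal (u n)⁻¹ * G x) := mul_le_mul' le_rfl h6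
            _ = _ := by ring
      _ ≤ ∫⁻ x, ENNReal.ofReal (u n)⁻¹ * G x ^ 2 ∂μ := setLIntegral_le_lintegral _ _
      _ = ENNReal.ofReal (u n)⁻¹ * ∫⁻ x, G x ^ 2 ∂μ := lintegral_const_mul _ (hG.pow_const 2)
      _ ≤ ENNReal.ofReal (u n)⁻¹ * ENNReal.ofReal a := mul_le_mul' le_rfl h2
      _ ≤ ENNReal.ofReal (T / 4) := by
          rw [← ENNReal.ofReal_mul (inv_pos.2 (hu0 n)).le]
          refine ENNReal.ofReal_le_ofReal ?_
          rw [inv_mul_le_iff₀ (hu0 n)]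
          rw [div_le_iff₀ hT] at hun
          linarith
  have hI3 : ∫⁻ x in ⋃ k ∈ Finset.range n, S k, G x * f x ∂μ ≤
      ∑ k ∈ Finset.range n, ∫⁻ x in S k, G x * f x ∂μ := by
    have e : ⋃ k ∈ Finset.range n, S k = ⋃ k : Fin n, S k := by
      ext x
      simp only [mem_iUnion, Finset.mem_range, exists_prop]
      exact ⟨fun ⟨k, hk, h⟩ => ⟨⟨k, hk⟩, h⟩, fun ⟨k, h⟩ => ⟨k, k.2, h⟩⟩
    rw [e]
    refine (lintegral_iUnion_le _ _).trans (le_of_eq ?_)
    rw [tsum_fintype]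
    exact Fin.sum_univ_eq_sum_range (fun k => ∫⁻ x in S k, G x * f x ∂μ) n
  have hsum : ENNReal.ofReal T ≤ ENNReal.ofReal (T / 2) + ∑ k ∈ Finset.range n, ∫⁻ x in S k, G x * f x ∂μ := by
    calc ENNReal.ofReal T ≤ ∫⁻ x, G x * f x ∂μ := h1
      _ = ∫⁻ x in univ, G x * f x ∂μ := by rw [Measure.restrict_univ]
      _ ≤ ∫⁻ x in (A1 ∪ A2) ∪ ⋃ k ∈ Finset.range n, S k, G x * f x ∂μ := lintegral_mono_set hcov
      _ ≤ ∫⁻ x in A1 ∪ A2, G x * f x ∂μ + ∫⁻ x in ⋃ k ∈ Finset.range n, S k, G x * f x ∂μ :=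
          lintegral_union_le _ _ _
      _ ≤ (∫⁻ x in A1, G x * f x ∂μ + ∫⁻ x in A2, G x * f x ∂μ) +
          ∑ k ∈ Finset.range n, ∫⁻ x in S k, G x * f x ∂μ :=
          add_le_add (lintegral_union_le _ _ _) hI3
      _ ≤ (ENNReal.ofReal (T / 4) + ENNReal.ofReal (T / 4)) +
          ∑ k ∈ Finset.range n, ∫⁻ x in S k, G x * f x ∂μ := by gcongr
      _ = _ := by
          rw [← ENNReal.ofReal_add (by positivity) (by positivity)]
          congr 2
          ring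
  have hsum2 : ENNReal.ofReal (T / 2) ≤ ∑ k ∈ Finset.range n, ∫⁻ x in S k, G x * f x ∂μ := by
    have h5 : ENNReal.ofReal T = ENNReal.ofReal (T / 2) + ENNReal.ofReal (T / 2) := by
      rw [← ENNReal.ofReal_add (by positivity) (by positivity)]
      congr 1
      ring
    rw [h5] at hsum
    exact (ENNReal.add_le_add_iff_left ENNReal.ofReal_ne_top).1 hsum
  obtain ⟨k, hk, hmax⟩ := (Finset.range n).exists_max_image (fun k => ∫⁻ x in S k, G x * f x ∂μ)
    ⟨0, Finset.mem_range.2 hn0⟩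
  have hk' : k < n := Finset.mem_range.1 hk
  refine ⟨u k, hu0 k, ?_, ?_, ?_⟩
  · show g0 ≤ g0 * 2 ^ k
    exact le_mul_of_one_le_right hg00.le (one_le_pow₀ (by norm_num))
  · show g0 * 2 ^ k ≤ 4 * a / T
    have : 4 * a / T = g0 * (16 * Y) := by
      rw [hg0, hY]
      field_simp
      ring
    rw [this]
    exact mul_le_mul_of_nonneg_left (hn2 k hk') hg00.le
  · have h5 : ∑ j ∈ Finset.range n, ∫⁻ x in S j, G x * f x ∂μ ≤ (n : ℝ≥0∞) * ∫⁻ x in S k, G x * f x ∂μ := by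
      calc ∑ j ∈ Finset.range n, ∫⁻ x in S j, G x * f x ∂μ ≤
            ∑ _j ∈ Finset.range n, ∫⁻ x in S k, G x * f x ∂μ := Finset.sum_le_sum hmax
        _ = _ := by rw [Finset.sum_const, Finset.card_range, nsmul_eq_mul]
    have h6 : ENNReal.ofReal T = 2 * ENNReal.ofReal (T / 2) := by
      rw [show (2 : ℝ≥0∞) = ENNReal.ofReal 2 by simp, ← ENNReal.ofReal_mul (by norm_num)]
      congr 1
      ring
    rw [h6]
    calc 2 * ENNReal.ofReal (T / 2) ≤ 2 * ((n : ℝ≥0∞) * ∫⁻ x in S k, G x * f x ∂μ) :=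
          mul_le_mul' le_rfl (hsum2.trans h5)
      _ = ENNReal.ofReal (2 * n) * ∫⁻ x in S k, G x * f x ∂μ := by
          rw [ENNReal.ofReal_mul (by norm_num), ENNReal.ofReal_natCast, mul_assoc]
          simp
      _ ≤ _ := by
          refine mul_le_mul' (ENNReal.ofReal_le_ofReal ?_) le_rfl
          linarith

end

end Pool.Agent.A54.HSV
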