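import Pool.Agent.Lib.HS.Bd.V.Spec
import Pool.Agent.Lib.HS.Bd.V.Pg

/-!
# HS/Bd/V/Pig: pigeonhole for the level sets of `G / f` (helper84)
-/

set_option autoImplicit false

namespace Pool.Agent.A54.HSV

open MeasureTheory Filter Topology Set
open scoped ContDiff ComplexConjugate UpperHalfPlane MatrixGroups ENNReal
open Pool.Agent.A54.Dyn (G fl base ze io mk4 dom)
open Pool.Agent.A54.Av (Mat NonSc)
open Pool.Agent.A54.HS
open Pool.Agent.A54.Hp Pool.Agent.A54.Hp.Hk Pool.Agent.A54.Hp.A2M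

noncomputable section

namespace PigM

/-- pigeonhole with a given lowest level and a given number of levels -/
lemma gen {X : Type} [MeasurableSpace X] (μ : Measure X) (f G : X → ℝ≥0∞) (hf : Measurable f)
    (hG : Measurable G) {T a B g0 : ℝ} (hT : 0 < T) (ha : 0 ≤ a) (hB : 0 ≤ B) (hg00 : 0 < g0) {n : ℕ}
    (hn0 : 0 < n) (hsm : g0 * B + a / (g0 * 2 ^ n) ≤ T / 2)
    (h1 : ENNReal.ofReal T ≤ ∫⁻ x, f x * G x ∂μ) (h2 : ∫⁻ x, G x ^ 2 ∂μ ≤ ENNReal.ofReal a)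
    (h3 : ∫⁻ x, f x ^ 2 ∂μ ≤ ENNReal.ofReal B) :
    ∃ k < n, ENNReal.ofReal T ≤ ENNReal.ofReal (2 * n) *
        ∫⁻ x in {x | ENNReal.ofReal (g0 * 2 ^ k) * f x ≤ G x ∧
          G x < ENNReal.ofReal (2 * (g0 * 2 ^ k)) * f x}, f x * G x ∂μ := by
  set u : ℕ → ℝ := fun k => g0 * 2 ^ k with hu
  have hu0 : ∀ k, 0 < u k := fun k => by
    show 0 < g0 * 2 ^ k
    positivity
  set S : ℕ → Set X := fun k => {x | ENNReal.ofReal (u k) * f x ≤ G x ∧
    G x < ENNReal.ofReal (2 * u k) * f x} with hS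
  set A1 : Set X := {x | G x < ENNReal.ofReal g0 * f x} with hA1
  set A2 : Set X := {x | ENNReal.ofReal (u n) * f x ≤ G x} with hA2
  have hA1m : MeasurableSet A1 := measurableSet_lt hG (hf.const_mul _)
  have hA2m : MeasurableSet A2 := measurableSet_le (hf.const_mul _) hG
  have hcov : (univ : Set X) ⊆ (A1 ∪ A2) ∪ ⋃ k ∈ Finset.range n, S k := by
    intro x _
    by_cases hx1 : x ∈ A1
    · exact Or.inl (Or.inl hx1)
    by_cases hx2 : x ∈ A2
    · exact Or.inl (Or.inr hx2)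
    refine Or.inr ?_
    have hx1' : ENNReal.ofReal g0 * f x ≤ G x := not_lt.1 hx1
    have hx2' : G x < ENNReal.ofReal (u n) * f x := not_le.1 hx2
    have hex : ∃ k, G x < ENNReal.ofReal (u k) * f x := ⟨n, hx2'⟩
    classical
    set k := Nat.find hex with hk
    have hk1 : G x < ENNReal.ofReal (u k) * f x := Nat.find_spec hex
    have hkn : k ≤ n := Nat.find_min' hex hx2'
    have hk0 : k ≠ 0 := by
      intro h0
      rw [h0] at hk1
      have : u 0 = g0 := by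
        show g0 * 2 ^ 0 = g0
        ring
      rw [this] at hk1
      exact absurd hk1 (not_lt.2 hx1')
    obtain ⟨j, hj⟩ := Nat.exists_eq_succ_of_ne_zero hk0
    have hj1 : ENNReal.ofReal (u j) * f x ≤ G x := by
      have : ¬ G x < ENNReal.ofReal (u j) * f x := Nat.find_min hex (by omega)
      exact not_lt.1 this
    have hj2 : u k = 2 * u j := by
      rw [hj]
      show g0 * 2 ^ (j + 1) = 2 * (g0 * 2 ^ j)
      ring
    rw [mem_iUnion₂]
    refine ⟨j, Finset.mem_range.2 (by omega), hj1, ?_⟩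
    rw [← hj2]
    exact hk1
  have hI1 : ∫⁻ x in A1, f x * G x ∂μ ≤ ENNReal.ofReal (g0 * B) := by
    calc ∫⁻ x in A1, f x * G x ∂μ ≤ ∫⁻ x in A1, ENNReal.ofReal g0 * f x ^ 2 ∂μ := by
          refine setLIntegral_mono' hA1m fun x hx => ?_
          rw [sq, ← mul_assoc, mul_comm (f x) (G x)]
          exact mul_le_mul' (le_of_lt hx) le_rfl
      _ ≤ ∫⁻ x, ENNReal.ofReal g0 * f x ^ 2 ∂μ := setLIntegral_le_lintegral _ _
      _ = ENNReal.ofReal g0 * ∫⁻ x, f x ^ 2 ∂μ := lintegral_const_mul _ (hf.pow_const 2)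
      _ ≤ ENNReal.ofReal g0 * ENNReal.ofReal B := mul_le_mul' le_rfl h3
      _ = ENNReal.ofReal (g0 * B) := by
          rw [← ENNReal.ofReal_mul hg00.le]
  have hI2 : ∫⁻ x in A2, f x * G x ∂μ ≤ ENNReal.ofReal (a / (g0 * 2 ^ n)) := by
    calc ∫⁻ x in A2, f x * G x ∂μ ≤ ∫⁻ x in A2, ENNReal.ofReal (u n)⁻¹ * G x ^ 2 ∂μ := by
          refine setLIntegral_mono' hA2m fun x hx => ?_
          have h5 : ENNReal.ofReal (u n) * f x ≤ G x := hx
          have h6 : f x ≤ ENNReal.ofReal (u n)⁻¹ * G x := by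
            calc f x = ENNReal.ofReal (u n)⁻¹ * (ENNReal.ofReal (u n) * f x) := by
                  rw [← mul_assoc, ← ENNReal.ofReal_mul (inv_pos.2 (hu0 n)).le,
                    inv_mul_cancel₀ (hu0 n).ne', ENNReal.ofReal_one, one_mul]
              _ ≤ _ := mul_le_mul' le_rfl h5
          calc f x * G x ≤ (ENNReal.ofReal (u n)⁻¹ * G x) * G x := mul_le_mul' h6 le_rfl
            _ = _ := by ring
      _ ≤ ∫⁻ x, ENNReal.ofReal (u n)⁻¹ * G x ^ 2 ∂μ := setLIntegral_le_lintegral _ _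
      _ = ENNReal.ofReal (u n)⁻¹ * ∫⁻ x, G x ^ 2 ∂μ := lintegral_const_mul _ (hG.pow_const 2)
      _ ≤ ENNReal.ofReal (u n)⁻¹ * ENNReal.ofReal a := mul_le_mul' le_rfl h2
      _ = ENNReal.ofReal (a / (g0 * 2 ^ n)) := by
          rw [← ENNReal.ofReal_mul (inv_pos.2 (hu0 n)).le]
          congr 1
          rw [mul_comm, ← div_eq_mul_inv]
  have hI3 : ∫⁻ x in ⋃ k ∈ Finset.range n, S k, f x * G x ∂μ ≤
      ∑ k ∈ Finset.range n, ∫⁻ x in S k, f x * G x ∂μ := by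
    have e : ⋃ k ∈ Finset.range n, S k = ⋃ k : Fin n, S k := by
      ext x
      simp only [mem_iUnion, Finset.mem_range, exists_prop]
      exact ⟨fun ⟨k, hk, h⟩ => ⟨⟨k, hk⟩, h⟩, fun ⟨k, h⟩ => ⟨k, k.2, h⟩⟩
    rw [e]
    refine (lintegral_iUnion_le _ _).trans (le_of_eq ?_)
    rw [tsum_fintype]
    exact Fin.sum_univ_eq_sum_range (fun k => ∫⁻ x in S k, f x * G x ∂μ) n
  have hsum : ENNReal.ofReal T ≤ ENNReal.ofReal (T / 2) + ∑ k ∈ Finset.range n, ∫⁻ x in S k, f x * G x ∂μ := by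
    calc ENNReal.ofReal T ≤ ∫⁻ x, f x * G x ∂μ := h1
      _ = ∫⁻ x in univ, f x * G x ∂μ := by rw [Measure.restrict_univ]
      _ ≤ ∫⁻ x in (A1 ∪ A2) ∪ ⋃ k ∈ Finset.range n, S k, f x * G x ∂μ := lintegral_mono_set hcov
      _ ≤ ∫⁻ x in A1 ∪ A2, f x * G x ∂μ + ∫⁻ x in ⋃ k ∈ Finset.range n, S k, f x * G x ∂μ :=
          lintegral_union_le _ _ _
      _ ≤ (∫⁻ x in A1, f x * G x ∂μ + ∫⁻ x in A2, f x * G x ∂μ) +
          ∑ k ∈ Finset.range n, ∫⁻ x in S k, f x * G x ∂μ :=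
          add_le_add (lintegral_union_le _ _ _) hI3
      _ ≤ (ENNReal.ofReal (g0 * B) + ENNReal.ofReal (a / (g0 * 2 ^ n))) +
          ∑ k ∈ Finset.range n, ∫⁻ x in S k, f x * G x ∂μ := by gcongr
      _ ≤ _ := by
          rw [← ENNReal.ofReal_add (by positivity) (by positivity)]
          gcongr
  have hsum2 : ENNReal.ofReal (T / 2) ≤ ∑ k ∈ Finset.range n, ∫⁻ x in S k, f x * G x ∂μ := by
    have h5 : ENNReal.ofReal T = ENNReal.ofReal (T / 2) + ENNReal.ofReal (T / 2) := by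
      rw [← ENNReal.ofReal_add (by positivity) (by positivity)]
      congr 1
      ring
    rw [h5] at hsum
    exact (ENNReal.add_le_add_iff_left ENNReal.ofReal_ne_top).1 hsum
  obtain ⟨k, hk, hmax⟩ := (Finset.range n).exists_max_image (fun k => ∫⁻ x in S k, f x * G x ∂μ)
    ⟨0, Finset.mem_range.2 hn0⟩
  refine ⟨k, Finset.mem_range.1 hk, ?_⟩
  have h5 : ∑ j ∈ Finset.range n, ∫⁻ x in S j, f x * G x ∂μ ≤ (n : ℝ≥0∞) * ∫⁻ x in S k, f x * G x ∂μ := by
    calc ∑ j ∈ Finset.range n, ∫⁻ x in S j, f x * G x ∂μ ≤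
          ∑ _j ∈ Finset.range n, ∫⁻ x in S k, f x * G x ∂μ := Finset.sum_le_sum hmax
      _ = _ := by rw [Finset.sum_const, Finset.card_range, nsmul_eq_mul]
  have h6 : ENNReal.ofReal T = 2 * ENNReal.ofReal (T / 2) := by
    rw [show (2 : ℝ≥0∞) = ENNReal.ofReal 2 by simp, ← ENNReal.ofReal_mul (by norm_num)]
    congr 1
    ring
  rw [h6]
  calc 2 * ENNReal.ofReal (T / 2) ≤ 2 * ((n : ℝ≥0∞) * ∫⁻ x in S k, f x * G x ∂μ) :=
        mul_le_mul' le_rfl (hsum2.trans h5)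
    _ = ENNReal.ofReal (2 * n) * ∫⁻ x in S k, f x * G x ∂μ := by
        rw [ENNReal.ofReal_mul (by norm_num), ENNReal.ofReal_natCast, mul_assoc]
        simp

end PigM

/-- **Pig** pigeonhole -/
theorem tPig : V_Pig := by
  intro μ f g hf hg S T hS hT h3 h2 h1
  have h3' : ∫⁻ x, f x ^ 2 ∂μ ≤ ENNReal.ofReal 2 := by
    rw [show ENNReal.ofReal 2 = 2 by simp]
    exact h3
  have hTS : T ≤ S + 2 := by
    have hcs := cs2 μ g f hg hf hT (by linarith : (0 : ℝ) < S + 1) (by norm_num : (0 : ℝ) < 2)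
      (h1.trans (le_of_eq (lintegral_congr fun x => mul_comm _ _)))
      (h2.trans (ENNReal.ofReal_le_ofReal (by linarith))) h3'
    nlinarith
  set X : ℝ := 2 * (S + 2) / T with hX
  have hX2 : 2 ≤ X := by
    rw [hX, le_div_iff₀ hT]
    linarith
  have hX0 : 0 < X := by linarith
  set L : ℕ := ⌈Real.logb 2 X⌉₊ with hL
  have hlb : 1 ≤ Real.logb 2 X := by
    rw [Real.le_logb_iff_rpow_le (by norm_num) hX0, Real.rpow_one]
    exact hX2
  have hL0 : 0 < L := by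
    rw [hL, Nat.ceil_pos]
    linarith
  have hL1 : X ≤ (2 : ℝ) ^ L := by
    have h5 : Real.logb 2 X ≤ L := Nat.le_ceil _
    have h6 := (Real.logb_le_iff_le_rpow (by norm_num : (1 : ℝ) < 2) hX0).1 h5
    rwa [Real.rpow_natCast] at h6
  have hL2 : (L : ℝ) ≤ 1 + 2 * Real.log X := by
    have h6 : (L : ℝ) < Real.logb 2 X + 1 := Nat.ceil_lt_add_one (by linarith)
    have h8 : Real.logb 2 X ≤ 2 * Real.log X := by
      rw [Real.logb, div_le_iff₀ (Real.log_pos (by norm_num))]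
      have h9 : (1 : ℝ) / 2 ≤ Real.log 2 := by linarith [Real.log_two_gt_d9]
      have h10 : 0 ≤ Real.log X := Real.log_nonneg (by linarith)
      nlinarith
    linarith
  have h2L : (0 : ℝ) < 2 ^ L := by positivity
  set g0 : ℝ := ((2 : ℝ) ^ L)⁻¹ with hg0
  have hg00 : 0 < g0 := by positivity
  have hg1 : g0 ≤ X⁻¹ := by
    rw [hg0]
    exact inv_anti₀ hX0 hL1
  have hend : g0 * 2 ^ (2 * L) = 2 ^ L := by
    rw [hg0, two_mul, pow_add, ← mul_assoc, inv_mul_cancel₀ h2L.ne', one_mul]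
  have hsm : g0 * 2 + S / (g0 * 2 ^ (2 * L)) ≤ T / 2 := by
    rw [hend]
    have e1 : g0 * 2 ≤ X⁻¹ * 2 := mul_le_mul_of_nonneg_right hg1 (by norm_num)
    have e2 : S / 2 ^ L ≤ S * X⁻¹ := by
      rw [div_eq_mul_inv]
      exact mul_le_mul_of_nonneg_left (inv_anti₀ hX0 hL1) hS
    have e3 : X⁻¹ * 2 + S * X⁻¹ = T / 2 := by
      rw [hX]
      have : S + 2 ≠ 0 := by linarith
      field_simp
      ring
    linarith
  obtain ⟨k, hk, h5⟩ := PigM.gen μ f g hf hg hT hS (by norm_num : (0 : ℝ) ≤ 2) hg00 (n := 2 * L)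
    (by omega) hsm h1 h2 h3'
  refine ⟨(k : ℤ) - L, ?_⟩
  have hz : (2 : ℝ) ^ ((k : ℤ) - L) = g0 * 2 ^ k := by
    rw [zpow_sub₀ (by norm_num), zpow_natCast, zpow_natCast, hg0, div_eq_inv_mul]
  rw [hz]
  refine h5.trans (mul_le_mul' (ENNReal.ofReal_le_ofReal ?_) le_rfl)
  push_cast
  linarith

end

end Pool.Agent.A54.HSV
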