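import Pool.Agent.Lib.HS.Bd.V.Spec

/-!
# HS/Bd/V, module Sel: selection of cells and primes (helper80)
-/

set_option autoImplicit false

namespace Pool.Agent.A54.HSV

open MeasureTheory Filter Topology Set
open scoped ContDiff ComplexConjugate UpperHalfPlane MatrixGroups ENNReal
open Pool.Agent.A54.Dyn (G fl base ze io mk4 dom)
open Pool.Agent.A54.Av (Mat NonSc)
open Pool.Agent.A54.HS
open Pool.Agent.A54.Hp Pool.Agent.A54.Hp.Hk Pool.Agent.A54.Hp.A2M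

noncomputable section

namespace SelM

/-! ### the combinatorial selection -/

lemma comb {α : Type} (V : Finset α) (P : Finset ℕ) (bad : α → ℕ → Prop) [∀ z p, Decidable (bad z p)] (J : ℕ)
    (hJ : 1 ≤ J)
    (hb : ∀ z ∈ V, (P.filter (bad z)).card ≤ J) (hP : 2 * J ≤ P.card) :
    ∃ (V' : Finset α) (Q : Finset ℕ), V' ⊆ V ∧ Q ⊆ P ∧ V.card ≤ 2 * V'.card ∧ P.card ≤ 4 * J * Q.card ∧
      ∀ z ∈ V', ∀ p ∈ Q, ¬ bad z p := by
  classical
  obtain ⟨F, hF, hFc⟩ := Finpartition.exists_equipartition_card_eq P (n := 2 * J) (by omega) hP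
  -- bad parts of a cell
  have h1 : ∀ z ∈ V, (F.parts.filter (fun t => ∃ p ∈ t, bad z p)).card ≤ J := by
    intro z hz
    refine le_trans ?_ (hb z hz)
    have hch : ∀ t ∈ F.parts.filter (fun t => ∃ p ∈ t, bad z p), ∃ p ∈ t, bad z p := fun t ht =>
      (Finset.mem_filter.1 ht).2
    choose! f hf using hch
    refine Finset.card_le_card_of_injOn f ?_ ?_
    · intro t ht
      have h2 := hf t ht
      have h3 := (Finset.mem_filter.1 ht).1
      exact Finset.mem_filter.2 ⟨F.subset h3 h2.1, h2.2⟩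
    · intro t ht t' ht' he
      have h2 := (hf t ht).1
      have h3 := (hf t' ht').1
      rw [he] at h2
      exact F.disjoint.elim_finset (Finset.mem_filter.1 ht).1 (Finset.mem_filter.1 ht').1 _ h2 h3
  have h2 : ∀ z ∈ V, J ≤ (F.parts.filter (fun t => ∀ p ∈ t, ¬ bad z p)).card := by
    intro z hz
    have h3 := Finset.card_filter_add_card_filter_not (s := F.parts) (fun t => ∃ p ∈ t, bad z p)
    have h4 : F.parts.filter (fun t => ¬ ∃ p ∈ t, bad z p) = F.parts.filter (fun t => ∀ p ∈ t, ¬ bad z p) := by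
      apply Finset.filter_congr
      intro t _
      push Not
      rfl
    rw [h4, hFc] at h3
    have h5 := h1 z hz
    omega
  -- double counting
  have h3 : ∃ t ∈ F.parts, V.card ≤ 2 * (V.filter (fun z => ∀ p ∈ t, ¬ bad z p)).card := by
    by_contra hcon
    push Not at hcon
    have hne : F.parts.Nonempty := Finset.card_pos.1 (by omega)
    have h4 : ∑ t ∈ F.parts, 2 * (V.filter (fun z => ∀ p ∈ t, ¬ bad z p)).card < ∑ t ∈ F.parts, V.card :=
      Finset.sum_lt_sum_of_nonempty hne hcon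
    rw [Finset.sum_const, hFc, smul_eq_mul, ← Finset.mul_sum] at h4
    have h5 : ∑ t ∈ F.parts, (V.filter (fun z => ∀ p ∈ t, ¬ bad z p)).card =
        ∑ z ∈ V, (F.parts.filter (fun t => ∀ p ∈ t, ¬ bad z p)).card := by
      simp only [Finset.card_filter]
      rw [Finset.sum_comm]
    have h6 : ∑ z ∈ V, J ≤ ∑ z ∈ V, (F.parts.filter (fun t => ∀ p ∈ t, ¬ bad z p)).card :=
      Finset.sum_le_sum h2
    rw [Finset.sum_const, smul_eq_mul] at h6
    rw [h5] at h4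
    have h7 : 2 * J * V.card = 2 * (V.card * J) := by ring
    omega
  obtain ⟨t, ht, h4⟩ := h3
  refine ⟨_, t, Finset.filter_subset _ _, F.subset ht, h4, ?_, fun z hz => (Finset.mem_filter.1 hz).2⟩
  have h5 := hF.average_le_card_part ht
  rw [hFc] at h5
  have h6 : 1 ≤ P.card / (2 * J) := (Nat.one_le_div_iff (by omega)).2 hP
  have h7 : P.card < 2 * J * (P.card / (2 * J) + 1) := Nat.lt_mul_div_succ _ (by omega)
  have h8 : 2 * J * (P.card / (2 * J) + 1) ≤ 2 * J * (2 * t.card) := Nat.mul_le_mul_left _ (by omega)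
  calc P.card ≤ 2 * J * (2 * t.card) := by omega
    _ = 4 * J * t.card := by ring

/-- few large primes divide a nonzero number -/
lemma few (τ w B : ℝ) (hτ : 0 < τ) (hw : 0 < w) (hw1 : w ≤ 1) (hwB : B * w < 1) (hB : 0 < B) (P : Finset ℕ)
    (hP : ∀ p ∈ P, p.Prime ∧ w ^ (-τ) ≤ (p : ℝ)) (N : ℤ) (hN : N ≠ 0) (hNB : |(N : ℝ)| ≤ B / w ^ 2) :
    (P.filter (fun p : ℕ => (p : ℤ) ∣ N)).card ≤ ⌈5 / τ⌉₊ := by
  set S := P.filter (fun p : ℕ => (p : ℤ) ∣ N) with hS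
  by_contra hcon
  push Not at hcon
  have h1 : ∏ p ∈ S, p ∣ N.natAbs := by
    apply Finset.prod_primes_dvd
    · intro p hp
      exact Nat.prime_iff.1 (hP p (Finset.mem_filter.1 hp).1).1
    · intro p hp
      exact Int.natCast_dvd.1 (Finset.mem_filter.1 hp).2
  have h2 : ∏ p ∈ S, p ≤ N.natAbs := Nat.le_of_dvd (Int.natAbs_pos.2 hN) h1
  have h3 : (∏ p ∈ S, (p : ℝ)) ≤ |(N : ℝ)| := by
    have h4 : ((∏ p ∈ S, p : ℕ) : ℝ) ≤ ((N.natAbs : ℕ) : ℝ) := by exact_mod_cast h2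
    rw [Nat.cast_prod, Nat.cast_natAbs, Int.cast_abs] at h4
    exact h4
  have hwt : 1 ≤ w ^ (-τ) := Real.one_le_rpow_of_pos_of_le_one_of_nonpos hw hw1 (by linarith)
  have h4 : (w ^ (-τ)) ^ S.card ≤ ∏ p ∈ S, (p : ℝ) := by
    rw [← Finset.prod_const]
    exact Finset.prod_le_prod (fun p _ => by linarith) (fun p hp => (hP p (Finset.mem_filter.1 hp).1).2)
  have h5 : (w ^ (-τ)) ^ ⌈5 / τ⌉₊ ≤ (w ^ (-τ)) ^ S.card := pow_le_pow_right₀ hwt hcon.le
  have h6 : w ^ (-5 : ℝ) ≤ (w ^ (-τ)) ^ ⌈5 / τ⌉₊ := by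
    rw [← Real.rpow_natCast, ← Real.rpow_mul hw.le]
    apply Real.rpow_le_rpow_of_exponent_ge hw hw1
    have h7 : 5 / τ ≤ (⌈5 / τ⌉₊ : ℝ) := Nat.le_ceil _
    rw [div_le_iff₀ hτ] at h7
    linarith
  have h7 : w ^ (-5 : ℝ) ≤ B / w ^ 2 := h6.trans (h5.trans (h4.trans (h3.trans hNB)))
  have h8 : w ^ (-5 : ℝ) = 1 / w ^ 5 := by
    rw [Real.rpow_neg hw.le, one_div]
    congr 1
    exact_mod_cast Real.rpow_natCast w 5
  rw [h8, div_le_div_iff₀ (by positivity) (by positivity), one_mul] at h7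
  -- w ^ 2 ≤ B * w ^ 5
  have h9 : B * w ^ 5 = (B * w) * w ^ 2 * w ^ 2 := by ring
  rw [h9] at h7
  have h10 : (B * w) * w ^ 2 * w ^ 2 ≤ (B * w) * w ^ 2 := by
    have : w ^ 2 ≤ 1 := pow_le_one₀ hw.le hw1
    exact mul_le_of_le_one_right (by positivity) this
  have h11 : (B * w) * w ^ 2 < 1 * w ^ 2 := mul_lt_mul_of_pos_right hwB (by positivity)
  linarith

/-! ### the gauge of traceless matrices -/

/-- the gauge -/
def ga (w : ℝ) (a : HSL.MR) (v : HSL.MZ) : ℝ :=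
  max |HSL.fr a a v 0 0| (max (|HSL.fr a a v 0 1| / w) (|HSL.fr a a v 1 0| / w))

lemma ga_lt {w T : ℝ} {a : HSL.MR} {v : HSL.MZ} (hw : 0 < w) : ga w a v < T ↔
    |HSL.fr a a v 0 0| < T ∧ |HSL.fr a a v 0 1| < T * w ∧ |HSL.fr a a v 1 0| < T * w := by
  unfold ga
  rw [max_lt_iff, max_lt_iff, div_lt_iff₀ hw, div_lt_iff₀ hw]

lemma ga_le {w T : ℝ} {a : HSL.MR} {v : HSL.MZ} (hw : 0 < w) : ga w a v ≤ T ↔
    |HSL.fr a a v 0 0| ≤ T ∧ |HSL.fr a a v 0 1| ≤ T * w ∧ |HSL.fr a a v 1 0| ≤ T * w := by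
  unfold ga
  rw [max_le_iff, max_le_iff, div_le_iff₀ hw, div_le_iff₀ hw]

lemma fr_smul (a b : HSL.MR) (r : ℤ) (v : HSL.MZ) (i j : Fin 2) :
    HSL.fr a b (r • v) i j = (r : ℝ) * HSL.fr a b v i j := by
  have h : HSL.toR (r • v) = (r : ℝ) • HSL.toR v := by
    ext i j
    simp only [HSL.toR, Matrix.map_apply, Matrix.smul_apply, smul_eq_mul]
    push_cast
    ring
  unfold HSL.fr
  rw [h, Matrix.mul_smul, Matrix.smul_mul, Matrix.smul_apply, smul_eq_mul]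

lemma ga_smul {w : ℝ} {a : HSL.MR} (r : ℤ) (v : HSL.MZ) : ga w a (r • v) = |(r : ℝ)| * ga w a v := by
  unfold ga
  rw [fr_smul, fr_smul, fr_smul, abs_mul, abs_mul, abs_mul, mul_max_of_nonneg _ _ (abs_nonneg _),
    mul_max_of_nonneg _ _ (abs_nonneg _), mul_div_assoc, mul_div_assoc]

lemma fr_tr (a : HSL.MR) (v : HSL.MZ) (ht : v.trace = 0) :
    HSL.fr a a v 1 1 = -HSL.fr a a v 0 0 := by
  have h : v 1 1 = -v 0 0 := by
    rw [Matrix.trace_fin_two] at ht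
    linarith
  have h' : ((v 1 1 : ℤ) : ℝ) = -((v 0 0 : ℤ) : ℝ) := by rw [h]; push_cast; ring
  simp only [HSL.fr, HSL.toR, Matrix.adjugate_fin_two, Matrix.mul_apply, Fin.sum_univ_two, Matrix.map_apply,
    Matrix.of_apply, Matrix.cons_val', Matrix.cons_val_zero, Matrix.cons_val_one, Matrix.empty_val',
    Matrix.cons_val_fin_one, h']
  ring

/-- the entries of `v` in terms of the frame -/
lemma ent {R T : ℝ} {a : HSL.MR} (hR : 0 ≤ R) (hT : 0 ≤ T) (ha : a.det = 1) (hR' : ∀ i j, |a i j| ≤ R) {v : HSL.MZ}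
    (hf : ∀ i j, |HSL.fr a a v i j| ≤ T) (i j : Fin 2) : |((v i j : ℤ) : ℝ)| ≤ 4 * R ^ 2 * T := by
  have h1 : HSL.toR v = a * HSL.fr a a v * a.adjugate := by
    unfold HSL.fr
    have h2 : a * a.adjugate = 1 := by rw [Matrix.mul_adjugate, ha, one_smul]
    calc HSL.toR v = (a * a.adjugate) * HSL.toR v * (a * a.adjugate) := by rw [h2, one_mul, mul_one]
      _ = _ := by simp only [Matrix.mul_assoc]
  have h3 : ((v i j : ℤ) : ℝ) = (a * HSL.fr a a v * a.adjugate) i j := by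
    rw [← h1]; rfl
  have hadj : ∀ i j, |a.adjugate i j| ≤ R := by
    intro i j
    rw [Matrix.adjugate_fin_two]
    fin_cases i <;> fin_cases j
    · simpa using hR' 1 1
    · simpa using hR' 0 1
    · simpa using hR' 1 0
    · simpa using hR' 0 0
  rw [h3, Matrix.mul_apply, Fin.sum_univ_two, Matrix.mul_apply, Matrix.mul_apply, Fin.sum_univ_two, Fin.sum_univ_two]
  have h4 : ∀ k l, |a i k * HSL.fr a a v k l * a.adjugate l j| ≤ R * T * R := by
    intro k l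
    rw [abs_mul, abs_mul]
    exact mul_le_mul (mul_le_mul (hR' i k) (hf k l) (abs_nonneg _) hR) (hadj l j) (abs_nonneg _) (by positivity)
  have e : (a i 0 * HSL.fr a a v 0 0 + a i 1 * HSL.fr a a v 1 0) * a.adjugate 0 j +
      (a i 0 * HSL.fr a a v 0 1 + a i 1 * HSL.fr a a v 1 1) * a.adjugate 1 j =
      a i 0 * HSL.fr a a v 0 0 * a.adjugate 0 j + a i 1 * HSL.fr a a v 1 0 * a.adjugate 0 j +
      (a i 0 * HSL.fr a a v 0 1 * a.adjugate 1 j + a i 1 * HSL.fr a a v 1 1 * a.adjugate 1 j) := by ring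
  rw [e]
  have h5 := abs_add_le (a i 0 * HSL.fr a a v 0 0 * a.adjugate 0 j + a i 1 * HSL.fr a a v 1 0 * a.adjugate 0 j)
    (a i 0 * HSL.fr a a v 0 1 * a.adjugate 1 j + a i 1 * HSL.fr a a v 1 1 * a.adjugate 1 j)
  have h6 := abs_add_le (a i 0 * HSL.fr a a v 0 0 * a.adjugate 0 j) (a i 1 * HSL.fr a a v 1 0 * a.adjugate 0 j)
  have h7 := abs_add_le (a i 0 * HSL.fr a a v 0 1 * a.adjugate 1 j) (a i 1 * HSL.fr a a v 1 1 * a.adjugate 1 j)
  have := h4 0 0
  have := h4 1 0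
  have := h4 0 1
  have := h4 1 1
  nlinarith

/-- the traceless matrices of gauge at most `T` are finitely many -/
lemma fin_ga {R w T : ℝ} {a : HSL.MR} (hR : 0 ≤ R) (hw : 0 < w) (hw1 : w ≤ 1) (hT : 0 ≤ T) (ha : a.det = 1)
    (hR' : ∀ i j, |a i j| ≤ R) : {v : HSL.MZ | v.trace = 0 ∧ ga w a v ≤ T}.Finite ∧
    ∀ v : HSL.MZ, v.trace = 0 → ga w a v ≤ T → ∀ i j, |((v i j : ℤ) : ℝ)| ≤ 4 * R ^ 2 * T := by
  have key : ∀ v : HSL.MZ, v.trace = 0 → ga w a v ≤ T → ∀ i j, |((v i j : ℤ) : ℝ)| ≤ 4 * R ^ 2 * T := by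
    intro v hv hg
    obtain ⟨h1, h2, h3⟩ := (ga_le hw).1 hg
    have h4 : T * w ≤ T := mul_le_of_le_one_right hT hw1
    apply ent hR hT ha hR'
    intro i j
    fin_cases i <;> fin_cases j
    · exact h1
    · exact h2.trans h4
    · exact h3.trans h4
    · show |HSL.fr a a v 1 1| ≤ T
      rw [fr_tr a v hv, abs_neg]
      exact h1
  refine ⟨?_, key⟩
  refine Set.Finite.subset (Set.finite_Icc (fun _ _ : Fin 2 => -⌊4 * R ^ 2 * T⌋) (fun _ _ : Fin 2 => ⌊4 * R ^ 2 * T⌋)) ?_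
  intro v hv
  have h5 := key v hv.1 hv.2
  refine ⟨fun i j => ?_, fun i j => ?_⟩
  · have h6 := (abs_le.1 (h5 i j)).1
    have h7 : -v i j ≤ ⌊4 * R ^ 2 * T⌋ := Int.le_floor.2 (by push_cast; linarith)
    show -⌊4 * R ^ 2 * T⌋ ≤ v i j
    linarith
  · exact Int.le_floor.2 (abs_le.1 (h5 i j)).2

/-- the nilpotent matrix with entry one -/
def e0 : HSL.MZ := !![0, 1; 0, 0]

lemma e0_ne : e0 ≠ 0 := by
  intro h
  have h1 := congrFun (congrFun h 0) 1
  simp [e0] at h1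

lemma e0_tr : e0.trace = 0 := by
  rw [Matrix.trace_fin_two]
  simp [e0]

lemma e0_00 : e0 0 0 = 0 := rfl
lemma e0_01 : e0 0 1 = 1 := rfl
lemma e0_10 : e0 1 0 = 0 := rfl
lemma e0_11 : e0 1 1 = 0 := rfl

lemma e0_ga {R w : ℝ} {a : HSL.MR} (hR : 0 ≤ R) (hw : 0 < w) (hw1 : w ≤ 1) (hR' : ∀ i j, |a i j| ≤ R) :
    ga w a e0 ≤ R ^ 2 / w := by
  have hRR : R ^ 2 ≤ R ^ 2 / w := by
    rw [le_div_iff₀ hw]
    exact mul_le_of_le_one_right (by positivity) hw1
  have h00 : HSL.fr a a e0 0 0 = a 1 1 * a 1 0 := by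
    simp only [HSL.fr, HSL.toR, Matrix.adjugate_fin_two, Matrix.mul_apply, Fin.sum_univ_two, Matrix.map_apply,
      Matrix.of_apply, Matrix.cons_val', Matrix.cons_val_zero, Matrix.cons_val_one, Matrix.empty_val',
      Matrix.cons_val_fin_one, e0_00, e0_01, e0_10, e0_11]
    push_cast
    ring
  have h01 : HSL.fr a a e0 0 1 = a 1 1 * a 1 1 := by
    simp only [HSL.fr, HSL.toR, Matrix.adjugate_fin_two, Matrix.mul_apply, Fin.sum_univ_two, Matrix.map_apply,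
      Matrix.of_apply, Matrix.cons_val', Matrix.cons_val_zero, Matrix.cons_val_one, Matrix.empty_val',
      Matrix.cons_val_fin_one, e0_00, e0_01, e0_10, e0_11]
    push_cast
    ring
  have h10 : HSL.fr a a e0 1 0 = -a 1 0 * a 1 0 := by
    simp only [HSL.fr, HSL.toR, Matrix.adjugate_fin_two, Matrix.mul_apply, Fin.sum_univ_two, Matrix.map_apply,
      Matrix.of_apply, Matrix.cons_val', Matrix.cons_val_zero, Matrix.cons_val_one, Matrix.empty_val',
      Matrix.cons_val_fin_one, e0_00, e0_01, e0_10, e0_11]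
    push_cast
    ring
  have h2 : ∀ i j k l, |a i j| * |a k l| ≤ R ^ 2 := by
    intro i j k l
    rw [sq]
    exact mul_le_mul (hR' i j) (hR' k l) (abs_nonneg _) hR
  rw [ga_le hw, h00, h01, h10, div_mul_cancel₀ _ hw.ne', abs_mul, abs_mul, abs_mul, abs_neg]
  exact ⟨(h2 _ _ _ _).trans hRR, h2 _ _ _ _, h2 _ _ _ _⟩

/-- a nonzero traceless matrix of least gauge -/
lemma least {R w : ℝ} {a : HSL.MR} (hR : 0 ≤ R) (hw : 0 < w) (hw1 : w ≤ 1) (ha : a.det = 1)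
    (hR' : ∀ i j, |a i j| ≤ R) : ∃ v : HSL.MZ, v ≠ 0 ∧ v.trace = 0 ∧ ga w a v ≤ R ^ 2 / w ∧
    ∀ u : HSL.MZ, u ≠ 0 → u.trace = 0 → ga w a v ≤ ga w a u := by
  have hfin := (fin_ga (T := R ^ 2 / w) hR hw hw1 (by positivity) ha hR').1
  have hfin' : {v : HSL.MZ | v ≠ 0 ∧ v.trace = 0 ∧ ga w a v ≤ R ^ 2 / w}.Finite :=
    hfin.subset fun v hv => ⟨hv.2.1, hv.2.2⟩
  obtain ⟨v, hv, hmin⟩ := Set.exists_min_image _ (ga w a) hfin' ⟨e0, e0_ne, e0_tr, e0_ga hR hw hw1 hR'⟩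
  refine ⟨v, hv.1, hv.2.1, hv.2.2, fun u hu hut => ?_⟩
  by_cases h : ga w a u ≤ R ^ 2 / w
  · exact hmin u ⟨hu, hut, h⟩
  · exact hv.2.2.trans (not_le.1 h).le

/-- it is primitive -/
lemma prim {w : ℝ} {a : HSL.MR} {v : HSL.MZ} (hv : v ≠ 0) (hvt : v.trace = 0) (hpos : 0 < ga w a v)
    (hmin : ∀ u : HSL.MZ, u ≠ 0 → u.trace = 0 → ga w a v ≤ ga w a u) : HSL.Prim v := by
  intro r hr
  choose u hu using hr
  have e : v = r • (Matrix.of u) := by
    ext i j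
    rw [Matrix.smul_apply, smul_eq_mul, Matrix.of_apply, ← hu]
  have hr0 : r ≠ 0 := by
    rintro rfl
    rw [zero_smul] at e
    exact hv e
  have hu0 : (Matrix.of u : HSL.MZ) ≠ 0 := by
    intro h
    rw [h, smul_zero] at e
    exact hv e
  have hut : (Matrix.of u : HSL.MZ).trace = 0 := by
    rw [e, Matrix.trace_smul, smul_eq_mul] at hvt
    exact (mul_eq_zero.1 hvt).resolve_left hr0
  have h1 := hmin _ hu0 hut
  have h2 : ga w a v = |(r : ℝ)| * ga w a (Matrix.of u) := by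
    conv_lhs => rw [e]
    exact ga_smul r _
  rw [Int.isUnit_iff_abs_eq]
  by_contra hne
  have h3 : 2 ≤ |r| := by
    have := abs_pos.2 hr0
    omega
  have h4 : (2 : ℝ) ≤ |(r : ℝ)| := by
    rw [← Int.cast_abs]
    exact_mod_cast h3
  have h5 : 0 < ga w a (Matrix.of u) := lt_of_lt_of_le hpos h1
  nlinarith

end SelM

open SelM in
/-- **Sel** selection of cells and primes. -/
theorem tSel : V_Sel := by
  intro R τ hR hτ
  have hJ : 1 ≤ ⌈5 / τ⌉₊ := Nat.one_le_iff_ne_zero.2 (by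
    have : 0 < ⌈5 / τ⌉₊ := Nat.ceil_pos.2 (by positivity)
    omega)
  have hJ' : (1 : ℝ) ≤ (⌈5 / τ⌉₊ : ℝ) := by exact_mod_cast hJ
  have hR0 : 0 < R := by linarith
  refine ⟨4 * (⌈5 / τ⌉₊ : ℝ), 1 / (64 * R ^ 8 + 1), by linarith, by positivity, ?_, ?_⟩
  · rw [div_le_one (by positivity)]
    have : 0 ≤ 64 * R ^ 8 := by positivity
    linarith
  intro w D hw hww hD V hV P hP hPC
  have hw1 : w ≤ 1 := hww.trans (by
    rw [div_le_one (by positivity)]
    have : 0 ≤ 64 * R ^ 8 := by positivity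
    linarith)
  have hwB : 64 * R ^ 8 * w < 1 := by
    rw [le_div_iff₀ (by positivity)] at hww
    linarith
  have hcel : ∀ z ∈ V, (HS.rp R w z).1.det = 1 ∧ ∀ i j, |(HS.rp R w z).1 i j| ≤ R := by
    intro z hz
    have h1 : HS.rp R w z ∈ cel R w z := by
      unfold HS.rp
      rw [dif_pos (hV z hz).1]
      exact (hV z hz).1.some_mem
    exact ⟨(HS.rp R w z).2, fun i j => h1.1 i j⟩
  have hex : ∀ z : Fin 3 → ℤ, ∃ v : HSL.MZ, z ∈ V → v ≠ 0 ∧ v.trace = 0 ∧ ga w (HS.rp R w z).1 v ≤ R ^ 2 / w ∧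
      ∀ u : HSL.MZ, u ≠ 0 → u.trace = 0 → ga w (HS.rp R w z).1 v ≤ ga w (HS.rp R w z).1 u := by
    intro z
    by_cases hz : z ∈ V
    · obtain ⟨v, hv⟩ := least hR0.le hw hw1 (hcel z hz).1 (hcel z hz).2
      exact ⟨v, fun _ => hv⟩
    · exact ⟨0, fun h => absurd h hz⟩
  choose v hv using hex
  obtain ⟨V', Q, h1, h2, h3, h4, h5⟩ := comb V P
    (fun z p => (v z).det ≠ 0 ∧ (p : ℤ) ∣ 2 * (v z).det) ⌈5 / τ⌉₊ hJ (by
      intro z hz
      obtain ⟨g1, g2, g3, g4⟩ := hv z hz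
      by_cases hd : (v z).det = 0
      · rw [Finset.filter_false_of_mem (fun p _ hp => hp.1 hd), Finset.card_empty]
        exact Nat.zero_le _
      · have hle : (P.filter (fun p : ℕ => (v z).det ≠ 0 ∧ (p : ℤ) ∣ 2 * (v z).det)).card ≤
            (P.filter (fun p : ℕ => (p : ℤ) ∣ 2 * (v z).det)).card :=
          Finset.card_le_card (Finset.monotone_filter_right _ (fun p _ hp => hp.2))
        refine le_trans hle (few τ w (64 * R ^ 8) hτ hw hw1 hwB (by positivity) P hP (2 * (v z).det)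
          (mul_ne_zero two_ne_zero hd) ?_)
        · have hb := (fin_ga (T := R ^ 2 / w) hR0.le hw hw1 (by positivity) (hcel z hz).1 (hcel z hz).2).2
            (v z) g2 g3
          have hq : ∀ i j k l, |((v z i j : ℤ) : ℝ)| * |((v z k l : ℤ) : ℝ)| ≤
              (4 * R ^ 2 * (R ^ 2 / w)) * (4 * R ^ 2 * (R ^ 2 / w)) := fun i j k l =>
            mul_le_mul (hb i j) (hb k l) (abs_nonneg _) (by positivity)
          rw [Matrix.det_fin_two]
          push_cast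
          have h6 : |(2 : ℝ) * ((v z 0 0 : ℤ) * (v z 1 1 : ℤ) - (v z 0 1 : ℤ) * (v z 1 0 : ℤ) : ℝ)| ≤
              2 * (|((v z 0 0 : ℤ) : ℝ)| * |((v z 1 1 : ℤ) : ℝ)| + |((v z 0 1 : ℤ) : ℝ)| * |((v z 1 0 : ℤ) : ℝ)|) := by
            rw [abs_mul, abs_two, ← abs_mul, ← abs_mul]
            have := abs_sub ((v z 0 0 : ℤ) * (v z 1 1 : ℤ) : ℝ) ((v z 0 1 : ℤ) * (v z 1 0 : ℤ) : ℝ)
            linarith
          refine h6.trans ?_
          have h7 := hq 0 0 1 1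
          have h8 := hq 0 1 1 0
          have h9 : 2 * ((4 * R ^ 2 * (R ^ 2 / w)) * (4 * R ^ 2 * (R ^ 2 / w)) +
              (4 * R ^ 2 * (R ^ 2 / w)) * (4 * R ^ 2 * (R ^ 2 / w))) = 64 * R ^ 8 / w ^ 2 := by
            field_simp
            ring
          linarith) (by
      have : ((2 * ⌈5 / τ⌉₊ : ℕ) : ℝ) ≤ (P.card : ℝ) := by
        push_cast
        linarith
      exact_mod_cast this)
  refine ⟨V', fun z => ga w (HS.rp R w z).1 (v z), v, Q, h1, h2, by exact_mod_cast h3, ?_, ?_⟩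
  · have : (P.card : ℝ) ≤ ((4 * ⌈5 / τ⌉₊ * Q.card : ℕ) : ℝ) := by exact_mod_cast h4
    push_cast at this
    exact this
  intro z hz
  obtain ⟨g1, g2, g3, g4⟩ := hv z (h1 hz)
  have hDz : D ≤ ga w (HS.rp R w z).1 (v z) := by
    by_contra hcon
    obtain ⟨k1, k2, k3⟩ := (ga_lt hw).1 (not_le.1 hcon)
    exact (hV z (h1 hz)).2 (v z) g1 g2 k1 k2 k3
  have hpos : 0 < ga w (HS.rp R w z).1 (v z) := by linarith
  obtain ⟨l1, l2, l3⟩ := (ga_le hw).1 (le_refl (ga w (HS.rp R w z).1 (v z)))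
  have hpw : 0 < ga w (HS.rp R w z).1 (v z) * w := by positivity
  refine ⟨hDz, prim g1 g2 hpos g4, g1, g2, by linarith, by linarith, by linarith, ?_, ?_⟩
  · intro u hu hut k1 k2 k3
    have k4 := (ga_lt hw).2 ⟨k1, k2, k3⟩
    exact absurd (g4 u hu hut) (not_le.2 k4)
  · by_cases hd : (v z).det = 0
    · exact Or.inl hd
    · exact Or.inr fun p hp hpd => h5 z hz p hp ⟨hd, hpd⟩

end

end Pool.Agent.A54.HSV
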