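import Pool.Agent.Lib.HS.Bd.V.Spec
import Pool.Agent.Lib.HS.Bd.V.Gr

/-!
# HS/Bd/V/Sov: self-overlap of tubes (helper84)
-/

set_option autoImplicit false

namespace Pool.Agent.A54.HSV

open MeasureTheory Filter Topology Set
open scoped ContDiff ComplexConjugate UpperHalfPlane MatrixGroups ENNReal
open Pool.Agent.A54.Dyn (G fl base ze io mk4 dom)
open Pool.Agent.A54.Av (Mat NonSc)
open Pool.Agent.A54.HS
open Pool.Agent.A54.Hp Pool.Agent.A54.Hp.Hk Pool.Agent.A54.Hp.A2M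

/-- **Sov** self-overlap of tubes -/
theorem tSov (_hBx : V_Bx) : V_Sov := by
  intro C hC
  obtain ⟨N, hN1, hN⟩ := tube_card C hC
  have hC2 : 0 < 32 * C ^ 2 := by positivity
  refine ⟨N, 1 / (32 * C ^ 2), by exact_mod_cast hN1, by positivity, ?_⟩
  intro w R' hw hw1 hR' hwR c hc x T hT
  have h1 : 16 * C ^ 2 * w * R' ^ 2 < 1 := by
    rw [le_div_iff₀ hC2] at hwR
    nlinarith
  exact_mod_cast hN w R' c x hw hw1 h1 hc T hT

end Pool.Agent.A54.HSV
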