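import Pool.Agent.Lib.HS.Am9
import Pool.Agent.Lib.HS.C.Spec
import Pool.Agent.Lib.HS.L.SpecCL

/-!
# HS/Bd/V: the high bands (team B), statements

Architect: helper19 (notes 4737, 4741). Every module: file `Pool/Agent/Lib/HS/Bd/V/<Name>.lean` importing
`Pool.Agent.Lib.HS.Bd.V.Spec`, private names in `namespace Pool.Agent.A54.HSV.<Name>M`, final theorem
`Pool.Agent.A54.HSV.t<Name> : V_<Name>`; statements named under `uses` are hypotheses of the theorem, in this order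
(for `StmtNuL`, `StmtUnf`, `StmtNm`, `StmtTub`, `StmtTot`, `StmtDds` too, when needed).

Idea. `f = |Φ|`, `F = f` on the cells `V`, `G = El Q1 k F`, `W0 = {g f ≤ G < 2 g f}` a level set with
`∫_(FF ∩ W0) G f ≥ (∫_FF G f)/log`. Case 1: the moment `aa Q1 F (2k)` is large: many primitive returns `V → V` of level
`w^(-1/2)`: impossible (`C1`). Case 2: it is small; then `W0` has large mass (Cauchy-Schwarz), and the paths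
`V → W0 → W0` (`El Q2 (2l)` after `El Q1 k`) give too many loops at one cell.
-/

set_option autoImplicit false

namespace Pool.Agent.A54.HSV

open MeasureTheory Filter Topology Set
open scoped ContDiff ComplexConjugate UpperHalfPlane MatrixGroups ENNReal
open Pool.Agent.A54.Dyn (G fl base ze io mk4 dom)
open Pool.Agent.A54.Av (Mat NonSc)
open Pool.Agent.A54.HS
open Pool.Agent.A54.Hp Pool.Agent.A54.Hp.Hk Pool.Agent.A54.Hp.A2M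

noncomputable section

/-! ### Definitions -/

/-- left invariant sets -/
def LInv (W : Set G) : Prop := ∀ (γ : SL(2, ℤ)) (g : G), io γ * g ∈ W ↔ g ∈ W

open Classical in
/-- Hermite representatives `(a, b; 0, d)`, `0 ≤ b < d`, of the primitive matrices of determinant `n²` modulo left
multiplication by `SL(2, ℤ)` -/
def RepN (n : ℕ) : Finset Mat :=
  (((Finset.range (n ^ 2 + 1)) ×ˢ ((Finset.range (n ^ 2 + 1)) ×ˢ (Finset.range (n ^ 2 + 1)))).image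
    (fun t => (!![(t.1 : ℤ), (t.2.1 : ℤ); 0, (t.2.2 : ℤ)] : Mat))).filter
    (fun s => Pr s ∧ s.det = (n : ℤ) * n ∧ s 0 1 < s 1 1)

open Classical in
/-- the products of exactly `j` primes of `Q` -/
def Lev (Q : Finset ℕ) (j : ℕ) : Finset ℕ := (((∏ p ∈ Q, p) ^ j).divisors).filter (Pool.Agent.A54.HS.sm Q j)

open Classical in
/-- the products of `j1` primes of `Q1` and `j2` primes of `Q2` -/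
def L2 (Q1 Q2 : Finset ℕ) (j1 j2 : ℕ) : Finset ℕ := (Lev Q1 j1 ×ˢ Lev Q2 j2).image (fun t => t.1 * t.2)

/-- the operator of a finite set of levels -/
def EM (S : Finset ℕ) (F : G → ℝ≥0∞) (y : G) : ℝ≥0∞ := ∑ m ∈ S, (m : ℝ≥0∞)⁻¹ * hq F (m * m) y

/-- correlation of the piece `c` with the invariant set `W` along `h` -/
def Ix (Φ : G → ℂ) (W : Set G) (h : G) (c : Set G) : ℝ≥0∞ :=
  ∫⁻ x in c, ‖Φ x‖ₑ * W.indicator (fun y => ‖Φ y‖ₑ) (h * x) ∂nu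

/-- near diagonal matrices -/
def Bx (C w : ℝ) : Set G := {g | |g 0 0| ≤ C ∧ |g 1 1| ≤ C ∧ |g 0 1| ≤ C * w ∧ |g 1 0| ≤ C * w}

/-- the tube around `y` (of length `log C`) -/
def tb (C w : ℝ) (y : G) : Set G := {x | y⁻¹ * x ∈ Bx C w}

/-- the part of `W0` of tube mass at least `δ` -/
def Hv (Φ : G → ℂ) (W0 : Set G) (C w δ : ℝ) : Set G := {y | y ∈ W0 ∧ ENNReal.ofReal δ ≤ ms Φ (W0 ∩ tb C w y)}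

/-- the level sets of `G / f` -/
def Ws (Φ : G → ℂ) (F : G → ℝ≥0∞) (g : ℝ) : Set G :=
  {y | ENNReal.ofReal g * ‖Φ y‖ₑ ≤ F y ∧ F y < ENNReal.ofReal (2 * g) * ‖Φ y‖ₑ}

/-- no traceless integral matrix of gauge `< D` -/
def Dg (D w : ℝ) (a : HSL.MR) : Prop := ∀ v : HSL.MZ, v ≠ 0 → v.trace = 0 → |HSL.fr a a v 0 0| < D →
  |HSL.fr a a v 0 1| < D * w → |HSL.fr a a v 1 0| < D * w → False

/-- cells of mass about `A` (as `CelM` of `HS/Bd/Top`) -/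
def CM (Φ : G → ℂ) (R w A : ℝ) (V : Finset (Fin 3 → ℤ)) : Prop :=
  ∀ z ∈ V, ENNReal.ofReal A ≤ ms Φ (cel R w z) ∧ ms Φ (cel R w z) ≤ ENNReal.ofReal (2 * A)

/-- the cells of the box are tubes with constant `C` -/
def CT (R w C : ℝ) : Prop := ∀ z : Fin 3 → ℤ, ∀ x ∈ cel R w z, ∀ x' ∈ cel R w z, x' ∈ tb C w x

/-- a fan: primitive inequivalent returns from the frame `a` to frames `b j` -/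
structure Fan (C w L : ℝ) (r : ℕ) (a : HSL.MR) (b : Mat → HSL.MR) (H : Finset (Mat × HSL.MZ)) : Prop where
  ret : ∀ t ∈ H, HSL.Prim t.2 ∧ (b t.1).det = 1 ∧
    ∃ m : ℕ, HSL.Ret C w a (b t.1) m t.2 ∧ (m : ℝ) ≤ L ∧ m.primeFactorsList.length ≤ r
  inq : ∀ t ∈ H, ∀ t' ∈ H, ∀ γ : HSL.MZ, γ.det = 1 → t'.2 = γ * t.2 → t = t'

/-! ### Operators -/

/-- **Her** Hermite representatives. Proof. `HSL.MultM.hermite_form` (HS/L/Mult): every `s` with `det s = n² > 0` is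
`γ (a, b; 0, d)` with `0 < a`, `0 ≤ b < d`, `a d = n²`; `Pr` is invariant. Two of them with `r' = γ r`: `γ = r' r⁻¹` is upper
triangular, its diagonal entries are positive and have product `1`, so they are `1`, and `b' = b + x d`, `0 ≤ b, b' < d`: `x = 0`.
Card: for every divisor `d` of `n²` at most `d ≤ n²` values of `b`. Last part: `(γ, r) ↦ γ r` is a bijection of `SL(2, ℤ) × RepN n` onto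
the primitive elements of `Mn (n * n)`; `nm (γ r) = io γ * nm r` (`Nm`), `hs_one`; `ENNReal.tsum_prod`, `tsum_fintype`. -/
def V_Her : Prop := ∀ n : ℕ, 0 < n →
  (∀ r ∈ RepN n, Pr r ∧ r.det = (n : ℤ) * n ∧ r 1 0 = 0 ∧ ∀ i j, 0 ≤ r i j ∧ r i j ≤ (n : ℤ) ^ 2) ∧
  (∀ s : Mat, Pr s → s.det = (n : ℤ) * n → ∃ (γ : SL(2, ℤ)) (r : Mat), r ∈ RepN n ∧ s = (γ : Mat) * r) ∧
  (∀ r ∈ RepN n, ∀ r' ∈ RepN n, ∀ γ : Mat, γ.det = 1 → r' = γ * r → r' = r) ∧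
  (RepN n).card ≤ (n ^ 2).divisors.card * n ^ 2 ∧
  ∀ (F : G → ℝ≥0∞) (y : G), hq F (n * n) y = ∑ r ∈ RepN n, hs F 1 (nm r * y)

/-- **Lev** finite sets of levels (uses nothing). Proof. `sm Q j n` implies `n ∣ (∏ p)^j`: every prime exponent of `n` is at most `cardFactors n = j`. Card: the map
`(Fin j → Q) → ℕ`, product, is onto `Lev Q j` (`n` is the product of its list of prime factors, of length `j`). (4) `m = n n'`: size by `sm_size` of Am8,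
`primeFactorsList` of a product. (5) `Q1`, `Q2` disjoint: `n n' = n₁ n₁'` implies `n = n₁` (compare prime factors). -/
def V_Lev : Prop := (∀ Q : Finset ℕ, (∀ p ∈ Q, p.Prime) → ∀ j : ℕ, (∀ n, n ∈ Lev Q j ↔ Pool.Agent.A54.HS.sm Q j n) ∧
    (Lev Q j).card ≤ Q.card ^ j ∧ ∀ (F : G → ℝ≥0∞) (y : G), El Q j F y = EM (Lev Q j) F y) ∧
  (∀ (Q : Finset ℕ) (M : ℝ), 1 ≤ M → Q ⊆ Pm M → ∀ (j n : ℕ), n ∈ Lev Q j →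
    0 < n ∧ M ^ j ≤ (n : ℝ) ∧ (n : ℝ) ≤ (2 * M) ^ j ∧ n.primeFactorsList.length = j ∧ (n ^ 2).divisors.card ≤ 4 ^ j) ∧
  ∀ (Q1 Q2 : Finset ℕ) (M1 M2 : ℝ), 1 ≤ M1 → 1 ≤ M2 → Q1 ⊆ Pm M1 → Q2 ⊆ Pm M2 → ∀ (j1 j2 m : ℕ),
    m ∈ L2 Q1 Q2 j1 j2 → 0 < m ∧ M1 ^ j1 * M2 ^ j2 ≤ (m : ℝ) ∧ (m : ℝ) ≤ (2 * M1) ^ j1 * (2 * M2) ^ j2 ∧
      m.primeFactorsList.length = j1 + j2

/-- **FFu** the fundamental domain (uses `Nm`). Proof. `base (io γ * y) = γ • base y`; `ModularGroup.eq_one_or_neg_one_of_mem_fdo_mem_fdo`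
(see Hp/FlH.lean). Second part: `hs_one`; the terms `γ` with `io γ * y ∈ FF ∩ W` are at most two (if `γ₀`, `γ` are two of them then `γ γ₀⁻¹ = ± 1`), each is
`‖Φ y‖ₑ`, and `y ∈ W`. -/
def V_FFu : Prop := (∀ y ∈ FF, ∀ γ : SL(2, ℤ), io γ * y ∈ FF → γ = 1 ∨ γ = -1) ∧
  ∀ (Φ : G → ℂ) (W : Set G), (∀ (γ : SL(2, ℤ)) (g : G), Φ (io γ * g) = Φ g) → LInv W → ∀ y : G,
    hs (AIkM.ff Φ (FF ∩ W)) 1 y ≤ 2 * W.indicator (fun x => ‖Φ x‖ₑ) y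

/-- **Inv** invariance of `El` and symmetry of `hq` (uses `NuL`, `Nm`). Proof. (1) `hs_inv` for the primitive sum (`rmul` preserves `Pr`). (2) for each `m ∈ Mn (n n)` primitive
`∫ F1(x) F2(nm m x) = ∫ F1((nm m)⁻¹ x) F2(x)` (left invariance), `(nm m)⁻¹ = nm (adj m)`, and `adjE` is a bijection which preserves `Pr`. -/
def V_Inv : Prop := (∀ (Q : Finset ℕ) (j : ℕ) (F : G → ℝ≥0∞) (γ : SL(2, ℤ)) (y : G), El Q j F (io γ * y) = El Q j F y) ∧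
  ∀ (F1 F2 : G → ℝ≥0∞), Measurable F1 → Measurable F2 → ∀ n : ℕ, 0 < n →
    ∫⁻ x, F1 x * hq F2 (n * n) x ∂nu = ∫⁻ x, F2 x * hq F1 (n * n) x ∂nu

/-- **Comp** composition (uses `FFu`, `Lev`, `HSL.S_Cls`, `Nm`). Proof. The left side is the sum over `n' ∈ Lev Q2 j2`, `s' ∈ Mn(n' n')` primitive with `nm s' y ∈ U`, `n ∈ Lev Q1 j1`,
`s ∈ Mn(n n)` primitive, of `(n n')⁻¹ F(nm s nm s' y)`. `h = s s'` has determinant `(n n')²`, is primitive (coprime determinants: a prime `ℓ ∤ det s` dividing `h` divides `s'`, and conversely),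
`nm h = nm s nm s'`. The map `(s, s') ↦ h` is at most two to one: `n n'` determines `n`, `n'` (`Q1`, `Q2` disjoint); `S_Cls`: `s'₁ = γ s'` with `det γ = 1`; `nm s' y` and `io γ (nm s' y)` are in `FF`, so
`γ = ± 1` (`FFu`). -/
def V_Comp : Prop := ∀ (Q1 Q2 : Finset ℕ), (∀ p ∈ Q1, p.Prime) → (∀ p ∈ Q2, p.Prime) → Disjoint Q1 Q2 →
  ∀ (j1 j2 : ℕ) (F : G → ℝ≥0∞) (U : Set G), U ⊆ FF → ∀ y : G,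
    El Q2 j2 (U.indicator (El Q1 j1 F)) y ≤ 2 * EM (L2 Q1 Q2 j1 j2) F y

/-- **Tk** the first moment against `|Φ|` (uses `NuL`, `Unf`, `Nm`). Proof. `F = ff Φ V`, `P_j = ∫_FF (Ao Q)^[j] (hs F 1) |Φ| = 2 ∫ F (Ao Q)^[j] |Φ|` (`Ao_iter_hs`, `unf`, `int_iter`). Pointwise
`Ao Q |Φ| ≥ eP l Q |Φ|` (`Ao_le`), `eP ≥ (3/4) q` (`eP_ge`), so `P_(j+1) ≥ (3/4) q P_j` (`Ao_mono` iterated), `P_0 = 2 ms V`. `pow_le`: `P_k ≤ Ck k ∑_(j ≤ k) q^((k-j)/2) T_j`, `T_j = ∫_FF El Q j F |Φ| ≤ P_j` (`le_pow`)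
`≤ (4/(3q))^(k-j) P_k`. The terms `j < k` are together at most `Ck k · k (4/3)^k q^(-1/2) P_k ≤ P_k/2` if `q ≥ C`; `P_k` is finite (`F` is bounded with support in the compact set `Om R`, `(Ao Q)^[k] |Φ|` is continuous). So
`P_k ≤ 2 Ck k T_k` and `T_k ≥ P_k/(2 Ck k) ≥ (3/4)^k q^k 2 ms V/(2 Ck k)`. -/
def V_Tk : Prop := ∀ (k : ℕ) (R : ℝ), 1 ≤ k → 1 ≤ R → ∃ C : ℝ, 1 ≤ C ∧ ∀ (l : ℕ → ℝ) (Φ : G → ℂ), HE l Φ →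
  ∀ V : Set G, MeasurableSet V → V ⊆ Om R → ∀ M : ℝ, 1 ≤ M → ∀ Q : Finset ℕ, Q ⊆ Pm M → (∀ p ∈ Q, |l p| ≤ 1 / 2) →
    C ≤ (Q.card : ℝ) → (Q.card : ℝ≥0∞) ^ k * ms Φ V ≤
      ENNReal.ofReal C * ∫⁻ y in FF, El Q k (AIkM.ff Φ V) y * ‖Φ y‖ₑ ∂nu

/-- **G2** the second moment (uses `NuL`, `Unf`, `Nm`). Proof. `le_pow`, `Ao_iter_hs`, `FF_prod` with `i = j = k`. -/
def V_G2 : Prop := ∀ (Q : Finset ℕ), (∀ p ∈ Q, p.Prime) → ∀ (k : ℕ) (F : G → ℝ≥0∞), Measurable F →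
  ∫⁻ y in FF, El Q k F y ^ 2 ∂nu ≤ 2 * aa Q F (2 * k)

/-- **AIF** the amplifier inequality without lower terms for invariant sets (uses `NuL`, `Unf`, `Nm`, `FFu`). Proof. As `stmtAI3` (HS/Am9.lean), with `U = FF ∩ W`, `F = ff Φ U`: `a₀ = ∫ F hs F 1 ≤ 2 ∫ F f = 2 ms U` (`FFu`) replaces `hDds`,
`ms U ≤ 2` (`HE.norm`) replaces `hTot`. Finiteness of `aa Q F i`: `f ≤ B` on the compact set `Om R'`, hence on `W`; `hs F 1 ≤ 2 B`, so `(Ao Q)^[i] (hs F 1) ≤ B'` everywhere (`Ao` of a constant is a finite constant), and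
`∫ F ≤ B nu(FF ∩ W) ≤ B ∫_FF hs (1_(Om R')) 1 = 2 B nu(Om R') < ∞`. -/
def V_AIF : Prop := ∀ k : ℕ, 1 ≤ k → ∃ C : ℝ, 1 ≤ C ∧ ∀ (l : ℕ → ℝ) (Φ : G → ℂ), HE l Φ → ∀ W : Set G, MeasurableSet W → LInv W →
  ∀ R' : ℝ, (∀ y ∈ W, ∃ γ : SL(2, ℤ), io γ * y ∈ Om R') → ∀ M : ℝ, 1 ≤ M → ∀ Q : Finset ℕ, Q ⊆ Pm M → (∀ p ∈ Q, |l p| ≤ 1 / 2) →
    ENNReal.ofReal C ≤ (Q.card : ℝ≥0∞) ^ k * ms Φ (FF ∩ W) →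
      (Q.card : ℝ≥0∞) ^ (2 * k) * ms Φ (FF ∩ W) ^ 2 ≤ ENNReal.ofReal C *
        ∫⁻ x, AIkM.ff Φ (FF ∩ W) x * El Q (2 * k) (AIkM.ff Φ (FF ∩ W)) x ∂nu

/-- **Cv** large moments are attained by the top level (uses `NuL`, `Unf`, `Nm`, `Dds`, `Tot`). Proof. `absorb` (HS/Am9.lean) for `a n = aa Q F n`, `e j = ∫ F El Q j F`, `q = card Q ≥ 1`: the hypothesis `(B² q)^k a 0 ≤ a (2k)` holds because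
`a 0 ≤ C_D ms V` (`Dds`, as in `stmtAI3`); convexity `aa_cs`, upper bound `pow_le`, finiteness as in `stmtAI3`. -/
def V_Cv : Prop := ∀ (k : ℕ) (R : ℝ), 1 ≤ k → 1 ≤ R → ∃ C : ℝ, 1 ≤ C ∧ ∀ (l : ℕ → ℝ) (Φ : G → ℂ), HE l Φ →
  ∀ V : Set G, MeasurableSet V → V ⊆ Om R → ∀ M : ℝ, 1 ≤ M → ∀ Q : Finset ℕ, Q ⊆ Pm M → Q.Nonempty →
    ENNReal.ofReal C * ((Q.card : ℝ≥0∞) ^ k * ms Φ V) ≤ aa Q (AIkM.ff Φ V) (2 * k) →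
      aa Q (AIkM.ff Φ V) (2 * k) ≤ ENNReal.ofReal C * ∫⁻ x, AIkM.ff Φ V x * El Q (2 * k) (AIkM.ff Φ V) x ∂nu

/-! ### Correlations and tubes -/

/-- **Bil** (uses `Her`, `Inv`, `FFu`). Proof. `Inv` (2): the left side is `∫ F hq F_U (m m)`, `F_U = ff Φ (FF ∩ W)`, `= ∫ F(x) ∑_r hs F_U 1 (nm r x)` (`Her`) `≤ 2 ∑_r ∫ F(x) (1_W f)(nm r x)` (`FFu`), and `F = ∑_(z ∈ V) 1_(cel z) f`
(cells are disjoint, `mem_cel`). -/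
def V_Bil : Prop := ∀ (l : ℕ → ℝ) (Φ : G → ℂ), HE l Φ → ∀ (R w : ℝ) (V : Finset (Fin 3 → ℤ)) (W : Set G), MeasurableSet W → LInv W →
  ∀ m : ℕ, 0 < m → ∫⁻ x, AIkM.ff Φ (FF ∩ W) x * hq (AIkM.ff Φ (celU R w V)) (m * m) x ∂nu ≤
    2 * ∑ z ∈ V, ∑ r ∈ RepN m, Ix Φ W (nm r) (cel R w z)

/-- **Ix** (uses `NuL`). Proof. Cauchy-Schwarz `AIkM.cs` for `nu.restrict c`: `Ix² ≤ ms Φ c · ∫_(x ∈ c) (1_W f)²(h x)`, the second factor is `∫ 1_c(h⁻¹ y) 1_W(y) f(y)² dy` by left invariance. If `Ix ≠ 0` the integrand is not zero at some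
`x ∈ c`. -/
def V_Ix : Prop := ∀ (Φ : G → ℂ), Continuous Φ → ∀ (W c : Set G), MeasurableSet W → MeasurableSet c → ∀ h : G,
  Ix Φ W h c ^ 2 ≤ ms Φ c * ms Φ (W ∩ {y | h⁻¹ * y ∈ c}) ∧ (Ix Φ W h c ≠ 0 → ∃ x ∈ c, h * x ∈ W)

/-- **Bx** tubes (uses `Tub`, `Nm`). Proof. (1) closed set. (2) `x⁻¹ y = (y⁻¹ x)⁻¹`, the inverse of a matrix of determinant one is the adjugate. (3) product of two near diagonal matrices: diagonal `≤ C C' + C C' w² ≤ 2 C C'`, off-diagonal `≤ 2 C C' w`.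
(4) `(h y)⁻¹ (h x) = y⁻¹ x`. (5) `cel R w z ⊆ Tb R (xi x) w` (`cel_sub_Tb`), `stmtTub`. (6) `u = x (x⁻¹ u)`. (7) `fr a b r = b⁻¹ r a = m (b⁻¹ nm r a)`, `√(det r) = m`. (8) finite mass: `tb C w y ⊆ Om R'` for some `R'` (compact), `Φ` continuous. -/
def V_Bx : Prop := (∀ (C w : ℝ) (y : G), MeasurableSet (tb C w y)) ∧
  (∀ (C w : ℝ) (x y : G), x ∈ tb C w y → y ∈ tb C w x) ∧
  (∀ (C C' w : ℝ) (x y u : G), 0 ≤ w → w ≤ 1 → 1 ≤ C → 1 ≤ C' → x ∈ tb C w y → u ∈ tb C' w x → u ∈ tb (2 * C * C') w y) ∧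
  (∀ (C w : ℝ) (h x y : G), h * x ∈ tb C w (h * y) ↔ x ∈ tb C w y) ∧
  (∀ R : ℝ, 1 ≤ R → ∃ C : ℝ, 1 ≤ C ∧ ∀ w : ℝ, 0 < w → CT R w C) ∧
  (∀ (C w R : ℝ) (x u : G), 0 ≤ w → w ≤ 1 → 1 ≤ C → 1 ≤ R → x ∈ Om R → u ∈ tb C w x → u ∈ Om (2 * R * C)) ∧
  (∀ (C w : ℝ) (a b : G) (r : Mat) (m : ℕ), 0 < m → r.det = (m : ℤ) ^ 2 → nm r * a ∈ tb C w b → HSL.Ret C w a.1 b.1 m r) ∧
  (∀ (C C' w : ℝ) (y : G), C ≤ C' → 0 ≤ w → tb C w y ⊆ tb C' w y) ∧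
  ∀ (Φ : G → ℂ), Continuous Φ → ∀ (C w : ℝ) (y : G), ms Φ (tb C w y) ≠ ⊤

/-- **Hv** the heavy part (uses `NuL`, `Bx`). Proof. `y ↦ ms Φ (W0 ∩ tb C w y) = ∫ 1_(W0)(x) f(x)² 1_(Bx C w)(y⁻¹ x) dx` is measurable (`Measurable.lintegral_prod_right'`, the integrand is measurable on `G × G`, `nu` is σ-finite), and it is invariant: `x = io γ x'`,
left invariance, `W0` and `f` invariant. -/
def V_Hv : Prop := ∀ (Φ : G → ℂ), Continuous Φ → (∀ (γ : SL(2, ℤ)) (g : G), Φ (io γ * g) = Φ g) → ∀ (W0 : Set G), MeasurableSet W0 → LInv W0 →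
  ∀ C w δ : ℝ, MeasurableSet (Hv Φ W0 C w δ) ∧ LInv (Hv Φ W0 C w δ)

/-- **Lt** the light part (uses `Lev`, `Her`, `Bil`, `Ix`, `Bx`, `Hv`). Proof. `W' = W0 \ Hv` is measurable and invariant. The left side is `∫ ff Φ (FF ∩ W') El Q k F = ∑_(n ∈ Lev Q k) n⁻¹ ∫ ff Φ (FF ∩ W') hq F (n n) ≤ ∑ n⁻¹ 2 ∑_(z ∈ V) ∑_(r ∈ RepN n) Ix Φ W' (nm r) (cel z)`
(`Lev`, `Bil`). If `Ix ≠ 0` there is `x ∈ cel z` with `y = nm r x ∈ W'`, and `{y' : (nm r)⁻¹ y' ∈ cel z} ⊆ tb C w y` (`CT`, `Bx` (4)), so `Ix² ≤ 2A · ms Φ (W0 ∩ tb C w y) ≤ 2 A δ`. So the left side is at most `∑_n n⁻¹ 2 card V card (RepN n) √(2Aδ)`,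
`card (RepN n) ≤ 4^k n²` (`Her`, `Lev`), `∑_n n ≤ (card Q)^k (2M)^k`. -/
def V_Lt : Prop := ∀ (l : ℕ → ℝ) (Φ : G → ℂ), HE l Φ → ∀ (k : ℕ) (R w C A δ M : ℝ), 0 < w → w ≤ 1 → 1 ≤ C → 0 ≤ A → 0 ≤ δ → 1 ≤ M → CT R w C →
  ∀ (V : Finset (Fin 3 → ℤ)), (∀ z ∈ V, ms Φ (cel R w z) ≤ ENNReal.ofReal (2 * A)) → ∀ Q : Finset ℕ, Q ⊆ Pm M →
  ∀ W0 : Set G, MeasurableSet W0 → LInv W0 →
    ∫⁻ y in FF ∩ (W0 \ Hv Φ W0 C w δ), El Q k (AIkM.ff Φ (celU R w V)) y * ‖Φ y‖ₑ ∂nu ≤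
      ENNReal.ofReal (2 * 4 ^ k * (2 * M) ^ k * (Q.card : ℝ) ^ k * (V.card : ℝ) * √(2 * A * δ))

/-- **Hgt** height of the support (uses `Lev`, `Her`, `Nm`). Proof. There are `n ∈ Lev Q k` and `s`, `det s = n²`, `Pr s`, with `nm s y ∈ V ⊆ Om R`. `adj s = γ' r`, `r ∈ RepN n` (`Pr (adj s)`, `Her`); `y = nm (adj s) (nm s y) = io γ' nm r (nm s y)`, so with `γ = γ'⁻¹`:
`io γ y = nm r (nm s y)` has entries `≤ 2 (n²/n) R = 2 n R ≤ 2 (2M)^k R` (entries of `r` at most `n²`, `√(det r) = n`). -/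
def V_Hgt : Prop := ∀ (Φ : G → ℂ) (k : ℕ) (R M : ℝ), 1 ≤ R → 1 ≤ M → ∀ Q : Finset ℕ, Q ⊆ Pm M → ∀ V : Set G, V ⊆ Om R →
  ∀ y : G, El Q k (AIkM.ff Φ V) y ≠ 0 → ∃ γ : SL(2, ℤ), io γ * y ∈ Om (2 * (2 * M) ^ k * R)

/-- **Sov** self-overlap of tubes (uses `Bx`). Proof. Replacing `c` by `io γ₁ c` and `T` by `{γ₁ γ : γ ∈ T}`... precisely: let `c₁ = io γ₁ c ∈ Om R'`; `γ₀ ∈ T` fixed; for `γ ∈ T` put `δ = γ₁ γ γ₀⁻¹ γ₁⁻¹ ∈ SL(2, ℤ)`, `b = c₁⁻¹ δ c₁ = c⁻¹ (γ γ₀⁻¹) c ∈ Bx (2 C²) w` (`(c⁻¹ γ x)(c⁻¹ γ₀ x)⁻¹`). `γ ↦ δ` is injective.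
Let `E = 2 C²`. `t = tr δ = b₀₀ + b₁₁` is an integer, `|t| ≤ 2E`; `b₀₀ b₁₁ = 1 + b₀₁ b₁₀`, `(b₀₀ - b₁₁)² = t² - 4 - 4 b₀₁ b₁₀`, `|b₀₁ b₁₀| ≤ E² w²`. `|t| ≤ 1` is impossible (`4 E² w² < 3`). `|t| = 2`: `|b₀₀ - b₁₁| ≤ 2 E w`. `|t| ≥ 3`: `|b₀₀ - b₁₁| ≥ 1`, and for two `δ`, `δ'` with the same `t` and the same sign of
`b₀₀ - b₁₁`: `|(b₀₀ - b₁₁) - (b'₀₀ - b'₁₁)| ≤ |difference of the squares|/2 ≤ 4 E² w²`. In all cases `b - b'` has entries `≤ 4 E² w + 2 E w ≤ 6 E² w`, `δ - δ' = c₁ (b - b') c₁⁻¹` has entries `≤ 4 R'² · 6 E² w < 1`: `δ = δ'`. So `card T ≤ 2 (4E + 1)`. -/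
def V_Sov : Prop := ∀ C : ℝ, 1 ≤ C → ∃ C' c₀ : ℝ, 1 ≤ C' ∧ 0 < c₀ ∧ ∀ (w R' : ℝ), 0 < w → w ≤ 1 → 1 ≤ R' → w * R' ^ 2 ≤ c₀ →
  ∀ c : G, (∃ γ : SL(2, ℤ), io γ * c ∈ Om R') → ∀ (x : G) (T : Finset SL(2, ℤ)), (∀ γ ∈ T, io γ * x ∈ tb C w c) → (T.card : ℝ) ≤ C'

/-- **Gre** greedy classes (uses `Unf`, `Nm`, `Bx`, `Sov`). Proof. `i ~ j` if `io γ u ∈ tb C w (c j)` for some `γ` and `u ∈ tb C w (c i)` (symmetric; reflexive as `1 ∈ Bx`). Let `Y ⊆ H` be maximal with pairwise non-related elements (`Finset.exists_maximal` or induction): the first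
property. Second: `t_j = tb C w (c j)`; `2 ∫ 1_(t_j) 1_(W0) f² = ∫_FF hs (1_(t_j)) 1 · 1_(W0) f²` (`unf`), and for each `y`: `∑_(j ∈ Y) hs (1_(t_j)) 1 y ≤ C'`: at most one `j` has `io γ y ∈ t_j` for some `γ` (two would be related), and for it the number of `γ` is
`≤ C'` (`Sov`; a finite-subset bound gives the bound of the sum). So the sum is `≤ (C'/2) ms Φ (FF ∩ W0)`. -/
def V_Gre : Prop := ∀ C : ℝ, 1 ≤ C → ∃ C' c₀ : ℝ, 1 ≤ C' ∧ 0 < c₀ ∧ ∀ (w R' : ℝ), 0 < w → w ≤ 1 → 1 ≤ R' → w * R' ^ 2 ≤ c₀ →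
  ∀ (Φ : G → ℂ), Continuous Φ → (∀ (γ : SL(2, ℤ)) (g : G), Φ (io γ * g) = Φ g) → ∀ W0 : Set G, MeasurableSet W0 → LInv W0 →
  ∀ (H : Finset Mat) (c : Mat → G), (∀ i ∈ H, ∃ γ : SL(2, ℤ), io γ * c i ∈ Om R') →
    ∃ Y : Finset Mat, Y ⊆ H ∧ (∀ i ∈ H, ∃ j ∈ Y, ∃ γ : SL(2, ℤ), ∃ u ∈ tb C w (c i), io γ * u ∈ tb C w (c j)) ∧
      ∑ j ∈ Y, ms Φ (W0 ∩ tb C w (c j)) ≤ ENNReal.ofReal C' * ms Φ (FF ∩ W0)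

/-- **Pig** pigeonhole (uses nothing). Proof. `X = 2(S + 2)/T ≥ 2` (as `T ≤ ∫ f g ≤ (∫ f² + ∫ g²)/2 ≤ S + 2`). `∫_(g > X f) f g ≤ X⁻¹ ∫ g² ≤ S/X`, `∫_(g < f/X) f g ≤ X⁻¹ ∫ f² ≤ 2/X`: together `≤ T/2`. The points with `f/X ≤ g ≤ X f`, `f g ≠ 0` (then `0 < f < ∞` a.e., `0 < g < ∞`) lie in the sets `E_i`, `2^i ≤ X`,
`2^(i+1) > 1/X`: at most `2 log₂ X + 3` values of `i` (a finite set of integers); one of them has `∫_(E_i) f g ≥ (T/2)/(2 log₂ X + 3)`, and `2(2 log₂ X + 3) ≤ 8 (1 + log X)`. (`f = ∞` or `g = ∞` only on a null set.) -/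
def V_Pig : Prop := ∀ (μ : Measure G) (f g : G → ℝ≥0∞), Measurable f → Measurable g → ∀ (S T : ℝ), 0 ≤ S → 0 < T →
  ∫⁻ x, f x ^ 2 ∂μ ≤ 2 → ∫⁻ x, g x ^ 2 ∂μ ≤ ENNReal.ofReal S → ENNReal.ofReal T ≤ ∫⁻ x, f x * g x ∂μ →
    ∃ i : ℤ, ENNReal.ofReal T ≤ ENNReal.ofReal (8 * (1 + Real.log (2 * (S + 2) / T))) *
      ∫⁻ x in {x | ENNReal.ofReal ((2 : ℝ) ^ i) * f x ≤ g x ∧ g x < ENNReal.ofReal (2 * (2 : ℝ) ^ i) * f x}, f x * g x ∂μ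

/-! ### Case 2 -/

/-- **U** the set `U` (uses `Tk`, `G2`, `Pig`, `Inv`, `Hv`, `Lt`, `Lev`). `q = card Q`, `N = card V`, `F = ff Φ (celU R w V)`, `G = El Q k F`, `T₁ = q^k A N/C₁` (`C₁` from `Tk`; `ms Φ (celU) ≥ A N` by `ms_celU`, so `∫_FF G f ≥ T₁`), `S' = 2S ≥ ∫_FF G²` (`G2`), `Λ = 1 + log (2(2S+2)/T₁) ≤ 1 + log (C (S+1)/(q^k A N))`.
Proof. `Pig` for `nu.restrict FF`: `g = 2^i`, `W0 = Ws Φ G g` is measurable and invariant (`Inv`), `T₀ := ∫_(FF ∩ W0) G f ≥ T₁/(8Λ)`. `δ := A/(C Λ² M^(2k))` so that the bound of `Lt` is `≤ T₁/(16 Λ) ≤ T₀/2`: `2·4^k (2M)^k q^k N √(2Aδ) = 2·8^k √2 (q^k A N) C^(-1/2) Λ⁻¹`; `C ≥ (32 √2 8^k C₁)²` is enough. `W = Hv Φ W0 C₀ w δ`: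
`∫_(FF ∩ W) G f ≥ T₀/2` (`T₀ < ∞`). On `W0`: `g f² ≤ G f ≤ 2 g f²`, so `g ms(FF ∩ W0) ≤ T₀`, `T₀/2 ≤ 2 g ms(FF ∩ W)`: `m₀ ≤ 4 m₁`, `g m₁ ≥ T₀/4 ≥ T₁/(32Λ)`. Cauchy-Schwarz: `(T₀/2)² ≤ ∫_FF G² m₁ ≤ 2S m₁`. -/
def V_U : Prop := ∀ (k : ℕ) (R C₀ : ℝ), 1 ≤ k → 1 ≤ R → 1 ≤ C₀ → ∃ C : ℝ, 1 ≤ C ∧ ∀ (l : ℕ → ℝ) (Φ : G → ℂ), HE l Φ →
  ∀ (w A M S : ℝ), 0 < w → w ≤ 1 → 0 < A → 1 ≤ M → 0 ≤ S → CT R w C₀ → ∀ (V : Finset (Fin 3 → ℤ)), V.Nonempty → CM Φ R w A V →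
  ∀ Q : Finset ℕ, Q ⊆ Pm M → (∀ p ∈ Q, |l p| ≤ 1 / 2) → C ≤ (Q.card : ℝ) →
  aa Q (AIkM.ff Φ (celU R w V)) (2 * k) ≤ ENNReal.ofReal S →
  ∃ (g Λ m₀ m₁ : ℝ), 0 < g ∧ 1 ≤ Λ ∧ 0 < m₁ ∧ Λ ≤ 1 + Real.log (C * (S + 1) / ((Q.card : ℝ) ^ k * A * V.card)) ∧
    ms Φ (FF ∩ Ws Φ (El Q k (AIkM.ff Φ (celU R w V))) g) = ENNReal.ofReal m₀ ∧
    ms Φ (FF ∩ Hv Φ (Ws Φ (El Q k (AIkM.ff Φ (celU R w V))) g) C₀ w (A / (C * Λ ^ 2 * M ^ (2 * k)))) = ENNReal.ofReal m₁ ∧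
    m₀ ≤ 4 * m₁ ∧ m₁ ≤ 2 ∧ (Q.card : ℝ) ^ k * A * V.card ≤ C * Λ * (g * m₁) ∧
    ((Q.card : ℝ) ^ k * A * V.card) ^ 2 ≤ C * Λ ^ 2 * (S * m₁)

/-- **J** the lower bound for the two step correlation (uses `AIF`, `Comp`, `Hgt`, `Lev`). Proof. `W ⊆ W0 = Ws Φ G g`, `U = FF ∩ W`, `F_U = ff Φ U`. On `W`: `g f ≤ G`, so `U.indicator G ≥ g F_U`; `El` is monotone and homogeneous; `AIF` with `Q2`, `l` (heights: on `Ws` one has `G ≠ 0` because `G < 2 g f` gives `f ≠ 0` and `g f ≤ G`; `Hgt`): `g q2^(2l) m₁² ≤ C ∫ F_U El Q2 (2l) (g F_U)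
≤ C ∫ F_U El Q2 (2l) (U.indicator G) ≤ 2 C ∫ F_U EM (L2 Q1 Q2 k (2l)) F` (`Comp`). -/
def V_J : Prop := ∀ (k j : ℕ) (R : ℝ), 1 ≤ k → 1 ≤ j → 1 ≤ R → ∃ C : ℝ, 1 ≤ C ∧ ∀ (l : ℕ → ℝ) (Φ : G → ℂ), HE l Φ →
  ∀ (w M1 M2 g m₁ : ℝ) (V : Finset (Fin 3 → ℤ)), 1 ≤ M1 → 1 ≤ M2 → 0 < g → 0 ≤ m₁ → ∀ Q1 Q2 : Finset ℕ, Q1 ⊆ Pm M1 → Q2 ⊆ Pm M2 → Disjoint Q1 Q2 → (∀ p ∈ Q2, |l p| ≤ 1 / 2) →
  ∀ W : Set G, MeasurableSet W → LInv W → W ⊆ Ws Φ (El Q1 k (AIkM.ff Φ (celU R w V))) g → ms Φ (FF ∩ W) = ENNReal.ofReal m₁ → C ≤ (Q2.card : ℝ) ^ j * m₁ →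
    ENNReal.ofReal (g * (Q2.card : ℝ) ^ (2 * j) * m₁ ^ 2) ≤ ENNReal.ofReal C *
      ∫⁻ x, AIkM.ff Φ (FF ∩ W) x * EM (L2 Q1 Q2 k (2 * j)) (AIkM.ff Φ (celU R w V)) x ∂nu

/-- **H** the paths from one cell (uses `Bil`, `Ix`, `Bx`, `Her`, `Gre`). `C₂ = 4 C₀²`. Proof. For `z ∈ V` put `x_z = rp R w z ∈ cel z` (nonempty because its mass is positive), and for `r` in `RepN m`, `m ∈ L`: `a(z, r) = ms Φ (W0 ∩ tb C₂ w (nm r x_z))`. If `Ix Φ W (nm r) (cel z) ≠ 0` there is `x ∈ cel z` with `y = nm r x ∈ W`: then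
`ms Φ (W0 ∩ tb C₀ w y) ≥ δ` and `tb C₀ w y ⊆ tb C₂ w (nm r x_z)` (`Bx`: `nm r x ∈ tb C₀ (nm r x_z)`), so `a ≥ δ`; `{y' : (nm r)⁻¹ y' ∈ cel z} ⊆ tb C₀ w (nm r x_z)`, so `Ix² ≤ 2 A a(z, r)`; `a(z, r) ≤ C' ms Φ (FF ∩ W0) ≤ 2 C'` (`Gre` for `H = {r}`; the hypothesis on the heights). So with `K₋ ≤ m` for `m ∈ L`:
`J ≤ ∑_m m⁻¹ 2 ∑_(z, r) Ix ≤ (2/K₋) ∑_(z, r hit) √(2 A a(z, r))`. Dyadic classes `a ∈ [α, 2α)`, `α = 2^i δ ≤ 2C'`: at most `2 (1 + log (2C'/δ))·2` of them; choose the class with the largest part and then the cell with the largest number of `r` (`H`): `J ≤ (2/K₋) (classes) N √(4 A α) card H`. The matrices of different levels are different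
(determinants), `H ⊆ ⋃ RepN m`. -/
def V_H : Prop := ∀ (R C₀ : ℝ), 1 ≤ R → 1 ≤ C₀ → ∃ C c₀ : ℝ, 1 ≤ C ∧ 0 < c₀ ∧ ∀ (l : ℕ → ℝ) (Φ : G → ℂ), HE l Φ →
  ∀ (w A δ K R' : ℝ), 0 < w → w ≤ 1 → 0 < A → 0 < δ → δ ≤ 1 → 0 < K → 1 ≤ R' → w * R' ^ 2 ≤ c₀ → CT R w C₀ → ∀ (V : Finset (Fin 3 → ℤ)), V.Nonempty → CM Φ R w A V →
  ∀ (W0 W : Set G), MeasurableSet W0 → LInv W0 → MeasurableSet W → LInv W → W ⊆ Hv Φ W0 C₀ w δ → (∀ y ∈ W0, ∃ γ : SL(2, ℤ), io γ * y ∈ Om R') →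
  ∀ L : Finset ℕ, (∀ m ∈ L, 0 < m ∧ K ≤ (m : ℝ)) →
  ∃ (α : ℝ) (z : Fin 3 → ℤ) (H : Finset Mat), δ ≤ α ∧ z ∈ V ∧
    (∀ r ∈ H, ∃ m ∈ L, r ∈ RepN m ∧ (∃ x ∈ cel R w z, nm r * x ∈ W) ∧ ENNReal.ofReal α ≤ ms Φ (W0 ∩ tb (4 * C₀ ^ 2) w (nm r * rp R w z))) ∧
    ∫⁻ x, AIkM.ff Φ (FF ∩ W) x * EM L (AIkM.ff Φ (celU R w V)) x ∂nu ≤
      ENNReal.ofReal (C * (1 + Real.log (C / δ)) * V.card / K * √(A * α) * H.card)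

/-- **Y** the fan (uses `Gre`, `Bx`, `Her`, `Lev`). Proof. `c r = nm r * rp R w z`; for `r ∈ H` a point `x ∈ cel z` has `nm r x ∈ W`, `io γ (nm r x) ∈ Om R'`, so `io γ (c r) ∈ Om (2 R' C₀)` (`Bx` (6)). `Gre` with `C = 4 C₀²`, `R'' = 2 R' C₀`: `Y ⊆ H`, `card Y · α ≤ C' ms Φ (FF ∩ W0)`. For `r ∈ H` let `j(r) ∈ Y`,
`γ_r` be as in `Gre` and `h_r = γ_r r`: `io γ u ∈ tb (c j)`, `u ∈ tb (c r)`, so `nm h_r (rp) = io γ c r ∈ tb (2 C²) w (c j)` (`Bx` (2), (3), (4)), `Ret` by `Bx` (7). `H' = {(j(r), h_r)}`: `r ↦ (j, h_r)` is injective and `H'` pairwise inequivalent because `r`, `r'` with `γ r = γ' r'` are equal (`Her` (3); different levels have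
different determinants). `HSL.Prim` from `Pr`. -/
def V_Y : Prop := ∀ (C₀ : ℝ), 1 ≤ C₀ → ∃ C c₀ : ℝ, 1 ≤ C ∧ 0 < c₀ ∧ ∀ (Φ : G → ℂ), Continuous Φ → (∀ (γ : SL(2, ℤ)) (g : G), Φ (io γ * g) = Φ g) →
  ∀ (w R R' α m₀ Lm : ℝ) (ρ : ℕ), 0 < w → w ≤ 1 → 1 ≤ R' → w * R' ^ 2 ≤ c₀ → 0 < α → 0 ≤ m₀ → CT R w C₀ → ∀ W0 : Set G, MeasurableSet W0 → LInv W0 →
  (∀ y ∈ W0, ∃ γ : SL(2, ℤ), io γ * y ∈ Om R') → ms Φ (FF ∩ W0) = ENNReal.ofReal m₀ → ∀ L : Finset ℕ,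
  (∀ m ∈ L, 0 < m ∧ (m : ℝ) ≤ Lm ∧ m.primeFactorsList.length ≤ ρ) → ∀ (z : Fin 3 → ℤ) (H : Finset Mat),
  (∀ r ∈ H, ∃ m ∈ L, r ∈ RepN m ∧ (∃ x ∈ cel R w z, nm r * x ∈ W0) ∧ ENNReal.ofReal α ≤ ms Φ (W0 ∩ tb (4 * C₀ ^ 2) w (nm r * rp R w z))) →
  ∃ (Y : Finset Mat) (H' : Finset (Mat × HSL.MZ)), (Y.card : ℝ) * α ≤ C * m₀ ∧ H'.card = H.card ∧ (∀ t ∈ H', t.1 ∈ Y) ∧
    Fan C w Lm ρ (rp R w z).1 (fun j => (nm j * rp R w z).1) H'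

/-- **K2** the fan with many paths (uses `U`, `J`, `H`, `Y`, `Hgt`, `Lev`, `Bx`, `Hv`, `Inv`). `q_i = card Q_i`, `N = card V`, `K₋ = M1^k M2^(2j)`, `Lm = (2M1)^k (2M2)^(2j)`. Hypothesis: `R' = 2 (2M1)^k R` has `w R'² ≤ c₀`. Proof. `U` gives `g, Λ, m₀, m₁`, `δ = A/(C Λ² M1^(2k))` (`≤ 1`), `W0 = Ws`, `W = Hv`. `J`: `g q2^(2j) m₁² ≤ C J`.
`H`: `J ≤ C Λ' N/K₋ √(A α) n_H`, `Λ' = 1 + log (C/δ)`. `Y`: `n_Y α ≤ C m₀ ≤ 4 C m₁`. So `n_H² ≥ J² K₋²/(C² Λ'² N² A α)`, `n_H² ≥ n_Y J² K₋²/(4C³ Λ'² N² A m₁) ≥ n_Y g² q2^(4j) m₁³ K₋²/(C' Λ'² N² A)`; `g m₁ ≥ q1^k A N/(CΛ)`, `m₁ ≥ (q1^k A N)²/(C Λ² S)`: `n_H² ≥ n_Y (q1^k A N)⁴ q2^(4j) K₋²/(C'' Λ'² Λ⁴ N² A S)`.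
`n_H ≥ n_Y (J K₋ √α)/(4 C² Λ' N √A m₁) ≥ n_Y g m₁ q2^(2j) K₋ √δ/(C' Λ' N √A) ≥ n_Y q1^k q2^(2j) K₋ A/(C'' Λ' Λ² M1^k)`. `Λ'' = Λ + Λ'`. `n_H > 0` as `J > 0`. -/
def V_K2 : Prop := ∀ (k j : ℕ) (R : ℝ), 1 ≤ k → 1 ≤ j → 1 ≤ R → ∃ C c₀ : ℝ, 1 ≤ C ∧ 0 < c₀ ∧ ∀ (l : ℕ → ℝ) (Φ : G → ℂ), HE l Φ →
  ∀ (w A M1 M2 S : ℝ), 0 < w → w ≤ 1 → 0 < A → A ≤ 1 → 1 ≤ M1 → 1 ≤ M2 → 0 < S → w * M1 ^ (2 * k) ≤ c₀ →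
  ∀ (V : Finset (Fin 3 → ℤ)), V.Nonempty → CM Φ R w A V → ∀ Q1 Q2 : Finset ℕ, Q1 ⊆ Pm M1 → Q2 ⊆ Pm M2 → Disjoint Q1 Q2 →
  (∀ p ∈ Q1, |l p| ≤ 1 / 2) → (∀ p ∈ Q2, |l p| ≤ 1 / 2) → C ≤ (Q1.card : ℝ) → aa Q1 (AIkM.ff Φ (celU R w V)) (2 * k) ≤ ENNReal.ofReal S →
  ∀ X : ℝ, 1 ≤ X → 1 + Real.log (C * (S + 1) / ((Q1.card : ℝ) ^ k * A * V.card)) + Real.log (C * M1 ^ (2 * k) / A) ≤ X →
  C * X ^ 2 * S ≤ (Q2.card : ℝ) ^ j * ((Q1.card : ℝ) ^ k * A * V.card) ^ 2 →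
  ∃ (z : Fin 3 → ℤ) (Y : Finset Mat) (b : Mat → HSL.MR) (H : Finset (Mat × HSL.MZ)), z ∈ V ∧ 0 < H.card ∧ (∀ t ∈ H, t.1 ∈ Y) ∧
    Fan C w ((2 * M1) ^ k * (2 * M2) ^ (2 * j)) (k + 2 * j) (rp R w z).1 b H ∧
    (Y.card : ℝ) * (((Q1.card : ℝ) ^ k) ^ 4 * A ^ 3 * (V.card : ℝ) ^ 2 * ((Q2.card : ℝ) ^ (2 * j)) ^ 2 * (M1 ^ k * M2 ^ (2 * j)) ^ 2) ≤
      C * X ^ 8 * S * (H.card : ℝ) ^ 2 ∧
    (Y.card : ℝ) * ((Q1.card : ℝ) ^ k * (Q2.card : ℝ) ^ (2 * j) * M2 ^ (2 * j) * A) ≤ C * X ^ 4 * (H.card : ℝ)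

/-! ### Counting -/

/-- **Pc** the pair count for a fan (helper26's `HS/Bd/Pc.lean`, `PcAll`; uses the L modules). `w = K^(-2)`. Proof. `HSL.S_CS` is not included. Scalar loops `≤ 2 card H`; the others: multiplicity lemma (`HSL.mult`, with inequivalence instead of `Ovl`), `CL`, `CLD`; tube count `lat_tube`: `card ≤ C (w² T³ + w T² + T/D)`; nilpotent loops
`≤ w L⁴`. -/
def V_Pc : Prop := ∀ (r : ℕ) (C R ε : ℝ), 1 ≤ C → 1 ≤ R → 0 < ε → ∃ w₁ : ℝ, 0 < w₁ ∧ w₁ ≤ 1 ∧ ∀ (w L D : ℝ), 0 < w → w ≤ w₁ → 1 ≤ L → L ≤ w ^ (-1 : ℝ) → 1 ≤ D →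
  ∀ (a : HSL.MR) (b : Mat → HSL.MR), a.det = 1 → (∀ i j, |a i j| ≤ R) → Dg D w a → ∀ H : Finset (Mat × HSL.MZ), Fan C w L r a b H →
    ((HSL.prs H).card : ℝ) ≤ w ^ (-ε) * (L ^ 6 * w ^ 2 + L ^ 4 * w + (L ^ 2 / D) ^ (3 / 2 : ℝ)) + 2 * (H.card : ℝ)

/-- **Dz** few cells are near short vectors (uses nothing). Proof. `a = rp R w z` (in `Om R`), `v ≠ 0` traceless, `f = a⁻¹ v a` with `|f₀₀| < D`, `|f₀₁|, |f₁₀| < D w`; entries of `v = a f a⁻¹` at most `4 R² D`; `1 ≤ |v| ≤ 4R² max(|f₀₀|, D w)` and `4 R² D w < 1` give `|f₀₀| ≥ |v|/(4R²)` (`|v|` = largest entry). `v = f₀₀ X(xi a) + a (0, f₀₁; f₁₀, 0) a⁻¹`, so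
`|v/f₀₀ - X(xi a)| ≤ 16 R⁴ D w/|v|`, and `f₀₀² = -det v - f₀₁ f₁₀`, so `| |f₀₀| - √(-det v) | ≤ D² w²/|f₀₀|`: `X(xi a)` is within `C D w/|v|` of one of the two points `± v/√(-det v)`: at most `C (1 + D/|v|)³ ≤ C' (D/|v|)³` cells `z` for one `v`. Sum over `v`: number of `v` with largest entry `j` is `≤ 100 j²`, so
`∑_(j ≤ 4R²D) 100 j² C' (D/j)³ ≤ C'' D³ (1 + log D)`. -/
def V_Dz : Prop := ∀ R : ℝ, 1 ≤ R → ∃ C : ℝ, 1 ≤ C ∧ ∀ (w D : ℝ), 0 < w → w ≤ 1 → 1 ≤ D → C * w * D ≤ 1 → ∀ V : Finset (Fin 3 → ℤ),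
  (∀ z ∈ V, (cel R w z).Nonempty ∧ ¬ Dg D w (rp R w z).1) → (V.card : ℝ) ≤ C * D ^ 3 * (1 + Real.log D)

/-- **Sel** selection of cells and primes (uses nothing). Proof. For each `z ∈ V` let `v_z` be a nonzero traceless integral matrix with the least gauge `D' z = max(|f₀₀|, |f₀₁|/w, |f₁₀|/w)` (finitely many have gauge `≤ 4R²/w`, and `(0,1;0,0)` is one of them); it is primitive, `D' z ≥ D` (`Dg D`).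
If `det v_z ≠ 0`: the entries of `v_z` are `≤ 16 R⁴/w`, `0 < |2 det v_z| ≤ C w^(-2)`, so at most `J₀ = ⌈5/τ⌉` primes `≥ w^(-τ)` divide it (`w` small). Split `P` into `2 J₀` disjoint parts of size `⌊card P/(2J₀)⌋`; for every `z` at most `J₀` parts contain a prime dividing `2 det v_z ≠ 0`, so one part `Q` is good for half of the
cells (double counting). -/
def V_Sel : Prop := ∀ (R τ : ℝ), 1 ≤ R → 0 < τ → ∃ C w₁ : ℝ, 1 ≤ C ∧ 0 < w₁ ∧ w₁ ≤ 1 ∧ ∀ (w D : ℝ), 0 < w → w ≤ w₁ → 1 ≤ D → ∀ V : Finset (Fin 3 → ℤ),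
  (∀ z ∈ V, (cel R w z).Nonempty ∧ Dg D w (rp R w z).1) → ∀ P : Finset ℕ, (∀ p ∈ P, p.Prime ∧ w ^ (-τ) ≤ (p : ℝ)) → C ≤ (P.card : ℝ) →
  ∃ (V' : Finset (Fin 3 → ℤ)) (D' : (Fin 3 → ℤ) → ℝ) (v : (Fin 3 → ℤ) → HSL.MZ) (Q : Finset ℕ), V' ⊆ V ∧ Q ⊆ P ∧
    (V.card : ℝ) ≤ 2 * (V'.card : ℝ) ∧ (P.card : ℝ) ≤ C * (Q.card : ℝ) ∧
    ∀ z ∈ V', D ≤ D' z ∧ HSL.Prim (v z) ∧ v z ≠ 0 ∧ (v z).trace = 0 ∧ |HSL.fr (rp R w z).1 (rp R w z).1 (v z) 0 0| < 2 * D' z ∧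
      |HSL.fr (rp R w z).1 (rp R w z).1 (v z) 0 1| < 2 * D' z * w ∧ |HSL.fr (rp R w z).1 (rp R w z).1 (v z) 1 0| < 2 * D' z * w ∧
      Dg (D' z) w (rp R w z).1 ∧ ((v z).det = 0 ∨ ∀ p ∈ Q, ¬ (p : ℤ) ∣ 2 * (v z).det)

/-- **C1** the count of case 1 (helper44; uses the L modules, `Pc`, `tree_good`). `w = K^(-2)`. Proof. `n_xy` = number of `(x, y, h) ∈ T`; `(card T)² ≤ (card V)² ∑ n_xy²`, `∑ n_xy² = ∑_x card (prs H_x)`, `H_x = {(y, h)}`. Loop `s = adj(h') h` at `x`, `s' = h adj(h')` at `y`. (0) `tf s = 0`: `≤ 2 card H_x`. (N) `dsc s = 0`, `tf s ≠ 0`: `≤ B K^ε L⁴/K²`.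
(A) `dsc s ≠ 0`, `tf s` not parallel to `v_x`: a set `W` of vectors of the tube `T` with a vector not parallel to `v_x` has `card ≤ C (w² T³ + w T²)` (rank at least two together with `v_x`, which lies in the tube since its gauge is less than twice the least one), so `≤ B K^ε (L⁶/K⁴ + L⁴/K²)` by `S_Cor`. (A') `tf s'` not parallel to `v_y`: the same after
`(x, y, h) ↦ (y, x, adj h)`, which preserves `T`; `dsc s' = dsc s`. (C) both parallel, `dsc s ≠ 0`: `h v_x adj(h) = e v_y` with an integer `e` (`v_y` primitive; `h tf(s) adj(h) = m² tf(s')`), `det v_x ≠ 0`; `m⁴ det v_x = e² det v_y`; a prime `ℓ ∤ m` does not divide `e` (`h` is invertible modulo `ℓ`, `v_x` primitive), and for `p ∣ m`, `p ∤ det v_x det v_y`,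
`v_p(e) = 2 v_p(m)`; so `e = ± m²`. `tree_good` (HS/Bd/Tree): at most `(m²).divisors.card ≤ 2^(4k)` classes of such `h` for each `m` and `x`, each with at most `B` elements `(y, γ h)` (`Ovl`): at most `L B 2^(4k)` elements of `H_x` occur in pairs of type (C), so at most `(L B 2^(4k))²` pairs (`L ≤ K²`; the bound holds for every `L`; the K^ε absorbs constants). -/
def V_C1 : Prop := ∀ (k : ℕ) (C R ε : ℝ), 1 ≤ k → 1 ≤ C → 1 ≤ R → 0 < ε → ∃ K0 : ℝ, ∀ (S : HSL.Sys) (B L : ℝ) (D : S.ι → ℝ) (Q : Finset ℕ) (v : S.ι → HSL.MZ)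
  (T : Finset (S.ι × S.ι × HSL.MZ)), S.C = C → S.R = R → K0 ≤ S.K → 1 ≤ B → S.Unim → S.Ovl ((2 * C) ^ k) B → 1 ≤ L → L ≤ S.K ^ 2 →
  (∀ i ∈ S.V, 1 ≤ D i ∧ HSL.Prim (v i) ∧ v i ≠ 0 ∧ (v i).trace = 0 ∧ |HSL.fr (S.g i) (S.g i) (v i) 0 0| < 2 * D i ∧
    |HSL.fr (S.g i) (S.g i) (v i) 0 1| < 2 * D i * S.w ∧ |HSL.fr (S.g i) (S.g i) (v i) 1 0| < 2 * D i * S.w ∧ Dg (D i) S.w (S.g i) ∧
    ((v i).det = 0 ∨ ∀ p ∈ Q, ¬ (p : ℤ) ∣ 2 * (v i).det)) →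
  (∀ t ∈ T, t.1 ∈ S.V ∧ t.2.1 ∈ S.V ∧ HSL.Prim t.2.2 ∧ ∃ m : ℕ, HSL.Ret C S.w (S.g t.1) (S.g t.2.1) m t.2.2 ∧ (m : ℝ) ≤ L ∧
    m.primeFactorsList.length ≤ 2 * k ∧ ∀ p : ℕ, p.Prime → p ∣ m → p ∈ Q) →
  (∀ t ∈ T, (t.2.1, t.1, t.2.2.adjugate) ∈ T) →
    (T.card : ℝ) ^ 2 ≤ (S.V.card : ℝ) ^ 3 * (B ^ 2 * S.K ^ ε * (L ^ 6 / S.K ^ 4 + L ^ 4 / S.K ^ 2 + L ^ 2)) +
      2 * (S.V.card : ℝ) ^ 2 * (T.card : ℝ)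

/-! ### Assembly -/

/-- **K1** case 1 is impossible (uses `Cv`, `C1`, `Lev`, `Bx`, `StmtOv`, `StmtMc`). `k = 500`, `M^(2k) = w^(-1/2)`, `q = card Q ≥ M^(1-κ)/C`. Proof. Otherwise `Cv` (for small `w` its hypothesis holds as `w^(-s₁)` is large) gives `e = ∫ F El Q (2k) F ≥ a/C ≥ w^(-s₁) q^k ms/C`, `ms ≥ A N`. `El_int`: `e ≤ M^(-2k) ∑_(s ∈ Lv2 Q 2k) Dd Φ (celU) (nm s)`, `Dd_le_card`:
`≤ M^(-2k) 2A card T`, `T` = the set of all `(z, z', s)`, `z, z' ∈ V`, `s ∈ Lv2 Q (2k)`, `Mt R w (nm s) z z'` (finite: bounded entries; symmetric: `Mt` for `adj s` by `x ↦ nm s x`). So `card T ≥ w^(-1/2 - s₁) q^k N/(2C)`, `r := card T/N ≥ w^(-3/4 - s₁ + ρ)`. `StmtMc`: `Ret C w`, `StmtOv`: `Ovl ((2C)^k) B`. `C1` for `sy R w C V`, `K = w^(-1/2)`, `L = (2M)^(2k) = 4^k K`: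
`r² ≤ N (B² K^ε (3·4^(6k) K²) + 2 r)`, so `r² ≤ w^(-ν) w^(-1-ρ)` or `r ≤ 4 N ≤ 4 w^(-ν)`; the first contradicts `3/2 + 2 s₁ - 2ρ > 1 + ν + ρ`, the second `3/4 + s₁ - ρ > ν` (`ν ≤ 1`: `s₁ > ν/2 - 1/4 + 2ρ ≥ ν - 3/4 + 2ρ`). -/
def V_K1 : Prop := ∀ (R C₃ s₁ ν ρ : ℝ), 1 ≤ R → 1 ≤ C₃ → 0 < s₁ → ν ≤ 1 → 0 < ρ → ν - 1 / 2 + 4 * ρ ≤ 2 * s₁ → ∃ κ w₁ : ℝ, 0 < κ ∧ 0 < w₁ ∧ w₁ ≤ 1 ∧
  ∀ (l : ℕ → ℝ) (Φ : G → ℂ), HE l Φ → ∀ (w A : ℝ), 0 < w → w ≤ w₁ → 0 < A → ∀ V : Finset (Fin 3 → ℤ), CM Φ R w A V → (V.card : ℝ) ≤ w ^ (-ν) →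
  ∀ Q : Finset ℕ, Q ⊆ Pm (w ^ (-(1 / 2000) : ℝ)) → (w ^ (-(1 / 2000) : ℝ)) ^ (1 - κ) ≤ C₃ * (Q.card : ℝ) → ∀ (v : (Fin 3 → ℤ) → HSL.MZ) (D : (Fin 3 → ℤ) → ℝ),
  (∀ z ∈ V, 1 ≤ D z ∧ HSL.Prim (v z) ∧ v z ≠ 0 ∧ (v z).trace = 0 ∧ |HSL.fr (rp R w z).1 (rp R w z).1 (v z) 0 0| < 2 * D z ∧
      |HSL.fr (rp R w z).1 (rp R w z).1 (v z) 0 1| < 2 * D z * w ∧ |HSL.fr (rp R w z).1 (rp R w z).1 (v z) 1 0| < 2 * D z * w ∧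
      Dg (D z) w (rp R w z).1 ∧ ((v z).det = 0 ∨ ∀ p ∈ Q, ¬ (p : ℤ) ∣ 2 * (v z).det)) →
    aa Q (AIkM.ff Φ (celU R w V)) 1000 ≤ ENNReal.ofReal (w ^ (-s₁) * (Q.card : ℝ) ^ 500) * ms Φ (celU R w V)

/-- **K3** case 2 is impossible (uses `K2`, `Pc`, `HSL.S_CS`). `k = j = 500`, `M1 = w^(-1/2000)`, `M2 = w^(-(s - 1/4)/1000)`, so `M1^k = w^(-1/4)`, `M1^k M2^(2j) = w^(-s)`. Proof. `S := w^(-s₁) q1^k · 2 A N` (`ms ≤ 2 A N`), `X = w^(-ρ/100)`. Exponents (all up to `ρ`): `q1^k = w^(-1/4)`, `q2^(2j) = w^(-(s - 1/4))`. Hypotheses of `K2`: `X² S ≤ q2^j (q1^k A N)²`, that is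
`s₁ ≤ (s - 1/4)/2 + 1/4 - (b + c)`: from `hD`. `n_H² ≤ n_Y card (prs H) ≤ n_Y (w^(-ε) (L⁶w² + L⁴w + (L²/D)^(3/2)) + 2 n_H)` (`S_CS`, `Pc`, `L = 2^(3k) w^(-s)`, `D = w^(-d)`). If `n_H ≤ 4 n_Y`: the second inequality of `K2` gives `q1^k q2^(2j) M2^(2j) A ≤ 4 C X⁴`, but the left side is `w^(-(s + s - 1/4 - 1 + b))`, `b ≥ b₁`: contradiction (`hB`).
Otherwise `n_H² ≤ 2 n_Y w^(-ε)(...)`, and the first inequality gives `q1^(3k) q2^(4j) w^(-2s) A² N w^(s₁) ≤ C X^(10) (...)`: left side `w^(-(3/4 + 2(s - 1/4) + 2s - 1 - c - s₁)) = w^(-(4s - 3/4 - s₁ - c))`, right side `w^(-max(6s - 2, 4s - 1, 3s - 3d/2))`: contradiction (`hA`, `hC`). (`A² N ≥ w^(1+c)`.) -/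
def V_K3 : Prop := ∀ (R C₃ b₁ b₂ s s₁ d ρ : ℝ), 1 ≤ R → 1 ≤ C₃ → 0 < b₁ → b₁ ≤ b₂ → b₂ ≤ 1 / 2 → 0 < s₁ → 1 / 2 < s → s ≤ 5 / 8 → 0 < d → 0 < ρ →
  6 * s - 2 + 9 * ρ ≤ 4 * s - 3 / 4 - s₁ → s₁ + 9 * ρ ≤ 1 / 4 → 3 * s - 3 * d / 2 + 9 * ρ ≤ 4 * s - 3 / 4 - s₁ → 5 / 4 - b₁ + 9 * ρ ≤ 2 * s →
  2 * b₂ + 2 * s₁ - 1 / 4 + 9 * ρ ≤ s →
  ∃ κ w₁ : ℝ, 0 < κ ∧ 0 < w₁ ∧ w₁ ≤ 1 ∧ ∀ (l : ℕ → ℝ) (Φ : G → ℂ), HE l Φ → ∀ (w A : ℝ), 0 < w → w ≤ w₁ → w ^ (1 - b₁) ≤ A → A ≤ w ^ (1 - b₂) →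
  ∀ V : Finset (Fin 3 → ℤ), CM Φ R w A V → w ^ (1 + ρ) ≤ A ^ 2 * (V.card : ℝ) → (∀ z ∈ V, Dg (w ^ (-d)) w (rp R w z).1) →
  ∀ Q1 Q2 : Finset ℕ, Q1 ⊆ Pm (w ^ (-(1 / 2000) : ℝ)) → Q2 ⊆ Pm (w ^ (-((s - 1 / 4) / 1000) : ℝ)) → (∀ p ∈ Q1, |l p| ≤ 1 / 2) → (∀ p ∈ Q2, |l p| ≤ 1 / 2) →
  (w ^ (-(1 / 2000) : ℝ)) ^ (1 - κ) ≤ C₃ * (Q1.card : ℝ) → (w ^ (-((s - 1 / 4) / 1000) : ℝ)) ^ (1 - κ) ≤ (Q2.card : ℝ) →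
  aa Q1 (AIkM.ff Φ (celU R w V)) 1000 ≤ ENNReal.ofReal (w ^ (-s₁) * (Q1.card : ℝ) ^ 500) * ms Φ (celU R w V) → False

/-- the statement of one band (the same as `StmtBand` of `HS/Bd/Top`) -/
def V_Band (b₁ b₂ : ℝ) : Prop := ∃ c K₀ : ℝ, 0 < c ∧ 1 ≤ K₀ ∧ ∀ R : ℝ, 1 ≤ R → ∃ w₁ : ℝ, 0 < w₁ ∧ w₁ ≤ 1 ∧ ∀ (l : ℕ → ℝ) (Φ : G → ℂ), HE l Φ → Csp Φ →
  ∀ w : ℝ, 0 < w → w ≤ w₁ → ¬ GdK K₀ l w → ∀ A : ℝ, w ^ (1 - b₁) ≤ A → A ≤ w ^ (1 - b₂) → ∀ V : Finset (Fin 3 → ℤ), CM Φ R w A V →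
    A ^ 2 * (V.card : ℝ) ≤ w ^ (1 + c)

/-- **Top** the bands (uses `K1`, `K3`, `Dz`, `Sel`, `StmtBd`). `r = min (b₁/2 - (b₂ - b₁)) (b₁ - 1/8) > 0`, `ρ = r/1000`, `c = ρ/2`, `s₁ = 1/4 - b₁ + r/10`, `s = 1/2 + b₁/2 - r/10`, `d = (1 - 2b₂)/3 - ρ`, `K₀ = 4`. Proof. Suppose `A² card V > w^(1+c)`. As `2 (1 - b₂) > 1 + c`, `A² ≤ w^(1+c)`, so there is `V₁ ⊆ V` with
`w^(1+c) ≤ A² card V₁ ≤ 2 w^(1+c)` (remove cells one by one); `card V₁ ≥ w^(1+c)/A² ≥ w^(-1+2b₂+c)`, `card V₁ ≤ 2 w^(1+c) w^(-2(1-b₁)) ≤ w^(-ν)`, `ν = 1 - 2b₁`. The cells of `V₁` with `¬ Dg (w^(-d))` are at most `C w^(-3d) (1 + log) ≤ w^(-(1-2b₂) + 2ρ) ≤ card V₁/2` (`Dz`; `c = ρ/2`). `Sel` for the rest, `P = Bad l M1`,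
`M1 = w^(-1/2000)`, `τ = 1/2000` (`StmtBd`: `card P ≥ M1^(1-κ)`, `|l p| ≤ 1/2`; the block is bad by `¬ GdK 4`: `w^(-1/4000) ≤ M1 ≤ w^(-1/1000)`): `V'`, `Q1`, `D' ≥ w^(-d)`, `v`. `A² card V' ≥ w^(1+c)/4 ≥ w^(1+ρ)`. `Q2 = Bad l M2`, `M2 = w^(-(s-1/4)/1000)`, `(s - 1/4)/1000` is in `[1/4000, 1/1000]`. `K1` with `ν`: `ν - 1/2 + 4ρ = 1/2 - 2b₁ + 4ρ ≤ 2 s₁`.
`K3`: `4s - 3/4 - s₁ - (6s - 2) = 5/4 - s₁ - 2s = r/10`; `1/4 - s₁ = b₁ - r/10`; `4s - 3/4 - s₁ - 3s + 3d/2 = s - 3/4 - s₁ + 1/2 - b₂ - 3ρ/2 = (b₁/2 - (b₂ - b₁)) - r/5 - 3ρ/2 ≥ 4r/5 - 3ρ/2`; `2s - 5/4 + b₁ = 2(b₁ - 1/8) - r/5 ≥ 9r/5`; `s - 2b₂ - 2s₁ + 1/4 = 1/4 + 5b₁/2 - 2b₂ - 3r/10 ≥ 1/4 - b₁/2 + 2r - 3r/10`. The cells have positive mass, so they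
are nonempty. -/
def V_Top : Prop := ∀ b₁ b₂ : ℝ, 1 / 8 < b₁ → b₁ ≤ 1 / 4 → b₁ ≤ b₂ → b₂ < 3 / 2 * b₁ → V_Band b₁ b₂

end

end Pool.Agent.A54.HSV
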