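import Pool.Agent.Lib.HS.Bd.V.Spec
import Pool.Agent.Lib.MP_a54f13_nt.Hp.HI

/-!
# HS/Bd/V, module Tk: the first moment against `|Φ|`
-/

set_option autoImplicit false

namespace Pool.Agent.A54.HSV

open MeasureTheory Filter Topology Set
open scoped ContDiff ComplexConjugate UpperHalfPlane MatrixGroups ENNReal
open Pool.Agent.A54.Dyn (G fl base ze io mk4 dom)
open Pool.Agent.A54.Av (Mat NonSc)
open Pool.Agent.A54.HS
open Pool.Agent.A54.Hp Pool.Agent.A54.Hp.Hk Pool.Agent.A54.Hp.A2M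

noncomputable section

namespace TkM

lemma cont_Ao {h : G → ℝ≥0∞} (hh : Continuous h) {Q : Finset ℕ} (hQ : ∀ p ∈ Q, p.Prime) :
    Continuous (Ao Q h) := by
  unfold Ao T2
  refine continuous_finsetSum _ fun p hp => ?_
  have hp0 : (p : ℝ≥0∞)⁻¹ ≠ ⊤ := ENNReal.inv_ne_top.2 (by exact_mod_cast (hQ p hp).ne_zero)
  refine (ENNReal.continuous_const_mul hp0).comp ?_
  exact continuous_finsetSum _ fun x _ => hh.comp (continuous_const.mul continuous_id)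

lemma cont_iter {h : G → ℝ≥0∞} (hh : Continuous h) {Q : Finset ℕ} (hQ : ∀ p ∈ Q, p.Prime) :
    ∀ i, Continuous ((Ao Q)^[i] h)
  | 0 => hh
  | i + 1 => by
    rw [Function.iterate_succ_apply']
    exact cont_Ao (cont_iter hh hQ i) hQ

lemma fin_Ao {h : G → ℝ≥0∞} (hh : ∀ y, h y ≠ ⊤) {Q : Finset ℕ} (hQ : ∀ p ∈ Q, p.Prime) (y : G) :
    Ao Q h y ≠ ⊤ := by
  unfold Ao T2
  refine ENNReal.sum_ne_top.2 fun p hp => ENNReal.mul_ne_top
    (ENNReal.inv_ne_top.2 (by exact_mod_cast (hQ p hp).ne_zero)) (ENNReal.sum_ne_top.2 fun x _ => hh _)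

lemma fin_iter {h : G → ℝ≥0∞} (hh : ∀ y, h y ≠ ⊤) {Q : Finset ℕ} (hQ : ∀ p ∈ Q, p.Prime) :
    ∀ i y, (Ao Q)^[i] h y ≠ ⊤
  | 0, y => hh y
  | i + 1, y => by
    rw [Function.iterate_succ_apply']
    exact fin_Ao (fin_iter hh hQ i) hQ y

lemma iter_mono {h h' : G → ℝ≥0∞} (hh : ∀ y, h y ≤ h' y) (Q : Finset ℕ) :
    ∀ i y, (Ao Q)^[i] h y ≤ (Ao Q)^[i] h' y
  | 0, y => hh y
  | i + 1, y => by
    rw [Function.iterate_succ_apply', Function.iterate_succ_apply']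
    exact Ao_mono (iter_mono hh Q i) Q y

lemma iter_smul (c : ℝ≥0∞) (h : G → ℝ≥0∞) (Q : Finset ℕ) :
    ∀ i y, (Ao Q)^[i] (fun z => c * h z) y = c * (Ao Q)^[i] h y
  | 0, y => rfl
  | i + 1, y => by
    rw [Function.iterate_succ_apply', Function.iterate_succ_apply']
    have h1 : (Ao Q)^[i] (fun z => c * h z) = fun y => c * (Ao Q)^[i] h y :=
      funext fun y => iter_smul c h Q i y
    rw [h1, Ao_smul]

lemma fin_int (hNu : StmtNuL) {Φ : G → ℂ} (hΦ : Continuous Φ) {V : Set G} {R : ℝ} (hV : MeasurableSet V)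
    (hVR : V ⊆ Om R) {g : G → ℝ≥0∞} (hg : Continuous g) (hgt : ∀ y, g y ≠ ⊤) :
    ∫⁻ x, AIkM.ff Φ V x * g x ∂nu ≠ ⊤ := by
  have := hNu.2.1
  have hc := HIM.isCompact_Om R
  have hb : ∀ f : G → ℝ≥0∞, Continuous f → (∀ y, f y ≠ ⊤) → ∃ B : ℝ≥0∞, B ≠ ⊤ ∧ ∀ y ∈ Om R, f y ≤ B := by
    intro f hf hft
    rcases (Om R).eq_empty_or_nonempty with h | h
    · exact ⟨0, ENNReal.zero_ne_top, fun y hy => by rw [h] at hy; exact hy.elim⟩
    · obtain ⟨z, hz, hzm⟩ := hc.exists_isMaxOn h hf.continuousOn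
      exact ⟨f z, hft z, fun y hy => hzm hy⟩
  obtain ⟨B1, hB1, hB1'⟩ := hb (fun y => ‖Φ y‖ₑ) hΦ.enorm (fun y => enorm_ne_top)
  obtain ⟨B2, hB2, hB2'⟩ := hb g hg hgt
  have h1 : ∫⁻ x, AIkM.ff Φ V x * g x ∂nu ≤ ∫⁻ x in V, B1 * B2 ∂nu := by
    rw [← lintegral_indicator hV]
    refine lintegral_mono fun x => ?_
    unfold AIkM.ff
    by_cases hx : x ∈ V
    · rw [Set.indicator_of_mem hx, Set.indicator_of_mem hx]
      exact mul_le_mul' (hB1' x (hVR hx)) (hB2' x (hVR hx))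
    · rw [Set.indicator_of_notMem hx, Set.indicator_of_notMem hx, zero_mul]
  refine ne_top_of_le_ne_top ?_ h1
  rw [setLIntegral_const]
  refine ENNReal.mul_ne_top (ENNReal.mul_ne_top hB1 hB2) ?_
  exact ne_top_of_le_ne_top hc.measure_lt_top.ne (measure_mono hVR)

/-- the real variable part -/
lemma absorb1 (k : ℕ) (hk : 1 ≤ k) {K0 q : ℝ} (hK0 : 1 ≤ K0) (hq : 2 * (k : ℝ) * (4 / 3) ^ k * K0 ≤ q) (p t : ℕ → ℝ)
    (hp : ∀ n, 0 ≤ p n) (ht : ∀ n, t n ≤ p n)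
    (h : ∀ j, 3 / 4 * q * p j ≤ p (j + 1))
    (hup : p k ≤ K0 * ∑ j ∈ Finset.range (k + 1), q ^ ((k - j) / 2) * t j) :
    p k ≤ 2 * K0 * t k := by
  have hkR : (1 : ℝ) ≤ k := by exact_mod_cast hk
  have h43 : (1 : ℝ) ≤ (4 / 3) ^ k := one_le_pow₀ (by norm_num)
  have hq1 : 1 ≤ q := by
    have : 1 ≤ 2 * (k : ℝ) * (4 / 3) ^ k * K0 := by
      have h1 : 1 ≤ 2 * (k : ℝ) := by linarith
      exact one_le_mul_of_one_le_of_one_le (one_le_mul_of_one_le_of_one_le h1 h43) hK0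
    linarith
  have hq0 : 0 < q := by linarith
  have hit : ∀ i j, (3 / 4 * q) ^ i * p j ≤ p (j + i) := by
    intro i
    induction i with
    | zero => intro j; simp
    | succ i ih =>
      intro j
      calc (3 / 4 * q) ^ (i + 1) * p j = 3 / 4 * q * ((3 / 4 * q) ^ i * p j) := by ring
        _ ≤ 3 / 4 * q * p (j + i) := mul_le_mul_of_nonneg_left (ih j) (by positivity)
        _ ≤ p (j + i + 1) := h (j + i)
        _ = p (j + (i + 1)) := by rw [add_assoc]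
  have h3 : ∀ j ∈ Finset.range k, q ^ ((k - j) / 2) * t j ≤ (4 / 3) ^ k / q * p k := by
    intro j hj
    have hj' := Finset.mem_range.1 hj
    have h4 := hit (k - j) j
    have e1 : j + (k - j) = k := by omega
    rw [e1, mul_pow] at h4
    have h5 : q ^ ((k - j) / 2) * q ≤ q ^ (k - j) := by
      rw [← pow_succ]
      exact pow_le_pow_right₀ hq1 (by omega)
    have h6 : (3 / 4 : ℝ) ^ k ≤ (3 / 4) ^ (k - j) := pow_le_pow_of_le_one (by norm_num) (by norm_num) (by omega)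
    have h7 : (4 / 3 : ℝ) ^ k * (3 / 4) ^ k = 1 := by
      rw [← mul_pow]
      norm_num
    have h8 : (3 / 4 : ℝ) ^ k * (q ^ ((k - j) / 2) * q * p j) ≤ p k := by
      refine le_trans ?_ h4
      have h9 := mul_le_mul h6 (mul_le_mul_of_nonneg_right h5 (hp j))
        (by have := hp j; positivity) (by positivity)
      calc (3 / 4 : ℝ) ^ k * (q ^ ((k - j) / 2) * q * p j) ≤ (3 / 4) ^ (k - j) * (q ^ (k - j) * p j) := h9
        _ = _ := by ring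
    calc q ^ ((k - j) / 2) * t j ≤ q ^ ((k - j) / 2) * p j := mul_le_mul_of_nonneg_left (ht j) (by positivity)
      _ = (4 / 3 : ℝ) ^ k / q * ((3 / 4 : ℝ) ^ k * (q ^ ((k - j) / 2) * q * p j)) := by
        have : (4 / 3 : ℝ) ^ k / q * ((3 / 4 : ℝ) ^ k * (q ^ ((k - j) / 2) * q * p j)) =
          ((4 / 3 : ℝ) ^ k * (3 / 4 : ℝ) ^ k) * (q ^ ((k - j) / 2) * p j) * (q / q) := by ring
        rw [this, h7, div_self hq0.ne']
        ring
      _ ≤ _ := mul_le_mul_of_nonneg_left h8 (by positivity)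
  have h4 : ∑ j ∈ Finset.range k, q ^ ((k - j) / 2) * t j ≤ k * ((4 / 3) ^ k / q * p k) := by
    refine (Finset.sum_le_sum h3).trans (le_of_eq ?_)
    rw [Finset.sum_const, Finset.card_range, nsmul_eq_mul]
  rw [Finset.sum_range_succ, Nat.sub_self, Nat.zero_div, pow_zero, one_mul] at hup
  have h5 : K0 * (k * ((4 / 3) ^ k / q * p k)) ≤ p k / 2 := by
    have e1 : K0 * (k * ((4 / 3) ^ k / q * p k)) = (2 * (k : ℝ) * (4 / 3) ^ k * K0) / q * (p k / 2) := by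
      field_simp
    rw [e1]
    have h6 : (2 * (k : ℝ) * (4 / 3) ^ k * K0) / q ≤ 1 := by
      rw [div_le_one hq0]
      exact hq
    have h7 := hp k
    exact mul_le_of_le_one_left (by linarith) h6
  have h6 : K0 * ∑ j ∈ Finset.range k, q ^ ((k - j) / 2) * t j ≤ p k / 2 :=
    (mul_le_mul_of_nonneg_left h4 (by linarith)).trans h5
  nlinarith

end TkM

open TkM in
theorem tTk (hNu : StmtNuL) (hUnf : StmtUnf) (hNm : StmtNm) : V_Tk := by
  classical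
  intro k R hk hR
  set K0 : ℝ := max 1 (Ck k).toReal with hK0d
  have hK01 : 1 ≤ K0 := le_max_left _ _
  have hkR : (1 : ℝ) ≤ k := by exact_mod_cast hk
  have h43 : (1 : ℝ) ≤ (4 / 3) ^ k := one_le_pow₀ (by norm_num)
  set C : ℝ := 2 * (k : ℝ) * (4 / 3) ^ k * K0 with hC
  have hC1 : (4 / 3 : ℝ) ^ k * K0 ≤ C := by
    rw [hC]
    have h1 : 0 ≤ (4 / 3 : ℝ) ^ k * K0 := by positivity
    nlinarith
  have hC2 : 1 ≤ C := le_trans (one_le_mul_of_one_le_of_one_le h43 hK01) hC1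
  refine ⟨C, hC2, ?_⟩
  intro l Φ hE V hV hVR M hM Q hQM hQl hbig
  have hM0 : 0 < M := by linarith
  have hQp : ∀ p ∈ Q, p.Prime := by
    intro p hp
    have h1 := hQM hp
    unfold Pm at h1
    exact (Finset.mem_filter.1 h1).2
  obtain ⟨q, hq⟩ : ∃ q : ℝ, q = (Q.card : ℝ) := ⟨_, rfl⟩
  have hq0 : 0 ≤ q := by rw [hq]; exact Nat.cast_nonneg _
  have hqE : (Q.card : ℝ≥0∞) = ENNReal.ofReal q := by rw [hq]; exact (ENNReal.ofReal_natCast _).symm
  have hqN : ((Q.card : ℝ≥0∞)).toReal = q := by rw [hq]; exact ENNReal.toReal_natCast _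
  have hePq : ENNReal.ofReal (3 / 4 * q) ≤ eP l Q := by
    rw [hq]
    exact eP_ge hQp hQl
  have hqC : C ≤ q := by rw [hq]; exact hbig
  have hcard : 1 ≤ Q.card := by
    have : (1 : ℝ) ≤ (Q.card : ℝ) := hC2.trans hbig
    exact_mod_cast this
  set F := AIkM.ff Φ V with hFd
  have hF : Measurable F := AIkM.ff_meas hE.cont hV
  have hφ : Measurable fun y => ‖Φ y‖ₑ := hE.cont.enorm.measurable
  -- the two forms of the moments
  have hP : ∀ j, ∫⁻ y in FF, (Ao Q)^[j] (hs F 1) y * ‖Φ y‖ₑ ∂nu =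
      2 * ∫⁻ x, F x * (Ao Q)^[j] (fun z => ‖Φ z‖ₑ) x ∂nu := by
    intro j
    rw [Ao_iter_hs hNm hQp F j, unf hUnf hNm (meas_As_iter hF Q j) hφ fun γ y => by rw [hE.inv],
      int_iter hNu Q hφ j hF]
  have hIT : ∀ j, ∫⁻ x, F x * (Ao Q)^[j] (fun z => ‖Φ z‖ₑ) x ∂nu ≠ ⊤ := fun j =>
    fin_int hNu hE.cont hV hVR (cont_iter hE.cont.enorm hQp j) (fin_iter (fun y => enorm_ne_top) hQp j)
  have hPT : ∀ j, ∫⁻ y in FF, (Ao Q)^[j] (hs F 1) y * ‖Φ y‖ₑ ∂nu ≠ ⊤ := fun j => by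
    rw [hP j]
    exact ENNReal.mul_ne_top (by norm_num) (hIT j)
  have hTP : ∀ j, ∫⁻ y in FF, El Q j F y * ‖Φ y‖ₑ ∂nu ≤ ∫⁻ y in FF, (Ao Q)^[j] (hs F 1) y * ‖Φ y‖ₑ ∂nu :=
    fun j => lintegral_mono fun y => mul_le_mul_left (le_pow hNm hQp F j y) _
  have hTT : ∀ j, ∫⁻ y in FF, El Q j F y * ‖Φ y‖ₑ ∂nu ≠ ⊤ := fun j => ne_top_of_le_ne_top (hPT j) (hTP j)
  have hstep : ∀ j, ENNReal.ofReal (3 / 4 * q) * ∫⁻ y in FF, (Ao Q)^[j] (hs F 1) y * ‖Φ y‖ₑ ∂nu ≤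
      ∫⁻ y in FF, (Ao Q)^[j + 1] (hs F 1) y * ‖Φ y‖ₑ ∂nu := by
    intro j
    rw [hP j, hP (j + 1), mul_left_comm]
    refine mul_le_mul_right ?_ 2
    have m0 : Measurable fun x => F x * (Ao Q)^[j] (fun z => ‖Φ z‖ₑ) x := hF.mul (meas_Ao_iter hφ Q j)
    rw [← lintegral_const_mul _ m0]
    refine lintegral_mono fun x => ?_
    calc ENNReal.ofReal (3 / 4 * q) * (F x * (Ao Q)^[j] (fun z => ‖Φ z‖ₑ) x)
        = F x * (ENNReal.ofReal (3 / 4 * q) * (Ao Q)^[j] (fun z => ‖Φ z‖ₑ) x) := by ring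
      _ ≤ _ := by
        refine mul_le_mul_right ?_ _
        rw [← iter_smul]
        rw [Function.iterate_succ_apply]
        refine iter_mono (fun y => ?_) Q j x
        exact (mul_le_mul_left hePq _).trans (Ao_le hNm hE hQp y)
  have hup : ∫⁻ y in FF, (Ao Q)^[k] (hs F 1) y * ‖Φ y‖ₑ ∂nu ≤ Ck k * ∑ j ∈ Finset.range (k + 1),
      (Q.card : ℝ≥0∞) ^ ((k - j) / 2) * ∫⁻ y in FF, El Q j F y * ‖Φ y‖ₑ ∂nu := by
    have m1 : ∀ j, Measurable fun x => El Q j F x * ‖Φ x‖ₑ := fun j => (meas_El Q j hF).mul hφ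
    have e1 : Ck k * ∑ j ∈ Finset.range (k + 1), (Q.card : ℝ≥0∞) ^ ((k - j) / 2) *
        ∫⁻ y in FF, El Q j F y * ‖Φ y‖ₑ ∂nu = ∫⁻ y in FF, Ck k * ∑ j ∈ Finset.range (k + 1),
          (Q.card : ℝ≥0∞) ^ ((k - j) / 2) * (El Q j F y * ‖Φ y‖ₑ) ∂nu := by
      rw [lintegral_const_mul _ (Finset.measurable_sum _ fun j _ => (m1 j).const_mul _),
        lintegral_finsetSum _ fun j _ => (m1 j).const_mul _]
      congr 1
      exact Finset.sum_congr rfl fun j _ => (lintegral_const_mul _ (m1 j)).symm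
    rw [e1]
    refine lintegral_mono fun x => ?_
    refine (mul_le_mul_left (pow_le hNm hQp hcard F k x) (‖Φ x‖ₑ)).trans (le_of_eq ?_)
    rw [mul_assoc, Finset.sum_mul]
    congr 1
    exact Finset.sum_congr rfl fun j _ => by ring
  set p : ℕ → ℝ := fun j => (∫⁻ y in FF, (Ao Q)^[j] (hs F 1) y * ‖Φ y‖ₑ ∂nu).toReal with hp
  set t : ℕ → ℝ := fun j => (∫⁻ y in FF, El Q j F y * ‖Φ y‖ₑ ∂nu).toReal with ht
  have hupR : p k ≤ K0 * ∑ j ∈ Finset.range (k + 1), q ^ ((k - j) / 2) * t j := by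
    have h1 := ENNReal.toReal_mono (ENNReal.mul_ne_top (Ck_top k) (ENNReal.sum_ne_top.2 fun j _ =>
      ENNReal.mul_ne_top (ENNReal.pow_ne_top (ENNReal.natCast_ne_top _)) (hTT j))) hup
    rw [ENNReal.toReal_mul, ENNReal.toReal_sum fun j _ =>
      ENNReal.mul_ne_top (ENNReal.pow_ne_top (ENNReal.natCast_ne_top _)) (hTT j)] at h1
    have h2 : ∀ j ∈ Finset.range (k + 1), ((Q.card : ℝ≥0∞) ^ ((k - j) / 2) *
        ∫⁻ y in FF, El Q j F y * ‖Φ y‖ₑ ∂nu).toReal = q ^ ((k - j) / 2) * t j := by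
      intro j _
      rw [ENNReal.toReal_mul, ENNReal.toReal_pow, hqN]
    rw [Finset.sum_congr rfl h2] at h1
    refine h1.trans (mul_le_mul_of_nonneg_right (le_max_right _ _) ?_)
    exact Finset.sum_nonneg fun j _ => mul_nonneg (by positivity) ENNReal.toReal_nonneg
  have hstepR : ∀ j, 3 / 4 * q * p j ≤ p (j + 1) := by
    intro j
    have h1 := ENNReal.toReal_mono (hPT (j + 1)) (hstep j)
    rw [ENNReal.toReal_mul, ENNReal.toReal_ofReal (by positivity)] at h1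
    exact h1
  have hfin := absorb1 k hk hK01 (by rw [← hC]; exact hqC) p t (fun _ => ENNReal.toReal_nonneg)
    (fun j => ENNReal.toReal_mono (hPT j) (hTP j)) hstepR hupR
  -- the bottom
  have hit : ∀ i, (3 / 4 * q) ^ i * p 0 ≤ p i := by
    intro i
    induction i with
    | zero => simp
    | succ i ih =>
      calc (3 / 4 * q) ^ (i + 1) * p 0 = 3 / 4 * q * ((3 / 4 * q) ^ i * p 0) := by ring
        _ ≤ 3 / 4 * q * p i := mul_le_mul_of_nonneg_left ih (by positivity)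
        _ ≤ p (i + 1) := hstepR i
  have hI0 : ∫⁻ y in FF, (Ao Q)^[0] (hs F 1) y * ‖Φ y‖ₑ ∂nu = 2 * ms Φ V := by
    rw [hP 0, ← AIkM.ms_eq Φ hV]
    rfl
  have hmsT : ms Φ V ≠ ⊤ := by
    rw [← AIkM.ms_eq Φ hV]
    exact hIT 0
  have hp0 : p 0 = 2 * (ms Φ V).toReal := by
    rw [hp]
    simp only
    rw [hI0, ENNReal.toReal_mul]
    norm_num
  have h9 : q ^ k * (ms Φ V).toReal ≤ C * t k := by
    have h1 := hit k
    rw [hp0, mul_pow] at h1
    have h2 : (4 / 3 : ℝ) ^ k * (3 / 4) ^ k = 1 := by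
      rw [← mul_pow]
      norm_num
    have h3 := mul_le_mul_of_nonneg_left (h1.trans hfin) (by positivity : (0 : ℝ) ≤ (4 / 3) ^ k)
    have h4 : (4 / 3 : ℝ) ^ k * ((3 / 4) ^ k * q ^ k * (2 * (ms Φ V).toReal)) =
        2 * (q ^ k * (ms Φ V).toReal) := by
      calc (4 / 3 : ℝ) ^ k * ((3 / 4) ^ k * q ^ k * (2 * (ms Φ V).toReal)) =
          ((4 / 3 : ℝ) ^ k * (3 / 4) ^ k) * (2 * (q ^ k * (ms Φ V).toReal)) := by ring
        _ = _ := by rw [h2, one_mul]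
    rw [h4] at h3
    have h5 : 0 ≤ t k := ENNReal.toReal_nonneg
    have h6 : (4 / 3 : ℝ) ^ k * K0 * t k ≤ C * t k := mul_le_mul_of_nonneg_right hC1 h5
    nlinarith
  rw [hqE, ← ENNReal.ofReal_toReal hmsT, ← ENNReal.ofReal_toReal (hTT k), ← ENNReal.ofReal_pow hq0,
    ← ENNReal.ofReal_mul (by positivity), ← ENNReal.ofReal_mul (by linarith)]
  exact ENNReal.ofReal_le_ofReal h9

end

end Pool.Agent.A54.HSV
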