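import Pool.Agent.Lib.HS.Bd.V.Spec

/-!
# HS/Bd/V/Top: the bands
-/

set_option autoImplicit false

namespace Pool.Agent.A54.HSV

open MeasureTheory Filter Topology Set
open scoped ContDiff ComplexConjugate UpperHalfPlane MatrixGroups ENNReal
open Pool.Agent.A54.Dyn (G fl base ze io mk4 dom)
open Pool.Agent.A54.Av (Mat NonSc)
open Pool.Agent.A54.HS
open Pool.Agent.A54.Hp Pool.Agent.A54.Hp.Hk Pool.Agent.A54.Hp.A2M

noncomputable section

namespace TopM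

lemma small (B e : ℝ) (he : 0 < e) : ∃ w₀ : ℝ, 0 < w₀ ∧ w₀ ≤ 1 ∧ ∀ w : ℝ, 0 < w → w ≤ w₀ → B ≤ w ^ (-e) := by
  set B' := max B 1 with hB'
  have h1 : 1 ≤ B' := le_max_right _ _
  have h0 : 0 < B' := by linarith
  refine ⟨B' ^ (-(1 / e)), Real.rpow_pos_of_pos h0 _, ?_, fun w hw hw0 => ?_⟩
  · exact Real.rpow_le_one_of_one_le_of_nonpos h1 (by have := div_pos one_pos he; linarith)
  · calc B ≤ B' := le_max_left _ _
      _ = (B' ^ (-(1 / e))) ^ (-e) := by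
        rw [← Real.rpow_mul h0.le]
        rw [show -(1 / e) * -e = 1 by field_simp, Real.rpow_one]
      _ ≤ w ^ (-e) := Real.rpow_le_rpow_of_nonpos hw hw0 (by linarith)

lemma Bad_sub (l : ℕ → ℝ) (M : ℝ) : Bad l M ⊆ Pm M := Finset.filter_subset _ _

lemma Pm_prime {M : ℝ} {p : ℕ} (h : p ∈ Pm M) : p.Prime := (Finset.mem_filter.1 h).2

lemma Pm_gt {M : ℝ} {p : ℕ} (h : p ∈ Pm M) : M < p := by
  have h1 := (Finset.mem_Ioc.1 (Finset.mem_filter.1 h).1).1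
  exact (Nat.floor_lt' (Pm_prime h).ne_zero).1 h1

lemma CM.sub {Φ : G → ℂ} {R w A : ℝ} {V V' : Finset (Fin 3 → ℤ)} (h : CM Φ R w A V) (hV : V' ⊆ V) : CM Φ R w A V' :=
  fun z hz => h z (hV hz)

lemma CM.ne {Φ : G → ℂ} {R w A : ℝ} {V : Finset (Fin 3 → ℤ)} (h : CM Φ R w A V) (hA : 0 < A) {z : Fin 3 → ℤ}
    (hz : z ∈ V) : (cel R w z).Nonempty := by
  rw [Set.nonempty_iff_ne_empty]
  intro h0
  have h1 := (h z hz).1
  rw [h0] at h1
  unfold ms at h1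
  rw [Measure.restrict_empty, lintegral_zero_measure] at h1
  have := ENNReal.ofReal_pos.2 hA
  exact absurd h1 (not_le.2 this)

end TopM

open TopM

theorem tTop (hK1 : V_K1) (hK3 : V_K3) (hDz : V_Dz) (hSel : V_Sel) : V_Top := by
  classical
  intro b₁ b₂ hb1 hb1' hb12 hb2
  set r := min (3 / 2 * b₁ - b₂) (b₁ - 1 / 8) with hr
  have hr0 : 0 < r := lt_min (by linarith) (by linarith)
  have hr1 : r ≤ 3 / 2 * b₁ - b₂ := min_le_left _ _
  have hr2 : r ≤ b₁ - 1 / 8 := min_le_right _ _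
  clear_value r
  set ρ := r / 1000 with hρ
  have hρ0 : 0 < ρ := by positivity
  set c := ρ / 2 with hc
  set s₁ := 1 / 4 - b₁ + r / 10 with hs₁
  set s := 1 / 2 + b₁ / 2 - r / 10 with hs
  set d := (1 - 2 * b₂) / 3 - ρ with hd
  have hs₁0 : 0 < s₁ := by rw [hs₁]; linarith
  have hd0 : 0 < d := by rw [hd, hρ]; linarith
  have hd1 : d < 1 := by rw [hd]; linarith
  refine ⟨c, 4, by positivity, by norm_num, ?_⟩
  intro R hR
  obtain ⟨CD, hCD, hDz⟩ := hDz R hR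
  obtain ⟨CS, wS, hCS, hwS, hwS1, hSel⟩ := hSel R (1 / 2000) hR (by norm_num)
  obtain ⟨κ₁, w1, hκ₁, hw1, hw11, hK1⟩ := hK1 R CS s₁ (1 - 2 * b₁) ρ hR hCS hs₁0 (by linarith) hρ0
    (by rw [hs₁, hρ]; linarith)
  obtain ⟨κ₃, w3, hκ₃, hw3, hw31, hK3⟩ := hK3 R CS b₁ b₂ s s₁ d ρ hR hCS (by linarith) hb12 (by linarith) hs₁0
    (by rw [hs]; linarith) (by rw [hs]; linarith) hd0 hρ0 (by rw [hs, hs₁, hρ]; linarith)
    (by rw [hs₁, hρ]; linarith) (by rw [hs, hs₁, hd, hρ]; linarith) (by rw [hs, hρ]; linarith)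
    (by rw [hs, hs₁, hρ]; linarith)
  set κ := min (min κ₁ κ₃) (1 / 2) with hκ
  have hκ0 : 0 < κ := lt_min (lt_min hκ₁ hκ₃) (by norm_num)
  have hκ1 : κ ≤ κ₁ := (min_le_left _ _).trans (min_le_left _ _)
  have hκ3 : κ ≤ κ₃ := (min_le_left _ _).trans (min_le_right _ _)
  have hκh : κ ≤ 1 / 2 := min_le_right _ _
  obtain ⟨M₀, hM₀, hBd⟩ := stmtBd κ hκ0
  obtain ⟨wa, hwa0, hwa1, hwa⟩ := small CD (1 - d) (by linarith)
  obtain ⟨wb, hwb0, hwb1, hwb⟩ := small (2 * CD * (1 + d / ρ)) (2 * ρ - c) (by rw [hc]; linarith)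
  obtain ⟨wc, hwc0, hwc1, hwc⟩ := small 2 c (by positivity)
  obtain ⟨wd, hwd0, hwd1, hwd⟩ := small 4 (ρ / 2) (by positivity)
  obtain ⟨we, hwe0, hwe1, hwe⟩ := small CS ((1 - κ) / 2000) (by linarith)
  obtain ⟨wf, hwf0, hwf1, hwf⟩ := small M₀ (1 / 2000) (by norm_num)
  obtain ⟨wg, hwg0, hwg1, hwg⟩ := small M₀ ((s - 1 / 4) / 1000) (by rw [hs]; linarith)
  set w₁ := min (min (min (min wS w1) w3) (min wa wb)) (min (min (min wc wd) we) (min wf wg)) with hw₁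
  have hw₁0 : 0 < w₁ := lt_min (lt_min (lt_min (lt_min hwS hw1) hw3) (lt_min hwa0 hwb0))
    (lt_min (lt_min (lt_min hwc0 hwd0) hwe0) (lt_min hwf0 hwg0))
  refine ⟨w₁, hw₁0, ?_, ?_⟩
  · exact ((min_le_left _ _).trans (min_le_left _ _)).trans ((min_le_left _ _).trans ((min_le_left _ _).trans hwS1))
  intro l Φ hE _ w hw hww₁ hbad A hA1 hA2 V hCM
  have jS : w ≤ wS := hww₁.trans (by simp [hw₁])
  have j1 : w ≤ w1 := hww₁.trans (by simp [hw₁])
  have j3 : w ≤ w3 := hww₁.trans (by simp [hw₁])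
  have ja := hwa w hw (hww₁.trans (by simp [hw₁]))
  have jb := hwb w hw (hww₁.trans (by simp [hw₁]))
  have jc := hwc w hw (hww₁.trans (by simp [hw₁]))
  have jd := hwd w hw (hww₁.trans (by simp [hw₁]))
  have je := hwe w hw (hww₁.trans (by simp [hw₁]))
  have jf := hwf w hw (hww₁.trans (by simp [hw₁]))
  have jg := hwg w hw (hww₁.trans (by simp [hw₁]))
  have hw1' : w ≤ 1 := jS.trans hwS1
  have hA0 : 0 < A := lt_of_lt_of_le (Real.rpow_pos_of_pos hw _) hA1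
  by_contra hcon
  rw [not_le] at hcon
  -- the number of cells
  have hA2sq : A ^ 2 ≤ w ^ (2 * (1 - b₂)) := by
    calc A ^ 2 ≤ (w ^ (1 - b₂)) ^ 2 := pow_le_pow_left₀ hA0.le hA2 2
      _ = w ^ (2 * (1 - b₂)) := by rw [← Real.rpow_natCast, ← Real.rpow_mul hw.le]; congr 1; push_cast; ring
  have hA1sq : w ^ (2 * (1 - b₁)) ≤ A ^ 2 := by
    calc w ^ (2 * (1 - b₁)) = (w ^ (1 - b₁)) ^ 2 := by
          rw [← Real.rpow_natCast, ← Real.rpow_mul hw.le]; congr 1; push_cast; ring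
      _ ≤ A ^ 2 := pow_le_pow_left₀ (Real.rpow_nonneg hw.le _) hA1 2
  have hA1c : A ^ 2 ≤ w ^ (1 + c) := hA2sq.trans (Real.rpow_le_rpow_of_exponent_ge hw hw1' (by rw [hc, hρ]; linarith))
  have hAsq : 0 < A ^ 2 := by positivity
  set x : ℝ := w ^ (1 + c) / A ^ 2 with hx
  have hx1 : 1 ≤ x := by rw [hx, le_div_iff₀ hAsq, one_mul]; exact hA1c
  have hxV : x ≤ V.card := by
    rw [hx, div_le_iff₀ hAsq]
    linarith
  obtain ⟨V₁, hV₁V, hV₁c⟩ := Finset.exists_subset_card_eq (s := V) (Nat.ceil_le.2 hxV)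
  have hn1 : x ≤ (V₁.card : ℝ) := by rw [hV₁c]; exact Nat.le_ceil x
  have hn2 : (V₁.card : ℝ) ≤ 2 * x := by
    rw [hV₁c]
    have := (Nat.ceil_lt_add_one (by linarith : (0 : ℝ) ≤ x)).le
    linarith
  have hxlow : w ^ (-1 + 2 * b₂ + c) ≤ x := by
    rw [hx, le_div_iff₀ hAsq]
    calc w ^ (-1 + 2 * b₂ + c) * A ^ 2 ≤ w ^ (-1 + 2 * b₂ + c) * w ^ (2 * (1 - b₂)) :=
          mul_le_mul_of_nonneg_left hA2sq (Real.rpow_nonneg hw.le _)
      _ = w ^ (1 + c) := by rw [← Real.rpow_add hw]; congr 1; ring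
  have hxup : 2 * x ≤ w ^ (-(1 - 2 * b₁)) := by
    have h1 : x ≤ w ^ (c - 1 + 2 * b₁) := by
      rw [hx, div_le_iff₀ hAsq]
      calc w ^ (1 + c) = w ^ (c - 1 + 2 * b₁) * w ^ (2 * (1 - b₁)) := by
            rw [← Real.rpow_add hw]; congr 1; ring
        _ ≤ w ^ (c - 1 + 2 * b₁) * A ^ 2 := mul_le_mul_of_nonneg_left hA1sq (Real.rpow_nonneg hw.le _)
    calc 2 * x ≤ w ^ (-c) * w ^ (c - 1 + 2 * b₁) := mul_le_mul jc h1 (by linarith) (Real.rpow_nonneg hw.le _)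
      _ = w ^ (-(1 - 2 * b₁)) := by rw [← Real.rpow_add hw]; congr 1; ring
  -- cells near short vectors
  set D : ℝ := w ^ (-d) with hD
  have hD1 : 1 ≤ D := Real.one_le_rpow_of_pos_of_le_one_of_nonpos hw hw1' (by linarith)
  have hD0 : 0 < D := by linarith
  set V₂ := V₁.filter (fun z => Dg D w (rp R w z).1) with hV₂
  set V₃ := V₁.filter (fun z => ¬ Dg D w (rp R w z).1) with hV₃
  have hV₂V : V₂ ⊆ V := (Finset.filter_subset _ _).trans hV₁V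
  have hV₃V : V₃ ⊆ V := (Finset.filter_subset _ _).trans hV₁V
  have hV23 : (V₂.card : ℝ) + V₃.card = V₁.card := by
    have := Finset.card_filter_add_card_filter_not (s := V₁) (fun z => Dg D w (rp R w z).1)
    exact_mod_cast this
  have hV₃c : (V₃.card : ℝ) ≤ x / 2 := by
    have h1 := hDz w D hw hw1' hD1 (by
      have h2 : CD * (w * D) ≤ w ^ (-(1 - d)) * w ^ (1 - d) := by
        refine mul_le_mul ja (le_of_eq ?_) (by positivity) (Real.rpow_nonneg hw.le _)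
        rw [hD]
        nth_rewrite 1 [← Real.rpow_one w]
        rw [← Real.rpow_add hw]
        congr 1
      rw [← Real.rpow_add hw, neg_add_cancel, Real.rpow_zero] at h2
      linarith) V₃ (fun z hz => ⟨CM.ne hCM hA0 (hV₃V hz), (Finset.mem_filter.1 hz).2⟩)
    have h3 : 1 + Real.log D ≤ (1 + d / ρ) * w ^ (-ρ) := by
      have h4 := Real.log_le_rpow_div hD0.le (div_pos hρ0 hd0)
      have h5 : D ^ (ρ / d) = w ^ (-ρ) := by
        rw [hD, ← Real.rpow_mul hw.le]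
        congr 1
        field_simp
      rw [h5] at h4
      have h6 : 1 ≤ w ^ (-ρ) := Real.one_le_rpow_of_pos_of_le_one_of_nonpos hw hw1' (by linarith)
      have h7 : w ^ (-ρ) / (ρ / d) = d / ρ * w ^ (-ρ) := by field_simp
      rw [h7] at h4
      linarith
    have h8 : D ^ 3 = w ^ (-(3 * d)) := by
      rw [hD, ← Real.rpow_natCast, ← Real.rpow_mul hw.le]
      congr 1
      push_cast
      ring
    have h9 : 2 * (V₃.card : ℝ) ≤ x := by
      calc 2 * (V₃.card : ℝ) ≤ 2 * (CD * D ^ 3 * (1 + Real.log D)) := by linarith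
        _ ≤ 2 * (CD * D ^ 3 * ((1 + d / ρ) * w ^ (-ρ))) := by gcongr
        _ = (2 * CD * (1 + d / ρ)) * (w ^ (-(3 * d)) * w ^ (-ρ)) := by rw [h8]; ring
        _ ≤ w ^ (-(2 * ρ - c)) * (w ^ (-(3 * d)) * w ^ (-ρ)) :=
          mul_le_mul_of_nonneg_right jb (mul_nonneg (Real.rpow_nonneg hw.le _) (Real.rpow_nonneg hw.le _))
        _ = w ^ (-1 + 2 * b₂ + c) := by
          rw [← Real.rpow_add hw, ← Real.rpow_add hw]
          congr 1
          rw [hd]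
          ring
        _ ≤ x := hxlow
    linarith
  have hV₂c : x ≤ 2 * (V₂.card : ℝ) := by linarith
  -- the primes
  have hbd : ∀ e : ℝ, 1 / 4000 ≤ e → e ≤ 1 / 1000 → M₀ ≤ w ^ (-e) →
      (w ^ (-e)) ^ (1 - κ) ≤ ((Bad l (w ^ (-e))).card : ℝ) ∧ ∀ p ∈ Bad l (w ^ (-e)), |l p| ≤ 1 / 2 := by
    intro e he1 he2 he3
    refine hBd l (w ^ (-e)) he3 (fun h => hbad ⟨w ^ (-e), ?_, ?_, h⟩)
    · exact Real.rpow_le_rpow_of_exponent_ge hw hw1' (by norm_num; linarith)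
    · exact Real.rpow_le_rpow_of_exponent_ge hw hw1' (by linarith)
  obtain ⟨hP1, hP2⟩ := hbd (1 / 2000) (by norm_num) (by norm_num) jf
  have hsr1 : 1 / 4000 ≤ (s - 1 / 4) / 1000 := by rw [hs]; linarith
  have hsr2 : (s - 1 / 4) / 1000 ≤ 1 / 1000 := by rw [hs]; linarith
  obtain ⟨hP3, hP4⟩ := hbd ((s - 1 / 4) / 1000) hsr1 hsr2 jg
  set P := Bad l (w ^ (-(1 / 2000) : ℝ)) with hP
  have hCSP : CS ≤ (P.card : ℝ) := by
    refine je.trans (le_trans (le_of_eq ?_) hP1)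
    rw [← Real.rpow_mul hw.le]
    congr 1
    ring
  obtain ⟨V', D', v, Q1, hV'V₂, hQ1P, hV'c, hQ1c, hV'⟩ := hSel w D hw jS hD1 V₂
    (fun z hz => ⟨CM.ne hCM hA0 (hV₂V hz), (Finset.mem_filter.1 hz).2⟩) P
    (fun p hp => ⟨Pm_prime (Bad_sub _ _ hp), (Pm_gt (Bad_sub _ _ hp)).le⟩) hCSP
  have hV'V : V' ⊆ V := hV'V₂.trans hV₂V
  have hM1 : 1 ≤ w ^ (-(1 / 2000) : ℝ) := Real.one_le_rpow_of_pos_of_le_one_of_nonpos hw hw1' (by norm_num)
  have hM2 : 1 ≤ w ^ (-((s - 1 / 4) / 1000) : ℝ) :=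
    Real.one_le_rpow_of_pos_of_le_one_of_nonpos hw hw1' (by linarith)
  have haa := hK1 l Φ hE w A hw j1 hA0 V' (CM.sub hCM hV'V)
    (by
      have h1 : (V'.card : ℝ) ≤ V₁.card := by
        exact_mod_cast Finset.card_le_card (hV'V₂.trans (Finset.filter_subset _ _))
      linarith) Q1 (hQ1P.trans (Bad_sub _ _))
    (by
      refine le_trans ?_ (hP1.trans hQ1c)
      exact Real.rpow_le_rpow_of_exponent_le hM1 (by linarith)) v D'
    (fun z hz => by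
      obtain ⟨h1, h2⟩ := hV' z hz
      exact ⟨hD1.trans h1, h2⟩)
  refine hK3 l Φ hE w A hw j3 hA1 hA2 V' (CM.sub hCM hV'V) ?_ (fun z hz => (Finset.mem_filter.1 (hV'V₂ hz)).2) Q1
    (Bad l (w ^ (-((s - 1 / 4) / 1000) : ℝ))) (hQ1P.trans (Bad_sub _ _)) (Bad_sub _ _) (fun p hp => hP2 p (hQ1P hp))
    hP4 ?_ ?_ haa
  · -- the mass
    have h1 : x ≤ 4 * (V'.card : ℝ) := by linarith
    have h2 : w ^ (1 + c) = x * A ^ 2 := by rw [hx]; field_simp
    have h3 : 4 * w ^ (1 + ρ) ≤ w ^ (1 + c) := by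
      calc 4 * w ^ (1 + ρ) ≤ w ^ (-(ρ / 2)) * w ^ (1 + ρ) :=
            mul_le_mul_of_nonneg_right jd (Real.rpow_nonneg hw.le _)
        _ = w ^ (1 + c) := by rw [← Real.rpow_add hw]; congr 1; rw [hc]; ring
    have h4 : x * A ^ 2 ≤ 4 * (V'.card : ℝ) * A ^ 2 := mul_le_mul_of_nonneg_right h1 hAsq.le
    linarith
  · refine le_trans ?_ (hP1.trans hQ1c)
    exact Real.rpow_le_rpow_of_exponent_le hM1 (by linarith)
  · refine le_trans ?_ hP3
    exact Real.rpow_le_rpow_of_exponent_le hM2 (by linarith)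

end

end Pool.Agent.A54.HSV
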