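import Pool.Agent.Lib.HS.Bd.V.Spec

/-!
# HS/Bd/V, module U: the level set with large correlation
-/

set_option autoImplicit false

namespace Pool.Agent.A54.HSV

open MeasureTheory Filter Topology Set
open scoped ContDiff ComplexConjugate UpperHalfPlane MatrixGroups ENNReal
open Pool.Agent.A54.Dyn (G fl base ze io mk4 dom)
open Pool.Agent.A54.Av (Mat NonSc)
open Pool.Agent.A54.HS
open Pool.Agent.A54.Hp Pool.Agent.A54.Hp.Hk Pool.Agent.A54.Hp.A2M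

noncomputable section

namespace UM

lemma amgm {α : Type*} [MeasurableSpace α] (μ : Measure α) {f g : α → ℝ≥0∞} (hf : Measurable f)
    (hg : Measurable g) {S : ℝ} (hS : 0 ≤ S) (hf2 : ∫⁻ x, f x ^ 2 ∂μ ≤ 2)
    (hg2 : ∫⁻ x, g x ^ 2 ∂μ ≤ ENNReal.ofReal (2 * S)) :
    ∫⁻ x, f x * g x ∂μ ≤ ENNReal.ofReal (S + 1) := by
  have m1 : Measurable fun x => f x ^ 2 := hf.pow_const 2
  have m2 : Measurable fun x => f x ^ 2 + g x ^ 2 := m1.add (hg.pow_const 2)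
  calc ∫⁻ x, f x * g x ∂μ ≤ ∫⁻ x, 2⁻¹ * (f x ^ 2 + g x ^ 2) ∂μ := lintegral_mono fun x => two_mul_le' _ _
    _ = 2⁻¹ * (∫⁻ x, f x ^ 2 ∂μ + ∫⁻ x, g x ^ 2 ∂μ) := by
        rw [lintegral_const_mul _ m2, lintegral_add_left m1]
    _ ≤ 2⁻¹ * (2 + ENNReal.ofReal (2 * S)) := by gcongr
    _ = ENNReal.ofReal (S + 1) := by
        rw [mul_add, ENNReal.inv_mul_cancel (by norm_num) (by norm_num), ENNReal.ofReal_mul (by norm_num),
          ENNReal.ofReal_ofNat, ← mul_assoc, ENNReal.inv_mul_cancel (by norm_num) (by norm_num), one_mul,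
          ENNReal.ofReal_add hS zero_le_one, ENNReal.ofReal_one, add_comm]

/-- the estimates for the level set `W0` and its heavy part `W` -/
lemma core {α : Type*} [MeasurableSpace α] (μ : Measure α) {f g : α → ℝ≥0∞} (hf : Measurable f)
    (hg : Measurable g) {W0 W : Set α} (hW0 : MeasurableSet W0) (hW : MeasurableSet W) (hWW : W ⊆ W0)
    {a S T Λ : ℝ} (ha : 0 < a) (hS : 0 ≤ S) (hT : 0 < T) (hΛ : 1 ≤ Λ)
    (h0 : ∀ x ∈ W0, ENNReal.ofReal a * f x ≤ g x ∧ g x ≤ ENNReal.ofReal (2 * a) * f x)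
    (hf2 : ∫⁻ x, f x ^ 2 ∂μ ≤ 2) (hg2 : ∫⁻ x, g x ^ 2 ∂μ ≤ ENNReal.ofReal (2 * S))
    (h1 : ENNReal.ofReal T ≤ ENNReal.ofReal (8 * Λ) * ∫⁻ x in W0, f x * g x ∂μ)
    (h2 : ∫⁻ x in W0 \ W, f x * g x ∂μ ≤ ENNReal.ofReal (T / (16 * Λ))) :
    ∃ m₀ m₁ : ℝ, 0 < m₁ ∧ ∫⁻ x in W0, f x ^ 2 ∂μ = ENNReal.ofReal m₀ ∧
      ∫⁻ x in W, f x ^ 2 ∂μ = ENNReal.ofReal m₁ ∧ m₀ ≤ 4 * m₁ ∧ m₁ ≤ 2 ∧ T ≤ 32 * Λ * (a * m₁) ∧
      T ^ 2 ≤ 512 * Λ ^ 2 * (S * m₁) := by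
  have hfin := amgm μ hf hg hS hf2 hg2
  have mfg : Measurable fun x => f x * g x := hf.mul hg
  have mf2 : Measurable fun x => f x ^ 2 := hf.pow_const 2
  -- finiteness
  have k0 : ∫⁻ x in W0, f x * g x ∂μ ≠ ⊤ :=
    ((setLIntegral_le_lintegral _ _).trans hfin).trans_lt ENNReal.ofReal_lt_top |>.ne
  have k1 : ∫⁻ x in W, f x * g x ∂μ ≠ ⊤ :=
    ((setLIntegral_le_lintegral _ _).trans hfin).trans_lt ENNReal.ofReal_lt_top |>.ne
  have k2 : ∫⁻ x in W0, f x ^ 2 ∂μ ≠ ⊤ :=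
    ((setLIntegral_le_lintegral _ _).trans hf2).trans_lt (by norm_num) |>.ne
  have k3' : ∫⁻ x in W, f x ^ 2 ∂μ ≤ 2 := (setLIntegral_le_lintegral _ _).trans hf2
  have k3 : ∫⁻ x in W, f x ^ 2 ∂μ ≠ ⊤ := k3'.trans_lt (by norm_num) |>.ne
  set t := (∫⁻ x in W0, f x * g x ∂μ).toReal with ht
  set p := (∫⁻ x in W, f x * g x ∂μ).toReal with hp
  set m₀ := (∫⁻ x in W0, f x ^ 2 ∂μ).toReal with hm0
  set m₁ := (∫⁻ x in W, f x ^ 2 ∂μ).toReal with hm1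
  have e0 : ∫⁻ x in W0, f x * g x ∂μ = ENNReal.ofReal t := (ENNReal.ofReal_toReal k0).symm
  have e1 : ∫⁻ x in W, f x * g x ∂μ = ENNReal.ofReal p := (ENNReal.ofReal_toReal k1).symm
  have e2 : ∫⁻ x in W0, f x ^ 2 ∂μ = ENNReal.ofReal m₀ := (ENNReal.ofReal_toReal k2).symm
  have e3 : ∫⁻ x in W, f x ^ 2 ∂μ = ENNReal.ofReal m₁ := (ENNReal.ofReal_toReal k3).symm
  have t0 : 0 ≤ t := ENNReal.toReal_nonneg
  have p0 : 0 ≤ p := ENNReal.toReal_nonneg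
  have m00 : 0 ≤ m₀ := ENNReal.toReal_nonneg
  have m10 : 0 ≤ m₁ := ENNReal.toReal_nonneg
  have hΛ0 : 0 < Λ := by linarith
  -- real inequalities
  have r1 : T ≤ 8 * Λ * t := by
    rw [e0, ← ENNReal.ofReal_mul (by positivity)] at h1
    exact (ENNReal.ofReal_le_ofReal_iff (by positivity)).1 h1
  have r2 : t ≤ p + T / (16 * Λ) := by
    have h3 : ∫⁻ x in W0, f x * g x ∂μ ≤ ∫⁻ x in W, f x * g x ∂μ + ∫⁻ x in W0 \ W, f x * g x ∂μ := by
      refine (lintegral_mono_set (t := W ∪ (W0 \ W)) ?_).trans (lintegral_union_le _ _ _)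
      intro x hx
      by_cases h : x ∈ W
      · exact Or.inl h
      · exact Or.inr ⟨hx, h⟩
    have h4 := h3.trans (add_le_add le_rfl h2)
    rw [e0, e1, ← ENNReal.ofReal_add p0 (by positivity)] at h4
    exact (ENNReal.ofReal_le_ofReal_iff (by positivity)).1 h4
  have r3 : a * m₀ ≤ t := by
    have h3 : ENNReal.ofReal a * ∫⁻ x in W0, f x ^ 2 ∂μ ≤ ∫⁻ x in W0, f x * g x ∂μ := by
      rw [← lintegral_const_mul _ mf2]
      refine setLIntegral_mono' hW0 fun x hx => ?_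
      calc ENNReal.ofReal a * f x ^ 2 = f x * (ENNReal.ofReal a * f x) := by ring
        _ ≤ f x * g x := by gcongr; exact (h0 x hx).1
    rw [e0, e2, ← ENNReal.ofReal_mul ha.le] at h3
    exact (ENNReal.ofReal_le_ofReal_iff t0).1 h3
  have r4 : p ≤ 2 * a * m₁ := by
    have h3 : ∫⁻ x in W, f x * g x ∂μ ≤ ENNReal.ofReal (2 * a) * ∫⁻ x in W, f x ^ 2 ∂μ := by
      rw [← lintegral_const_mul _ mf2]
      refine setLIntegral_mono' hW fun x hx => ?_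
      calc f x * g x ≤ f x * (ENNReal.ofReal (2 * a) * f x) := by gcongr; exact (h0 x (hWW hx)).2
        _ = ENNReal.ofReal (2 * a) * f x ^ 2 := by ring
    rw [e1, e3, ← ENNReal.ofReal_mul (by positivity)] at h3
    exact (ENNReal.ofReal_le_ofReal_iff (by positivity)).1 h3
  have r5 : p ^ 2 ≤ m₁ * (2 * S) := by
    have h3 := AIkM.cs (μ.restrict W) f g hf hg
    have h4 := h3.trans (mul_le_mul_right (setLIntegral_le_lintegral W _ |>.trans hg2) _)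
    rw [e1, e3, ← ENNReal.ofReal_mul m10, ← ENNReal.ofReal_pow p0] at h4
    exact (ENNReal.ofReal_le_ofReal_iff (by positivity)).1 h4
  -- conclusions
  have r6 : T / (16 * Λ) ≤ t / 2 := by
    rw [div_le_div_iff₀ (by positivity) (by norm_num)]
    nlinarith
  have r7 : t ≤ 2 * p := by linarith
  have r8 : T ≤ 16 * Λ * p := by
    refine r1.trans ?_
    nlinarith
  have r9 : T ≤ 32 * Λ * (a * m₁) := by
    refine r8.trans ?_
    nlinarith
  refine ⟨m₀, m₁, ?_, e2, e3, ?_, ?_, r9, ?_⟩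
  · by_contra h
    have h5 : m₁ = 0 := le_antisymm (not_lt.1 h) m10
    rw [h5] at r9
    linarith [show 32 * Λ * (a * 0) = 0 by ring]
  · have h5 : a * m₀ ≤ a * (4 * m₁) := by nlinarith
    exact le_of_mul_le_mul_left h5 ha
  · rw [hm1]
    exact ENNReal.toReal_le_of_le_ofReal (by norm_num) (k3'.trans (by simp))
  · calc T ^ 2 ≤ (16 * Λ * p) ^ 2 := by gcongr
      _ = 256 * Λ ^ 2 * p ^ 2 := by ring
      _ ≤ 256 * Λ ^ 2 * (m₁ * (2 * S)) := by gcongr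
      _ = 512 * Λ ^ 2 * (S * m₁) := by ring

lemma meas_Ws {Φ : G → ℂ} (hΦ : Continuous Φ) {F : G → ℝ≥0∞} (hF : Measurable F) (g : ℝ) :
    MeasurableSet (Ws Φ F g) := by
  have h1 : Measurable fun y => ‖Φ y‖ₑ := hΦ.measurable.enorm
  exact (measurableSet_le (h1.const_mul _) hF).inter (measurableSet_lt hF (h1.const_mul _))

lemma inv_Ws {Φ : G → ℂ} (hΦ : ∀ (γ : SL(2, ℤ)) (g : G), Φ (io γ * g) = Φ g) {F : G → ℝ≥0∞}
    (hF : ∀ (γ : SL(2, ℤ)) (g : G), F (io γ * g) = F g) (g : ℝ) : LInv (Ws Φ F g) := by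
  intro γ y
  unfold Ws
  simp only [mem_ofPred_eq, hΦ, hF]

end UM

theorem tU : V_Tk → V_G2 → V_Pig → V_Inv → V_Hv → V_Lt → V_Lev → V_U := by
  intro hTk hG2 hPig hInv hHv hLt _hLev k R C₀ hk hR hC₀
  obtain ⟨C₁, hC₁, hTk'⟩ := hTk k R hk hR
  set C : ℝ := 2048 * 64 ^ k * C₁ ^ 2 with hC
  have h64 : (1 : ℝ) ≤ 64 ^ k := one_le_pow₀ (by norm_num)
  have hCC : C₁ ^ 2 ≤ 64 ^ k * C₁ ^ 2 := le_mul_of_one_le_left (by positivity) h64
  have hC1 : C₁ ≤ C₁ ^ 2 := by nlinarith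
  have hC2 : 2048 * C₁ ^ 2 ≤ C := by rw [hC]; linarith
  have hC0 : 1 ≤ C := by nlinarith
  refine ⟨C, hC0, ?_⟩
  intro l Φ hE w A M S hw hw1 hA hM hS hCT V hV hCM Q hQ hl hQC haa
  have hprime : ∀ p ∈ Q, p.Prime := fun p hp => (Finset.mem_filter.1 (hQ hp)).2
  set F : G → ℝ≥0∞ := AIkM.ff Φ (celU R w V) with hF
  set H : G → ℝ≥0∞ := El Q k F with hH
  set B : ℝ := (Q.card : ℝ) ^ k * A * V.card with hB
  have hq0 : (0 : ℝ) < Q.card := by linarith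
  have hN0 : (0 : ℝ) < V.card := by exact_mod_cast hV.card_pos
  have hB0 : 0 < B := by positivity
  have mΦ : Measurable fun y => ‖Φ y‖ₑ := hE.cont.measurable.enorm
  have mF : Measurable F := AIkM.ff_meas hE.cont (meas_celU R w V)
  have mH : Measurable H := meas_El Q k mF
  -- the first moment
  set T : ℝ := B / C₁ with hT
  have hT0 : 0 < T := by positivity
  have s1 : ENNReal.ofReal T ≤ ∫⁻ x, ‖Φ x‖ₑ * H x ∂(nu.restrict FF) := by
    have h1 := hTk' l Φ hE (celU R w V) (meas_celU R w V) (celU_sub R w V) M hM Q hQ hl (by linarith)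
    have h2 : ENNReal.ofReal (A * V.card) ≤ ms Φ (celU R w V) := by
      rw [ms_celU, ENNReal.ofReal_mul hA.le, ENNReal.ofReal_natCast, mul_comm, ← nsmul_eq_mul]
      exact Finset.card_nsmul_le_sum _ _ _ fun z hz => (hCM z hz).1
    have h3 : ENNReal.ofReal B ≤ ENNReal.ofReal C₁ * ∫⁻ x, ‖Φ x‖ₑ * H x ∂(nu.restrict FF) := by
      have e1 : ENNReal.ofReal B = (Q.card : ℝ≥0∞) ^ k * ENNReal.ofReal (A * V.card) := by
        rw [hB, mul_assoc, ENNReal.ofReal_mul (by positivity), ENNReal.ofReal_pow hq0.le, ENNReal.ofReal_natCast]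
      have e3 : ∫⁻ x, ‖Φ x‖ₑ * H x ∂(nu.restrict FF) =
          ∫⁻ y in FF, El Q k (AIkM.ff Φ (celU R w V)) y * ‖Φ y‖ₑ ∂nu := lintegral_congr fun x => mul_comm _ _
      rw [e1, e3]
      exact (mul_le_mul_right h2 _).trans h1
    have e2 : ENNReal.ofReal B = ENNReal.ofReal C₁ * ENNReal.ofReal T := by
      rw [← ENNReal.ofReal_mul (by positivity), hT, mul_div_cancel₀]
      positivity
    rw [e2] at h3
    exact (ENNReal.mul_le_mul_iff_right (by simpa using (by linarith : (0 : ℝ) < C₁)) ENNReal.ofReal_ne_top).1 h3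
  have s2 : ∫⁻ x, H x ^ 2 ∂(nu.restrict FF) ≤ ENNReal.ofReal (2 * S) := by
    refine (hG2 Q hprime k F mF).trans ?_
    rw [ENNReal.ofReal_mul (by norm_num), ENNReal.ofReal_ofNat]
    gcongr
  have s3 : ∫⁻ x, ‖Φ x‖ₑ ^ 2 ∂(nu.restrict FF) ≤ 2 := hE.norm
  have s4 : T ≤ S + 1 := by
    have h1 := s1.trans (UM.amgm (nu.restrict FF) mΦ mH hS s3 s2)
    exact (ENNReal.ofReal_le_ofReal_iff (by positivity)).1 h1
  obtain ⟨i, hi⟩ := hPig (nu.restrict FF) (fun x => ‖Φ x‖ₑ) H mΦ mH (2 * S) T (by positivity) hT0 s3 s2 s1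
  set g : ℝ := (2 : ℝ) ^ i with hg
  have hg0 : 0 < g := by positivity
  set Λ : ℝ := 1 + Real.log (2 * (2 * S + 2) / T) with hΛ
  have hΛ1 : 1 ≤ Λ := by
    rw [hΛ]
    have : 0 ≤ Real.log (2 * (2 * S + 2) / T) := by
      refine Real.log_nonneg ?_
      rw [le_div_iff₀ hT0]
      linarith
    linarith
  have hΛ0 : 0 < Λ := by linarith
  have hΛ2 : Λ ≤ 1 + Real.log (C * (S + 1) / B) := by
    rw [hΛ]
    have : Real.log (2 * (2 * S + 2) / T) ≤ Real.log (C * (S + 1) / B) := by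
      refine Real.log_le_log (by positivity) ?_
      rw [hT, div_div_eq_mul_div]
      gcongr ?_ / B
      nlinarith
    linarith
  set W0 : Set G := Ws Φ H g with hW0
  have mW0 : MeasurableSet W0 := UM.meas_Ws hE.cont mH g
  have iW0 : LInv W0 := UM.inv_Ws hE.inv (fun γ y => hInv.1 Q k F γ y) g
  set δ : ℝ := A / (C * Λ ^ 2 * M ^ (2 * k)) with hδ
  have hδ0 : 0 ≤ δ := by positivity
  set W : Set G := Hv Φ W0 C₀ w δ with hW
  have mW : MeasurableSet W := (hHv Φ hE.cont hE.inv W0 mW0 iW0 C₀ w δ).1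
  have hWW : W ⊆ W0 := fun y hy => hy.1
  have hres : ∀ X : Set G, MeasurableSet X → nu.restrict (FF ∩ X) = (nu.restrict FF).restrict X := by
    intro X hX
    rw [Measure.restrict_restrict hX, inter_comm]
  -- the light part
  have s5 : ∫⁻ x in W0 \ W, ‖Φ x‖ₑ * H x ∂(nu.restrict FF) ≤ ENNReal.ofReal (T / (16 * Λ)) := by
    have h1 := hLt l Φ hE k R w C₀ A δ M hw hw1 hC₀ hA.le hδ0 hM hCT V (fun z hz => (hCM z hz).2) Q hQ W0 mW0 iW0
    rw [← hW, hres _ (mW0.diff mW)] at h1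
    have h2 : ∫⁻ x in W0 \ W, ‖Φ x‖ₑ * H x ∂(nu.restrict FF) =
        ∫⁻ y in W0 \ W, El Q k (AIkM.ff Φ (celU R w V)) y * ‖Φ y‖ₑ ∂(nu.restrict FF) :=
      lintegral_congr fun x => mul_comm _ _
    rw [h2]
    refine h1.trans (ENNReal.ofReal_le_ofReal ?_)
    -- the constant
    have hM0 : 0 < M := by linarith
    have e1 : √(2 * A * δ) ≤ A / (32 * 8 ^ k * C₁ * Λ * M ^ k) := by
      rw [Real.sqrt_le_left (by positivity), hδ, div_pow, ← mul_div_assoc, div_le_div_iff₀ (by positivity) (by positivity)]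
      have e2 : C * Λ ^ 2 * M ^ (2 * k) = 2 * (32 * 8 ^ k * C₁ * Λ * M ^ k) ^ 2 := by
        rw [hC, show (64 : ℝ) = 8 ^ 2 by norm_num, ← pow_mul, mul_pow, mul_pow, mul_pow, mul_pow, ← pow_mul, ← pow_mul,
          mul_comm k 2]
        ring
      rw [e2]
      apply le_of_eq
      ring
    calc 2 * 4 ^ k * (2 * M) ^ k * (Q.card : ℝ) ^ k * (V.card : ℝ) * √(2 * A * δ)
        ≤ 2 * 4 ^ k * (2 * M) ^ k * (Q.card : ℝ) ^ k * (V.card : ℝ) * (A / (32 * 8 ^ k * C₁ * Λ * M ^ k)) := by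
          gcongr
      _ = T / (16 * Λ) := by
          rw [hT, hB, mul_pow, show (8 : ℝ) = 4 * 2 by norm_num, mul_pow]
          field_simp
          norm_num
  obtain ⟨m₀, m₁, c1, c2, c3, c4, c5, c6, c7⟩ := UM.core (nu.restrict FF) mΦ mH mW0 mW hWW hg0 hS hT0 hΛ1
    (fun x hx => ⟨hx.1, hx.2.le⟩) s3 s2 hi s5
  refine ⟨g, Λ, m₀, m₁, hg0, hΛ1, c1, hΛ2, ?_, ?_, c4, c5, ?_, ?_⟩
  · unfold ms
    rw [hres _ mW0]
    exact c2
  · unfold ms
    rw [hres _ mW]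
    exact c3
  · have e1 : B = C₁ * T := by rw [hT]; field_simp
    rw [e1]
    have h1 : 32 * C₁ ≤ C := by nlinarith
    calc C₁ * T ≤ C₁ * (32 * Λ * (g * m₁)) := by gcongr
      _ = 32 * C₁ * (Λ * (g * m₁)) := by ring
      _ ≤ C * (Λ * (g * m₁)) := by gcongr
      _ = C * Λ * (g * m₁) := by ring
  · have e1 : B = C₁ * T := by rw [hT]; field_simp
    rw [e1, mul_pow]
    have h1 : 512 * C₁ ^ 2 ≤ C := by nlinarith
    calc C₁ ^ 2 * T ^ 2 ≤ C₁ ^ 2 * (512 * Λ ^ 2 * (S * m₁)) := by gcongr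
      _ = 512 * C₁ ^ 2 * (Λ ^ 2 * (S * m₁)) := by ring
      _ ≤ C * (Λ ^ 2 * (S * m₁)) := by gcongr
      _ = C * Λ ^ 2 * (S * m₁) := by ring

end

end Pool.Agent.A54.HSV
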