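import Pool.Agent.Lib.HS.Bd.V.Spec
import Pool.Agent.Lib.MP_a54f13_nt.Hp.Nm

/-!
# HS/Bd/V, module `Y`: the fan

The greedy classes (`V_Gre`) applied to the points `nm r * rp R w z`; the matrices `γ r` are pairwise
inequivalent returns from the frame of `z` to the frames of the chosen points.
-/

set_option autoImplicit false

namespace Pool.Agent.A54.HSV

open MeasureTheory Filter Topology Set
open scoped ContDiff ComplexConjugate UpperHalfPlane MatrixGroups ENNReal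
open Pool.Agent.A54.Dyn (G fl base ze io mk4 dom)
open Pool.Agent.A54.Av (Mat NonSc)
open Pool.Agent.A54.HS
open Pool.Agent.A54.Hp Pool.Agent.A54.Hp.Hk Pool.Agent.A54.Hp.A2M

namespace YM

lemma PD_mul_left {ℓ : ℕ} (g s : Mat) (h : PD ℓ s) : PD ℓ (g * s) := by
  intro i j
  rw [Matrix.mul_apply]
  exact Finset.dvd_sum fun k _ => Dvd.dvd.mul_left (h k j) _

lemma inv_mul_self (γ : SL(2, ℤ)) (s : Mat) : ((γ⁻¹ : SL(2, ℤ)) : Mat) * ((γ : Mat) * s) = s := by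
  rw [← Matrix.mul_assoc, ← Matrix.SpecialLinearGroup.coe_mul, inv_mul_cancel,
    Matrix.SpecialLinearGroup.coe_one, Matrix.one_mul]

/-- primitive matrices stay primitive under `SL(2, ℤ)` -/
lemma prim_mul (γ : SL(2, ℤ)) (s : Mat) (h : Pr s) : HSL.Prim ((γ : Mat) * s) := by
  intro d hd
  by_contra hu
  have h1 : d.natAbs ≠ 1 := fun h => hu (Int.isUnit_iff_natAbs_eq.mpr h)
  obtain ⟨ℓ, hℓ, hℓd⟩ := Nat.exists_prime_and_dvd h1
  refine h ℓ hℓ ?_
  have h2 : PD ℓ ((γ : Mat) * s) := by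
    intro i j
    refine dvd_trans ?_ (hd i j)
    exact Int.natCast_dvd.mpr hℓd
  have h3 := PD_mul_left ((γ⁻¹ : SL(2, ℤ)) : Mat) _ h2
  rwa [inv_mul_self] at h3

/-- two representatives (of positive levels) which differ by a matrix of determinant one are equal -/
lemma rep_eq (hHer : V_Her) {m m' : ℕ} (hm : 0 < m) (hm' : 0 < m') {r r' : Mat} (hr : r ∈ RepN m)
    (hr' : r' ∈ RepN m') {g : Mat} (hg : g.det = 1) (h : r' = g * r) : r' = r := by
  obtain ⟨-, d1, -⟩ := (hHer m hm).1 r hr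
  obtain ⟨-, d2, -⟩ := (hHer m' hm').1 r' hr'
  have h1 : r'.det = r.det := by rw [h, Matrix.det_mul, hg, one_mul]
  rw [d1, d2] at h1
  have h2 : m' * m' = m * m := by exact_mod_cast h1
  have h3 : m' = m := by nlinarith
  subst h3
  exact (hHer m' hm).2.2.1 r hr r' hr' g hg h

end YM

open YM

/-- **Y**: the fan -/
theorem tY (hGre : V_Gre) (hBx : V_Bx) (hHer : V_Her) (_hLev : V_Lev) : V_Y := by
  obtain ⟨-, b2, b3, b4, -, b6, b7, b8, -⟩ := hBx
  obtain ⟨n1, n2, -, -, -⟩ := stmtNm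
  intro C₀ hC₀
  have hC₀0 : 0 < C₀ := by linarith
  have hCG : 1 ≤ 4 * C₀ ^ 2 := by nlinarith
  obtain ⟨C', cG, hC', hcG, hG⟩ := hGre (4 * C₀ ^ 2) hCG
  set CG : ℝ := 4 * C₀ ^ 2 with hCGd
  refine ⟨max C' (2 * CG * CG), cG / CG, le_trans hC' (le_max_left _ _),
    div_pos hcG (by linarith), ?_⟩
  intro Φ hΦ hinv w R R' α m₀ Lm ρ hw hw1 hR' hsm hα hm₀ hCT W0 hW0 hL0 hht hms L hL z H hH
  have hCG0 : 0 < CG := by linarith
  -- the points
  set a : G := rp R w z with ha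
  -- heights
  have hheight : ∀ r ∈ H, ∃ γ : SL(2, ℤ), io γ * (nm r * a) ∈ Om (2 * R' * C₀) := by
    intro r hr
    obtain ⟨m, hm, hrm, ⟨x, hx, hxW⟩, -⟩ := hH r hr
    obtain ⟨γ, hγ⟩ := hht _ hxW
    have hne : (cel R w z).Nonempty := ⟨x, hx⟩
    have ha' : a ∈ cel R w z := by
      rw [ha]
      unfold Pool.Agent.A54.HS.rp
      rw [dif_pos hne]
      exact hne.some_mem
    have h1 : a ∈ tb C₀ w x := hCT z x hx a ha'
    refine ⟨γ, ?_⟩
    have h2 : io γ * (nm r * a) ∈ tb C₀ w (io γ * (nm r * x)) := by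
      rw [b4, b4]
      exact h1
    exact b6 C₀ w R' _ _ hw.le hw1 hC₀ hR' hγ h2
  have hR2 : 1 ≤ 2 * R' * C₀ := by nlinarith
  have hsm2 : w * (2 * R' * C₀) ^ 2 ≤ cG := by
    have h1 : w * (2 * R' * C₀) ^ 2 = w * R' ^ 2 * CG := by rw [hCGd]; ring
    rw [h1]
    exact (le_div_iff₀ hCG0).mp hsm
  obtain ⟨Y, hYH, hY1, hY2⟩ := hG w (2 * R' * C₀) hw hw1 hR2 hsm2 Φ hΦ hinv W0 hW0 hL0 H
    (fun r => nm r * a) hheight
  -- the returns
  have key : ∀ r ∈ H, ∃ (m : ℕ) (j : Mat) (γ : SL(2, ℤ)), m ∈ L ∧ r ∈ RepN m ∧ j ∈ Y ∧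
      nm ((γ : Mat) * r) * a ∈ tb (max C' (2 * CG * CG)) w (nm j * a) := by
    intro r hr
    obtain ⟨m, hm, hrm, -, -⟩ := hH r hr
    obtain ⟨j, hj, γ, u, hu1, hu2⟩ := hY1 r hr
    refine ⟨m, j, γ, hm, hrm, hj, ?_⟩
    have hdet : 0 < r.det := by
      rw [((hHer m (hL m hm).1).1 r hrm).2.1]
      have : (0 : ℤ) < (m : ℤ) := by exact_mod_cast (hL m hm).1
      positivity
    have e1 : nm ((γ : Mat) * r) * a = io γ * (nm r * a) := by
      rw [n1 _ _ (by rw [γ.det_coe]; exact one_pos) hdet, n2, mul_assoc]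
    rw [e1]
    have h1 : nm r * a ∈ tb CG w u := b2 _ _ _ _ hu1
    have h2 : io γ * (nm r * a) ∈ tb CG w (io γ * u) := (b4 _ _ _ _ _).mpr h1
    have h3 := b3 CG CG w _ _ _ hw.le hw1 hCG hCG hu2 h2
    exact b8 _ _ _ _ (le_max_right _ _) hw.le h3
  choose! mm jj γγ hk1 hk2 hk3 hk4 using key
  classical
  let f : Mat → Mat × HSL.MZ := fun r => (jj r, ((γγ r : SL(2, ℤ)) : Mat) * r)
  -- inequivalence
  have hineq : ∀ r ∈ H, ∀ r' ∈ H, ∀ g : Mat, g.det = 1 → (f r').2 = g * (f r).2 → r' = r := by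
    intro r hr r' hr' g hg h
    have h1 : r' = (((γγ r')⁻¹ : SL(2, ℤ)) : Mat) * (g * (((γγ r : SL(2, ℤ)) : Mat) * r)) := by
      have h2 : ((γγ r' : SL(2, ℤ)) : Mat) * r' = g * (((γγ r : SL(2, ℤ)) : Mat) * r) := h
      rw [← h2, inv_mul_self]
    have h3 : r' = ((((γγ r')⁻¹ : SL(2, ℤ)) : Mat) * (g * ((γγ r : SL(2, ℤ)) : Mat))) * r := by
      rw [Matrix.mul_assoc, Matrix.mul_assoc]
      exact h1
    refine rep_eq hHer (hL _ (hk1 r hr)).1 (hL _ (hk1 r' hr')).1 (hk2 r hr) (hk2 r' hr') ?_ h3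
    rw [Matrix.det_mul, Matrix.det_mul, hg, Matrix.SpecialLinearGroup.det_coe,
      Matrix.SpecialLinearGroup.det_coe]
    norm_num
  have hinj : Set.InjOn f (H : Set Mat) := by
    intro r hr r' hr' h
    refine (hineq r hr r' hr' 1 Matrix.det_one ?_).symm
    rw [Matrix.one_mul, h]
  refine ⟨Y, H.image f, ?_, Finset.card_image_of_injOn hinj, ?_, ?_, ?_⟩
  · -- the number of the frames
    have h1 : (Y.card : ℝ≥0∞) * ENNReal.ofReal α ≤ ENNReal.ofReal C' * ENNReal.ofReal m₀ := by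
      rw [← hms]
      refine le_trans ?_ hY2
      rw [← nsmul_eq_mul]
      refine Finset.card_nsmul_le_sum _ _ _ fun j hj => ?_
      obtain ⟨m, -, -, -, h⟩ := hH j (hYH hj)
      exact h
    have h2 : ENNReal.ofReal ((Y.card : ℝ) * α) ≤ ENNReal.ofReal (C' * m₀) := by
      rw [ENNReal.ofReal_mul (Nat.cast_nonneg _), ENNReal.ofReal_natCast,
        ENNReal.ofReal_mul (by linarith)]
      exact h1
    have h3 : (Y.card : ℝ) * α ≤ C' * m₀ :=
      (ENNReal.ofReal_le_ofReal_iff (mul_nonneg (by linarith) hm₀)).mp h2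
    exact h3.trans (mul_le_mul_of_nonneg_right (le_max_left _ _) hm₀)
  · intro t ht
    obtain ⟨r, hr, rfl⟩ := Finset.mem_image.mp ht
    exact hk3 r hr
  · intro t ht
    obtain ⟨r, hr, rfl⟩ := Finset.mem_image.mp ht
    obtain ⟨hm0, hmL, hmρ⟩ := hL _ (hk1 r hr)
    obtain ⟨hp, hd, -⟩ := (hHer (mm r) hm0).1 r (hk2 r hr)
    refine ⟨prim_mul _ _ hp, (nm (jj r) * a).2, mm r, ?_, hmL, hmρ⟩
    refine b7 _ _ _ _ _ _ hm0 ?_ (hk4 r hr)
    rw [Matrix.det_mul, Matrix.SpecialLinearGroup.det_coe, one_mul, hd, sq]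
  · intro t ht t' ht' g hg h
    obtain ⟨r, hr, rfl⟩ := Finset.mem_image.mp ht
    obtain ⟨r', hr', rfl⟩ := Finset.mem_image.mp ht'
    rw [hineq r hr r' hr' g hg h]

end Pool.Agent.A54.HSV
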